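import Mathlib

set_option autoImplicit false

/-!
Normalised real-rooted polynomials with nonnegative coefficients as products of the linear
factors `s X + (1 - s)` with `0 ≤ s ≤ 1`.
-/

namespace Pool.Agent.Lib.MP_7a4764_an

open Polynomial

/-- The normalised linear factor. -/
noncomputable def L (s : ℝ) : ℝ[X] := C s * X + C (1 - s)

@[simp] theorem eval_L (s x : ℝ) : (L s).eval x = s * x + (1 - s) := by simp [L]

theorem natDegree_L_le (s : ℝ) : (L s).natDegree ≤ 1 := by
  unfold L; compute_degree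

@[simp] theorem L_zero : L 0 = 1 := by simp [L]

@[simp] theorem L_one : L 1 = X := by simp [L]

theorem L_eq {s : ℝ} (hs : s ≠ 0) : L s = C s * (X + C ((1 - s) / s)) := by
  rw [mul_add, ← C_mul, mul_div_cancel₀ _ hs, L]

theorem X_add_C_eq {r : ℝ} (hr : 0 ≤ r) : X + C r = C (1 + r) * L (1 / (1 + r)) := by
  have h : (1 + r) ≠ 0 := by positivity
  rw [L, mul_add, ← mul_assoc, ← C_mul, ← C_mul]
  congr 1
  · rw [mul_one_div_cancel h]; simp
  · congr 1; field_simp; ring

/-- The product of the normalised factors. -/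
noncomputable def P (S : Multiset ℝ) : ℝ[X] := (S.map L).prod

@[simp] theorem P_zero : P 0 = 1 := by simp [P]

@[simp] theorem P_cons (s : ℝ) (S : Multiset ℝ) : P (s ::ₘ S) = L s * P S := by simp [P]

theorem P_add (S R : Multiset ℝ) : P (S + R) = P S * P R := by simp [P]

theorem P_replicate (k : ℕ) (s : ℝ) : P (Multiset.replicate k s) = L s ^ k := by simp [P]

theorem eval_one_P (S : Multiset ℝ) : (P S).eval 1 = 1 := by
  induction S using Multiset.induction_on with
  | empty => simp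
  | cons s S ih => simp [ih]

theorem P_ne_zero (S : Multiset ℝ) : P S ≠ 0 := by
  intro h
  have := eval_one_P S
  rw [h] at this
  simp at this

theorem natDegree_P_le (S : Multiset ℝ) : (P S).natDegree ≤ S.card := by
  induction S using Multiset.induction_on with
  | empty => simp
  | cons s S ih =>
    rw [P_cons, Multiset.card_cons]
    have := natDegree_L_le s
    exact natDegree_mul_le.trans (by omega)

/-- Normalised elements of degree at most `n`. -/
def D (n : ℕ) (g : ℝ[X]) : Prop :=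
  ∃ S : Multiset ℝ, S.card = n ∧ (∀ s ∈ S, 0 ≤ s ∧ s ≤ 1) ∧ g = P S

theorem D_iff {n : ℕ} {g : ℝ[X]} :
    D n g ↔ ∃ s : Fin n → ℝ, s ∈ Set.Icc (0 : Fin n → ℝ) 1 ∧ g = ∏ i, L (s i) := by
  constructor
  · rintro ⟨S, rfl, hS, rfl⟩
    induction S using Quotient.inductionOn with
    | h l =>
      refine ⟨fun i => l.get i, ⟨fun i => (hS _ (List.get_mem l i)).1,
        fun i => (hS _ (List.get_mem l i)).2⟩, ?_⟩
      change ((l.map L : List ℝ[X]) : Multiset ℝ[X]).prod = _
      rw [Multiset.prod_coe]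
      exact (Fin.prod_univ_fun_getElem l L).symm
  · rintro ⟨s, hs, rfl⟩
    refine ⟨Finset.univ.val.map s, by simp, ?_, ?_⟩
    · intro x hx
      obtain ⟨i, -, rfl⟩ := Multiset.mem_map.1 hx
      exact ⟨hs.1 i, hs.2 i⟩
    · rw [P, Multiset.map_map]; rfl

theorem continuous_lin (n : ℕ) : ∀ (φ : ℝ[X] →ₗ[ℝ] ℝ),
    Continuous (fun s : Fin n → ℝ => φ (∏ i, L (s i))) := by
  induction n with
  | zero => intro φ; simpa using continuous_const
  | succ n ih =>
    intro φ
    have h : ∀ s : Fin (n + 1) → ℝ, φ (∏ i, L (s i)) =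
        s 0 * (φ ∘ₗ LinearMap.mulLeft ℝ X) (∏ i : Fin n, L (s i.succ)) +
          (1 - s 0) * φ (∏ i : Fin n, L (s i.succ)) := by
      intro s
      rw [Fin.prod_univ_succ, L, add_mul, map_add, mul_assoc, C_mul', C_mul', map_smul, map_smul]
      simp
    simp_rw [h]
    have ht : Continuous (fun (s : Fin (n + 1) → ℝ) (i : Fin n) => s i.succ) := by fun_prop
    exact ((continuous_apply 0).mul ((ih _).comp ht)).add
      ((continuous_const.sub (continuous_apply 0)).mul ((ih _).comp ht))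

theorem coeff_mul_nonneg {f g : ℝ[X]} (hf : ∀ k, 0 ≤ f.coeff k) (hg : ∀ k, 0 ≤ g.coeff k) (k : ℕ) :
    0 ≤ (f * g).coeff k := by
  rw [coeff_mul]
  exact Finset.sum_nonneg fun c _ => mul_nonneg (hf _) (hg _)

theorem coeff_pow_nonneg {f : ℝ[X]} (hf : ∀ k, 0 ≤ f.coeff k) (m : ℕ) :
    ∀ k, 0 ≤ (f ^ m).coeff k := by
  induction m with
  | zero => intro k; rw [pow_zero, coeff_one]; split_ifs <;> norm_num
  | succ m ih => rw [pow_succ]; exact coeff_mul_nonneg ih hf

theorem coeff_X_add_C_nonneg {u : ℝ} (hu : 0 ≤ u) (k : ℕ) : 0 ≤ (X + C u : ℝ[X]).coeff k := by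
  rw [coeff_add, coeff_X, coeff_C]
  split_ifs <;> positivity

theorem eval_pos_of_coeff_nonneg {f : ℝ[X]} (hf : ∀ k, 0 ≤ f.coeff k) (h0 : f ≠ 0) {x : ℝ}
    (hx : 0 < x) : 0 < f.eval x := by
  rw [eval_eq_sum_range]
  refine Finset.sum_pos' (fun i _ => mul_nonneg (hf i) (by positivity))
    ⟨f.natDegree, by simp, mul_pos ?_ (by positivity)⟩
  exact lt_of_le_of_ne (hf _) (Ne.symm (leadingCoeff_ne_zero.2 h0))

theorem splits_iff_im {f : ℝ[X]} :
    f.Splits ↔ (f = 0 ∨ ∀ z : ℂ, aeval z f = 0 → z.im = 0) := by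
  constructor
  · intro hf
    by_cases h0 : f = 0
    · exact Or.inl h0
    refine Or.inr fun z hz => ?_
    obtain ⟨r, hr⟩ := hf.mem_range_of_isRoot (i := algebraMap ℝ ℂ) h0 (x := z)
      (by rwa [IsRoot, eval_map_algebraMap])
    rw [← hr]; simp
  · rintro (rfl | h)
    · exact Splits.zero
    · refine Splits.of_splits_map (algebraMap ℝ ℂ) (IsAlgClosed.splits _) (fun z hz => ?_)
      have h1 : aeval z f = 0 := by
        have := (mem_roots'.1 hz).2
        rwa [IsRoot, eval_map_algebraMap] at this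
      exact ⟨z.re, Complex.ext (by simp) (by simp [h z h1])⟩

theorem prod_X_sub_C_eq (R : Multiset ℝ) (hR : ∀ r ∈ R, r ≤ 0) :
    ∃ κ : ℝ, (R.map (fun r => X - C r)).prod = C κ * P (R.map (fun r => 1 / (1 + -r))) := by
  induction R using Multiset.induction_on with
  | empty => exact ⟨1, by simp⟩
  | cons r R ih =>
    obtain ⟨κ, hκ⟩ := ih (fun r hr => hR r (Multiset.mem_cons_of_mem hr))
    have hr : 0 ≤ -r := by linarith [hR r (Multiset.mem_cons_self _ _)]
    refine ⟨(1 + -r) * κ, ?_⟩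
    rw [Multiset.map_cons, Multiset.prod_cons, hκ, Multiset.map_cons, P_cons, sub_eq_add_neg,
      ← C_neg, X_add_C_eq hr, C_mul]
    ring

/-- A split polynomial without positive roots is a multiple of a normalised product. -/
theorem exists_D_of_splits {f : ℝ[X]} (hf : f.Splits) (hr : ∀ r ∈ f.roots, r ≤ 0) {n : ℕ}
    (hn : f.natDegree ≤ n) : ∃ g, D n g ∧ f = C (f.eval 1) * g := by
  obtain ⟨κ, hκ⟩ := prod_X_sub_C_eq f.roots hr
  let S := f.roots.map (fun r => 1 / (1 + -r)) + Multiset.replicate (n - f.natDegree) 0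
  have hP : P S = P (f.roots.map (fun r => 1 / (1 + -r))) := by
    simp only [S]; rw [P_add, P_replicate]; simp
  have hf2 : f = C (f.leadingCoeff * κ) * P S := by
    conv_lhs => rw [hf.eq_prod_roots, hκ]
    rw [hP, C_mul, mul_assoc]
  refine ⟨P S, ⟨S, ?_, ?_, rfl⟩, ?_⟩
  · simp only [S, Multiset.card_add, Multiset.card_map, Multiset.card_replicate,
      ← hf.natDegree_eq_card_roots]
    omega
  · intro s hs
    rcases Multiset.mem_add.1 hs with hs | hs
    · obtain ⟨r, hr', rfl⟩ := Multiset.mem_map.1 hs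
      have := hr r hr'
      have h1 : 0 < 1 + -r := by linarith
      exact ⟨by positivity, by rw [div_le_one h1]; linarith⟩
    · rw [Multiset.eq_of_mem_replicate hs]; norm_num
  · have : f.eval 1 = f.leadingCoeff * κ := by
      conv_lhs => rw [hf2]
      simp [eval_one_P]
    rw [this]; exact hf2

theorem exists_D {f : ℝ[X]} (hf : f.Splits) (hc : ∀ k, 0 ≤ f.coeff k) (h0 : f ≠ 0) {n : ℕ}
    (hn : f.natDegree ≤ n) : ∃ g, D n g ∧ f = C (f.eval 1) * g := by
  refine exists_D_of_splits hf (fun r hr => ?_) hn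
  by_contra hlt
  have := eval_pos_of_coeff_nonneg hc h0 (not_le.1 hlt)
  have h2 := (mem_roots'.1 hr).2
  rw [IsRoot] at h2
  linarith

end Pool.Agent.Lib.MP_7a4764_an
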