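import Mathlib

set_option autoImplicit false

/-!
Perturbation of a polynomial with roots of multiplicity at most two in `[-1, 0]`.
-/

namespace Pool.Agent.Lib.MP_7a4764_an.H57

open Polynomial Filter Topology

/-- All roots are simple and lie in the open interval `(-1, 0)`. -/
def Good (q : ℝ[X]) : Prop :=
  q ≠ 0 ∧ ∃ A : Finset ℝ, A.card = q.natDegree ∧ ∀ a ∈ A, -1 < a ∧ a < 0 ∧ q.eval a = 0

theorem Good.roots_eq {q : ℝ[X]} (h0 : q ≠ 0) {A : Finset ℝ} (hA : A.card = q.natDegree)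
    (h : ∀ a ∈ A, q.eval a = 0) : q.roots = A.val := by
  symm
  refine Multiset.eq_of_le_of_card_le ?_ ((card_roots' q).trans hA.ge)
  rw [Multiset.le_iff_subset A.nodup]
  intro a ha
  exact (mem_roots h0).2 (h a ha)

theorem Good.splits {q : ℝ[X]} (hq : Good q) : q.Splits := by
  obtain ⟨h0, A, hA, h⟩ := hq
  rw [splits_iff_card_roots, Good.roots_eq h0 hA (fun a ha => (h a ha).2.2)]
  exact hA

theorem Good.root {q : ℝ[X]} (hq : Good q) {ρ : ℝ} (hρ : q.eval ρ = 0) :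
    -1 < ρ ∧ ρ < 0 ∧ ∃ G : ℝ[X], G.eval ρ ≠ 0 ∧ q = (X - C ρ) * G := by
  classical
  obtain ⟨h0, A, hA, h⟩ := hq
  have hr := Good.roots_eq h0 hA (fun a ha => (h a ha).2.2)
  have hm : ρ ∈ A := by
    have : ρ ∈ q.roots := (mem_roots h0).2 hρ
    rwa [hr] at this
  refine ⟨(h ρ hm).1, (h ρ hm).2.1, ?_⟩
  obtain ⟨G, hG, hnd⟩ := exists_eq_pow_rootMultiplicity_mul_and_not_dvd q h0 ρ
  have h1 : rootMultiplicity ρ q = 1 := by
    rw [← count_roots, hr]
    exact Multiset.count_eq_one_of_mem A.nodup hm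
  rw [h1, pow_one] at hG
  exact ⟨G, fun h => hnd (dvd_iff_isRoot.2 h), hG⟩

theorem root_between {p : ℝ[X]} {x y : ℝ} (hxy : x < y) (h : p.eval x * p.eval y < 0) :
    ∃ a, x < a ∧ a < y ∧ p.eval a = 0 := by
  have hc : Continuous (fun x => p.eval x) := p.continuous
  rcases mul_neg_iff.1 h with ⟨h1, h2⟩ | ⟨h1, h2⟩
  · obtain ⟨a, ha, z⟩ := intermediate_value_Ioo' hxy.le hc.continuousOn ⟨h2, h1⟩
    exact ⟨a, ha.1, ha.2, z⟩
  · obtain ⟨a, ha, z⟩ := intermediate_value_Ioo hxy.le hc.continuousOn ⟨h1, h2⟩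
    exact ⟨a, ha.1, ha.2, z⟩

theorem tendsto_eval_perturb (E H : ℝ[X]) (x : ℝ) :
    Tendsto (fun ε : ℝ => (E + C ε * H).eval x) (𝓝[>] 0) (𝓝 (E.eval x)) := by
  have : Continuous (fun ε : ℝ => (E + C ε * H).eval x) := by
    simp only [eval_add, eval_mul, eval_C]; fun_prop
  simpa using (this.tendsto 0).mono_left nhdsWithin_le_nhds

theorem one_sided {E H : ℝ[X]} {ρ x : ℝ} (hρ : E.eval ρ = 0) (hx : E.eval x * H.eval ρ < 0) :
    ∀ᶠ ε in 𝓝[>] (0 : ℝ), (E + C ε * H).eval x * (E + C ε * H).eval ρ < 0 := by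
  filter_upwards [((tendsto_eval_perturb E H x).mul_const (H.eval ρ)).eventually (gt_mem_nhds hx),
    self_mem_nhdsWithin] with ε h1 h2
  have h3 : (E + C ε * H).eval ρ = ε * H.eval ρ := by simp [hρ]
  rw [h3]
  have := mul_neg_of_pos_of_neg (h2 : 0 < ε) h1
  linarith [mul_left_comm ε ((E + C ε * H).eval x) (H.eval ρ)]

theorem exists_theta (G : ℝ[X]) {ρ η : ℝ} (hG : G.eval ρ ≠ 0) (hη : 0 < η) :
    ∃ θ : ℝ, 0 < θ ∧ θ < η ∧ θ < 1 ∧ (-1 < ρ → -1 < ρ - θ) ∧ (ρ < 0 → ρ + θ < 0) ∧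
      0 < G.eval (ρ - θ) * G.eval ρ ∧ 0 < G.eval (ρ + θ) * G.eval ρ := by
  have hc : Continuous (fun x => G.eval x) := G.continuous
  have h0 : 0 < G.eval ρ * G.eval ρ := mul_self_pos.2 hG
  have e1 : ∀ᶠ θ in 𝓝 (0 : ℝ), 0 < G.eval (ρ - θ) * G.eval ρ := by
    have : Continuous (fun θ : ℝ => G.eval (ρ - θ) * G.eval ρ) := by fun_prop
    exact (this.tendsto 0).eventually (lt_mem_nhds (by simpa using hG))
  have e2 : ∀ᶠ θ in 𝓝 (0 : ℝ), 0 < G.eval (ρ + θ) * G.eval ρ := by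
    have : Continuous (fun θ : ℝ => G.eval (ρ + θ) * G.eval ρ) := by fun_prop
    exact (this.tendsto 0).eventually (lt_mem_nhds (by simpa using hG))
  have e3 : ∀ᶠ θ in 𝓝 (0 : ℝ), -1 < ρ → -1 < ρ - θ := by
    by_cases h : -1 < ρ
    · filter_upwards [gt_mem_nhds (show (0 : ℝ) < ρ + 1 by linarith)] with θ h1 _
      linarith
    · exact Eventually.of_forall (fun _ h' => absurd h' h)
  have e4 : ∀ᶠ θ in 𝓝 (0 : ℝ), ρ < 0 → ρ + θ < 0 := by
    by_cases h : ρ < 0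
    · filter_upwards [gt_mem_nhds (show (0 : ℝ) < -ρ by linarith)] with θ h1 _
      linarith
    · exact Eventually.of_forall (fun _ h' => absurd h' h)
  have e5 := ((gt_mem_nhds hη : ∀ᶠ θ in 𝓝 (0 : ℝ), θ < η).and
    ((gt_mem_nhds one_pos : ∀ᶠ θ in 𝓝 (0 : ℝ), θ < 1).and (e3.and (e4.and (e1.and e2)))))
  obtain ⟨θ, h1, h2⟩ := ((e5.filter_mono (nhdsWithin_le_nhds (s := Set.Ioi 0))).and
    self_mem_nhdsWithin).exists
  exact ⟨θ, h2, h1⟩

/-- The local condition on a perturbation `H` of `E` at a root `ρ`. -/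
def Loc (E H : ℝ[X]) (ρ : ℝ) : Prop :=
  ∃ G : ℝ[X], G.eval ρ ≠ 0 ∧
    ((E = (X - C ρ) ^ 1 * G ∧ -1 ≤ ρ ∧ ρ ≤ 0 ∧ (ρ = 0 → 0 < H.eval ρ * G.eval ρ) ∧
        (ρ = -1 → H.eval ρ * G.eval ρ < 0)) ∨
      (E = (X - C ρ) ^ 2 * G ∧ -1 < ρ ∧ ρ < 0 ∧ H.eval ρ * G.eval ρ < 0))

theorem rootMultiplicity_pow_mul {G : ℝ[X]} {ρ : ℝ} (hG : G.eval ρ ≠ 0) (μ : ℕ) :
    rootMultiplicity ρ ((X - C ρ) ^ μ * G) = μ := by
  have h0 : G ≠ 0 := by rintro rfl; simp at hG
  rw [rootMultiplicity_mul (mul_ne_zero (pow_ne_zero _ (X_sub_C_ne_zero ρ)) h0),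
    rootMultiplicity_X_sub_C_pow, rootMultiplicity_eq_zero hG, add_zero]

theorem local_roots {E H : ℝ[X]} {ρ : ℝ} (h : Loc E H ρ) {η : ℝ} (hη : 0 < η) :
    ∀ᶠ ε in 𝓝[>] (0 : ℝ), ∃ A : Finset ℝ, A.card = rootMultiplicity ρ E ∧
      ∀ a ∈ A, |a - ρ| < η ∧ -1 < a ∧ a < 0 ∧ (E + C ε * H).eval a = 0 := by
  obtain ⟨G, hG, h⟩ := h
  obtain ⟨θ, t0, t1, t2, t3, t4, t5, t6⟩ := exists_theta G hG hη
  have hG2 : 0 < G.eval ρ * G.eval ρ := mul_self_pos.2 hG
  rcases h with ⟨hE, r1, r2, s1, s2⟩ | ⟨hE, r1, r2, s⟩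
  · have hm : rootMultiplicity ρ E = 1 := by rw [hE]; exact rootMultiplicity_pow_mul hG 1
    have hρ : E.eval ρ = 0 := by rw [hE]; simp
    have em : E.eval (ρ - θ) = -θ * G.eval (ρ - θ) := by rw [hE]; simp
    have ep : E.eval (ρ + θ) = θ * G.eval (ρ + θ) := by rw [hE]; simp
    rw [hm]
    rcases r2.eq_or_lt with r2 | r2
    · have h1 : E.eval (ρ - θ) * H.eval ρ < 0 := by
        rw [em]
        have h2 := mul_pos t5 (s1 r2)
        have h3 : 0 < G.eval (ρ - θ) * H.eval ρ := by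
          by_contra hcon
          nlinarith [mul_nonneg hG2.le (neg_nonneg.2 (not_lt.1 hcon))]
        nlinarith [mul_pos t0 h3]
      filter_upwards [one_sided hρ h1] with ε hε
      obtain ⟨a, a1, a2, a3⟩ := root_between (by linarith : ρ - θ < ρ) hε
      refine ⟨{a}, rfl, fun x hx => ?_⟩
      rw [Finset.mem_singleton.1 hx]
      exact ⟨abs_lt.2 ⟨by linarith, by linarith⟩, by linarith, by linarith, a3⟩
    rcases r1.eq_or_lt with r1 | r1
    · have h1 : E.eval (ρ + θ) * H.eval ρ < 0 := by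
        rw [ep]
        have h2 := mul_neg_of_pos_of_neg t6 (s2 r1.symm)
        have h3 : G.eval (ρ + θ) * H.eval ρ < 0 := by
          by_contra hcon
          nlinarith [mul_nonneg hG2.le (not_lt.1 hcon)]
        nlinarith [mul_neg_of_pos_of_neg t0 h3]
      filter_upwards [one_sided hρ h1] with ε hε
      obtain ⟨a, a1, a2, a3⟩ := root_between (by linarith : ρ < ρ + θ) (by rw [mul_comm]; exact hε)
      refine ⟨{a}, rfl, fun x hx => ?_⟩
      rw [Finset.mem_singleton.1 hx]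
      exact ⟨abs_lt.2 ⟨by linarith, by linarith⟩, by linarith, by linarith, a3⟩
    · have h1 : E.eval (ρ - θ) * E.eval (ρ + θ) < 0 := by
        rw [em, ep]
        have h2 := mul_pos t5 t6
        have h3 : 0 < G.eval (ρ - θ) * G.eval (ρ + θ) := by
          by_contra hcon
          nlinarith [mul_nonneg hG2.le (neg_nonneg.2 (not_lt.1 hcon))]
        nlinarith [mul_pos (mul_pos t0 t0) h3]
      filter_upwards [((tendsto_eval_perturb E H (ρ - θ)).mul
        (tendsto_eval_perturb E H (ρ + θ))).eventually (gt_mem_nhds h1)] with ε hε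
      obtain ⟨a, a1, a2, a3⟩ := root_between (by linarith : ρ - θ < ρ + θ) hε
      refine ⟨{a}, rfl, fun x hx => ?_⟩
      rw [Finset.mem_singleton.1 hx]
      exact ⟨abs_lt.2 ⟨by linarith, by linarith⟩, by linarith [t3 r1], by linarith [t4 r2], a3⟩
  · have hm : rootMultiplicity ρ E = 2 := by rw [hE]; exact rootMultiplicity_pow_mul hG 2
    have hρ : E.eval ρ = 0 := by rw [hE]; simp
    have em : E.eval (ρ - θ) = θ ^ 2 * G.eval (ρ - θ) := by rw [hE]; simp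
    have ep : E.eval (ρ + θ) = θ ^ 2 * G.eval (ρ + θ) := by rw [hE]; simp
    have key : ∀ y : ℝ, 0 < y * G.eval ρ → θ ^ 2 * y * H.eval ρ < 0 := by
      intro y hy
      have h2 := mul_neg_of_pos_of_neg hy s
      have h3 : y * H.eval ρ < 0 := by
        by_contra hcon
        nlinarith [mul_nonneg hG2.le (not_lt.1 hcon)]
      nlinarith [mul_neg_of_pos_of_neg (pow_pos t0 2) h3]
    rw [hm]
    filter_upwards [one_sided hρ (em ▸ key _ t5), one_sided hρ (ep ▸ key _ t6)] with ε h1 h2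
    obtain ⟨a, a1, a2, a3⟩ := root_between (by linarith : ρ - θ < ρ) h1
    obtain ⟨b, b1, b2, b3⟩ := root_between (by linarith : ρ < ρ + θ) (by rw [mul_comm]; exact h2)
    refine ⟨{a, b}, Finset.card_pair (by linarith : a < b).ne, fun x hx => ?_⟩
    rcases Finset.mem_insert.1 hx with rfl | hx
    · exact ⟨abs_lt.2 ⟨by linarith, by linarith⟩, by linarith [t3 r1], by linarith, a3⟩
    · rw [Finset.mem_singleton.1 hx]
      exact ⟨abs_lt.2 ⟨by linarith, by linarith⟩, by linarith, by linarith [t4 r2], b3⟩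

theorem perturb {E H : ℝ[X]} (hE0 : E ≠ 0) (hE : E.Splits) (hH : H.natDegree ≤ E.natDegree)
    (hloc : ∀ ρ, E.eval ρ = 0 → Loc E H ρ) :
    ∀ᶠ ε in 𝓝[>] (0 : ℝ), Good (E + C ε * H) ∧ (E + C ε * H).natDegree = E.natDegree := by
  classical
  let R := E.roots.toFinset
  have hη : ∀ᶠ η in 𝓝 (0 : ℝ), ∀ x ∈ R ×ˢ R, x.1 ≠ x.2 → 2 * η < |x.1 - x.2| := by
    rw [eventually_all_finset]
    intro x _
    by_cases h : x.1 = x.2
    · exact Eventually.of_forall (fun _ h' => absurd h h')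
    · have h1 : 0 < |x.1 - x.2| / 2 := half_pos (abs_pos.2 (sub_ne_zero.2 h))
      filter_upwards [gt_mem_nhds h1] with η h2 _
      linarith
  obtain ⟨η, h1, h2⟩ := ((hη.filter_mono (nhdsWithin_le_nhds (s := Set.Ioi 0))).and
    self_mem_nhdsWithin).exists
  have e1 : ∀ᶠ ε in 𝓝[>] (0 : ℝ), ∀ ρ ∈ R, ∃ A : Finset ℝ, A.card = rootMultiplicity ρ E ∧
      ∀ a ∈ A, |a - ρ| < η ∧ -1 < a ∧ a < 0 ∧ (E + C ε * H).eval a = 0 := by
    rw [eventually_all_finset]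
    intro ρ hρ
    exact local_roots (hloc ρ ((mem_roots hE0).1 (Multiset.mem_toFinset.1 hρ))) h2
  have e2 : ∀ᶠ ε in 𝓝[>] (0 : ℝ), (E + C ε * H).coeff E.natDegree ≠ 0 := by
    have hc : Continuous (fun ε : ℝ => (E + C ε * H).coeff E.natDegree) := by
      simp only [coeff_add, coeff_C_mul]; fun_prop
    refine ((hc.tendsto 0).mono_left nhdsWithin_le_nhds).eventually_ne ?_
    simpa using hE0
  filter_upwards [e1, e2] with ε hA hc
  have hdeg : (E + C ε * H).natDegree = E.natDegree :=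
    le_antisymm ((natDegree_add_le _ _).trans (max_le le_rfl ((natDegree_C_mul_le _ _).trans hH)))
      (le_natDegree_of_ne_zero hc)
  refine ⟨⟨fun h => hc (by rw [h, coeff_zero]), ?_⟩, hdeg⟩
  choose! A hA1 hA2 using hA
  refine ⟨R.biUnion A, ?_, fun a ha => ?_⟩
  · rw [Finset.card_biUnion, hdeg, hE.natDegree_eq_card_roots, ← Multiset.toFinset_sum_count_eq]
    · refine Finset.sum_congr rfl (fun ρ hρ => ?_)
      rw [hA1 ρ hρ, count_roots]
    · intro x hx y hy hxy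
      refine Finset.disjoint_left.2 (fun a ha hb => ?_)
      have h3 := h1 (x, y) (Finset.mem_product.2 ⟨hx, hy⟩) hxy
      have h4 := abs_lt.1 (hA2 x hx a ha).1
      have h5 := abs_lt.1 (hA2 y hy a hb).1
      have h6 : |x - y| < 2 * η := abs_lt.2 ⟨by linarith [h4.2, h5.1], by linarith [h4.1, h5.2]⟩
      exact lt_asymm h3 h6
  · obtain ⟨ρ, hρ, ha⟩ := Finset.mem_biUnion.1 ha
    exact (hA2 ρ hρ a ha).2

end Pool.Agent.Lib.MP_7a4764_an.H57
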