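import Mathlib

set_option autoImplicit false

/-!
Coefficient inequalities for real-rooted polynomials, and their limit forms.
-/

namespace Pool.Agent.Lib.MP_7a4764_an.H57

open Polynomial Filter Topology

theorem splits_derivative {p : ℝ[X]} (hp : p.Splits) : (derivative p).Splits := by
  by_cases h0 : p.natDegree = 0
  · rw [eq_C_of_natDegree_eq_zero h0]; simp
  rw [splits_iff_card_roots] at hp ⊢
  have h1 := card_roots_le_derivative p
  have h2 := card_roots' (derivative p)
  have h3 := natDegree_derivative_lt h0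
  omega

theorem splits_iterate_derivative {p : ℝ[X]} (hp : p.Splits) (j : ℕ) :
    (derivative^[j] p).Splits := by
  induction j with
  | zero => exact hp
  | succ j ih => rw [Function.iterate_succ_apply']; exact splits_derivative ih

theorem vieta_aux (c : ℝ) (R : Multiset ℝ) :
    (C c * (R.map (fun a => X - C a)).prod).coeff 0 ≠ 0 →
    2 * (C c * (R.map (fun a => X - C a)).prod).coeff 0 *
        (C c * (R.map (fun a => X - C a)).prod).coeff 2 ≤
      (C c * (R.map (fun a => X - C a)).prod).coeff 1 ^ 2 ∧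
    ∀ M : ℝ, 0 ≤ M → (C c * (R.map (fun a => X - C a)).prod).coeff 1 ^ 2 -
        2 * (C c * (R.map (fun a => X - C a)).prod).coeff 0 *
        (C c * (R.map (fun a => X - C a)).prod).coeff 2 ≤
        M ^ 2 * (C c * (R.map (fun a => X - C a)).prod).coeff 0 ^ 2 →
      ∀ k, |(C c * (R.map (fun a => X - C a)).prod).coeff k| ≤
        |(C c * (R.map (fun a => X - C a)).prod).coeff 0| * (1 + M) ^ R.card := by
  induction R using Multiset.induction_on with
  | empty =>
    intro _
    refine ⟨by simp [coeff_C], fun M _ _ k => ?_⟩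
    simp only [Multiset.map_zero, Multiset.prod_zero, mul_one, Multiset.card_zero, pow_zero,
      coeff_C]
    split_ifs <;> simp
  | cons a R ih =>
    have e : C c * ((a ::ₘ R).map (fun a => X - C a)).prod =
        (X - C a) * (C c * (R.map (fun a => X - C a)).prod) := by
      rw [Multiset.map_cons, Multiset.prod_cons]; ring
    rw [e]
    set G := C c * (R.map (fun a => X - C a)).prod with hG
    have e0 : ((X - C a) * G).coeff 0 = -a * G.coeff 0 := by simp [sub_mul]
    have es : ∀ k, ((X - C a) * G).coeff (k + 1) = G.coeff k - a * G.coeff (k + 1) := by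
      intro k; simp [sub_mul, coeff_X_mul]
    intro h0
    rw [e0] at h0
    have ha : a ≠ 0 := by rintro rfl; simp at h0
    have hG0 : G.coeff 0 ≠ 0 := right_ne_zero_of_mul h0
    obtain ⟨i1, i2⟩ := ih hG0
    have key : ((X - C a) * G).coeff 1 ^ 2 -
        2 * ((X - C a) * G).coeff 0 * ((X - C a) * G).coeff 2 =
        G.coeff 0 ^ 2 + a ^ 2 * (G.coeff 1 ^ 2 - 2 * G.coeff 0 * G.coeff 2) := by
      rw [e0, es 0, es 1]; ring
    have hA : 0 ≤ a ^ 2 * (G.coeff 1 ^ 2 - 2 * G.coeff 0 * G.coeff 2) :=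
      mul_nonneg (sq_nonneg _) (by linarith)
    refine ⟨by nlinarith [sq_nonneg (G.coeff 0)], fun M hM hle k => ?_⟩
    rw [key, e0] at hle
    have ha2 : 0 < a ^ 2 := by positivity
    have hG2 : 0 < G.coeff 0 ^ 2 := by positivity
    have j1 : G.coeff 1 ^ 2 - 2 * G.coeff 0 * G.coeff 2 ≤ M ^ 2 * G.coeff 0 ^ 2 := by
      by_contra hcon
      push Not at hcon
      nlinarith [mul_lt_mul_of_pos_left hcon ha2]
    have j2 : 1 ≤ M * |a| := by
      have : 1 ≤ (M * |a|) ^ 2 := by
        rw [mul_pow, sq_abs]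
        by_contra hcon
        push Not at hcon
        nlinarith [mul_lt_mul_of_pos_left hcon hG2]
      exact (one_le_sq_iff₀ (by positivity)).1 this
    have j3 := i2 M hM j1
    have j4 : 0 ≤ |G.coeff 0| * (1 + M) ^ R.card := by positivity
    rw [e0, Multiset.card_cons, pow_succ, abs_mul, abs_neg]
    have ha' : 0 < |a| := abs_pos.2 ha
    rcases k with _ | k
    · rw [e0, abs_mul, abs_neg]
      have := j3 0
      nlinarith [mul_nonneg j4 hM]
    · rw [es]
      have h1 := abs_sub (G.coeff k) (a * G.coeff (k + 1))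
      rw [abs_mul] at h1
      have h2 := j3 k
      have h3 := mul_le_mul_of_nonneg_left (j3 (k + 1)) ha'.le
      nlinarith [mul_le_mul_of_nonneg_left j2 j4]

theorem vieta {G : ℝ[X]} (hG : G.Splits) {n : ℕ} (hn : G.natDegree ≤ n) (h0 : G.coeff 0 ≠ 0) :
    2 * G.coeff 0 * G.coeff 2 ≤ G.coeff 1 ^ 2 ∧
    ∀ M : ℝ, 0 ≤ M → G.coeff 1 ^ 2 - 2 * G.coeff 0 * G.coeff 2 ≤ M ^ 2 * G.coeff 0 ^ 2 →
      ∀ k, |G.coeff k| ≤ |G.coeff 0| * (1 + M) ^ n := by
  have h := vieta_aux G.leadingCoeff G.roots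
  rw [← hG.eq_prod_roots] at h
  obtain ⟨h1, h2⟩ := h h0
  refine ⟨h1, fun M hM hle k => (h2 M hM hle k).trans ?_⟩
  refine mul_le_mul_of_nonneg_left (pow_le_pow_right₀ (by linarith) ?_) (abs_nonneg _)
  exact (card_roots' G).trans hn

/-- Limit form: at most two orders of vanishing can be lost, with a sign condition. -/
theorem limit_order {ι : Type} {l : Filter ι} [l.NeBot] {F : ι → ℝ[X]} {n : ℕ}
    (hF : ∀ᶠ i in l, (F i).Splits ∧ (F i).natDegree ≤ n) {δ : ι → ℝ}
    {m : ℕ} {α : ℕ → ℝ} (hα : ∀ j < m, Tendsto (fun i => (F i).coeff j / δ i) l (𝓝 (α j)))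
    {b : ℝ} (hb : Tendsto (fun i => b * (F i).coeff m / δ i) l atTop) {j : ℕ} (hj : α j ≠ 0) :
    ¬ (j + 3 ≤ m) ∧ (j + 2 = m → b * α j < 0) := by
  let G : ι → ℝ[X] := fun i => C (δ i)⁻¹ * derivative^[j] (F i)
  have hG : ∀ i k, (G i).coeff k = ((k + j).descFactorial j : ℝ) * ((F i).coeff (k + j) / δ i) := by
    intro i k
    simp only [G, coeff_C_mul, coeff_iterate_derivative, nsmul_eq_mul]
    ring
  have hpos : ∀ k, (0 : ℝ) < (k + j).descFactorial j := fun k => by
    exact_mod_cast Nat.descFactorial_pos.2 (by omega)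
  have hGs : ∀ᶠ i in l, (G i).Splits ∧ (G i).natDegree ≤ n := by
    filter_upwards [hF] with i hi
    refine ⟨(Splits.C _).mul (splits_iterate_derivative hi.1 j), ?_⟩
    refine (natDegree_C_mul_le _ _).trans ?_
    exact (natDegree_iterate_derivative _ _).trans (by omega)
  have hlim : ∀ k, k + j < m → Tendsto (fun i => (G i).coeff k) l
      (𝓝 (((k + j).descFactorial j : ℝ) * α (k + j))) := by
    intro k hk
    simp_rw [hG]
    exact (hα _ hk).const_mul _
  have hb0 : b ≠ 0 := by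
    rintro rfl
    simp only [zero_mul, zero_div] at hb
    exact not_tendsto_const_atTop _ _ hb
  have htop : ∀ k, k + j = m → Tendsto (fun i => b * (G i).coeff k) l atTop := by
    intro k hk
    have := hb.const_mul_atTop (hpos k)
    refine this.congr (fun i => ?_)
    rw [hG, hk]; ring
  constructor
  · intro hm
    have l0 := hlim 0 (by omega)
    have l1 := hlim 1 (by omega)
    have l2 := hlim 2 (by omega)
    set c0 := ((0 + j).descFactorial j : ℝ) * α (0 + j) with hc0
    set c1 := ((1 + j).descFactorial j : ℝ) * α (1 + j)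
    set c2 := ((2 + j).descFactorial j : ℝ) * α (2 + j)
    have hc : c0 ≠ 0 := mul_ne_zero (hpos 0).ne' (by simpa using hj)
    have hc2 : 0 < c0 ^ 2 := by positivity
    let M : ℝ := |c1 ^ 2 - 2 * c0 * c2| / c0 ^ 2 + 1
    have hM0 : 0 ≤ |c1 ^ 2 - 2 * c0 * c2| / c0 ^ 2 := by positivity
    have hM : c1 ^ 2 - 2 * c0 * c2 < M ^ 2 * c0 ^ 2 := by
      have h1 : |c1 ^ 2 - 2 * c0 * c2| = |c1 ^ 2 - 2 * c0 * c2| / c0 ^ 2 * c0 ^ 2 := by field_simp
      have h2 := le_abs_self (c1 ^ 2 - 2 * c0 * c2)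
      have h3 : |c1 ^ 2 - 2 * c0 * c2| / c0 ^ 2 < M ^ 2 := by simp only [M]; nlinarith
      nlinarith [mul_lt_mul_of_pos_right h3 hc2]
    have e1 := ((l1.pow 2).sub ((l0.const_mul 2).mul l2)).eventually_lt
      ((l0.pow 2).const_mul (M ^ 2)) hM
    have e2 := l0.eventually_ne hc
    have e3 := (l0.abs.mul_const ((1 + M) ^ n)).eventually
      (gt_mem_nhds (lt_add_one (|c0| * (1 + M) ^ n)))
    have e4 := (htop (m - j) (by omega)).eventually_gt_atTop (|b| * (|c0| * (1 + M) ^ n + 1))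
    obtain ⟨i, ⟨i1, i2⟩, i3, i4, i5⟩ := ((e1.and e2).and (e3.and (e4.and hGs))).exists
    have h1 := (vieta i5.1 i5.2 i2).2 M (by simp only [M]; linarith) i1.le (m - j)
    have h2 := le_abs_self (b * (G i).coeff (m - j))
    rw [abs_mul] at h2
    nlinarith [mul_le_mul_of_nonneg_left (h1.trans i3.le) (abs_nonneg b)]
  · intro hm
    by_contra hcon
    have hpos2 : 0 < b * α j := lt_of_le_of_ne (not_lt.1 hcon) (mul_ne_zero hb0 hj).symm
    have l0 := hlim 0 (by omega)
    have l1 := hlim 1 (by omega)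
    set c0 := ((0 + j).descFactorial j : ℝ) * α (0 + j) with hc0
    set c1 := ((1 + j).descFactorial j : ℝ) * α (1 + j)
    have hc : 0 < b * c0 := by
      have := mul_pos (hpos 0) hpos2
      rw [hc0, zero_add] at *; nlinarith
    have hc' : c0 ≠ 0 := by rintro h; rw [h] at hc; simp at hc
    have t1 : Tendsto (fun i => (b * (G i).coeff 0) * (b * (G i).coeff 2)) l atTop :=
      (l0.const_mul b).pos_mul_atTop hc (htop 2 (by omega))
    have e1 := t1.eventually_gt_atTop (b ^ 2 * (c1 ^ 2 + 1))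
    have e2 := (l1.pow 2).eventually (gt_mem_nhds (lt_add_one (c1 ^ 2)))
    obtain ⟨i, ⟨i1, i2⟩, i3, i5⟩ := ((e1.and e2).and ((l0.eventually_ne hc').and hGs)).exists
    have h1 := (vieta i5.1 i5.2 i3).1
    have hb2 : 0 < b ^ 2 := by positivity
    nlinarith [mul_le_mul_of_nonneg_left h1 hb2.le, mul_lt_mul_of_pos_left i2 hb2,
      sq_nonneg c1]

/-- Sign pattern of the coefficients. -/
def Sg (τ : ℝ) (F : ℝ[X]) : Prop := ∃ σ : ℝ, σ ≠ 0 ∧ ∀ j, 0 ≤ σ * τ ^ j * F.coeff j

theorem sg_prod {τ : ℝ} (hτ : τ ^ 2 = 1) (R : Multiset ℝ) (hR : ∀ c ∈ R, 0 ≤ τ * c) :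
    Sg τ (R.map (fun c => X + C c)).prod := by
  induction R using Multiset.induction_on with
  | empty =>
    refine ⟨1, one_ne_zero, fun j => ?_⟩
    simp only [Multiset.map_zero, Multiset.prod_zero, coeff_one]
    split_ifs with h
    · simp [h]
    · simp
  | cons c R ih =>
    obtain ⟨σ, hσ, h⟩ := ih (fun c hc => hR c (Multiset.mem_cons_of_mem hc))
    have hc := hR c (Multiset.mem_cons_self _ _)
    have hτ0 : τ ≠ 0 := by rintro rfl; simp at hτ
    refine ⟨σ * τ, mul_ne_zero hσ hτ0, fun j => ?_⟩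
    rw [Multiset.map_cons, Multiset.prod_cons, add_mul, coeff_add, coeff_C_mul]
    set G := (R.map (fun c => X + C c)).prod
    rcases j with _ | j
    · have := mul_nonneg hc (h 0)
      simp only [coeff_X_mul_zero, pow_zero] at this ⊢
      linarith
    · rw [coeff_X_mul]
      have h1 := mul_nonneg hc (h (j + 1))
      have h2 := h j
      have : σ * τ * τ ^ (j + 1) * (G.coeff j + c * G.coeff (j + 1)) =
          τ ^ 2 * (σ * τ ^ j * G.coeff j) + τ * c * (σ * τ ^ (j + 1) * G.coeff (j + 1)) := by ring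
      rw [this, hτ]
      linarith

theorem limit_sign {ι : Type} {l : Filter ι} [l.NeBot] {F : ι → ℝ[X]} {τ : ℝ} (hτ : τ ^ 2 = 1)
    (hF : ∀ᶠ i in l, Sg τ (F i)) {δ : ι → ℝ} (hδ : ∀ᶠ i in l, 0 < δ i) {j μ : ℕ} {α : ℝ}
    (hα : Tendsto (fun i => (F i).coeff j / δ i) l (𝓝 α))
    {b : ℝ} (hb : Tendsto (fun i => b * (F i).coeff (j + μ) / δ i) l atTop) :
    0 ≤ τ ^ μ * (b * α) := by
  refine ge_of_tendsto ((hα.const_mul b).const_mul (τ ^ μ)) ?_
  filter_upwards [hF, hδ, hb.eventually_gt_atTop 0] with i ⟨σ, hσ, h⟩ h1 h2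
  have h3 := mul_nonneg (h j) (h (j + μ))
  have h4 : σ * τ ^ j * (F i).coeff j * (σ * τ ^ (j + μ) * (F i).coeff (j + μ)) =
      σ ^ 2 * (τ ^ 2) ^ j * (τ ^ μ * ((F i).coeff j * (F i).coeff (j + μ))) := by ring
  rw [h4, hτ, one_pow, mul_one] at h3
  have h5 := (mul_nonneg_iff_of_pos_left (by positivity : 0 < σ ^ 2)).1 h3
  have h6 : 0 < b * (F i).coeff (j + μ) := by
    have := mul_pos h2 h1
    rwa [div_mul_cancel₀ _ h1.ne'] at this
  have h7 : 0 ≤ τ ^ μ * (b * (F i).coeff j) := by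
    by_contra hcon
    push Not at hcon
    nlinarith [mul_pos_of_neg_of_neg hcon (neg_neg_of_pos h6), mul_nonneg (sq_nonneg b) h5]
  have : τ ^ μ * (b * ((F i).coeff j / δ i)) = τ ^ μ * (b * (F i).coeff j) / δ i := by ring
  rw [this]
  positivity

end Pool.Agent.Lib.MP_7a4764_an.H57
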