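import Mathlib
import Pool.Agent.Lib.MP_7a4764_an.H57Vieta
import Pool.Agent.Lib.MP_7a4764_an.H57Perturb

set_option autoImplicit false

/-!
Limits of real-rooted polynomials with roots in `[-1, 0]` modulo a subspace, after rescaling,
are attained.
-/

namespace Pool.Agent.Lib.MP_7a4764_an.H57

open Polynomial Filter Topology

/-- Coefficientwise convergence. -/
def Cv {ι : Type} (l : Filter ι) (g : ι → ℝ[X]) (h : ℝ[X]) : Prop :=
  ∀ k, Tendsto (fun i => (g i).coeff k) l (𝓝 (h.coeff k))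

theorem lin_eq_sum {M : Type} [AddCommGroup M] [Module ℝ M] (φ : ℝ[X] →ₗ[ℝ] M) {g : ℝ[X]} {n : ℕ}
    (hg : g.natDegree ≤ n) : φ g = ∑ k ∈ Finset.range (n + 1), g.coeff k • φ (X ^ k) := by
  conv_lhs => rw [g.as_sum_range' _ (Nat.lt_succ_of_le hg), map_sum]
  refine Finset.sum_congr rfl (fun k _ => ?_)
  rw [← C_mul_X_pow_eq_monomial, C_mul', map_smul]

theorem Cv.lin {ι : Type} {l : Filter ι} {g : ι → ℝ[X]} {h : ℝ[X]} (hc : Cv l g h) {n : ℕ}
    (hg : ∀ᶠ i in l, (g i).natDegree ≤ n) (hh : h.natDegree ≤ n) (φ : ℝ[X] →ₗ[ℝ] ℝ) :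
    Tendsto (fun i => φ (g i)) l (𝓝 (φ h)) := by
  rw [lin_eq_sum φ hh]
  refine (tendsto_finsetSum _ (fun k _ => (hc k).smul_const (φ (X ^ k)))).congr' ?_
  filter_upwards [hg] with i hi
  rw [lin_eq_sum φ hi]

theorem taylor_coeff_pow_mul (ρ : ℝ) (m : ℕ) (G : ℝ[X]) :
    (taylor ρ ((X - C ρ) ^ m * G)).coeff m = G.eval ρ ∧
    ∀ j < m, (taylor ρ ((X - C ρ) ^ m * G)).coeff j = 0 := by
  have h : taylor ρ ((X - C ρ) ^ m * G) = X ^ m * taylor ρ G := by
    rw [taylor_mul, taylor_pow]; simp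
  rw [h]
  refine ⟨?_, fun j hj => ?_⟩
  · rw [coeff_X_pow_mul']; simp
  · rw [coeff_X_pow_mul']; simp [hj.not_ge]

theorem exists_factor {w : ℝ[X]} (hw : w ≠ 0) (ρ : ℝ) :
    ∃ (m : ℕ) (G : ℝ[X]), w = (X - C ρ) ^ m * G ∧ G.eval ρ ≠ 0 := by
  obtain ⟨G, hG, hnd⟩ := exists_eq_pow_rootMultiplicity_mul_and_not_dvd w hw ρ
  exact ⟨_, G, hG, fun h => hnd (dvd_iff_isRoot.2 h)⟩

/-- All real roots lie in `[-1, 0]`. -/
def In0 (w : ℝ[X]) : Prop := ∀ ρ : ℝ, w.eval ρ = 0 → -1 ≤ ρ ∧ ρ ≤ 0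

/-- The state of the induction. -/
def St {ι : Type} (l : Filter ι) (f : ι → ℝ[X]) (K : Submodule ℝ ℝ[X]) (n : ℕ) (w q : ℝ[X]) :
    Prop :=
  w ≠ 0 ∧ w.Splits ∧ In0 w ∧ Good q ∧ (∀ ρ, w.eval ρ = 0 → q.eval ρ ≠ 0) ∧
    (w * q).natDegree = n ∧ w * q ∈ K ∧
    ∃ (γ : ι → ℝ) (u : ι → ℝ[X]), (∀ᶠ i in l, 0 < γ i) ∧
      (∀ i, u i ∈ K ∧ w ∣ u i ∧ (u i).natDegree ≤ n) ∧
      Cv l (fun i => (γ i)⁻¹ • (f i - u i)) 0 ∧
      ∀ (ρ : ℝ) (m : ℕ) (G : ℝ[X]), w = (X - C ρ) ^ m * G → G.eval ρ ≠ 0 → 0 < m →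
        ∃ c : ℝ, 0 < c ∧ ∀ᶠ i in l, c ≤ G.eval ρ * q.eval ρ * (taylor ρ (f i)).coeff m / γ i

/-- The conclusion. -/
def Concl {ι : Type} (l : Filter ι) (f : ι → ℝ[X]) (K : Submodule ℝ ℝ[X]) (n : ℕ) : Prop :=
  ∃ f' : ℝ[X], f'.Splits ∧ In0 f' ∧ f'.natDegree = n ∧ f' ∉ K ∧
    ∃ (c : ι → ℝ) (u : ι → ℝ[X]), (∀ i, u i ∈ K ∧ (u i).natDegree ≤ n) ∧
      Cv l (fun i => c i • (f i - u i)) f'

theorem natDegree_smul_sub_le {f u : ℝ[X]} {n : ℕ} (c : ℝ) (hf : f.natDegree ≤ n)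
    (hu : u.natDegree ≤ n) : (c • (f - u)).natDegree ≤ n :=
  (natDegree_smul_le _ _).trans ((natDegree_sub_le _ _).trans (max_le hf hu))

/-- Extraction of the next direction. -/
theorem next_direction {ι : Type} (l : Ultrafilter ι) {f : ι → ℝ[X]} {n : ℕ}
    (U : Submodule ℝ ℝ[X]) (hU : ∀ g ∈ U, g.natDegree ≤ n)
    (hf : ∀ᶠ i in (l : Filter ι), (f i).natDegree ≤ n ∧ f i ∉ U) {γ : ι → ℝ} {u : ι → ℝ[X]}
    (hγ : ∀ᶠ i in (l : Filter ι), 0 < γ i) (hu : ∀ i, u i ∈ U)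
    (hc : Cv l (fun i => (γ i)⁻¹ • (f i - u i)) 0) :
    ∃ (δ : ι → ℝ) (v : ι → ℝ[X]) (h : ℝ[X]), (∀ᶠ i in (l : Filter ι), 0 < δ i) ∧ (∀ i, v i ∈ U) ∧
      h.natDegree ≤ n ∧ h ∉ U ∧ Cv l (fun i => (δ i)⁻¹ • (f i - v i)) h ∧
      Tendsto (fun i => γ i / δ i) l atTop := by
  obtain ⟨g, hg⟩ := LinearMap.exists_leftInverse_of_injective U.subtype U.ker_subtype
  let N : ℝ[X] →ₗ[ℝ] ℝ[X] := LinearMap.id - U.subtype ∘ₗ g
  have hN : ∀ x, N x = x - (g x : ℝ[X]) := fun x => rfl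
  have hN0 : ∀ x ∈ U, N x = 0 := by
    intro x hx
    have := LinearMap.congr_fun hg ⟨x, hx⟩
    simp only [LinearMap.comp_apply, Submodule.subtype_apply, LinearMap.id_apply] at this
    rw [hN, this, sub_self]
  have hNN : ∀ x, N (N x) = N x := by
    intro x
    conv_lhs => rw [hN x, map_sub, hN0 _ (g x).2, sub_zero]
  let δ : ι → ℝ := fun i => ∑ k ∈ Finset.range (n + 1), |(N (f i)).coeff k|
  have hdeg : ∀ᶠ i in (l : Filter ι), (N (f i)).natDegree ≤ n := by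
    filter_upwards [hf] with i hi
    rw [hN]
    exact (natDegree_sub_le _ _).trans (max_le hi.1 (hU _ (g (f i)).2))
  have hδ : ∀ᶠ i in (l : Filter ι), 0 < δ i := by
    filter_upwards [hf, hdeg] with i hi hd
    have h0 : N (f i) ≠ 0 := by
      intro h
      rw [hN, sub_eq_zero] at h
      exact hi.2 (h ▸ (g (f i)).2)
    refine Finset.sum_pos' (fun k _ => abs_nonneg _) ⟨(N (f i)).natDegree, by simp; omega, ?_⟩
    exact abs_pos.2 (leadingCoeff_ne_zero.2 h0)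
  have hlim : ∀ k, ∃ a : ℝ, Tendsto (fun i => ((δ i)⁻¹ • N (f i)).coeff k) l (𝓝 a) := by
    intro k
    have hb : ∀ᶠ i in (l : Filter ι), ((δ i)⁻¹ • N (f i)).coeff k ∈ Set.Icc (-1 : ℝ) 1 := by
      filter_upwards [hδ, hdeg] with i h1 h2
      have h3 : |(N (f i)).coeff k| ≤ δ i := by
        by_cases hk : k < n + 1
        · exact Finset.single_le_sum (f := fun k => |(N (f i)).coeff k|)
            (fun k _ => abs_nonneg _) (Finset.mem_range.2 hk)
        · rw [coeff_eq_zero_of_natDegree_lt (by omega), abs_zero]; exact h1.le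
      rw [Set.mem_Icc, ← abs_le, coeff_smul, smul_eq_mul, abs_mul, abs_of_pos (inv_pos.2 h1),
        inv_mul_le_iff₀ h1, mul_one]
      exact h3
    obtain ⟨a, -, ha⟩ := isCompact_Icc.ultrafilter_le_nhds
      (l.map (fun i => ((δ i)⁻¹ • N (f i)).coeff k)) (le_principal_iff.2 hb)
    exact ⟨a, ha⟩
  choose a ha using hlim
  let h : ℝ[X] := ∑ k ∈ Finset.range (n + 1), monomial k (a k)
  have hh : ∀ k, h.coeff k = if k < n + 1 then a k else 0 := by
    intro k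
    simp only [h, finsetSum_coeff, coeff_monomial, Finset.sum_ite_eq', Finset.mem_range]
  have hhn : h.natDegree ≤ n := by
    rw [natDegree_le_iff_coeff_eq_zero]
    intro k hk
    rw [hh, if_neg (by omega)]
  have hcv : Cv l (fun i => (δ i)⁻¹ • N (f i)) h := by
    intro k
    rw [hh]
    split_ifs with hk
    · exact ha k
    · refine tendsto_const_nhds.congr' ?_
      filter_upwards [hdeg] with i h2
      rw [coeff_smul, coeff_eq_zero_of_natDegree_lt (by omega), smul_zero]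
  have hdeg' : ∀ᶠ i in (l : Filter ι), ((δ i)⁻¹ • N (f i)).natDegree ≤ n := by
    filter_upwards [hdeg] with i h2
    exact (natDegree_smul_le _ _).trans h2
  refine ⟨δ, fun i => g (f i), h, hδ, fun i => (g (f i)).2, hhn, fun hmem => ?_, hcv, ?_⟩
  · have h1 : ∀ k, h.coeff k = 0 := by
      intro k
      have h2 := hcv.lin hdeg' hhn (lcoeff ℝ k ∘ₗ N)
      simp only [LinearMap.comp_apply, map_smul, hNN, hN0 h hmem, map_zero, lcoeff_apply] at h2
      exact tendsto_nhds_unique (hcv k) h2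
    have h2 : Tendsto (fun i => ∑ k ∈ Finset.range (n + 1), |((δ i)⁻¹ • N (f i)).coeff k|) l
        (𝓝 (∑ k ∈ Finset.range (n + 1), |h.coeff k|)) :=
      tendsto_finsetSum _ (fun k _ => (hcv k).abs)
    have h3 : Tendsto (fun i => ∑ k ∈ Finset.range (n + 1), |((δ i)⁻¹ • N (f i)).coeff k|) l
        (𝓝 1) := by
      refine tendsto_const_nhds.congr' ?_
      filter_upwards [hδ] with i h4
      simp only [coeff_smul, smul_eq_mul, abs_mul, abs_of_pos (inv_pos.2 h4), ← Finset.mul_sum]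
      exact (inv_mul_cancel₀ h4.ne').symm
    have h4 := tendsto_nhds_unique h2 h3
    simp [h1] at h4
  · have h1 : Tendsto (fun i => δ i / γ i) l (𝓝 0) := by
      have h2 : ∀ k, Tendsto (fun i => |(γ i)⁻¹ * (N (f i)).coeff k|) l (𝓝 0) := by
        intro k
        have h3 := (hc.lin (n := n) (by
          filter_upwards [hf] with i hi
          exact natDegree_smul_sub_le _ hi.1 (hU _ (hu i))) (by simp) (lcoeff ℝ k ∘ₗ N)).abs
        simpa only [LinearMap.comp_apply, map_smul, map_sub, hN0 _ (hu _), map_zero, lcoeff_apply,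
          sub_zero, smul_eq_mul, abs_zero] using h3
      have h3 := tendsto_finsetSum (Finset.range (n + 1)) (fun k _ => h2 k)
      rw [Finset.sum_const_zero] at h3
      refine h3.congr' ?_
      filter_upwards [hγ] with i h4
      simp only [abs_mul, abs_of_pos (inv_pos.2 h4), ← Finset.mul_sum]
      rw [div_eq_inv_mul]
    have h2 : Tendsto (fun i => δ i / γ i) l (𝓝[>] 0) := by
      refine tendsto_nhdsWithin_iff.2 ⟨h1, ?_⟩
      filter_upwards [hγ, hδ] with i h3 h4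
      exact div_pos h4 h3
    refine h2.inv_tendsto_nhdsGT_zero.congr (fun i => ?_)
    simp

end Pool.Agent.Lib.MP_7a4764_an.H57
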