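import Mathlib
import Pool.Agent.Lib.MP_7a4764_an.H57Closed

set_option autoImplicit false

/-!
The inductive step of the closedness theorem.
-/

namespace Pool.Agent.Lib.MP_7a4764_an.H57

open Polynomial Filter Topology

/-- The hypotheses on the family. -/
def Fam {ι : Type} (l : Filter ι) (f : ι → ℝ[X]) (K : Submodule ℝ ℝ[X]) (n : ℕ) : Prop :=
  ∀ᶠ i in l, (f i).Splits ∧ (f i).natDegree ≤ n ∧ Sg 1 (taylor 0 (f i)) ∧
    Sg (-1) (taylor (-1) (f i)) ∧ f i ∉ K

theorem step {ι : Type} (l : Ultrafilter ι) {f : ι → ℝ[X]} {K : Submodule ℝ ℝ[X]} {n : ℕ}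
    (hf : Fam l f K n) {w q : ℝ[X]} (hs : St l f K n w q) :
    Concl l f K n ∨ ∃ w' q', St l f K n w' q' ∧ w'.natDegree < w.natDegree := by
  classical
  obtain ⟨hw0, hws, hwi, hq, hwq, hdeg, hK, γ, u, hγ, hu, hcv, hroot⟩ := hs
  let U : Submodule ℝ ℝ[X] :=
    { carrier := {g | g ∈ K ∧ w ∣ g ∧ g.natDegree ≤ n}
      add_mem' := fun ha hb => ⟨K.add_mem ha.1 hb.1, dvd_add ha.2.1 hb.2.1,
        (natDegree_add_le _ _).trans (max_le ha.2.2 hb.2.2)⟩
      zero_mem' := ⟨K.zero_mem, dvd_zero _, by simp⟩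
      smul_mem' := fun c x hx => ⟨K.smul_mem c hx.1, dvd_smul_of_dvd c hx.2.1,
        (natDegree_smul_le _ _).trans hx.2.2⟩ }
  obtain ⟨δ, v, h, hδ, hv, hhn, hhU, hcv', htop⟩ := next_direction l U (fun g hg => hg.2.2)
    (by filter_upwards [hf] with i hi; exact ⟨hi.2.1, fun h => hi.2.2.2.2 h.1⟩) hγ hu hcv
  have hh0 : h ≠ 0 := by rintro rfl; exact hhU U.zero_mem
  have hdeg' : ∀ᶠ i in (l : Filter ι), ((δ i)⁻¹ • (f i - v i)).natDegree ≤ n := by
    filter_upwards [hf] with i hi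
    exact natDegree_smul_sub_le _ hi.2.1 (hv i).2.2
  have conv : ∀ (ρ : ℝ) (m j : ℕ) (G : ℝ[X]), w = (X - C ρ) ^ m * G → j < m →
      Tendsto (fun i => (taylor ρ (f i)).coeff j / δ i) l (𝓝 ((taylor ρ h).coeff j)) := by
    intro ρ m j G hG hj
    refine (hcv'.lin hdeg' hhn (lcoeff ℝ j ∘ₗ taylor ρ)).congr (fun i => ?_)
    obtain ⟨r, hr⟩ := (hv i).2.1
    have h1 : (taylor ρ (v i)).coeff j = 0 := by
      rw [hr, hG, mul_assoc]; exact (taylor_coeff_pow_mul ρ m _).2 j hj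
    simp only [LinearMap.comp_apply, map_smul, map_sub, lcoeff_apply, h1, sub_zero, smul_eq_mul]
    rw [div_eq_inv_mul]
  obtain ⟨e, H, hwe, hhH, hun⟩ := extract_gcd w h
  set w' := gcd w h with hw'
  clear_value w'
  have hcop : ∀ ρ : ℝ, e.eval ρ = 0 → H.eval ρ ≠ 0 := by
    intro ρ h1 h2
    exact not_isUnit_X_sub_C ρ (isUnit_of_dvd_unit
      (dvd_gcd (dvd_iff_isRoot.2 h1) (dvd_iff_isRoot.2 h2)) hun)
  have hw'0 : w' ≠ 0 := by rintro rfl; simp at hwe; exact hw0 hwe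
  have he0 : e ≠ 0 := by rintro rfl; simp at hwe; exact hw0 hwe
  have hH0 : H ≠ 0 := by rintro rfl; simp at hhH; exact hh0 hhH
  have hE0 : e * q ≠ 0 := mul_ne_zero he0 hq.1
  have hp : w * q = w' * (e * q) := by rw [hwe, mul_assoc]
  have hdeg2 : w'.natDegree + (e * q).natDegree = n := by rw [← natDegree_mul hw'0 hE0, ← hp, hdeg]
  have hHd : H.natDegree ≤ (e * q).natDegree := by
    rw [hhH, natDegree_mul hw'0 hH0] at hhn
    omega
  have hew : ∀ ρ : ℝ, e.eval ρ = 0 → w.eval ρ = 0 := fun ρ h1 => by rw [hwe, eval_mul, h1, mul_zero]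
  have hw'w : ∀ ρ : ℝ, w'.eval ρ = 0 → w.eval ρ = 0 := fun ρ h1 => by
    rw [hwe, eval_mul, h1, zero_mul]
  have hloc : ∀ ρ, (e * q).eval ρ = 0 → Loc (e * q) H ρ := by
    intro ρ hρ
    by_cases heρ : e.eval ρ = 0
    swap
    · obtain ⟨r1, r2, G, hG, hqG⟩ := hq.root (ρ := ρ)
        ((mul_eq_zero.1 (by rwa [eval_mul] at hρ)).resolve_left heρ)
      refine ⟨e * G, by rw [eval_mul]; exact mul_ne_zero heρ hG, Or.inl ⟨?_, r1.le, r2.le,
        fun h => absurd h r2.ne, fun h => absurd h r1.ne'⟩⟩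
      rw [hqG]; ring
    obtain ⟨μ, e₁, he₁, he₁'⟩ := exists_factor he0 ρ
    obtain ⟨m, w₁, hw₁, hw₁'⟩ := exists_factor hw'0 ρ
    have hμ : 0 < μ := by
      rcases Nat.eq_zero_or_pos μ with rfl | h1
      · rw [pow_zero, one_mul] at he₁; exact absurd (he₁ ▸ heρ) he₁'
      · exact h1
    have hwf : w = (X - C ρ) ^ (m + μ) * (w₁ * e₁) := by rw [hwe, hw₁, he₁]; ring
    have hqρ := hwq ρ (hew ρ heρ)
    have hHρ := hcop ρ heρ
    obtain ⟨c, hc, hcl⟩ := hroot ρ (m + μ) _ hwf (by rw [eval_mul]; exact mul_ne_zero hw₁' he₁')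
      (by omega)
    set b := (w₁ * e₁).eval ρ * q.eval ρ with hb
    have hbt : Tendsto (fun i => b * (taylor ρ (f i)).coeff (m + μ) / δ i) l atTop := by
      refine tendsto_atTop_mono' _ ?_ (htop.const_mul_atTop hc)
      filter_upwards [hcl, hγ, hδ] with i h1 h2 h3
      have : b * (taylor ρ (f i)).coeff (m + μ) / δ i =
          b * (taylor ρ (f i)).coeff (m + μ) / γ i * (γ i / δ i) := by field_simp
      rw [this]
      exact mul_le_mul_of_nonneg_right h1 (by positivity)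
    have hα : (taylor ρ h).coeff m = w₁.eval ρ * H.eval ρ := by
      rw [hhH, hw₁, mul_assoc, (taylor_coeff_pow_mul ρ m _).1, eval_mul]
    have hα0 : (taylor ρ h).coeff m ≠ 0 := hα ▸ mul_ne_zero hw₁' hHρ
    have hbα : b * (taylor ρ h).coeff m = w₁.eval ρ ^ 2 * (H.eval ρ * (e₁ * q).eval ρ) := by
      rw [hα, hb, eval_mul, eval_mul]; ring
    have hw2 : 0 < w₁.eval ρ ^ 2 := by positivity
    have hne : H.eval ρ * (e₁ * q).eval ρ ≠ 0 := by
      rw [eval_mul]; exact mul_ne_zero hHρ (mul_ne_zero he₁' hqρ)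
    obtain ⟨o1, o2⟩ := limit_order (l := l) (F := fun i => taylor ρ (f i)) (n := n)
      (by filter_upwards [hf] with i hi; exact ⟨hi.1.taylor ρ, by rw [natDegree_taylor]; exact hi.2.1⟩)
      (α := fun j => (taylor ρ h).coeff j) (fun j hj => conv ρ _ j _ hwf hj) hbt hα0
    have s0 : ρ = 0 → 0 ≤ H.eval ρ * (e₁ * q).eval ρ := by
      intro h0
      have := limit_sign (l := l) (F := fun i => taylor ρ (f i)) (τ := 1) (by norm_num)
        (by filter_upwards [hf] with i hi; rw [h0]; exact hi.2.2.1) hδ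
        (conv ρ _ m _ hwf (by omega)) hbt
      rw [one_pow, one_mul, hbα] at this
      exact (mul_nonneg_iff_of_pos_left hw2).1 this
    have s1 : ρ = -1 → 0 ≤ (-1) ^ μ * (H.eval ρ * (e₁ * q).eval ρ) := by
      intro h0
      have := limit_sign (l := l) (F := fun i => taylor ρ (f i)) (τ := -1) (by norm_num)
        (by filter_upwards [hf] with i hi; rw [h0]; exact hi.2.2.2.1) hδ
        (conv ρ _ m _ hwf (by omega)) hbt
      rw [hbα, mul_left_comm] at this
      exact (mul_nonneg_iff_of_pos_left hw2).1 this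
    obtain ⟨r1, r2⟩ := hwi ρ (hew ρ heρ)
    refine ⟨e₁ * q, right_ne_zero_of_mul hne, ?_⟩
    obtain rfl | rfl : μ = 1 ∨ μ = 2 := by omega
    · refine Or.inl ⟨by rw [he₁]; ring, r1, r2, fun h0 => lt_of_le_of_ne (s0 h0) hne.symm,
        fun h0 => lt_of_le_of_ne ?_ hne⟩
      have := s1 h0
      linarith
    · have h1 := o2 rfl
      rw [hbα] at h1
      have h2 : H.eval ρ * (e₁ * q).eval ρ < 0 := by
        by_contra hcon
        exact absurd (mul_nonneg hw2.le (not_lt.1 hcon)) (not_le.2 h1)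
      refine Or.inr ⟨by rw [he₁]; ring, lt_of_le_of_ne r1 (fun h0 => ?_),
        lt_of_le_of_ne r2 (fun h0 => ?_), h2⟩
      · have := s1 h0.symm
        linarith
      · have := s0 h0
        linarith
  have hEs : (e * q).Splits := (hws.of_dvd hw0 ⟨w', by rw [hwe, mul_comm]⟩).mul hq.splits
  have hsign : ∀ᶠ ε in 𝓝[>] (0 : ℝ), ∀ ρ ∈ w.roots.toFinset, (e * q).eval ρ ≠ 0 →
      0 < (e * q + C ε * H).eval ρ * (e * q).eval ρ := by
    rw [eventually_all_finset]
    intro ρ _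
    by_cases h1 : (e * q).eval ρ = 0
    · exact Eventually.of_forall (fun _ h2 => absurd h1 h2)
    · filter_upwards [((tendsto_eval_perturb (e * q) H ρ).mul_const ((e * q).eval ρ)).eventually
        (lt_mem_nhds (mul_self_pos.2 h1))] with ε h2 _
      exact h2
  obtain ⟨ε, ⟨⟨hq', hq'd⟩, hsg⟩, hε⟩ := (((perturb hE0 hEs hHd hloc).and hsign).and
    self_mem_nhdsWithin).exists
  have hε' : 0 < ε := hε
  set q' := e * q + C ε * H with hq'def
  have hp' : w' * q' = w * q + ε • h := by rw [hp, hhH, hq'def, smul_eq_C_mul]; ring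
  have hw's : w'.Splits := hws.of_dvd hw0 ⟨e, hwe⟩
  have hw'i : In0 w' := fun ρ h1 => hwi ρ (hw'w ρ h1)
  have hdeg3 : (w' * q').natDegree = n := by rw [natDegree_mul hw'0 hq'.1, hq'd, hdeg2]
  by_cases hhK : h ∈ K
  swap
  · refine Or.inl ⟨w' * q', hw's.mul hq'.splits, fun ρ h1 => ?_, hdeg3, fun h1 => hhK ?_,
      fun i => ε / δ i, fun i => v i - (δ i / ε) • (w * q), fun i => ⟨K.sub_mem (hv i).1
        (K.smul_mem _ hK), (natDegree_sub_le _ _).trans (max_le (hv i).2.2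
          ((natDegree_smul_le _ _).trans hdeg.le))⟩, fun k => ?_⟩
    · rw [eval_mul] at h1
      rcases mul_eq_zero.1 h1 with h2 | h2
      · exact hw'i ρ h2
      · exact ⟨(hq'.root h2).1.le, (hq'.root h2).2.1.le⟩
    · rw [hp'] at h1
      exact (K.smul_mem_iff hε'.ne').1 ((K.add_mem_iff_right hK).1 h1)
    · rw [hp', coeff_add, coeff_smul, smul_eq_mul]
      refine (((hcv' k).const_mul ε).const_add ((w * q).coeff k)).congr' ?_
      filter_upwards [hδ] with i h1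
      simp only [coeff_smul, coeff_sub, smul_eq_mul]
      field_simp
      ring
  have hq'e : ∀ ρ : ℝ, e.eval ρ = 0 → q'.eval ρ = ε * H.eval ρ := fun ρ h1 => by
    simp [hq'def, h1]
  have hq's : ∀ ρ : ℝ, w'.eval ρ = 0 → e.eval ρ ≠ 0 → 0 < q'.eval ρ * (e.eval ρ * q.eval ρ) := by
    intro ρ h1 h2
    have h3 := hsg ρ (Multiset.mem_toFinset.2 ((mem_roots hw0).2 (hw'w ρ h1)))
      (by rw [eval_mul]; exact mul_ne_zero h2 (hwq ρ (hw'w ρ h1)))
    rwa [eval_mul (p := e)] at h3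
  refine Or.inr ⟨w', q', ⟨hw'0, hw's, hw'i, hq', fun ρ h1 => ?_, hdeg3, ?_, δ,
    fun i => v i + δ i • h, hδ, fun i => ⟨K.add_mem (hv i).1 (K.smul_mem _ hhK),
      dvd_add (dvd_trans ⟨e, hwe⟩ (hv i).2.1) (dvd_smul_of_dvd _ ⟨H, hhH⟩),
      (natDegree_add_le _ _).trans (max_le (hv i).2.2 ((natDegree_smul_le _ _).trans hhn))⟩,
    fun k => ?_, fun ρ m G hG hG' hm => ?_⟩, ?_⟩
  · by_cases h2 : e.eval ρ = 0
    · rw [hq'e ρ h2]; exact mul_ne_zero hε'.ne' (hcop ρ h2)
    · exact left_ne_zero_of_mul (hq's ρ h1 h2).ne'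
  · rw [hp']; exact K.add_mem hK (K.smul_mem _ hhK)
  · have h1 := (hcv' k).sub_const (h.coeff k)
    rw [sub_self] at h1
    rw [coeff_zero]
    refine h1.congr' ?_
    filter_upwards [hδ] with i h2
    simp only [coeff_smul, coeff_sub, coeff_add, smul_eq_mul]
    field_simp
    ring
  · have hρ : w'.eval ρ = 0 := by rw [hG]; simp [hm.ne']
    by_cases h2 : e.eval ρ = 0
    · obtain ⟨e₁, he₁⟩ := dvd_iff_isRoot.2 h2
      have hwf : w = (X - C ρ) ^ (m + 1) * (G * e₁) := by rw [hwe, hG, he₁]; ring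
      have hα : (taylor ρ h).coeff m = G.eval ρ * H.eval ρ := by
        rw [hhH, hG, mul_assoc, (taylor_coeff_pow_mul ρ m _).1, eval_mul]
      have h3 := (conv ρ _ m _ hwf (by omega)).const_mul (G.eval ρ * q'.eval ρ)
      have h4 : 0 < G.eval ρ * q'.eval ρ * (taylor ρ h).coeff m := by
        rw [hα, hq'e ρ h2]
        have := mul_pos hε' (mul_self_pos.2 (mul_ne_zero hG' (hcop ρ h2)))
        linarith [this]
      refine ⟨_, half_pos h4, ?_⟩
      filter_upwards [h3.eventually (lt_mem_nhds (half_lt_self h4))] with i h5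
      exact h5.le.trans_eq (mul_div_assoc _ _ _).symm
    · have hwf : w = (X - C ρ) ^ m * (G * e) := by rw [hwe, hG]; ring
      obtain ⟨c, hc, hcl⟩ := hroot ρ m _ hwf (by rw [eval_mul]; exact mul_ne_zero hG' h2) hm
      have h3 := hq's ρ hρ h2
      have h4 : e.eval ρ * q.eval ρ ≠ 0 := right_ne_zero_of_mul h3.ne'
      have h5 : 0 < q'.eval ρ / (e.eval ρ * q.eval ρ) := div_pos_iff.2 (mul_pos_iff.1 h3)
      refine ⟨_, mul_pos h5 hc, ?_⟩
      filter_upwards [hcl, hγ, hδ, htop.eventually_ge_atTop 1] with i h6 h7 h8 h9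
      have h10 : G.eval ρ * q'.eval ρ * (taylor ρ (f i)).coeff m / δ i =
          q'.eval ρ / (e.eval ρ * q.eval ρ) *
            ((G * e).eval ρ * q.eval ρ * (taylor ρ (f i)).coeff m / γ i * (γ i / δ i)) := by
        have := right_ne_zero_of_mul h4
        rw [eval_mul]; field_simp
      rw [h10]
      refine mul_le_mul_of_nonneg_left ?_ h5.le
      nlinarith
  · by_contra hcon
    have h1 : e.natDegree = 0 := by
      rw [hwe, natDegree_mul hw'0 he0] at hcon
      omega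
    have h2 : IsUnit e := by
      rw [eq_C_of_natDegree_eq_zero h1] at he0 ⊢
      exact isUnit_C.2 (Ne.isUnit (C_ne_zero.1 he0))
    refine hhU ⟨hhK, ?_, hhn⟩
    rw [hwe, h2.mul_right_dvd]
    exact ⟨H, hhH⟩

theorem concl_of_st {ι : Type} (l : Ultrafilter ι) {f : ι → ℝ[X]} {K : Submodule ℝ ℝ[X]} {n : ℕ}
    (hf : Fam l f K n) (d : ℕ) : ∀ w q : ℝ[X], w.natDegree = d → St l f K n w q →
      Concl l f K n := by
  induction d using Nat.strong_induction_on with
  | _ d ih =>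
    intro w q hd hs
    rcases step l hf hs with h | ⟨w', q', h1, h2⟩
    · exact h
    · exact ih _ (hd ▸ h2) w' q' rfl h1

end Pool.Agent.Lib.MP_7a4764_an.H57
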