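import Mathlib
import Pool.Agent.Lib.MP_7a4764_an.Basic

set_option autoImplicit false

/-!
Extreme points of a slice of codimension two have at most two distinct negative roots.
-/

namespace Pool.Agent.Lib.MP_7a4764_an

open Polynomial Filter Topology

theorem cubic_D {p : ℝ[X]} (hp : p.natDegree ≤ 3) (h1 : p.eval 1 = 1) {y₀ y₁ y₂ y₃ : ℝ}
    (h01 : y₀ < y₁) (h12 : y₁ < y₂) (h23 : y₂ < y₃) (h3 : y₃ ≤ 0)
    (e₀ : p.eval y₀ < 0) (e₁ : 0 < p.eval y₁) (e₂ : p.eval y₂ < 0) (e₃ : 0 < p.eval y₃) :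
    D 3 p := by
  classical
  have hc : Continuous (fun x => p.eval x) := p.continuous
  obtain ⟨r₁, hr₁, z₁⟩ := intermediate_value_Ioo h01.le hc.continuousOn ⟨e₀, e₁⟩
  obtain ⟨r₂, hr₂, z₂⟩ := intermediate_value_Ioo' h12.le hc.continuousOn ⟨e₂, e₁⟩
  obtain ⟨r₃, hr₃, z₃⟩ := intermediate_value_Ioo h23.le hc.continuousOn ⟨e₂, e₃⟩
  have h0 : p ≠ 0 := by rintro rfl; simp at h1
  have hsub : ({r₁, r₂, r₃} : Finset ℝ) ⊆ p.roots.toFinset := by
    intro r hr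
    simp only [Finset.mem_insert, Finset.mem_singleton] at hr
    rw [Multiset.mem_toFinset, mem_roots h0]
    rcases hr with rfl | rfl | rfl <;> assumption
  have hcard : ({r₁, r₂, r₃} : Finset ℝ).card = 3 := by
    rw [Finset.card_eq_three]
    exact ⟨r₁, r₂, r₃, by linarith [hr₁.2, hr₂.1], by linarith [hr₁.2, hr₃.1],
      by linarith [hr₂.2, hr₃.1], rfl⟩
  have h4 := Finset.card_le_card hsub
  have h5 := Multiset.toFinset_card_le p.roots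
  have h6 := card_roots' p
  have hs : p.Splits := splits_iff_card_roots.2 (by omega)
  have heq := Finset.eq_of_subset_of_card_le hsub (by omega)
  obtain ⟨g, hg, hpg⟩ := exists_D_of_splits hs (n := 3) (fun r hr => by
    have : r ∈ ({r₁, r₂, r₃} : Finset ℝ) := heq ▸ Multiset.mem_toFinset.2 hr
    simp only [Finset.mem_insert, Finset.mem_singleton] at this
    rcases this with rfl | rfl | rfl <;> linarith [hr₁.2, hr₂.2, hr₃.2]) hp
  rw [h1, C_1, one_mul] at hpg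
  rwa [hpg]

theorem eval_L_neg {s x : ℝ} (hs : 0 < s) (hx : x < 1 - 1 / s) : (L s).eval x < 0 := by
  rw [eval_L]
  have : s * x < s * (1 - 1 / s) := mul_lt_mul_of_pos_left hx hs
  rw [mul_sub, mul_one_div_cancel hs.ne'] at this
  linarith

theorem eval_L_pos {s x : ℝ} (hs : 0 < s) (hx : 1 - 1 / s < x) : 0 < (L s).eval x := by
  rw [eval_L]
  have : s * (1 - 1 / s) < s * x := mul_lt_mul_of_pos_left hx hs
  rw [mul_sub, mul_one_div_cancel hs.ne'] at this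
  linarith

theorem cubic_perturb {a b c : ℝ} (ha : 0 < a) (hab : a < b) (hbc : b < c) (hc : c < 1)
    {q : ℝ[X]} (hq : q.natDegree ≤ 3) (hq1 : q.eval 1 = 0) :
    ∀ᶠ ε in 𝓝 (0 : ℝ), D 3 (L a * L b * L c + C ε * q) := by
  have hb : 0 < b := ha.trans hab
  have hc0 : 0 < c := hb.trans hbc
  have r1 : 1 - 1 / a < 1 - 1 / b := by have := one_div_lt_one_div_of_lt ha hab; linarith
  have r2 : 1 - 1 / b < 1 - 1 / c := by have := one_div_lt_one_div_of_lt hb hbc; linarith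
  have r3 : 1 - 1 / c < 0 := by have := one_lt_one_div hc0 hc; linarith
  set p := L a * L b * L c with hp
  have hcont : ∀ y : ℝ, Tendsto (fun ε : ℝ => (p + C ε * q).eval y) (𝓝 0) (𝓝 (p.eval y)) := by
    intro y
    have : Continuous (fun ε : ℝ => (p + C ε * q).eval y) := by
      simp only [eval_add, eval_mul, eval_C]; fun_prop
    simpa using this.tendsto 0
  let y₀ := (1 - 1 / a) - 1
  let y₁ := ((1 - 1 / a) + (1 - 1 / b)) / 2
  let y₂ := ((1 - 1 / b) + (1 - 1 / c)) / 2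
  have e₀ : p.eval y₀ < 0 := by
    rw [hp, eval_mul, eval_mul]
    exact mul_neg_of_pos_of_neg (mul_pos_of_neg_of_neg (eval_L_neg ha (by simp only [y₀]; linarith))
      (eval_L_neg hb (by simp only [y₀]; linarith))) (eval_L_neg hc0 (by simp only [y₀]; linarith))
  have e₁ : 0 < p.eval y₁ := by
    rw [hp, eval_mul, eval_mul]
    exact mul_pos_of_neg_of_neg (mul_neg_of_pos_of_neg (eval_L_pos ha (by simp only [y₁]; linarith))
      (eval_L_neg hb (by simp only [y₁]; linarith))) (eval_L_neg hc0 (by simp only [y₁]; linarith))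
  have e₂ : p.eval y₂ < 0 := by
    rw [hp, eval_mul, eval_mul]
    exact mul_neg_of_pos_of_neg (mul_pos (eval_L_pos ha (by simp only [y₂]; linarith))
      (eval_L_pos hb (by simp only [y₂]; linarith))) (eval_L_neg hc0 (by simp only [y₂]; linarith))
  have e₃ : 0 < p.eval 0 := by
    rw [hp, eval_mul, eval_mul]
    exact mul_pos (mul_pos (eval_L_pos ha (by linarith))
      (eval_L_pos hb (by linarith))) (eval_L_pos hc0 (by linarith))
  filter_upwards [(hcont y₀).eventually (gt_mem_nhds e₀), (hcont y₁).eventually (lt_mem_nhds e₁),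
    (hcont y₂).eventually (gt_mem_nhds e₂), (hcont 0).eventually (lt_mem_nhds e₃)]
    with ε f₀ f₁ f₂ f₃
  refine cubic_D ?_ ?_ (y₀ := y₀) (y₁ := y₁) (y₂ := y₂) (y₃ := 0) (by simp only [y₀, y₁]; linarith)
    (by simp only [y₁, y₂]; linarith) (by simp only [y₂]; linarith) le_rfl f₀ f₁ f₂ f₃
  · refine (natDegree_add_le _ _).trans (max_le ?_ ((natDegree_C_mul_le _ _).trans hq))
    have h1 := natDegree_L_le a
    have h2 := natDegree_L_le b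
    have h3 := natDegree_L_le c
    have h4 := natDegree_mul_le (p := L a * L b) (q := L c)
    have h5 := natDegree_mul_le (p := L a) (q := L b)
    rw [hp]
    omega
  · simp [hp, hq1]

/-- Three linear conditions on cubics have a nonzero solution. -/
theorem exists_cubic (φ₁ φ₂ φ₃ : ℝ[X] →ₗ[ℝ] ℝ) :
    ∃ q : ℝ[X], q ≠ 0 ∧ q.natDegree ≤ 3 ∧ φ₁ q = 0 ∧ φ₂ q = 0 ∧ φ₃ q = 0 := by
  let Φ : degreeLT ℝ 4 →ₗ[ℝ] ℝ × ℝ × ℝ := (φ₁.prod (φ₂.prod φ₃)) ∘ₗ (degreeLT ℝ 4).subtype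
  have hker : LinearMap.ker Φ ≠ ⊥ := by
    refine LinearMap.ker_ne_bot_of_finrank_lt ?_
    rw [(degreeLTEquiv ℝ 4).finrank_eq]
    simp
  obtain ⟨q, hq, hq0⟩ := (Submodule.ne_bot_iff _).1 hker
  have h1 : (φ₁ q, φ₂ q, φ₃ q) = (0, 0, 0) := hq
  simp only [Prod.mk.injEq] at h1
  refine ⟨q, fun h => hq0 (Subtype.ext h), ?_, h1.1, h1.2.1, h1.2.2⟩
  have := mem_degreeLT.1 q.2
  refine natDegree_le_iff_degree_le.2 ?_
  exact Order.le_of_lt_succ (lt_of_lt_of_eq this rfl)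

theorem D.mul {m n : ℕ} {f g : ℝ[X]} (hf : D m f) (hg : D n g) : D (m + n) (f * g) := by
  obtain ⟨S, rfl, hS, rfl⟩ := hf
  obtain ⟨R, rfl, hR, rfl⟩ := hg
  refine ⟨S + R, by simp, fun s hs => ?_, (P_add _ _).symm⟩
  rcases Multiset.mem_add.1 hs with h | h
  exacts [hS s h, hR s h]

/-- If three distinct values strictly between zero and one occur, then the product is the
midpoint of a segment of the slice. -/
theorem exists_segment (φ₁ φ₂ : ℝ[X] →ₗ[ℝ] ℝ) {S : Multiset ℝ} (hS : ∀ s ∈ S, 0 ≤ s ∧ s ≤ 1)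
    {a b c : ℝ} (ha : 0 < a) (hab : a < b) (hbc : b < c) (hc : c < 1)
    (haS : a ∈ S) (hbS : b ∈ S) (hcS : c ∈ S) :
    ∃ d : ℝ[X], d ≠ 0 ∧ d.natDegree ≤ S.card ∧ φ₁ d = 0 ∧ φ₂ d = 0 ∧
      D S.card (P S + d) ∧ D S.card (P S - d) := by
  classical
  obtain ⟨S₁, rfl⟩ := Multiset.exists_cons_of_mem haS
  obtain ⟨S₂, rfl⟩ := Multiset.exists_cons_of_mem
    ((Multiset.mem_cons.1 hbS).resolve_left hab.ne')
  obtain ⟨R, rfl⟩ := Multiset.exists_cons_of_mem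
    ((Multiset.mem_cons.1 ((Multiset.mem_cons.1 hcS).resolve_left
      (hab.trans hbc).ne')).resolve_left hbc.ne')
  have hR : D R.card (P R) := ⟨R, rfl, fun s hs => hS s (by simp [hs]), rfl⟩
  obtain ⟨q, hq0, hq3, h1, h2, h3⟩ := exists_cubic (φ₁ ∘ₗ LinearMap.mulRight ℝ (P R))
    (φ₂ ∘ₗ LinearMap.mulRight ℝ (P R)) (leval 1)
  have hev := cubic_perturb ha hab hbc hc hq3 (by simpa using h3)
  have hneg : ∀ᶠ ε in 𝓝 (0 : ℝ), D 3 (L a * L b * L c + C (-ε) * q) := by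
    have : Tendsto (fun ε : ℝ => -ε) (𝓝 0) (𝓝 0) := by simpa using (continuous_neg.tendsto (0 : ℝ))
    exact this.eventually hev
  obtain ⟨ε, ⟨hε1, hε2⟩, hε0⟩ :=
    (((hev.and hneg).filter_mono (nhdsWithin_le_nhds (s := {0}ᶜ))).and self_mem_nhdsWithin).exists
  have hε0' : ε ≠ 0 := hε0
  have hcard : (a ::ₘ b ::ₘ c ::ₘ R).card = 3 + R.card := by simp; omega
  refine ⟨C ε * (q * P R), mul_ne_zero (C_ne_zero.2 hε0') (mul_ne_zero hq0 (P_ne_zero R)),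
    ?_, ?_, ?_, ?_, ?_⟩
  · rw [hcard]
    have := natDegree_P_le R
    exact (natDegree_C_mul_le _ _).trans (natDegree_mul_le.trans (by omega))
  · rw [C_mul', map_smul, show φ₁ (q * P R) = 0 from h1, smul_zero]
  · rw [C_mul', map_smul, show φ₂ (q * P R) = 0 from h2, smul_zero]
  · rw [hcard]
    convert hε1.mul hR using 1
    simp only [P_cons]; ring
  · rw [hcard]
    convert hε2.mul hR using 1
    simp only [P_cons, C_neg]; ring

/-- If only two values strictly between zero and one occur, the product is a test polynomial. -/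
theorem P_eq_test {σ τ : ℝ} (hσ : 0 < σ) (hτ : 0 < τ) (S : Multiset ℝ)
    (hS : ∀ s ∈ S, s = 0 ∨ s = 1 ∨ s = σ ∨ s = τ) :
    ∃ (κ : ℝ) (a b c : ℕ), a + b + c ≤ S.card ∧
      P S = C κ * (X ^ a * (X + C ((1 - σ) / σ)) ^ b * (X + C ((1 - τ) / τ)) ^ c) := by
  induction S using Multiset.induction_on with
  | empty => exact ⟨1, 0, 0, 0, by simp, by simp⟩
  | cons s S ih =>
    obtain ⟨κ, a, b, c, habc, h⟩ := ih (fun s hs => hS s (Multiset.mem_cons_of_mem hs))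
    rw [P_cons, h, Multiset.card_cons]
    rcases hS s (Multiset.mem_cons_self _ _) with rfl | rfl | rfl | rfl
    · exact ⟨κ, a, b, c, by omega, by simp⟩
    · exact ⟨κ, a + 1, b, c, by omega, by rw [L_one]; ring⟩
    · exact ⟨s * κ, a, b + 1, c, by omega, by rw [L_eq hσ.ne', C_mul]; ring⟩
    · exact ⟨s * κ, a, b, c + 1, by omega, by rw [L_eq hτ.ne', C_mul]; ring⟩

theorem two_or_three (S : Multiset ℝ) (hS : ∀ s ∈ S, 0 ≤ s ∧ s ≤ 1) :
    (∃ σ τ : ℝ, 0 < σ ∧ σ < 1 ∧ 0 < τ ∧ τ < 1 ∧ ∀ s ∈ S, s = 0 ∨ s = 1 ∨ s = σ ∨ s = τ) ∨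
    ∃ a b c : ℝ, 0 < a ∧ a < b ∧ b < c ∧ c < 1 ∧ a ∈ S ∧ b ∈ S ∧ c ∈ S := by
  classical
  let F := S.toFinset.filter (fun s => 0 < s ∧ s < 1)
  have hF : ∀ s, s ∈ F ↔ s ∈ S ∧ 0 < s ∧ s < 1 := by simp [F]
  rcases F.eq_empty_or_nonempty with h0 | hne
  · refine Or.inl ⟨1 / 2, 1 / 2, by norm_num, by norm_num, by norm_num, by norm_num, fun s hs => ?_⟩
    have : s ∉ F := by simp [h0]
    rw [hF] at this
    have h := hS s hs
    by_contra hcon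
    push Not at hcon
    exact this ⟨hs, lt_of_le_of_ne h.1 hcon.1.symm, lt_of_le_of_ne h.2 hcon.2.1⟩
  · have h1 := (hF _).1 (F.min'_mem hne)
    have h2 := (hF _).1 (F.max'_mem hne)
    by_cases h : ∀ s ∈ F, s = F.min' hne ∨ s = F.max' hne
    · refine Or.inl ⟨F.min' hne, F.max' hne, h1.2.1, h1.2.2, h2.2.1, h2.2.2, fun s hs => ?_⟩
      have h3 := hS s hs
      by_contra hcon
      push Not at hcon
      rcases h s ((hF s).2 ⟨hs, lt_of_le_of_ne h3.1 hcon.1.symm, lt_of_le_of_ne h3.2 hcon.2.1⟩)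
        with h4 | h4
      exacts [hcon.2.2.1 h4, hcon.2.2.2 h4]
    · push Not at h
      obtain ⟨s, hs, hs1, hs2⟩ := h
      exact Or.inr ⟨F.min' hne, s, F.max' hne, h1.2.1, lt_of_le_of_ne (F.min'_le s hs) hs1.symm,
        lt_of_le_of_ne (F.le_max' s hs) hs2, h2.2.2, h1.1, ((hF s).1 hs).1, h2.1⟩

/-- The slice lemma. -/
theorem slice (φ₁ φ₂ ψ : ℝ[X] →ₗ[ℝ] ℝ) {n : ℕ} {f : ℝ[X]} (hf : D n f) (h₁ : φ₁ f = 0)
    (h₂ : φ₂ f = 0) (hψ : ψ f ≠ 0) :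
    ∃ (a b c : ℕ) (u v : ℝ), a + b + c ≤ n ∧ 0 < u ∧ 0 < v ∧
      φ₁ (X ^ a * (X + C u) ^ b * (X + C v) ^ c) = 0 ∧
      φ₂ (X ^ a * (X + C u) ^ b * (X + C v) ^ c) = 0 ∧
      ψ (X ^ a * (X + C u) ^ b * (X + C v) ^ c) ≠ 0 := by
  let Q : (Fin n → ℝ) → ℝ[X] := fun s => ∏ i, L (s i)
  let Ψ : ℝ[X] → ℝ := fun g => ∑ k ∈ Finset.range (n + 1), (g.coeff k) ^ 2
  have hΨc : Continuous (fun s => Ψ (Q s)) :=
    continuous_finsetSum _ (fun k _ => (continuous_lin n (lcoeff ℝ k)).pow 2)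
  let K : Set (Fin n → ℝ) := Set.Icc 0 1 ∩ ({s | φ₁ (Q s) = 0} ∩ {s | φ₂ (Q s) = 0})
  have hK : IsCompact K := isCompact_Icc.inter_right
    ((isClosed_eq (continuous_lin n φ₁) continuous_const).inter
      (isClosed_eq (continuous_lin n φ₂) continuous_const))
  obtain ⟨s₀, hs₀, rfl⟩ := D_iff.1 hf
  have hs₀K : s₀ ∈ K := ⟨hs₀, h₁, h₂⟩
  obtain ⟨s₁, hs₁K, hmax₁⟩ := hK.exists_isMaxOn ⟨s₀, hs₀K⟩
    ((continuous_lin n ψ).pow 2).continuousOn
  let K' : Set (Fin n → ℝ) := K ∩ {s | ψ (Q s) ^ 2 = ψ (Q s₁) ^ 2}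
  have hK' : IsCompact K' := hK.inter_right
    (isClosed_eq ((continuous_lin n ψ).pow 2) continuous_const)
  obtain ⟨s₂, hs₂K, hmax₂⟩ := hK'.exists_isMaxOn ⟨s₁, hs₁K, rfl⟩ hΨc.continuousOn
  have hψ₂ : ψ (Q s₂) ≠ 0 := by
    intro h
    have h3 : ψ (Q s₀) ^ 2 ≤ ψ (Q s₁) ^ 2 := hmax₁ hs₀K
    have h4 : ψ (Q s₂) ^ 2 = ψ (Q s₁) ^ 2 := hs₂K.2
    have h5 : 0 < ψ (Q s₀) ^ 2 := by positivity
    rw [h] at h4
    nlinarith
  obtain ⟨S, hcard, hS, hQS⟩ := D_iff.2 ⟨s₂, hs₂K.1.1, rfl⟩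
  have hQS' : Q s₂ = P S := hQS
  have e₁ : φ₁ (P S) = 0 := hQS' ▸ hs₂K.1.2.1
  have e₂ : φ₂ (P S) = 0 := hQS' ▸ hs₂K.1.2.2
  rcases two_or_three S hS with ⟨σ, τ, hσ, hσ1, hτ, hτ1, h⟩ | ⟨a, b, c, ha, hab, hbc, hc, haS, hbS, hcS⟩
  · obtain ⟨κ, a, b, c, habc, hP⟩ := P_eq_test hσ hτ S h
    rw [hQS'] at hψ₂
    rw [hP, C_mul', map_smul, smul_eq_mul] at e₁ e₂ hψ₂
    have hκ : κ ≠ 0 := left_ne_zero_of_mul hψ₂
    exact ⟨a, b, c, (1 - σ) / σ, (1 - τ) / τ, hcard ▸ habc, div_pos (by linarith) hσ,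
      div_pos (by linarith) hτ, (mul_eq_zero.1 e₁).resolve_left hκ,
      (mul_eq_zero.1 e₂).resolve_left hκ, right_ne_zero_of_mul hψ₂⟩
  · exfalso
    obtain ⟨d, hd0, hdn, hd₁, hd₂, hp, hm⟩ := exists_segment φ₁ φ₂ hS ha hab hbc hc haS hbS hcS
    rw [hcard] at hdn hp hm
    obtain ⟨sp, hsp, hp⟩ := D_iff.1 hp
    obtain ⟨sm, hsm, hm⟩ := D_iff.1 hm
    have hp' : Q sp = P S + d := hp.symm
    have hm' : Q sm = P S - d := hm.symm
    have hspK : sp ∈ K := ⟨hsp, by simp [hp', e₁, hd₁], by simp [hp', e₂, hd₂]⟩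
    have hsmK : sm ∈ K := ⟨hsm, by simp [hm', e₁, hd₁], by simp [hm', e₂, hd₂]⟩
    have i₁ : ψ (Q sp) ^ 2 ≤ ψ (Q s₁) ^ 2 := hmax₁ hspK
    have i₂ : ψ (Q sm) ^ 2 ≤ ψ (Q s₁) ^ 2 := hmax₁ hsmK
    have i₃ : ψ (Q s₂) ^ 2 = ψ (Q s₁) ^ 2 := hs₂K.2
    rw [hp', map_add] at i₁
    rw [hm', map_sub] at i₂
    rw [hQS'] at i₃
    have hψd : ψ d = 0 := by nlinarith [sq_nonneg (ψ d)]
    have j₁ : Ψ (Q sp) ≤ Ψ (Q s₂) := hmax₂ (⟨hspK, by simp [hp', hψd, i₃]⟩ : sp ∈ K')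
    have j₂ : Ψ (Q sm) ≤ Ψ (Q s₂) := hmax₂ (⟨hsmK, by simp [hm', hψd, i₃]⟩ : sm ∈ K')
    have j₃ : Ψ (Q sp) + Ψ (Q sm) = 2 * Ψ (Q s₂) + 2 * Ψ d := by
      simp only [Ψ, hp', hm', hQS', Finset.mul_sum, ← Finset.sum_add_distrib, coeff_add, coeff_sub]
      exact Finset.sum_congr rfl (fun k _ => by ring)
    have j₄ : 0 < Ψ d := by
      refine Finset.sum_pos' (fun k _ => sq_nonneg _) ⟨d.natDegree, by simp; omega, ?_⟩
      have : d.coeff d.natDegree ≠ 0 := leadingCoeff_ne_zero.2 hd0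
      positivity
    linarith

end Pool.Agent.Lib.MP_7a4764_an
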