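import Mathlib
import Pool.Agent.Lib.MP_7a4764_an.Slice

set_option autoImplicit false

/-!
Every nonempty slice of codimension two contains `1` or a polynomial
`X ^ a * (X + u) * (X + v) ^ b` with `0 ≤ u ≤ v`.
-/

namespace Pool.Agent.Lib.MP_7a4764_an

open Polynomial Filter Topology

theorem splits_P (S : Multiset ℝ) : (P S).Splits := by
  induction S using Multiset.induction_on with
  | empty => simp
  | cons s S ih => rw [P_cons]; exact (Splits.of_natDegree_le_one (natDegree_L_le s)).mul ih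

theorem eval_P_pos {S : Multiset ℝ} {m x : ℝ} (hm : 0 < m) (hS : ∀ s ∈ S, 0 ≤ s ∧ s ≤ m)
    (hx : 1 - 1 / m < x) (hx1 : x ≤ 1) : 0 < (P S).eval x := by
  induction S using Multiset.induction_on with
  | empty => simp
  | cons s S ih =>
    rw [P_cons, eval_mul]
    refine mul_pos ?_ (ih (fun s hs => hS s (Multiset.mem_cons_of_mem hs)))
    have h1 := eval_L_pos hm hx
    have h2 := hS s (Multiset.mem_cons_self _ _)
    rw [eval_L] at h1 ⊢
    nlinarith [mul_nonneg (sub_nonneg.2 h2.2) (sub_nonneg.2 hx1)]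

theorem eval_P_nonneg {S : Multiset ℝ} {m : ℝ} (hm : 0 < m) (hS : ∀ s ∈ S, 0 ≤ s ∧ s ≤ m) :
    0 ≤ (P S).eval (1 - 1 / m) := by
  induction S using Multiset.induction_on with
  | empty => simp
  | cons s S ih =>
    rw [P_cons, eval_mul]
    refine mul_nonneg ?_ (ih (fun s hs => hS s (Multiset.mem_cons_of_mem hs)))
    have h2 := hS s (Multiset.mem_cons_self _ _)
    have h3 : s / m ≤ 1 := (div_le_one hm).2 h2.2
    rw [eval_L]
    have : s * (1 - 1 / m) + (1 - s) = 1 - s / m := by ring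
    linarith

theorem eval_L_root {m : ℝ} (hm : m ≠ 0) : (L m).eval (1 - 1 / m) = 0 := by
  rw [eval_L]; field_simp; ring

theorem mem_of_eval_P {S : Multiset ℝ} {m : ℝ} (hm : m ≠ 0) (h : (P S).eval (1 - 1 / m) = 0) :
    m ∈ S := by
  induction S using Multiset.induction_on with
  | empty => simp at h
  | cons s S ih =>
    rw [P_cons, eval_mul, mul_eq_zero] at h
    rcases h with h | h
    · rw [eval_L] at h
      field_simp at h
      rw [Multiset.mem_cons]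
      left
      linarith
    · exact Multiset.mem_cons_of_mem (ih h)

theorem quad_perturb {a b : ℝ} (ha : 0 < a) (hab : a < b) (hb : b < 1)
    {q : ℝ[X]} (hq : q.natDegree ≤ 2) (hq1 : q.eval 1 = 0) :
    ∀ᶠ ε in 𝓝 (0 : ℝ), D 2 (L a * L b + C ε * q) := by
  have h1 := natDegree_L_le (a / 2)
  have h2 := natDegree_mul_le (p := L (a / 2)) (q := q)
  filter_upwards [cubic_perturb (half_pos ha) (half_lt_self ha) hab hb (q := L (a / 2) * q)
    (by omega) (by simp [hq1])] with ε hε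
  obtain ⟨S, -, hS, h⟩ := hε
  have h3 : P S = L (a / 2) * (L a * L b + C ε * q) := by rw [← h]; ring
  have h4 : (L a * L b + C ε * q).eval 1 = 1 := by simp [hq1]
  obtain ⟨g, hg, e⟩ := exists_D_of_splits (n := 2) (f := L a * L b + C ε * q)
    ((splits_P S).of_dvd (P_ne_zero S) ⟨L (a / 2), by rw [h3, mul_comm]⟩) (fun r hr => by
      by_contra hlt
      push Not at hlt
      have h5 : (P S).eval r = 0 := by
        rw [h3, eval_mul, show (L a * L b + C ε * q).eval r = 0 from (mem_roots'.1 hr).2, mul_zero]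
      have h6 : ∀ R : Multiset ℝ, (∀ s ∈ R, 0 ≤ s ∧ s ≤ 1) → 0 < (P R).eval r := by
        intro R hR
        induction R using Multiset.induction_on with
        | empty => simp
        | cons s R ih =>
          rw [P_cons, eval_mul]
          refine mul_pos ?_ (ih (fun s hs => hR s (Multiset.mem_cons_of_mem hs)))
          have h7 := hR s (Multiset.mem_cons_self _ _)
          rw [eval_L]
          rcases h7.1.eq_or_lt with h8 | h8
          · rw [← h8]; norm_num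
          · nlinarith [mul_pos h8 hlt]
      exact (h6 S hS).ne' h5) (by
      refine (natDegree_add_le _ _).trans (max_le ?_ ((natDegree_C_mul_le _ _).trans hq))
      have h5 := natDegree_L_le a
      have h6 := natDegree_L_le b
      have h7 := natDegree_mul_le (p := L a) (q := L b)
      omega)
  rwa [e, h4, C_1, one_mul]

/-- Splitting a double root. -/
theorem double_perturb {a m : ℝ} (ha : 0 < a) (ham : a < m) (hm : m < 1)
    {q : ℝ[X]} (hq : q.natDegree ≤ 3) (hq1 : q.eval 1 = 0) (hqm : q.eval (1 - 1 / m) < 0) :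
    ∃ ε : ℝ, D 3 (L a * L m * L m + C ε * q) ∧
      (L a * L m * L m + C ε * q).eval (1 - 1 / m) < 0 := by
  have hm0 : 0 < m := ha.trans ham
  have r1 : 1 - 1 / a < 1 - 1 / m := by have := one_div_lt_one_div_of_lt ha ham; linarith
  have r3 : 1 - 1 / m < 0 := by have := one_lt_one_div hm0 hm; linarith
  set p := L a * L m * L m with hp
  have hcont : ∀ y : ℝ, Tendsto (fun ε : ℝ => (p + C ε * q).eval y) (𝓝 0) (𝓝 (p.eval y)) := by
    intro y
    have : Continuous (fun ε : ℝ => (p + C ε * q).eval y) := by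
      simp only [eval_add, eval_mul, eval_C]; fun_prop
    simpa using this.tendsto 0
  let y₀ := (1 - 1 / a) - 1
  let y₁ := ((1 - 1 / a) + (1 - 1 / m)) / 2
  have e₀ : p.eval y₀ < 0 := by
    rw [hp, eval_mul, eval_mul]
    exact mul_neg_of_pos_of_neg (mul_pos_of_neg_of_neg (eval_L_neg ha (by simp only [y₀]; linarith))
      (eval_L_neg hm0 (by simp only [y₀]; linarith))) (eval_L_neg hm0 (by simp only [y₀]; linarith))
  have e₁ : 0 < p.eval y₁ := by
    rw [hp, eval_mul, eval_mul]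
    exact mul_pos_of_neg_of_neg (mul_neg_of_pos_of_neg (eval_L_pos ha (by simp only [y₁]; linarith))
      (eval_L_neg hm0 (by simp only [y₁]; linarith))) (eval_L_neg hm0 (by simp only [y₁]; linarith))
  have e₃ : 0 < p.eval 0 := by
    rw [hp, eval_mul, eval_mul]
    exact mul_pos (mul_pos (eval_L_pos ha (by linarith))
      (eval_L_pos hm0 (by linarith))) (eval_L_pos hm0 (by linarith))
  obtain ⟨ε, ⟨f₀, f₁, f₃⟩, hε⟩ := (((((hcont y₀).eventually (gt_mem_nhds e₀)).and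
    (((hcont y₁).eventually (lt_mem_nhds e₁)).and ((hcont 0).eventually (lt_mem_nhds e₃)))).filter_mono
    (nhdsWithin_le_nhds (s := Set.Ioi 0))).and self_mem_nhdsWithin).exists
  have f₂ : (p + C ε * q).eval (1 - 1 / m) < 0 := by
    rw [hp, eval_add, eval_mul, eval_L_root hm0.ne', mul_zero, zero_add, eval_mul, eval_C]
    exact mul_neg_of_pos_of_neg hε hqm
  refine ⟨ε, cubic_D ?_ ?_ (y₀ := y₀) (y₁ := y₁) (y₂ := 1 - 1 / m) (y₃ := 0)
    (by simp only [y₀, y₁]; linarith) (by simp only [y₁]; linarith) r3 le_rfl f₀ f₁ f₂ f₃, f₂⟩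
  · refine (natDegree_add_le _ _).trans (max_le ?_ ((natDegree_C_mul_le _ _).trans hq))
    have h1 := natDegree_L_le a
    have h2 := natDegree_L_le m
    have h4 := natDegree_mul_le (p := L a * L m) (q := L m)
    have h5 := natDegree_mul_le (p := L a) (q := L m)
    rw [hp]
    omega
  · simp [hp, hq1]

/-- A double largest value together with a smaller positive value: either the largest value can
be increased, or the product is the midpoint of a segment of the slice. -/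
theorem double_case (φ₁ φ₂ : ℝ[X] →ₗ[ℝ] ℝ) {R : Multiset ℝ} (hR : ∀ s ∈ R, 0 ≤ s ∧ s ≤ 1)
    {a m : ℝ} (ha : 0 < a) (ham : a < m) (hm : m < 1) :
    (∃ d : ℝ[X], φ₁ d = 0 ∧ φ₂ d = 0 ∧ ∃ S : Multiset ℝ, S.card = 3 + R.card ∧
      (∀ s ∈ S, 0 ≤ s ∧ s ≤ 1) ∧ P (a ::ₘ m ::ₘ m ::ₘ R) + d = P S ∧ ∃ s ∈ S, m < s) ∨
    ∃ d : ℝ[X], d ≠ 0 ∧ d.natDegree ≤ 3 + R.card ∧ φ₁ d = 0 ∧ φ₂ d = 0 ∧
      D (3 + R.card) (P (a ::ₘ m ::ₘ m ::ₘ R) + d) ∧
      D (3 + R.card) (P (a ::ₘ m ::ₘ m ::ₘ R) - d) := by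
  have hm0 : 0 < m := ha.trans ham
  have hR' : D R.card (P R) := ⟨R, rfl, hR, rfl⟩
  obtain ⟨q, hq0, hq3, h1, h2, h3⟩ := exists_cubic (φ₁ ∘ₗ LinearMap.mulRight ℝ (P R))
    (φ₂ ∘ₗ LinearMap.mulRight ℝ (P R)) (leval 1)
  have h1' : φ₁ (q * P R) = 0 := h1
  have h2' : φ₂ (q * P R) = 0 := h2
  have h3' : q.eval 1 = 0 := by simpa using h3
  have key : ∀ q : ℝ[X], q.natDegree ≤ 3 → q.eval 1 = 0 → φ₁ (q * P R) = 0 → φ₂ (q * P R) = 0 →
      q.eval (1 - 1 / m) < 0 → ∃ d : ℝ[X], φ₁ d = 0 ∧ φ₂ d = 0 ∧ ∃ S : Multiset ℝ,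
        S.card = 3 + R.card ∧ (∀ s ∈ S, 0 ≤ s ∧ s ≤ 1) ∧ P (a ::ₘ m ::ₘ m ::ₘ R) + d = P S ∧
        ∃ s ∈ S, m < s := by
    intro q hq3 hq1 h1 h2 hqm
    obtain ⟨ε, ⟨S, hS3, hS, e⟩, hneg⟩ := double_perturb ha ham hm hq3 hq1 hqm
    refine ⟨C ε * (q * P R), by rw [C_mul', map_smul, h1, smul_zero],
      by rw [C_mul', map_smul, h2, smul_zero], S + R, by simp [hS3], fun s hs => ?_, ?_, ?_⟩
    · rcases Multiset.mem_add.1 hs with h | h
      exacts [hS s h, hR s h]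
    · rw [P_add, ← e]; simp only [P_cons]; ring
    · by_contra hcon
      push Not at hcon
      have := eval_P_nonneg (S := S) hm0
        (fun s hs => ⟨(hS s hs).1, hcon s (Multiset.mem_add.2 (Or.inl hs))⟩)
      rw [← e] at this
      linarith
  rcases lt_trichotomy (q.eval (1 - 1 / m)) 0 with h | h | h
  · exact Or.inl (key q hq3 h3' h1' h2' h)
  · right
    obtain ⟨q', hq'⟩ : L m ∣ q := by
      have h4 : X - C (1 - 1 / m) ∣ q := dvd_iff_isRoot.2 h
      obtain ⟨r, hr⟩ := h4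
      refine ⟨C m⁻¹ * r, ?_⟩
      rw [hr, L_eq hm0.ne', show (1 - m) / m = -(1 - 1 / m) by field_simp; ring, C_neg,
        ← sub_eq_add_neg, mul_mul_mul_comm, mul_comm (C m * _)]
      rw [mul_mul_mul_comm, mul_comm (X - _) (C m)]
      have h5 : (C m * C m⁻¹ : ℝ[X]) = 1 := by rw [← C_mul, mul_inv_cancel₀ hm0.ne', C_1]
      linear_combination (-(X - C (1 - 1 / m)) * r) * h5
    have hq'0 : q' ≠ 0 := by rintro rfl; exact hq0 (by simpa using hq')
    have hL : (L m).natDegree = 1 := by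
      rw [L]; exact natDegree_linear hm0.ne'
    have hq'2 : q'.natDegree ≤ 2 := by
      have h5 : L m ≠ 0 := by intro h6; rw [h6] at hL; simp at hL
      rw [hq', natDegree_mul h5 hq'0] at hq3
      omega
    have hq'1 : q'.eval 1 = 0 := by simpa [hq'] using h3'
    have hev := quad_perturb ha ham hm hq'2 hq'1
    have hneg : ∀ᶠ ε in 𝓝 (0 : ℝ), D 2 (L a * L m + C (-ε) * q') := by
      have : Tendsto (fun ε : ℝ => -ε) (𝓝 0) (𝓝 0) := by
        simpa using (continuous_neg.tendsto (0 : ℝ))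
      exact this.eventually hev
    obtain ⟨ε, ⟨hε1, hε2⟩, hε0⟩ :=
      (((hev.and hneg).filter_mono (nhdsWithin_le_nhds (s := {0}ᶜ))).and self_mem_nhdsWithin).exists
    have hε0' : ε ≠ 0 := hε0
    have hm1 : D 1 (L m) := ⟨{m}, rfl, by simp [hm0.le, hm.le], by simp [P]⟩
    refine ⟨C ε * (q * P R), mul_ne_zero (C_ne_zero.2 hε0') (mul_ne_zero hq0 (P_ne_zero R)),
      ?_, by rw [C_mul', map_smul, h1', smul_zero], by rw [C_mul', map_smul, h2', smul_zero], ?_, ?_⟩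
    · have := natDegree_P_le R
      exact (natDegree_C_mul_le _ _).trans (natDegree_mul_le.trans (by omega))
    · convert (hε1.mul hm1).mul hR' using 1
      simp only [P_cons, hq']; ring
    · convert (hε2.mul hm1).mul hR' using 1
      simp only [P_cons, hq', C_neg]; ring
  · exact Or.inl (key (-q) (by simpa using hq3) (by simp [h3']) (by simp [h1']) (by simp [h2'])
      (by simpa using h))

/-- The sharper test family. -/
def Test (g : ℝ[X]) : Prop :=
  g = 1 ∨ ∃ (a b : ℕ) (u v : ℝ), 0 ≤ u ∧ u ≤ v ∧ g = X ^ a * (X + C u) * (X + C v) ^ b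

theorem P_eq_pow {τ : ℝ} (hτ : 0 < τ) (S : Multiset ℝ) (hS : ∀ s ∈ S, s = 0 ∨ s = τ) :
    ∃ (κ : ℝ) (b : ℕ), P S = C κ * (X + C ((1 - τ) / τ)) ^ b := by
  induction S using Multiset.induction_on with
  | empty => exact ⟨1, 0, by simp⟩
  | cons s S ih =>
    obtain ⟨κ, b, h⟩ := ih (fun s hs => hS s (Multiset.mem_cons_of_mem hs))
    rw [P_cons, h]
    rcases hS s (Multiset.mem_cons_self _ _) with rfl | rfl
    · exact ⟨κ, b, by simp⟩
    · exact ⟨s * κ, b + 1, by rw [L_eq hτ.ne', C_mul]; ring⟩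

theorem test_of_cons {m τ : ℝ} (hτ : 0 < τ) (hτm : τ ≤ m) (hm : m ≤ 1) (S : Multiset ℝ)
    (hS : ∀ s ∈ S, s = 0 ∨ s = τ) : ∃ (κ : ℝ) (g : ℝ[X]), Test g ∧ P (m ::ₘ S) = C κ * g := by
  have hm0 : 0 < m := hτ.trans_le hτm
  obtain ⟨κ, b, h⟩ := P_eq_pow hτ S hS
  refine ⟨m * κ, _, Or.inr ⟨0, b, (1 - m) / m, (1 - τ) / τ, div_nonneg (by linarith) hm0.le,
    ?_, rfl⟩, by rw [P_cons, h, L_eq hm0.ne', C_mul]; ring⟩
  rw [div_le_div_iff₀ hm0 hτ]
  nlinarith

/-- The sharper slice lemma. -/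
theorem sharp_slice (n : ℕ) : ∀ (φ₁ φ₂ : ℝ[X] →ₗ[ℝ] ℝ) (f : ℝ[X]), D n f → φ₁ f = 0 → φ₂ f = 0 →
    ∃ g, Test g ∧ φ₁ g = 0 ∧ φ₂ g = 0 := by
  classical
  induction n with
  | zero =>
    rintro φ₁ φ₂ f ⟨S, hS, -, rfl⟩ h₁ h₂
    rw [Multiset.card_eq_zero.1 hS, P_zero] at h₁ h₂
    exact ⟨1, Or.inl rfl, h₁, h₂⟩
  | succ n ih =>
    intro φ₁ φ₂ f hf h₁ h₂
    let Q : (Fin (n + 1) → ℝ) → ℝ[X] := fun s => ∏ i, L (s i)
    have hQ : ∀ s, Q s = P (Finset.univ.val.map s) := fun s => by rw [P, Multiset.map_map]; rfl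
    let Ψ : ℝ[X] → ℝ := fun g => ∑ k ∈ Finset.range (n + 1 + 1), (g.coeff k) ^ 2
    have hΨc : Continuous (fun s => Ψ (Q s)) :=
      continuous_finsetSum _ (fun k _ => (continuous_lin _ (lcoeff ℝ k)).pow 2)
    let K : Set (Fin (n + 1) → ℝ) := Set.Icc 0 1 ∩ ({s | φ₁ (Q s) = 0} ∩ {s | φ₂ (Q s) = 0})
    have hK : IsCompact K := isCompact_Icc.inter_right
      ((isClosed_eq (continuous_lin _ φ₁) continuous_const).inter
        (isClosed_eq (continuous_lin _ φ₂) continuous_const))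
    obtain ⟨s₀, hs₀, rfl⟩ := D_iff.1 hf
    have hs₀K : s₀ ∈ K := ⟨hs₀, h₁, h₂⟩
    obtain ⟨s₁, hs₁K, hmax₁⟩ := hK.exists_isMaxOn ⟨s₀, hs₀K⟩ continuous_norm.continuousOn
    set m := ‖s₁‖ with hmdef
    obtain ⟨i₁, hi₁⟩ : ∃ i, s₁ i = m := by
      obtain ⟨i, hi⟩ := Finite.exists_max s₁
      refine ⟨i, le_antisymm ((le_abs_self _).trans (norm_le_pi_norm s₁ i)) ?_⟩
      refine (pi_norm_le_iff_of_nonneg (hs₁K.1.1 i)).2 (fun j => ?_)
      rw [Real.norm_of_nonneg (hs₁K.1.1 j)]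
      exact hi j
    have hle : ∀ s ∈ K, ∀ i, s i ≤ m := fun s hs i =>
      ((le_abs_self _).trans (norm_le_pi_norm s i)).trans (hmax₁ hs)
    have hleS : ∀ S : Multiset ℝ, S.card = n + 1 → (∀ s ∈ S, 0 ≤ s ∧ s ≤ 1) → φ₁ (P S) = 0 →
        φ₂ (P S) = 0 → ∀ s ∈ S, s ≤ m := by
      intro S hS1 hS2 e₁ e₂
      induction S using Quotient.inductionOn with
      | h l =>
        have hl : l.length = n + 1 := hS1
        let s : Fin (n + 1) → ℝ := fun i => l.get (i.cast hl.symm)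
        have hs : Finset.univ.val.map s = (l : Multiset ℝ) := by
          rw [Fin.univ_val_map]
          congr 1
          apply List.ext_get (by simp [hl])
          intro j _ _
          simp only [List.get_eq_getElem, List.getElem_ofFn, s, Fin.val_cast]
        have hsK : s ∈ K := ⟨⟨fun i => (hS2 _ (List.get_mem l _)).1,
          fun i => (hS2 _ (List.get_mem l _)).2⟩, by
            change φ₁ (Q s) = 0
            rw [hQ, hs]; exact e₁, by
            change φ₂ (Q s) = 0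
            rw [hQ, hs]; exact e₂⟩
        intro x hx
        have hx' : x ∈ Finset.univ.val.map s := by rw [hs]; exact hx
        obtain ⟨i, -, rfl⟩ := Multiset.mem_map.1 hx'
        exact hle s hsK i
    have hm1 : m ≤ 1 := hi₁ ▸ hs₁K.1.2 i₁
    rcases (norm_nonneg s₁).eq_or_lt with hm0 | hm0
    · have h0 : s₁ = 0 := norm_eq_zero.1 hm0.symm
      have h3 : Q s₁ = 1 := by simp [Q, h0]
      exact ⟨1, Or.inl rfl, h3 ▸ hs₁K.2.1, h3 ▸ hs₁K.2.2⟩
    rw [← hmdef] at hm0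
    rcases hm1.eq_or_lt with hm1 | hm1
    · have h3 : Q s₁ = X * ∏ j : Fin n, L (s₁ (i₁.succAbove j)) := by
        simp only [Q]
        rw [Fin.prod_univ_succAbove _ i₁, hi₁, hm1, L_one]
      obtain ⟨g, hg, e₁, e₂⟩ := ih (φ₁ ∘ₗ LinearMap.mulLeft ℝ X) (φ₂ ∘ₗ LinearMap.mulLeft ℝ X) _
        (D_iff.2 ⟨fun j => s₁ (i₁.succAbove j), ⟨fun j => hs₁K.1.1 _, fun j => hs₁K.1.2 _⟩, rfl⟩)
        (h3 ▸ hs₁K.2.1 : φ₁ (X * _) = 0) (h3 ▸ hs₁K.2.2 : φ₂ (X * _) = 0)
      refine ⟨X * g, Or.inr ?_, e₁, e₂⟩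
      rcases hg with rfl | ⟨a, b, u, v, hu, huv, rfl⟩
      · exact ⟨0, 0, 0, 0, le_rfl, le_rfl, by simp⟩
      · exact ⟨a + 1, b, u, v, hu, huv, by ring⟩
    let ψ : ℝ[X] →ₗ[ℝ] ℝ := leval (1 - 1 / m)
    have hψ : ∀ g, ψ g = g.eval (1 - 1 / m) := fun g => by simp [ψ]
    have hψK : ∀ s ∈ K, 0 ≤ ψ (Q s) := by
      intro s hs
      rw [hψ, hQ]
      refine eval_P_nonneg hm0 (fun x hx => ?_)
      obtain ⟨i, -, rfl⟩ := Multiset.mem_map.1 hx
      exact ⟨hs.1.1 i, hle s hs i⟩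
    let K' : Set (Fin (n + 1) → ℝ) := K ∩ {s | ψ (Q s) = 0}
    have hK' : IsCompact K' := hK.inter_right (isClosed_eq (continuous_lin _ ψ) continuous_const)
    have hs₁K' : s₁ ∈ K' := by
      refine ⟨hs₁K, ?_⟩
      change ψ (Q s₁) = 0
      rw [hψ]
      simp only [Q]
      rw [eval_prod]
      exact Finset.prod_eq_zero (Finset.mem_univ i₁) (by rw [hi₁, eval_L_root hm0.ne'])
    obtain ⟨s₂, hs₂K, hmax₂⟩ := hK'.exists_isMaxOn ⟨s₁, hs₁K'⟩ hΨc.continuousOn
    obtain ⟨S, hcard, hS, hQS⟩ := D_iff.2 ⟨s₂, hs₂K.1.1, rfl⟩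
    have hQS' : Q s₂ = P S := hQS
    have e₁ : φ₁ (P S) = 0 := hQS' ▸ hs₂K.1.2.1
    have e₂ : φ₂ (P S) = 0 := hQS' ▸ hs₂K.1.2.2
    have e₃ : ψ (P S) = 0 := hQS' ▸ hs₂K.2
    have hseg : ¬ ∃ d : ℝ[X], d ≠ 0 ∧ d.natDegree ≤ n + 1 ∧ φ₁ d = 0 ∧ φ₂ d = 0 ∧
        D (n + 1) (P S + d) ∧ D (n + 1) (P S - d) := by
      rintro ⟨d, hd0, hdn, hd₁, hd₂, hp, hm⟩
      obtain ⟨sp, hsp, hp⟩ := D_iff.1 hp
      obtain ⟨sm, hsm, hm⟩ := D_iff.1 hm
      have hp' : Q sp = P S + d := hp.symm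
      have hm' : Q sm = P S - d := hm.symm
      have hspK : sp ∈ K := ⟨hsp, by simp [hp', e₁, hd₁], by simp [hp', e₂, hd₂]⟩
      have hsmK : sm ∈ K := ⟨hsm, by simp [hm', e₁, hd₁], by simp [hm', e₂, hd₂]⟩
      have i₁ := hψK sp hspK
      have i₂ := hψK sm hsmK
      rw [hp', map_add, e₃] at i₁
      rw [hm', map_sub, e₃] at i₂
      have hψd : ψ d = 0 := by linarith
      have j₁ : Ψ (Q sp) ≤ Ψ (Q s₂) := hmax₂ (⟨hspK, by simp [hp', hψd, e₃]⟩ : sp ∈ K')
      have j₂ : Ψ (Q sm) ≤ Ψ (Q s₂) := hmax₂ (⟨hsmK, by simp [hm', hψd, e₃]⟩ : sm ∈ K')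
      have j₃ : Ψ (Q sp) + Ψ (Q sm) = 2 * Ψ (Q s₂) + 2 * Ψ d := by
        simp only [Ψ, hp', hm', hQS', Finset.mul_sum, ← Finset.sum_add_distrib, coeff_add, coeff_sub]
        exact Finset.sum_congr rfl (fun k _ => by ring)
      have j₄ : 0 < Ψ d := by
        refine Finset.sum_pos' (fun k _ => sq_nonneg _) ⟨d.natDegree, by simp; omega, ?_⟩
        have : d.coeff d.natDegree ≠ 0 := leadingCoeff_ne_zero.2 hd0
        positivity
      linarith
    have hSm := hleS S hcard hS e₁ e₂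
    have hmS : m ∈ S := mem_of_eval_P hm0.ne' (by rw [← hψ]; exact e₃)
    obtain ⟨S₁, rfl⟩ := Multiset.exists_cons_of_mem hmS
    have fin : (∃ τ, 0 < τ ∧ τ ≤ m ∧ ∀ s ∈ S₁, s = 0 ∨ s = τ) →
        ∃ g, Test g ∧ φ₁ g = 0 ∧ φ₂ g = 0 := by
      rintro ⟨τ, hτ, hτm, h⟩
      obtain ⟨κ, g, hg, e⟩ := test_of_cons hτ hτm hm1.le S₁ h
      have hκ : κ ≠ 0 := by rintro rfl; exact P_ne_zero _ (by rw [e, C_0, zero_mul])
      rw [e, C_mul', map_smul, smul_eq_mul] at e₁ e₂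
      exact ⟨g, hg, (mul_eq_zero.1 e₁).resolve_left hκ, (mul_eq_zero.1 e₂).resolve_left hκ⟩
    refine fin ?_
    by_contra hcon
    push Not at hcon
    obtain ⟨a, haS, ha0, ham⟩ := hcon m hm0 le_rfl
    have ha : 0 < a := lt_of_le_of_ne (hS a (Multiset.mem_cons_of_mem haS)).1 ha0.symm
    have ham' : a < m := lt_of_le_of_ne (hSm a (Multiset.mem_cons_of_mem haS)) ham
    obtain ⟨b, hbS, hb0, hba⟩ := hcon a ha ham'.le
    have hb : 0 < b := lt_of_le_of_ne (hS b (Multiset.mem_cons_of_mem hbS)).1 hb0.symm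
    rcases (hSm b (Multiset.mem_cons_of_mem hbS)).eq_or_lt with hbm | hbm
    · obtain ⟨S₂, rfl⟩ := Multiset.exists_cons_of_mem haS
      obtain ⟨R, rfl⟩ := Multiset.exists_cons_of_mem ((Multiset.mem_cons.1 hbS).resolve_left hba)
      subst hbm
      rw [Multiset.cons_swap] at e₁ e₂ hseg
      have hc : 3 + R.card = n + 1 := by rw [← hcard]; simp; omega
      rcases double_case φ₁ φ₂ (R := R) (fun s hs => hS s (by simp [hs])) ha ham' hm1 with
        ⟨d, hd₁, hd₂, S', hS'c, hS', e, s, hs, hms⟩ | h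
      · have := hleS S' (hS'c.trans hc) hS' (by rw [← e, map_add, e₁, hd₁, add_zero])
          (by rw [← e, map_add, e₂, hd₂, add_zero]) s hs
        linarith
      · rw [hc] at h
        exact hseg h
    · rw [← hcard] at hseg
      rcases lt_or_gt_of_ne hba with h | h
      · exact hseg (exists_segment φ₁ φ₂ hS hb h ham' hm1 (Multiset.mem_cons_of_mem hbS)
          (Multiset.mem_cons_of_mem haS) hmS)
      · exact hseg (exists_segment φ₁ φ₂ hS ha h hbm hm1 (Multiset.mem_cons_of_mem haS)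
          (Multiset.mem_cons_of_mem hbS) hmS)

end Pool.Agent.Lib.MP_7a4764_an
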