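import Mathlib
import Pool.Agent.Lib.MP_7a4764_an.Sharp

set_option autoImplicit false

/-!
If the images of the polynomials `X ^ a * (X + v) ^ b` have no zero in the upper half plane, the
set of points of the upper half plane that are zeros of some `T f` is open and closed.
-/

namespace Pool.Agent.Lib.MP_7a4764_an

open Polynomial Filter Topology

theorem quad_D {p : ℝ[X]} (hp : p.natDegree ≤ 2) (h1 : p.eval 1 = 1) {y₀ y₁ : ℝ}
    (h01 : y₀ < y₁) (h12 : y₁ < 0) (e₀ : 0 < p.eval y₀) (e₁ : p.eval y₁ < 0) (e₂ : 0 < p.eval 0) :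
    D 2 p := by
  classical
  have hc : Continuous (fun x => p.eval x) := p.continuous
  obtain ⟨r₁, hr₁, z₁⟩ := intermediate_value_Ioo' h01.le hc.continuousOn ⟨e₁, e₀⟩
  obtain ⟨r₂, hr₂, z₂⟩ := intermediate_value_Ioo h12.le hc.continuousOn ⟨e₁, e₂⟩
  have h0 : p ≠ 0 := by rintro rfl; simp at h1
  have hsub : ({r₁, r₂} : Finset ℝ) ⊆ p.roots.toFinset := by
    intro r hr
    simp only [Finset.mem_insert, Finset.mem_singleton] at hr
    rw [Multiset.mem_toFinset, mem_roots h0]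
    rcases hr with rfl | rfl <;> assumption
  have hcard : ({r₁, r₂} : Finset ℝ).card = 2 :=
    Finset.card_pair (by linarith [hr₁.2, hr₂.1] : r₁ < r₂).ne
  have h4 := Finset.card_le_card hsub
  have h5 := Multiset.toFinset_card_le p.roots
  have h6 := card_roots' p
  have hs : p.Splits := splits_iff_card_roots.2 (by omega)
  have heq := Finset.eq_of_subset_of_card_le hsub (by omega)
  obtain ⟨g, hg, hpg⟩ := exists_D_of_splits hs (n := 2) (fun r hr => by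
    have : r ∈ ({r₁, r₂} : Finset ℝ) := heq ▸ Multiset.mem_toFinset.2 hr
    simp only [Finset.mem_insert, Finset.mem_singleton] at this
    rcases this with rfl | rfl <;> linarith [hr₁.2, hr₂.2]) hp
  rw [h1, C_1, one_mul] at hpg
  rwa [hpg]

theorem quad_perturb₂ {ι : Type} {l : Filter ι} {a b : ℝ} (ha : 0 < a) (hab : a < b) (hb : b < 1)
    {α β : ι → ℝ} (hα : Tendsto α l (𝓝 0)) (hβ : Tendsto β l (𝓝 0)) :
    ∀ᶠ i in l, D 2 (L a * L b + (C (α i) * (X - 1) + C (β i) * ((X - 1) * X))) := by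
  have hb0 : 0 < b := ha.trans hab
  have r1 : 1 - 1 / a < 1 - 1 / b := by have := one_div_lt_one_div_of_lt ha hab; linarith
  have r3 : 1 - 1 / b < 0 := by have := one_lt_one_div hb0 hb; linarith
  set p := L a * L b with hp
  have hcont : ∀ y : ℝ, Tendsto (fun i => (p + (C (α i) * (X - 1) + C (β i) * ((X - 1) * X))).eval y)
      l (𝓝 (p.eval y)) := by
    intro y
    have := (tendsto_const_nhds (x := p.eval y)).add
      ((hα.mul_const (y - 1)).add (hβ.mul_const ((y - 1) * y)))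
    simpa using this
  let y₀ := (1 - 1 / a) - 1
  let y₁ := ((1 - 1 / a) + (1 - 1 / b)) / 2
  have e₀ : 0 < p.eval y₀ := by
    rw [hp, eval_mul]
    exact mul_pos_of_neg_of_neg (eval_L_neg ha (by simp only [y₀]; linarith))
      (eval_L_neg hb0 (by simp only [y₀]; linarith))
  have e₁ : p.eval y₁ < 0 := by
    rw [hp, eval_mul]
    exact mul_neg_of_pos_of_neg (eval_L_pos ha (by simp only [y₁]; linarith))
      (eval_L_neg hb0 (by simp only [y₁]; linarith))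
  have e₂ : 0 < p.eval 0 := by
    rw [hp, eval_mul]
    exact mul_pos (eval_L_pos ha (by linarith)) (eval_L_pos hb0 (by linarith))
  filter_upwards [(hcont y₀).eventually (lt_mem_nhds e₀), (hcont y₁).eventually (gt_mem_nhds e₁),
    (hcont 0).eventually (lt_mem_nhds e₂)] with i f₀ f₁ f₂
  refine quad_D ?_ ?_ (y₀ := y₀) (y₁ := y₁) (by simp only [y₀, y₁]; linarith)
    (by simp only [y₁]; linarith) f₀ f₁ f₂
  · refine (natDegree_add_le _ _).trans (max_le ?_ (by compute_degree))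
    have h1 := natDegree_L_le a
    have h2 := natDegree_L_le b
    have h5 := natDegree_mul_le (p := L a) (q := L b)
    rw [hp]
    omega
  · simp [hp]

/-- A nonempty slice has an extreme point. -/
theorem exists_extreme (φ₁ φ₂ : ℝ[X] →ₗ[ℝ] ℝ) {n : ℕ} {f : ℝ[X]} (hf : D n f) (h₁ : φ₁ f = 0)
    (h₂ : φ₂ f = 0) : ∃ g, D n g ∧ φ₁ g = 0 ∧ φ₂ g = 0 ∧ ∀ d : ℝ[X], d.natDegree ≤ n →
      φ₁ d = 0 → φ₂ d = 0 → D n (g + d) → D n (g - d) → d = 0 := by
  let Q : (Fin n → ℝ) → ℝ[X] := fun s => ∏ i, L (s i)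
  let Ψ : ℝ[X] → ℝ := fun g => ∑ k ∈ Finset.range (n + 1), (g.coeff k) ^ 2
  have hΨc : Continuous (fun s => Ψ (Q s)) :=
    continuous_finsetSum _ (fun k _ => (continuous_lin n (lcoeff ℝ k)).pow 2)
  let K : Set (Fin n → ℝ) := Set.Icc 0 1 ∩ ({s | φ₁ (Q s) = 0} ∩ {s | φ₂ (Q s) = 0})
  have hK : IsCompact K := isCompact_Icc.inter_right
    ((isClosed_eq (continuous_lin n φ₁) continuous_const).inter
      (isClosed_eq (continuous_lin n φ₂) continuous_const))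
  obtain ⟨s₀, hs₀, rfl⟩ := D_iff.1 hf
  obtain ⟨s₂, hs₂K, hmax₂⟩ := hK.exists_isMaxOn ⟨s₀, hs₀, h₁, h₂⟩ hΨc.continuousOn
  have e₁ : φ₁ (Q s₂) = 0 := hs₂K.2.1
  have e₂ : φ₂ (Q s₂) = 0 := hs₂K.2.2
  refine ⟨Q s₂, D_iff.2 ⟨s₂, hs₂K.1, rfl⟩, e₁, e₂, fun d hdn hd₁ hd₂ hp hm => ?_⟩
  by_contra hd0
  obtain ⟨sp, hsp, hp⟩ := D_iff.1 hp
  obtain ⟨sm, hsm, hm⟩ := D_iff.1 hm
  have hp' : Q sp = Q s₂ + d := hp.symm
  have hm' : Q sm = Q s₂ - d := hm.symm
  have j₁ : Ψ (Q sp) ≤ Ψ (Q s₂) :=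
    hmax₂ (⟨hsp, by simp [hp', e₁, hd₁], by simp [hp', e₂, hd₂]⟩ : sp ∈ K)
  have j₂ : Ψ (Q sm) ≤ Ψ (Q s₂) :=
    hmax₂ (⟨hsm, by simp [hm', e₁, hd₁], by simp [hm', e₂, hd₂]⟩ : sm ∈ K)
  have j₃ : Ψ (Q sp) + Ψ (Q sm) = 2 * Ψ (Q s₂) + 2 * Ψ d := by
    simp only [Ψ, hp', hm', Finset.mul_sum, ← Finset.sum_add_distrib, coeff_add, coeff_sub]
    exact Finset.sum_congr rfl (fun k _ => by ring)
  have j₄ : 0 < Ψ d := by
    refine Finset.sum_pos' (fun k _ => sq_nonneg _) ⟨d.natDegree, by simp; omega, ?_⟩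
    have : d.coeff d.natDegree ≠ 0 := leadingCoeff_ne_zero.2 hd0
    positivity
  linarith

theorem one_or_two (S : Multiset ℝ) (hS : ∀ s ∈ S, 0 ≤ s ∧ s ≤ 1) :
    (∃ σ : ℝ, 0 < σ ∧ σ < 1 ∧ ∀ s ∈ S, s = 0 ∨ s = 1 ∨ s = σ) ∨
    ∃ a b : ℝ, 0 < a ∧ a < b ∧ b < 1 ∧ a ∈ S ∧ b ∈ S := by
  by_contra hcon
  push Not at hcon
  have hmid : ∀ s ∈ S, s ≠ 0 → s ≠ 1 → 0 < s ∧ s < 1 := fun s hs h0 h1 =>
    ⟨lt_of_le_of_ne (hS s hs).1 h0.symm, lt_of_le_of_ne (hS s hs).2 h1⟩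
  obtain ⟨a, ha, ha0, ha1, -⟩ := hcon.1 (1 / 2) (by norm_num) (by norm_num)
  have h1 := hmid a ha ha0 ha1
  obtain ⟨b, hb, hb0, hb1, hba⟩ := hcon.1 a h1.1 h1.2
  have h2 := hmid b hb hb0 hb1
  rcases lt_or_gt_of_ne hba with h | h
  · exact hcon.2 b a h2.1 h h1.2 hb ha
  · exact hcon.2 a b h1.1 h h2.2 ha hb

/-- The set of zeros of images of normalised polynomials of degree at most `n`. -/
def Z (T : ℝ[X] →ₗ[ℝ] ℝ[X]) (n : ℕ) : Set ℂ := {z | ∃ g, D n g ∧ aeval z (T g) = 0}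

theorem isClosed_Z (T : ℝ[X] →ₗ[ℝ] ℝ[X]) (n : ℕ) : IsClosed (Z T n) := by
  let Q : (Fin n → ℝ) → ℝ[X] := fun s => ∏ i, L (s i)
  have hQ : ∀ s (z : ℂ), aeval z (T (Q s)) =
      ∑ k ∈ Finset.range (n + 1), ((Q s).coeff k : ℂ) * aeval z (T (X ^ k)) := by
    intro s z
    have h1 : (Q s).natDegree < n + 1 := by
      have := natDegree_P_le (Finset.univ.val.map s)
      rw [P, Multiset.map_map, Multiset.card_map, Finset.card_val, Finset.card_univ,
        Fintype.card_fin] at this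
      exact Nat.lt_succ_of_le this
    conv_lhs => rw [(Q s).as_sum_range' _ h1, map_sum, map_sum]
    refine Finset.sum_congr rfl (fun k _ => ?_)
    rw [← C_mul_X_pow_eq_monomial, C_mul', map_smul, map_smul, Complex.real_smul]
  have hc : Continuous (fun p : Set.Icc (0 : Fin n → ℝ) 1 × ℂ => aeval p.2 (T (Q p.1))) := by
    simp_rw [hQ]
    refine continuous_finsetSum _ (fun k _ => Continuous.mul ?_ ?_)
    · exact Complex.continuous_ofReal.comp
        ((continuous_lin n (lcoeff ℝ k)).comp (continuous_subtype_val.comp continuous_fst))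
    · exact (T (X ^ k)).continuous_aeval.comp continuous_snd
  have h := isClosedMap_snd_of_compactSpace _ (isClosed_eq hc (continuous_const (y := (0 : ℂ))))
  convert h using 1
  ext z
  constructor
  · rintro ⟨g, hg, hz⟩
    obtain ⟨s, hs, rfl⟩ := D_iff.1 hg
    exact ⟨(⟨s, hs⟩, z), hz, rfl⟩
  · rintro ⟨⟨s, z⟩, hz, rfl⟩
    exact ⟨_, D_iff.2 ⟨s, s.2, rfl⟩, hz⟩

theorem Z_mem_nhds (T : ℝ[X] →ₗ[ℝ] ℝ[X]) (n : ℕ) {z₀ : ℂ} (hz₀ : z₀ ∈ Z T n)
    (h : ∀ (a b : ℕ) (v : ℝ), 0 < v → aeval z₀ (T (X ^ a * (X + C v) ^ b)) ≠ 0) :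
    Z T n ∈ 𝓝 z₀ := by
  classical
  let ev : ℂ → ℝ[X] →ₗ[ℝ] ℂ := fun z => (aeval z : ℝ[X] →ₐ[ℝ] ℂ).toLinearMap ∘ₗ T
  have hev : ∀ z g, ev z g = aeval z (T g) := fun _ _ => rfl
  obtain ⟨f, hf, hf0⟩ := hz₀
  obtain ⟨g, ⟨S, hcard, hS, rfl⟩, e₁, e₂, hext⟩ := exists_extreme (Complex.reLm ∘ₗ ev z₀)
    (Complex.imLm ∘ₗ ev z₀) hf (by simp [hev, hf0]) (by simp [hev, hf0])
  have e : ev z₀ (P S) = 0 := Complex.ext e₁ e₂
  rcases one_or_two S hS with ⟨σ, hσ, hσ1, hall⟩ | ⟨a, b, ha, hab, hb, haS, hbS⟩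
  · obtain ⟨κ, a, b, c, -, hP⟩ := P_eq_test hσ hσ S (fun s hs => by have := hall s hs; tauto)
    have hκ : κ ≠ 0 := by rintro rfl; exact P_ne_zero _ (by rw [hP, C_0, zero_mul])
    rw [hP, C_mul', map_smul, smul_eq_zero, mul_assoc, ← pow_add] at e
    exact absurd (e.resolve_left hκ) (h a (b + c) _ (div_pos (by linarith) hσ))
  obtain ⟨S₁, rfl⟩ := Multiset.exists_cons_of_mem haS
  obtain ⟨R, rfl⟩ := Multiset.exists_cons_of_mem ((Multiset.mem_cons.1 hbS).resolve_left hab.ne')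
  have hR : D R.card (P R) := ⟨R, rfl, fun s hs => hS s (by simp [hs]), rfl⟩
  have hn : 2 + R.card = n := by rw [← hcard]; simp; omega
  let d : ℝ → ℝ → ℝ[X] := fun α β => (C α * (X - 1) + C β * ((X - 1) * X)) * P R
  let w₀ : ℂ → ℂ := fun z => ev z (P (a ::ₘ b ::ₘ R))
  let w₁ : ℂ → ℂ := fun z => ev z ((X - 1) * P R)
  let w₂ : ℂ → ℂ := fun z => ev z ((X - 1) * X * P R)
  have hd : ∀ z α β, ev z (d α β) = α * w₁ z + β * w₂ z := by
    intro z α β
    simp only [d, w₁, w₂, add_mul, C_mul', smul_mul_assoc, map_add, map_smul, Complex.real_smul]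
  have hD : ∀ α β, D 2 (L a * L b + (C α * (X - 1) + C β * ((X - 1) * X))) →
      D n (P (a ::ₘ b ::ₘ R) + d α β) := by
    intro α β h1
    rw [← hn]
    convert h1.mul hR using 1
    simp only [P_cons, d]; ring
  have hinj : ∀ α β : ℝ, α * w₁ z₀ + β * w₂ z₀ = 0 → α = 0 ∧ β = 0 := by
    intro α β h0
    have t1 : ∀ c : ℝ, Tendsto (fun ε : ℝ => ε * c) (𝓝 0) (𝓝 0) := fun c => by
      simpa using (continuous_mul_const c).tendsto 0
    obtain ⟨ε, ⟨hε1, hε2⟩, hε0⟩ := ((((quad_perturb₂ ha hab hb (t1 α) (t1 β)).and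
      (quad_perturb₂ ha hab hb (t1 (-α)) (t1 (-β)))).filter_mono
      (nhdsWithin_le_nhds (s := {0}ᶜ))).and self_mem_nhdsWithin).exists
    have hε0' : ε ≠ 0 := hε0
    have h3 : ev z₀ (d (ε * α) (ε * β)) = 0 := by
      rw [hd]; push_cast; linear_combination ε * h0
    have h4 := hext (d (ε * α) (ε * β)) (by
        have h5 := natDegree_P_le R
        have h6 : (C (ε * α) * (X - 1) + C (ε * β) * ((X - 1) * X) : ℝ[X]).natDegree ≤ 2 := by
          compute_degree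
        exact natDegree_mul_le.trans (by omega))
      (by simp [h3]) (by simp [h3]) (hD _ _ hε1) (by
        convert hD _ _ hε2 using 1
        simp only [d, mul_neg, C_neg]; ring)
    have h5 := (mul_eq_zero.1 h4).resolve_right (P_ne_zero R)
    have h6 := congrArg (eval 0) h5
    have h7 := congrArg (eval 2) h5
    simp only [eval_add, eval_mul, eval_C, eval_sub, eval_X, eval_one, eval_zero] at h6 h7
    have h8 : ε * α = 0 := by linarith
    have h9 : ε * β = 0 := by linarith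
    exact ⟨(mul_eq_zero.1 h8).resolve_left hε0', (mul_eq_zero.1 h9).resolve_left hε0'⟩
  let δ : ℂ → ℝ := fun z => (w₁ z).re * (w₂ z).im - (w₁ z).im * (w₂ z).re
  have hδ : δ z₀ ≠ 0 := by
    intro h0
    simp only [δ] at h0
    have h1 := hinj (w₂ z₀).im (-(w₁ z₀).im) (Complex.ext (by simp; linarith) (by simp; linarith))
    have h2 := hinj (w₂ z₀).re (-(w₁ z₀).re) (Complex.ext (by simp; linarith) (by simp; linarith))
    have h3 : w₂ z₀ = 0 := Complex.ext h2.1 h1.1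
    exact one_ne_zero (hinj 0 1 (by simp [h3])).2
  have hc : ∀ g : ℝ[X], Continuous (fun z => ev z g) := fun g => (T g).continuous_aeval
  have c₀ : Continuous w₀ := hc _
  have c₁ : Continuous w₁ := hc _
  have c₂ : Continuous w₂ := hc _
  have cδ : Continuous δ := by simp only [δ]; fun_prop
  let α : ℂ → ℝ := fun z => ((w₀ z).im * (w₂ z).re - (w₀ z).re * (w₂ z).im) / δ z
  let β : ℂ → ℝ := fun z => ((w₀ z).re * (w₁ z).im - (w₀ z).im * (w₁ z).re) / δ z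
  have hw₀ : w₀ z₀ = 0 := e
  have hα : Tendsto α (𝓝 z₀) (𝓝 0) := by
    have : ContinuousAt α z₀ := ContinuousAt.div (by fun_prop) cδ.continuousAt hδ
    simpa [ContinuousAt, α, hw₀] using this
  have hβ : Tendsto β (𝓝 z₀) (𝓝 0) := by
    have : ContinuousAt β z₀ := ContinuousAt.div (by fun_prop) cδ.continuousAt hδ
    simpa [ContinuousAt, β, hw₀] using this
  filter_upwards [quad_perturb₂ ha hab hb hα hβ, cδ.continuousAt.eventually_ne hδ] with z h1 h2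
  refine ⟨_, hD _ _ h1, ?_⟩
  rw [← hev, map_add, hd]
  change w₀ z + _ = 0
  apply Complex.ext
  · simp only [Complex.add_re, Complex.re_ofReal_mul, Complex.zero_re, α, β]
    field_simp
    simp only [δ]; ring
  · simp only [Complex.add_im, Complex.im_ofReal_mul, Complex.zero_im, α, β]
    field_simp
    simp only [δ]; ring

theorem not_mem_Z (T : ℝ[X] →ₗ[ℝ] ℝ[X]) (n : ℕ)
    (h : ∀ (a b : ℕ) (v : ℝ), 0 < v → ∀ z : ℂ, 0 < z.im → aeval z (T (X ^ a * (X + C v) ^ b)) ≠ 0)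
    (hI : Complex.I ∉ Z T n) {z : ℂ} (hz : 0 < z.im) : z ∉ Z T n := by
  have hconv : IsPreconnected {z : ℂ | 0 < z.im} := (convex_halfSpace_im_gt 0).isPreconnected
  refine hconv.subset_of_closure_inter_subset (isClosed_Z T n).isOpen_compl
    ⟨Complex.I, by simp, hI⟩ (fun w hw hwZ => ?_) hz
  have h1 := Z_mem_nhds T n hwZ (fun a b v hv => h a b v hv w hw.2)
  obtain ⟨x, hx1, hx2⟩ := mem_closure_iff_nhds.1 hw.1 _ h1
  exact hx2 hx1

end Pool.Agent.Lib.MP_7a4764_an
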