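import Mathlib
import Pool.Agent.Lib.MP_7a4764_an.Open
import Pool.Agent.Lib.MP_7a4764_an.H57Step

set_option autoImplicit false

/-!
The set of zeros of the nonzero images of normalised polynomials is closed, for every linear map;
it is open near every point that is not a zero of a nonzero image of some `X ^ a * (X + v) ^ b`.
-/

namespace Pool.Agent.Lib.MP_7a4764_an.H57

open Polynomial Filter Topology

/-- The monic polynomial with the roots `-s`. -/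
noncomputable def Qm (S : Multiset ℝ) : ℝ[X] := (S.map (fun s => X + C s)).prod

theorem Qm_cons (s : ℝ) (S : Multiset ℝ) : Qm (s ::ₘ S) = (X + C s) * Qm S := by simp [Qm]

theorem Qm_spec (S : Multiset ℝ) : Qm S ≠ 0 ∧ (Qm S).Splits ∧ (Qm S).natDegree = S.card ∧
    (∀ ρ : ℝ, (Qm S).eval ρ = 0 → -ρ ∈ S) ∧
    ∀ r : ℝ, taylor r (Qm S) = Qm (S.map (fun s => s + r)) := by
  induction S using Multiset.induction_on with
  | empty => simp [Qm]
  | cons s S ih =>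
    obtain ⟨h1, h2, h3, h4, h5⟩ := ih
    rw [Qm_cons]
    refine ⟨mul_ne_zero (X_add_C_ne_zero s) h1, (Splits.X_add_C s).mul h2, ?_, fun ρ hρ => ?_,
      fun r => ?_⟩
    · rw [natDegree_mul (X_add_C_ne_zero s) h1, natDegree_X_add_C, h3, Multiset.card_cons, add_comm]
    · rw [eval_mul, mul_eq_zero] at hρ
      rcases hρ with h | h
      · have : -ρ = s := by simp at h; linarith
        rw [this]; exact Multiset.mem_cons_self _ _
      · exact Multiset.mem_cons_of_mem (h4 ρ h)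
    · rw [taylor_mul, h5, Multiset.map_cons, Qm_cons]
      congr 1
      simp only [map_add, taylor_X, taylor_C]
      ring

theorem cv_prod {ι : Type} {l : Filter ι} {n : ℕ} {s : ι → Fin n → ℝ} {s₀ : Fin n → ℝ}
    (hs : Tendsto s l (𝓝 s₀)) (A : Finset (Fin n)) :
    Cv l (fun i => Qm (A.val.map (s i))) (Qm (A.val.map s₀)) := by
  classical
  induction A using Finset.induction_on with
  | empty => intro k; exact tendsto_const_nhds
  | insert j A hj ih =>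
    intro k
    simp only [Finset.insert_val_of_notMem hj, Multiset.map_cons, Qm_cons, add_mul, coeff_add,
      coeff_C_mul]
    refine Tendsto.add ?_ ((tendsto_pi_nhds.1 hs j).mul (ih k))
    rcases k with _ | k
    · simpa only [coeff_X_mul_zero] using tendsto_const_nhds
    · simpa only [coeff_X_mul] using ih k

theorem closed_cube {ι : Type} (l : Ultrafilter ι) {n : ℕ} {s : ι → Fin n → ℝ}
    (K : Submodule ℝ ℝ[X])
    (hs : ∀ᶠ i in (l : Filter ι), s i ∈ Set.Icc (0 : Fin n → ℝ) 1 ∧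
      Qm (Finset.univ.val.map (s i)) ∉ K) :
    Concl l (fun i => Qm (Finset.univ.val.map (s i))) K n := by
  have hcard : ∀ t : Fin n → ℝ, (Finset.univ.val.map t).card = n := fun t => by simp
  have hmem : ∀ t ∈ Set.Icc (0 : Fin n → ℝ) 1, ∀ x ∈ Finset.univ.val.map t, 0 ≤ x ∧ x ≤ 1 := by
    intro t ht x hx
    obtain ⟨i, -, rfl⟩ := Multiset.mem_map.1 hx
    exact ⟨ht.1 i, ht.2 i⟩
  have hf : Fam l (fun i => Qm (Finset.univ.val.map (s i))) K n := by
    filter_upwards [hs] with i hi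
    obtain ⟨h1, h2, h3, h4, h5⟩ := Qm_spec (Finset.univ.val.map (s i))
    refine ⟨h2, (h3.trans (hcard _)).le, ?_, ?_, hi.2⟩
    · rw [h5]
      refine sg_prod (by norm_num) _ (fun c hc => ?_)
      obtain ⟨x, hx, rfl⟩ := Multiset.mem_map.1 hc
      linarith [(hmem _ hi.1 x hx).1]
    · rw [h5]
      refine sg_prod (by norm_num) _ (fun c hc => ?_)
      obtain ⟨x, hx, rfl⟩ := Multiset.mem_map.1 hc
      linarith [(hmem _ hi.1 x hx).2]
  obtain ⟨s₀, hs₀, hl⟩ := isCompact_Icc.ultrafilter_le_nhds (l.map s)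
    (le_principal_iff.2 (hs.mono (fun i hi => hi.1)))
  have hcv := cv_prod (l := (l : Filter ι)) (s := s) (s₀ := s₀) hl Finset.univ
  obtain ⟨h1, h2, h3, h4, -⟩ := Qm_spec (Finset.univ.val.map s₀)
  rw [hcard] at h3
  set h := Qm (Finset.univ.val.map s₀)
  have hi : In0 h := fun ρ hρ => by
    have := hmem _ hs₀ _ (h4 ρ hρ)
    constructor <;> linarith [this.1, this.2]
  by_cases hK : h ∈ K
  swap
  · exact ⟨h, h2, hi, h3, hK, fun _ => 1, fun _ => 0, fun _ => ⟨K.zero_mem, by simp⟩,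
      by simpa using hcv⟩
  refine concl_of_st l hf _ h 1 rfl ⟨h1, h2, hi, ⟨one_ne_zero, ∅, by simp, by simp⟩, by simp,
    by simpa using h3, by simpa using hK, fun _ => 1, fun _ => h, by simp,
    fun _ => ⟨hK, dvd_rfl, h3.le⟩, fun k => ?_, fun ρ m G hG hG' _ => ?_⟩
  · simpa using (hcv k).sub_const (h.coeff k)
  · have h5 := (hcv.lin (n := n) (hf.mono (fun i hi => hi.2.1)) h3.le
      (lcoeff ℝ m ∘ₗ taylor ρ)).const_mul (G.eval ρ)
    have h6 : (taylor ρ h).coeff m = G.eval ρ := by rw [hG]; exact (taylor_coeff_pow_mul ρ m G).1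
    simp only [LinearMap.comp_apply, lcoeff_apply, h6] at h5
    have h7 := mul_self_pos.2 hG'
    refine ⟨_, half_pos h7, ?_⟩
    filter_upwards [h5.eventually (lt_mem_nhds (half_lt_self h7))] with i h8
    simpa using h8.le

/-- The change of variable from roots in `[-1, 0]` to roots in `[-∞, 0]`. -/
noncomputable def Mn (n : ℕ) : ℝ[X] →ₗ[ℝ] ℝ[X] where
  toFun g := taylor (-1) (reflect n g)
  map_add' a b := by rw [reflect_add, map_add]
  map_smul' c a := by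
    rw [smul_eq_C_mul, reflect_C_mul, ← smul_eq_C_mul, map_smul]; rfl

theorem Mn_Qm (S : Multiset ℝ) : Mn S.card (Qm S) = P S := by
  change taylor (-1) (reflect S.card (Qm S)) = P S
  induction S using Multiset.induction_on with
  | empty => simp [Qm]
  | cons s S ih =>
    rw [Qm_cons, Multiset.card_cons, add_comm S.card, reflect_mul _ _ (natDegree_X_add_C s).le
      (Qm_spec S).2.2.1.le, taylor_mul, ih, P_cons]
    congr 1
    have : reflect 1 (X + C s : ℝ[X]) = 1 + C s * X := by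
      rw [reflect_add, reflect_one_X, reflect_C]; simp
    rw [this, L]
    simp only [map_add, taylor_mul, taylor_X, taylor_C, taylor_one, map_neg, map_one, map_sub]
    ring

/-- The set of zeros of nonzero images of normalised polynomials of degree at most `n`. -/
def Zo (T : ℝ[X] →ₗ[ℝ] ℝ[X]) (n : ℕ) : Set ℂ := {z | ∃ g, D n g ∧ T g ≠ 0 ∧ aeval z (T g) = 0}

theorem isClosed_Zo (T : ℝ[X] →ₗ[ℝ] ℝ[X]) (n : ℕ) : IsClosed (Zo T n) := by
  rw [isClosed_iff_ultrafilter]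
  intro z₀ l hl hZ
  have hex : ∀ z ∈ Zo T n, ∃ s : Fin n → ℝ, s ∈ Set.Icc (0 : Fin n → ℝ) 1 ∧
      (T ∘ₗ Mn n) (Qm (Finset.univ.val.map s)) ≠ 0 ∧
      aeval z ((T ∘ₗ Mn n) (Qm (Finset.univ.val.map s))) = 0 := by
    rintro z ⟨g, hg, h1, h2⟩
    obtain ⟨s, hs, rfl⟩ := D_iff.1 hg
    have h3 := Mn_Qm (Finset.univ.val.map s)
    rw [P, Multiset.map_map, Multiset.card_map, Finset.card_val, Finset.card_univ,
      Fintype.card_fin] at h3
    refine ⟨s, hs, ?_, ?_⟩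
    · rw [LinearMap.comp_apply, h3]; exact h1
    · rw [LinearMap.comp_apply, h3]; exact h2
  choose! s hs using hex
  have hZ' : ∀ᶠ z in (l : Filter ℂ), z ∈ Zo T n := hZ
  obtain ⟨f, f1, f2, f3, f4, c, u, hu, hcv⟩ := closed_cube l (s := s) (LinearMap.ker (T ∘ₗ Mn n))
    (hZ'.mono (fun z hz => ⟨(hs z hz).1, (hs z hz).2.1⟩))
  have h0 : aeval z₀ ((T ∘ₗ Mn n) f) = 0 := by
    let ev : ℂ → ℝ[X] →ₗ[ℝ] ℂ := fun z => (aeval z : ℝ[X] →ₐ[ℝ] ℂ).toLinearMap ∘ₗ (T ∘ₗ Mn n)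
    change ev z₀ f = 0
    rw [lin_eq_sum _ f3.le]
    have hev : ∀ k : ℕ, Tendsto (fun z => ev z (X ^ k)) l (𝓝 (ev z₀ (X ^ k))) := fun k =>
      (((T ∘ₗ Mn n) (X ^ k)).continuous_aeval.tendsto z₀).mono_left hl
    refine tendsto_nhds_unique (l := (l : Filter ℂ)) (tendsto_finsetSum _ (fun k _ =>
      (hcv k).smul (hev k))) (tendsto_const_nhds.congr' ?_)
    filter_upwards [hZ'] with z hz
    have h1 := lin_eq_sum (ev z) (natDegree_smul_sub_le (c z)
      ((Qm_spec (Finset.univ.val.map (s z))).2.2.1.trans (by simp)).le (hu z).2)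
    have h2 : ev z (u z) = 0 := by
      change aeval z ((T ∘ₗ Mn n) (u z)) = 0
      rw [LinearMap.mem_ker.1 (hu z).1, map_zero]
    have h3 : ev z (Qm (Finset.univ.val.map (s z))) = 0 := (hs z hz).2.2
    rw [map_smul, map_sub, h2, h3, sub_zero, smul_zero] at h1
    exact h1
  have hf0 : f ≠ 0 := by rintro rfl; exact f4 (Submodule.zero_mem _)
  have hS : (f.roots.map (fun r => -r)).card = n := by
    rw [Multiset.card_map, ← f1.natDegree_eq_card_roots, f3]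
  have hfQ : f = f.leadingCoeff • Qm (f.roots.map (fun r => -r)) := by
    conv_lhs => rw [f1.eq_prod_roots]
    simp [Qm, smul_eq_C_mul, sub_eq_add_neg]
  have hM : (T ∘ₗ Mn n) f = f.leadingCoeff • T (P (f.roots.map (fun r => -r))) := by
    conv_lhs => rw [hfQ, map_smul, LinearMap.comp_apply, ← hS, Mn_Qm]
  refine ⟨P (f.roots.map (fun r => -r)), ⟨_, hS, fun x hx => ?_, rfl⟩, fun h => f4 ?_, ?_⟩
  · obtain ⟨r, hr, rfl⟩ := Multiset.mem_map.1 hx
    have := f2 r ((mem_roots hf0).1 hr)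
    constructor <;> linarith [this.1, this.2]
  · rw [LinearMap.mem_ker, hM, h, smul_zero]
  · rw [hM, map_smul, smul_eq_zero] at h0
    exact h0.resolve_left (leadingCoeff_ne_zero.2 hf0)

/-- A slice on which `ψ` does not vanish has an extreme point at which `ψ` does not vanish. -/
theorem exists_extreme' (φ₁ φ₂ ψ : ℝ[X] →ₗ[ℝ] ℝ) {n : ℕ} {f : ℝ[X]} (hf : D n f) (h₁ : φ₁ f = 0)
    (h₂ : φ₂ f = 0) (hψ : ψ f ≠ 0) : ∃ g, D n g ∧ φ₁ g = 0 ∧ φ₂ g = 0 ∧ ψ g ≠ 0 ∧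
      ∀ d : ℝ[X], d.natDegree ≤ n → φ₁ d = 0 → φ₂ d = 0 → D n (g + d) → D n (g - d) → d = 0 := by
  let Q : (Fin n → ℝ) → ℝ[X] := fun s => ∏ i, L (s i)
  let Ψ : ℝ[X] → ℝ := fun g => ∑ k ∈ Finset.range (n + 1), (g.coeff k) ^ 2
  have hΨc : Continuous (fun s => Ψ (Q s)) :=
    continuous_finsetSum _ (fun k _ => (continuous_lin n (lcoeff ℝ k)).pow 2)
  let K : Set (Fin n → ℝ) := Set.Icc 0 1 ∩ ({s | φ₁ (Q s) = 0} ∩ {s | φ₂ (Q s) = 0})
  have hK : IsCompact K := isCompact_Icc.inter_right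
    ((isClosed_eq (continuous_lin n φ₁) continuous_const).inter
      (isClosed_eq (continuous_lin n φ₂) continuous_const))
  obtain ⟨s₀, hs₀, rfl⟩ := D_iff.1 hf
  have hs₀K : s₀ ∈ K := ⟨hs₀, h₁, h₂⟩
  obtain ⟨s₁, hs₁K, hmax₁⟩ := hK.exists_isMaxOn ⟨s₀, hs₀K⟩
    ((continuous_lin n ψ).pow 2).continuousOn
  let K' : Set (Fin n → ℝ) := K ∩ {s | ψ (Q s) ^ 2 = ψ (Q s₁) ^ 2}
  have hK' : IsCompact K' := hK.inter_right
    (isClosed_eq ((continuous_lin n ψ).pow 2) continuous_const)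
  obtain ⟨s₂, hs₂K, hmax₂⟩ := hK'.exists_isMaxOn ⟨s₁, hs₁K, rfl⟩ hΨc.continuousOn
  have i₃ : ψ (Q s₂) ^ 2 = ψ (Q s₁) ^ 2 := hs₂K.2
  have hψ₂ : ψ (Q s₂) ≠ 0 := by
    intro h
    have h3 : ψ (Q s₀) ^ 2 ≤ ψ (Q s₁) ^ 2 := hmax₁ hs₀K
    have h5 : 0 < ψ (Q s₀) ^ 2 := by positivity
    rw [h] at i₃
    nlinarith
  have e₁ : φ₁ (Q s₂) = 0 := hs₂K.1.2.1
  have e₂ : φ₂ (Q s₂) = 0 := hs₂K.1.2.2
  refine ⟨Q s₂, D_iff.2 ⟨s₂, hs₂K.1.1, rfl⟩, e₁, e₂, hψ₂, fun d hdn hd₁ hd₂ hp hm => ?_⟩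
  by_contra hd0
  obtain ⟨sp, hsp, hp⟩ := D_iff.1 hp
  obtain ⟨sm, hsm, hm⟩ := D_iff.1 hm
  have hp' : Q sp = Q s₂ + d := hp.symm
  have hm' : Q sm = Q s₂ - d := hm.symm
  have hspK : sp ∈ K := ⟨hsp, by simp [hp', e₁, hd₁], by simp [hp', e₂, hd₂]⟩
  have hsmK : sm ∈ K := ⟨hsm, by simp [hm', e₁, hd₁], by simp [hm', e₂, hd₂]⟩
  have i₁ : ψ (Q sp) ^ 2 ≤ ψ (Q s₁) ^ 2 := hmax₁ hspK
  have i₂ : ψ (Q sm) ^ 2 ≤ ψ (Q s₁) ^ 2 := hmax₁ hsmK
  rw [hp', map_add] at i₁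
  rw [hm', map_sub] at i₂
  have hψd : ψ d = 0 := by nlinarith [sq_nonneg (ψ d)]
  have j₁ : Ψ (Q sp) ≤ Ψ (Q s₂) := hmax₂ (⟨hspK, by simp [hp', hψd, i₃]⟩ : sp ∈ K')
  have j₂ : Ψ (Q sm) ≤ Ψ (Q s₂) := hmax₂ (⟨hsmK, by simp [hm', hψd, i₃]⟩ : sm ∈ K')
  have j₃ : Ψ (Q sp) + Ψ (Q sm) = 2 * Ψ (Q s₂) + 2 * Ψ d := by
    simp only [Ψ, hp', hm', Finset.mul_sum, ← Finset.sum_add_distrib, coeff_add, coeff_sub]
    exact Finset.sum_congr rfl (fun k _ => by ring)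
  have j₄ : 0 < Ψ d := by
    refine Finset.sum_pos' (fun k _ => sq_nonneg _) ⟨d.natDegree, by simp; omega, ?_⟩
    have : d.coeff d.natDegree ≠ 0 := leadingCoeff_ne_zero.2 hd0
    positivity
  linarith

theorem Zo_mem_nhds (T : ℝ[X] →ₗ[ℝ] ℝ[X]) (n : ℕ) {z₀ : ℂ} (hz₀ : z₀ ∈ Zo T n)
    (h : ∀ (a b : ℕ) (v : ℝ), 0 < v → aeval z₀ (T (X ^ a * (X + C v) ^ b)) = 0 →
      T (X ^ a * (X + C v) ^ b) = 0) :
    Zo T n ∈ 𝓝 z₀ := by
  classical
  let ev : ℂ → ℝ[X] →ₗ[ℝ] ℂ := fun z => (aeval z : ℝ[X] →ₐ[ℝ] ℂ).toLinearMap ∘ₗ T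
  have hev : ∀ z g, ev z g = aeval z (T g) := fun _ _ => rfl
  obtain ⟨f, hf, hfT, hf0⟩ := hz₀
  let ψ : ℝ[X] →ₗ[ℝ] ℝ := lcoeff ℝ (T f).natDegree ∘ₗ T
  obtain ⟨g, ⟨S, hcard, hS, rfl⟩, e₁, e₂, e₃, hext⟩ := exists_extreme' (Complex.reLm ∘ₗ ev z₀)
    (Complex.imLm ∘ₗ ev z₀) ψ hf (by simp [hev, hf0]) (by simp [hev, hf0])
    (leadingCoeff_ne_zero.2 hfT)
  have e : ev z₀ (P S) = 0 := Complex.ext e₁ e₂
  rcases one_or_two S hS with ⟨σ, hσ, hσ1, hall⟩ | ⟨a, b, ha, hab, hb, haS, hbS⟩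
  · obtain ⟨κ, a, b, c, -, hP⟩ := P_eq_test hσ hσ S (fun s hs => by have := hall s hs; tauto)
    have hκ : κ ≠ 0 := by rintro rfl; exact P_ne_zero _ (by rw [hP, C_0, zero_mul])
    rw [hP, C_mul', map_smul, smul_eq_zero, mul_assoc, ← pow_add] at e
    have h1 := h a (b + c) _ (div_pos (by linarith) hσ) (e.resolve_left hκ)
    refine absurd ?_ e₃
    rw [hP, C_mul', map_smul, mul_assoc, ← pow_add]
    simp [ψ, h1]
  obtain ⟨S₁, rfl⟩ := Multiset.exists_cons_of_mem haS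
  obtain ⟨R, rfl⟩ := Multiset.exists_cons_of_mem ((Multiset.mem_cons.1 hbS).resolve_left hab.ne')
  have hR : D R.card (P R) := ⟨R, rfl, fun s hs => hS s (by simp [hs]), rfl⟩
  have hn : 2 + R.card = n := by rw [← hcard]; simp; omega
  let d : ℝ → ℝ → ℝ[X] := fun α β => (C α * (X - 1) + C β * ((X - 1) * X)) * P R
  let w₀ : ℂ → ℂ := fun z => ev z (P (a ::ₘ b ::ₘ R))
  let w₁ : ℂ → ℂ := fun z => ev z ((X - 1) * P R)
  let w₂ : ℂ → ℂ := fun z => ev z ((X - 1) * X * P R)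
  have hd : ∀ z α β, ev z (d α β) = α * w₁ z + β * w₂ z := by
    intro z α β
    simp only [d, w₁, w₂, add_mul, C_mul', smul_mul_assoc, map_add, map_smul, Complex.real_smul]
  have hdψ : ∀ α β, ψ (d α β) = α * ψ ((X - 1) * P R) + β * ψ ((X - 1) * X * P R) := by
    intro α β
    simp only [d, add_mul, C_mul', smul_mul_assoc, map_add, map_smul, smul_eq_mul]
  have hD : ∀ α β, D 2 (L a * L b + (C α * (X - 1) + C β * ((X - 1) * X))) →
      D n (P (a ::ₘ b ::ₘ R) + d α β) := by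
    intro α β h1
    rw [← hn]
    convert h1.mul hR using 1
    simp only [P_cons, d]; ring
  have hinj : ∀ α β : ℝ, α * w₁ z₀ + β * w₂ z₀ = 0 → α = 0 ∧ β = 0 := by
    intro α β h0
    have t1 : ∀ c : ℝ, Tendsto (fun ε : ℝ => ε * c) (𝓝 0) (𝓝 0) := fun c => by
      simpa using (continuous_mul_const c).tendsto 0
    obtain ⟨ε, ⟨hε1, hε2⟩, hε0⟩ := ((((quad_perturb₂ ha hab hb (t1 α) (t1 β)).and
      (quad_perturb₂ ha hab hb (t1 (-α)) (t1 (-β)))).filter_mono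
      (nhdsWithin_le_nhds (s := {0}ᶜ))).and self_mem_nhdsWithin).exists
    have hε0' : ε ≠ 0 := hε0
    have h3 : ev z₀ (d (ε * α) (ε * β)) = 0 := by
      rw [hd]; push_cast; linear_combination ε * h0
    have h4 := hext (d (ε * α) (ε * β)) (by
        have h5 := natDegree_P_le R
        have h6 : (C (ε * α) * (X - 1) + C (ε * β) * ((X - 1) * X) : ℝ[X]).natDegree ≤ 2 := by
          compute_degree
        exact natDegree_mul_le.trans (by omega))
      (by simp [h3]) (by simp [h3]) (hD _ _ hε1) (by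
        convert hD _ _ hε2 using 1
        simp only [d, mul_neg, C_neg]; ring)
    have h5 := (mul_eq_zero.1 h4).resolve_right (P_ne_zero R)
    have h6 := congrArg (eval 0) h5
    have h7 := congrArg (eval 2) h5
    simp only [eval_add, eval_mul, eval_C, eval_sub, eval_X, eval_one, eval_zero] at h6 h7
    have h8 : ε * α = 0 := by linarith
    have h9 : ε * β = 0 := by linarith
    exact ⟨(mul_eq_zero.1 h8).resolve_left hε0', (mul_eq_zero.1 h9).resolve_left hε0'⟩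
  let δ : ℂ → ℝ := fun z => (w₁ z).re * (w₂ z).im - (w₁ z).im * (w₂ z).re
  have hδ : δ z₀ ≠ 0 := by
    intro h0
    simp only [δ] at h0
    have h1 := hinj (w₂ z₀).im (-(w₁ z₀).im) (Complex.ext (by simp; linarith) (by simp; linarith))
    have h2 := hinj (w₂ z₀).re (-(w₁ z₀).re) (Complex.ext (by simp; linarith) (by simp; linarith))
    have h3 : w₂ z₀ = 0 := Complex.ext h2.1 h1.1
    exact one_ne_zero (hinj 0 1 (by simp [h3])).2
  have hc : ∀ g : ℝ[X], Continuous (fun z => ev z g) := fun g => (T g).continuous_aeval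
  have c₀ : Continuous w₀ := hc _
  have c₁ : Continuous w₁ := hc _
  have c₂ : Continuous w₂ := hc _
  have cδ : Continuous δ := by simp only [δ]; fun_prop
  let α : ℂ → ℝ := fun z => ((w₀ z).im * (w₂ z).re - (w₀ z).re * (w₂ z).im) / δ z
  let β : ℂ → ℝ := fun z => ((w₀ z).re * (w₁ z).im - (w₀ z).im * (w₁ z).re) / δ z
  have hw₀ : w₀ z₀ = 0 := e
  have hα : Tendsto α (𝓝 z₀) (𝓝 0) := by
    have : ContinuousAt α z₀ := ContinuousAt.div (by fun_prop) cδ.continuousAt hδ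
    simpa [ContinuousAt, α, hw₀] using this
  have hβ : Tendsto β (𝓝 z₀) (𝓝 0) := by
    have : ContinuousAt β z₀ := ContinuousAt.div (by fun_prop) cδ.continuousAt hδ
    simpa [ContinuousAt, β, hw₀] using this
  have hψ : ∀ᶠ z in 𝓝 z₀, ψ (P (a ::ₘ b ::ₘ R) + d (α z) (β z)) ≠ 0 := by
    simp only [map_add, hdψ]
    refine (((hα.mul_const _).add (hβ.mul_const _)).const_add _).eventually_ne ?_
    simpa using e₃
  filter_upwards [quad_perturb₂ ha hab hb hα hβ, cδ.continuousAt.eventually_ne hδ, hψ]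
    with z h1 h2 h3
  refine ⟨_, hD _ _ h1, fun h4 => h3 (by simp only [ψ, LinearMap.comp_apply, h4, map_zero]), ?_⟩
  rw [← hev, map_add, hd]
  change w₀ z + _ = 0
  apply Complex.ext
  · simp only [Complex.add_re, Complex.re_ofReal_mul, Complex.zero_re, α, β]
    field_simp
    simp only [δ]; ring
  · simp only [Complex.add_im, Complex.im_ofReal_mul, Complex.zero_im, α, β]
    field_simp
    simp only [δ]; ring

theorem not_mem_Zo (T : ℝ[X] →ₗ[ℝ] ℝ[X]) (n : ℕ)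
    (h : ∀ (a b : ℕ) (v : ℝ), 0 < v → ∀ z : ℂ, 0 < z.im →
      aeval z (T (X ^ a * (X + C v) ^ b)) = 0 → T (X ^ a * (X + C v) ^ b) = 0)
    {z₀ : ℂ} (hz₀ : 0 < z₀.im) (hI : z₀ ∉ Zo T n) {z : ℂ} (hz : 0 < z.im) : z ∉ Zo T n := by
  have hconv : IsPreconnected {z : ℂ | 0 < z.im} := (convex_halfSpace_im_gt 0).isPreconnected
  refine hconv.subset_of_closure_inter_subset (isClosed_Zo T n).isOpen_compl
    ⟨z₀, hz₀, hI⟩ (fun w hw hwZ => ?_) hz
  have h1 := Zo_mem_nhds T n hwZ (fun a b v hv => h a b v hv w hw.2)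
  obtain ⟨x, hx1, hx2⟩ := mem_closure_iff_nhds.1 hw.1 _ h1
  exact hx2 hx1

end Pool.Agent.Lib.MP_7a4764_an.H57
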