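import Mathlib
import Pool.Agent.Lib.MP_7a4764_an.H57Clopen

set_option autoImplicit false

/-!
Continuous families of complex functionals on the normalised polynomials: the set of parameters
with a zero outside a fixed kernel is closed, and a zero persists when no edge polynomial is hit.
-/

namespace Pool.Agent.Lib.MP_7a4764_an.H44

open Polynomial Filter Topology Pool.Agent.Lib.MP_7a4764_an.H57

theorem isClosed_zero (ev : ℝ → ℝ[X] →ₗ[ℝ] ℂ) (K : Submodule ℝ ℝ[X]) (n : ℕ)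
    (hc : ∀ g : ℝ[X], Continuous (fun y => ev y g)) (hK : ∀ y, ∀ g ∈ K, ev y g = 0) :
    IsClosed {y : ℝ | ∃ g, D n g ∧ g ∉ K ∧ ev y g = 0} := by
  rw [isClosed_iff_ultrafilter]
  intro y₀ l hl hZ
  have hex : ∀ z ∈ {y : ℝ | ∃ g, D n g ∧ g ∉ K ∧ ev y g = 0},
      ∃ s : Fin n → ℝ, s ∈ Set.Icc (0 : Fin n → ℝ) 1 ∧
      Qm (Finset.univ.val.map s) ∉ K.comap (Mn n) ∧
      (ev z ∘ₗ Mn n) (Qm (Finset.univ.val.map s)) = 0 := by
    rintro z ⟨g, hg, h1, h2⟩
    obtain ⟨s, hs, rfl⟩ := D_iff.1 hg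
    have h3 := Mn_Qm (Finset.univ.val.map s)
    rw [P, Multiset.map_map, Multiset.card_map, Finset.card_val, Finset.card_univ,
      Fintype.card_fin] at h3
    refine ⟨s, hs, ?_, ?_⟩
    · rw [Submodule.mem_comap, h3]; exact h1
    · rw [LinearMap.comp_apply, h3]; exact h2
  choose! s hs using hex
  have hZ' : ∀ᶠ z in (l : Filter ℝ), z ∈ {y : ℝ | ∃ g, D n g ∧ g ∉ K ∧ ev y g = 0} := hZ
  obtain ⟨f, f1, f2, f3, f4, c, u, hu, hcv⟩ := closed_cube l (s := s) (K.comap (Mn n))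
    (hZ'.mono (fun z hz => ⟨(hs z hz).1, (hs z hz).2.1⟩))
  have h0 : (ev y₀ ∘ₗ Mn n) f = 0 := by
    rw [lin_eq_sum _ f3.le]
    have hev : ∀ k : ℕ, Tendsto (fun z => (ev z ∘ₗ Mn n) (X ^ k)) l
        (𝓝 ((ev y₀ ∘ₗ Mn n) (X ^ k))) := fun k => ((hc (Mn n (X ^ k))).tendsto y₀).mono_left hl
    refine tendsto_nhds_unique (l := (l : Filter ℝ)) (tendsto_finsetSum _ (fun k _ =>
      (hcv k).smul (hev k))) (tendsto_const_nhds.congr' ?_)
    filter_upwards [hZ'] with z hz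
    have h1 := lin_eq_sum (ev z ∘ₗ Mn n) (natDegree_smul_sub_le (c z)
      ((Qm_spec (Finset.univ.val.map (s z))).2.2.1.trans (by simp)).le (hu z).2)
    have h2 : (ev z ∘ₗ Mn n) (u z) = 0 := hK z _ (hu z).1
    rw [map_smul, map_sub, h2, (hs z hz).2.2, sub_zero, smul_zero] at h1
    exact h1
  have hf0 : f ≠ 0 := by rintro rfl; exact f4 (Submodule.zero_mem _)
  have hS : (f.roots.map (fun r => -r)).card = n := by
    rw [Multiset.card_map, ← f1.natDegree_eq_card_roots, f3]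
  have hfQ : f = f.leadingCoeff • Qm (f.roots.map (fun r => -r)) := by
    conv_lhs => rw [f1.eq_prod_roots]
    simp [Qm, smul_eq_C_mul, sub_eq_add_neg]
  have hM : Mn n f = f.leadingCoeff • P (f.roots.map (fun r => -r)) := by
    conv_lhs => rw [hfQ, map_smul, ← hS, Mn_Qm]
  refine ⟨P (f.roots.map (fun r => -r)), ⟨_, hS, fun x hx => ?_, rfl⟩, fun h => f4 ?_, ?_⟩
  · obtain ⟨r, hr, rfl⟩ := Multiset.mem_map.1 hx
    have := f2 r ((mem_roots hf0).1 hr)
    constructor <;> linarith [this.1, this.2]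
  · rw [Submodule.mem_comap, hM]; exact K.smul_mem _ h
  · rw [LinearMap.comp_apply, hM, map_smul, smul_eq_zero] at h0
    exact h0.resolve_left (leadingCoeff_ne_zero.2 hf0)

theorem zero_persists (ev : ℝ → ℝ[X] →ₗ[ℝ] ℂ) (ψ : ℝ → ℝ[X] →ₗ[ℝ] ℝ) (n : ℕ) (y₀ : ℝ)
    (hc : ∀ g : ℝ[X], Continuous (fun y => ev y g))
    (hψc : ∀ g : ℝ[X], Continuous (fun y => ψ y g))
    {f : ℝ[X]} (hf : D n f) (hfψ : ψ y₀ f ≠ 0) (hf0 : ev y₀ f = 0)
    (h : ∀ (a b : ℕ) (v : ℝ), 0 < v → ev y₀ (X ^ a * (X + C v) ^ b) = 0 →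
      ψ y₀ (X ^ a * (X + C v) ^ b) = 0) :
    ∀ᶠ y in 𝓝 y₀, ∃ g, D n g ∧ ψ y g ≠ 0 ∧ ev y g = 0 := by
  classical
  obtain ⟨g, ⟨S, hcard, hS, rfl⟩, e₁, e₂, e₃, hext⟩ := exists_extreme' (Complex.reLm ∘ₗ ev y₀)
    (Complex.imLm ∘ₗ ev y₀) (ψ y₀) hf (by simp [hf0]) (by simp [hf0]) hfψ
  have e : ev y₀ (P S) = 0 := Complex.ext e₁ e₂
  rcases one_or_two S hS with ⟨σ, hσ, hσ1, hall⟩ | ⟨a, b, ha, hab, hb, haS, hbS⟩
  · obtain ⟨κ, a, b, c, -, hP⟩ := P_eq_test hσ hσ S (fun s hs => by have := hall s hs; tauto)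
    have hκ : κ ≠ 0 := by rintro rfl; exact P_ne_zero _ (by rw [hP, C_0, zero_mul])
    rw [hP, C_mul', map_smul, smul_eq_zero, mul_assoc, ← pow_add] at e
    have h1 := h a (b + c) _ (div_pos (by linarith) hσ) (e.resolve_left hκ)
    refine absurd ?_ e₃
    rw [hP, C_mul', map_smul, mul_assoc, ← pow_add, h1, smul_zero]
  obtain ⟨S₁, rfl⟩ := Multiset.exists_cons_of_mem haS
  obtain ⟨R, rfl⟩ := Multiset.exists_cons_of_mem ((Multiset.mem_cons.1 hbS).resolve_left hab.ne')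
  have hR : D R.card (P R) := ⟨R, rfl, fun s hs => hS s (by simp [hs]), rfl⟩
  have hn : 2 + R.card = n := by rw [← hcard]; simp; omega
  let d : ℝ → ℝ → ℝ[X] := fun α β => (C α * (X - 1) + C β * ((X - 1) * X)) * P R
  let w₀ : ℝ → ℂ := fun z => ev z (P (a ::ₘ b ::ₘ R))
  let w₁ : ℝ → ℂ := fun z => ev z ((X - 1) * P R)
  let w₂ : ℝ → ℂ := fun z => ev z ((X - 1) * X * P R)
  have hd : ∀ z α β, ev z (d α β) = α * w₁ z + β * w₂ z := by
    intro z α β
    simp only [d, w₁, w₂, add_mul, C_mul', smul_mul_assoc, map_add, map_smul, Complex.real_smul]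
  have hdψ : ∀ z α β, ψ z (d α β) =
      α * ψ z ((X - 1) * P R) + β * ψ z ((X - 1) * X * P R) := by
    intro z α β
    simp only [d, add_mul, C_mul', smul_mul_assoc, map_add, map_smul, smul_eq_mul]
  have hD : ∀ α β, D 2 (L a * L b + (C α * (X - 1) + C β * ((X - 1) * X))) →
      D n (P (a ::ₘ b ::ₘ R) + d α β) := by
    intro α β h1
    rw [← hn]
    convert h1.mul hR using 1
    simp only [P_cons, d]; ring
  have hinj : ∀ α β : ℝ, α * w₁ y₀ + β * w₂ y₀ = 0 → α = 0 ∧ β = 0 := by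
    intro α β h0
    have t1 : ∀ c : ℝ, Tendsto (fun ε : ℝ => ε * c) (𝓝 0) (𝓝 0) := fun c => by
      simpa using (continuous_mul_const c).tendsto 0
    obtain ⟨ε, ⟨hε1, hε2⟩, hε0⟩ := ((((quad_perturb₂ ha hab hb (t1 α) (t1 β)).and
      (quad_perturb₂ ha hab hb (t1 (-α)) (t1 (-β)))).filter_mono
      (nhdsWithin_le_nhds (s := {0}ᶜ))).and self_mem_nhdsWithin).exists
    have hε0' : ε ≠ 0 := hε0
    have h3 : ev y₀ (d (ε * α) (ε * β)) = 0 := by
      rw [hd]; push_cast; linear_combination ε * h0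
    have h4 := hext (d (ε * α) (ε * β)) (by
        have h5 := natDegree_P_le R
        have h6 : (C (ε * α) * (X - 1) + C (ε * β) * ((X - 1) * X) : ℝ[X]).natDegree ≤ 2 := by
          compute_degree
        exact natDegree_mul_le.trans (by omega))
      (by simp [h3]) (by simp [h3]) (hD _ _ hε1) (by
        convert hD _ _ hε2 using 1
        simp only [d, mul_neg, C_neg]; ring)
    have h5 := (mul_eq_zero.1 h4).resolve_right (P_ne_zero R)
    have h6 := congrArg (eval 0) h5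
    have h7 := congrArg (eval 2) h5
    simp only [eval_add, eval_mul, eval_C, eval_sub, eval_X, eval_one, eval_zero] at h6 h7
    have h8 : ε * α = 0 := by linarith
    have h9 : ε * β = 0 := by linarith
    exact ⟨(mul_eq_zero.1 h8).resolve_left hε0', (mul_eq_zero.1 h9).resolve_left hε0'⟩
  let δ : ℝ → ℝ := fun z => (w₁ z).re * (w₂ z).im - (w₁ z).im * (w₂ z).re
  have hδ : δ y₀ ≠ 0 := by
    intro h0
    simp only [δ] at h0
    have h1 := hinj (w₂ y₀).im (-(w₁ y₀).im) (Complex.ext (by simp; linarith) (by simp; linarith))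
    have h2 := hinj (w₂ y₀).re (-(w₁ y₀).re) (Complex.ext (by simp; linarith) (by simp; linarith))
    have h3 : w₂ y₀ = 0 := Complex.ext h2.1 h1.1
    exact one_ne_zero (hinj 0 1 (by simp [h3])).2
  have c₀ : Continuous w₀ := hc _
  have c₁ : Continuous w₁ := hc _
  have c₂ : Continuous w₂ := hc _
  have cδ : Continuous δ := by simp only [δ]; fun_prop
  let α : ℝ → ℝ := fun z => ((w₀ z).im * (w₂ z).re - (w₀ z).re * (w₂ z).im) / δ z
  let β : ℝ → ℝ := fun z => ((w₀ z).re * (w₁ z).im - (w₀ z).im * (w₁ z).re) / δ z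
  have hw₀ : w₀ y₀ = 0 := e
  have hα : Tendsto α (𝓝 y₀) (𝓝 0) := by
    have : ContinuousAt α y₀ := ContinuousAt.div (by fun_prop) cδ.continuousAt hδ
    simpa [ContinuousAt, α, hw₀] using this
  have hβ : Tendsto β (𝓝 y₀) (𝓝 0) := by
    have : ContinuousAt β y₀ := ContinuousAt.div (by fun_prop) cδ.continuousAt hδ
    simpa [ContinuousAt, β, hw₀] using this
  have hψ : ∀ᶠ z in 𝓝 y₀, ψ z (P (a ::ₘ b ::ₘ R) + d (α z) (β z)) ≠ 0 := by
    simp only [map_add, hdψ]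
    refine (((hψc _).tendsto y₀).add ((hα.mul ((hψc _).tendsto y₀)).add
      (hβ.mul ((hψc _).tendsto y₀)))).eventually_ne ?_
    simpa using e₃
  filter_upwards [quad_perturb₂ ha hab hb hα hβ, cδ.continuousAt.eventually_ne hδ, hψ]
    with z h1 h2 h3
  refine ⟨_, hD _ _ h1, h3, ?_⟩
  rw [map_add, hd]
  change w₀ z + _ = 0
  apply Complex.ext
  · simp only [Complex.add_re, Complex.re_ofReal_mul, Complex.zero_re, α, β]
    field_simp
    simp only [δ]; ring
  · simp only [Complex.add_im, Complex.im_ofReal_mul, Complex.zero_im, α, β]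
    field_simp
    simp only [δ]; ring

end Pool.Agent.Lib.MP_7a4764_an.H44
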