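import Mathlib
import Pool.Agent.Lib.MP_7a4764_an.H44Family

set_option autoImplicit false

/-!
The contraction `g ↦ g (y X + ε)`, `0 ≤ y ≤ 1`: a complex functional without zeros on the products
of two powers `(X + u) ^ a * (X + v) ^ b` has no zero on the shifted normalised polynomials.
-/

namespace Pool.Agent.Lib.MP_7a4764_an.H44

open Polynomial Filter Topology Pool.Agent.Lib.MP_7a4764_an.H57

theorem coeff_P_nonneg (S : Multiset ℝ) (hS : ∀ s ∈ S, 0 ≤ s ∧ s ≤ 1) :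
    ∀ k, 0 ≤ (P S).coeff k := by
  induction S using Multiset.induction_on with
  | empty => intro k; rw [P_zero, coeff_one]; split_ifs <;> norm_num
  | cons s S ih =>
    rw [P_cons]
    refine coeff_mul_nonneg (fun k => ?_) (ih (fun t ht => hS t (by simp [ht])))
    obtain ⟨h0, h1⟩ := hS s (by simp)
    rw [L, coeff_add, coeff_C_mul, coeff_X, coeff_C]
    split_ifs <;> linarith

theorem taylor_coeff_pos {g : ℝ[X]} (hg : ∀ j, 0 ≤ g.coeff j) (h0 : g ≠ 0) {k : ℕ}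
    (hk : k ≤ g.natDegree) {ε : ℝ} (hε : 0 < ε) : 0 < (taylor ε g).coeff k := by
  rw [taylor_coeff]
  refine eval_pos_of_coeff_nonneg (fun j => ?_) (fun h => ?_) hε
  · rw [hasseDeriv_coeff]; exact mul_nonneg (by positivity) (hg _)
  · have h1 := congrArg (fun p : ℝ[X] => p.coeff (g.natDegree - k)) h
    simp only [hasseDeriv_coeff, Nat.sub_add_cancel hk, coeff_zero, mul_eq_zero,
      Nat.cast_eq_zero] at h1
    rcases h1 with h1 | h1
    · exact (Nat.choose_pos hk).ne' h1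
    · exact leadingCoeff_ne_zero.2 h0 h1

theorem continuous_taylor {M : Type} [NormedAddCommGroup M] [NormedSpace ℝ M]
    (A : ℝ[X] →ₗ[ℝ] M) (g : ℝ[X]) : Continuous (fun y : ℝ => A (taylor y g)) := by
  have h : (fun y : ℝ => A (taylor y g)) = fun y => ∑ j ∈ Finset.range (g.natDegree + 1),
      (hasseDeriv j g).eval y • A (X ^ j) := by
    funext y
    rw [lin_eq_sum A (natDegree_taylor g y).le]
    simp only [taylor_coeff]
  rw [h]
  exact continuous_finsetSum _ (fun j _ => (hasseDeriv j g).continuous.smul continuous_const)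

theorem lin_eq_zero_of_lt {M : Type} [AddCommGroup M] [Module ℝ M] (A : ℝ[X] →ₗ[ℝ] M) {k : ℕ}
    (hA : ∀ j < k, A (X ^ j) = 0) {g : ℝ[X]} (hg : g.degree < k) : A g = 0 := by
  rw [lin_eq_sum A le_rfl]
  refine Finset.sum_eq_zero (fun j _ => ?_)
  rcases lt_or_ge j k with h | h
  · rw [hA j h, smul_zero]
  · rw [coeff_eq_zero_of_degree_lt (hg.trans_le (by exact_mod_cast h)), zero_smul]

/-- The rescaled functionals. -/
noncomputable def W (φ : ℝ[X] →ₗ[ℝ] ℂ) (k : ℕ) (y : ℝ) : ℝ[X] →ₗ[ℝ] ℂ :=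
  (basisMonomials ℝ).constr ℝ (fun j => y ^ (j - k) • φ (X ^ j))

theorem W_X_pow (φ : ℝ[X] →ₗ[ℝ] ℂ) (k : ℕ) (y : ℝ) (j : ℕ) :
    W φ k y (X ^ j) = y ^ (j - k) • φ (X ^ j) := by
  have h := (basisMonomials ℝ).constr_basis ℝ (fun j => y ^ (j - k) • φ (X ^ j)) j
  rw [X_pow_eq_monomial] at h ⊢
  exact h

theorem continuous_W (φ : ℝ[X] →ₗ[ℝ] ℂ) (k : ℕ) (g : ℝ[X]) :
    Continuous (fun y : ℝ => W φ k y g) := by
  have h : (fun y : ℝ => W φ k y g) = fun y => ∑ j ∈ Finset.range (g.natDegree + 1),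
      g.coeff j • y ^ (j - k) • φ (X ^ j) := by
    funext y
    rw [lin_eq_sum (W φ k y) le_rfl]
    simp only [W_X_pow]
  rw [h]
  fun_prop

theorem smul_W (φ : ℝ[X] →ₗ[ℝ] ℂ) {k : ℕ} (hlow : ∀ j < k, φ (X ^ j) = 0) (y : ℝ) (g : ℝ[X]) :
    y ^ k • W φ k y g = φ (aeval (C y * X) g) := by
  have h := lin_eq_sum (φ ∘ₗ (aeval (C y * X : ℝ[X]) : ℝ[X] →ₐ[ℝ] ℝ[X]).toLinearMap)
    (g := g) le_rfl
  rw [lin_eq_sum (W φ k y) le_rfl, Finset.smul_sum]
  refine (Finset.sum_congr rfl (fun j _ => ?_)).trans h.symm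
  have h1 : (φ ∘ₗ (aeval (C y * X : ℝ[X]) : ℝ[X] →ₐ[ℝ] ℝ[X]).toLinearMap) (X ^ j) =
      y ^ j • φ (X ^ j) := by
    change φ (aeval (C y * X : ℝ[X]) (X ^ j : ℝ[X])) = _
    rw [map_pow, aeval_X, mul_pow, ← C_pow, C_mul', map_smul]
  rw [h1, W_X_pow, smul_comm]
  congr 1
  rcases lt_or_ge j k with h2 | h2
  · rw [hlow j h2, smul_zero, smul_zero, smul_zero]
  · rw [smul_smul, ← pow_add, Nat.add_sub_cancel' h2]

theorem W_zero (φ : ℝ[X] →ₗ[ℝ] ℂ) {k : ℕ} (hlow : ∀ j < k, φ (X ^ j) = 0) {g : ℝ[X]}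
    (hk : k ≤ g.natDegree) : W φ k 0 g = g.coeff k • φ (X ^ k) := by
  rw [lin_eq_sum (W φ k 0) le_rfl, Finset.sum_eq_single k]
  · rw [W_X_pow, Nat.sub_self, pow_zero, one_smul]
  · intro j _ hj
    rw [W_X_pow]
    rcases lt_or_gt_of_ne hj with h | h
    · rw [hlow j h, smul_zero, smul_zero]
    · rw [zero_pow (Nat.sub_ne_zero_of_lt h), zero_smul, smul_zero]
  · intro h
    exact absurd (Finset.mem_range.2 (Nat.lt_succ_of_le hk)) h

theorem flow (φ : ℝ[X] →ₗ[ℝ] ℂ) (k : ℕ) (hlow : ∀ j < k, φ (X ^ j) = 0)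
    (h2 : ∀ (a b : ℕ) (u v : ℝ), 0 < u → 0 < v → k ≤ a + b →
      φ ((X + C u) ^ a * (X + C v) ^ b) ≠ 0)
    {ε : ℝ} (hε : 0 < ε) {n : ℕ} {g : ℝ[X]} (hg : D n g) (hk : ¬ g.degree < k) :
    φ (taylor ε g) ≠ 0 := by
  let ev : ℝ → ℝ[X] →ₗ[ℝ] ℂ := fun y => W φ k y ∘ₗ taylor ε
  have hc : ∀ g : ℝ[X], Continuous (fun y => ev y g) := fun g => continuous_W φ k _
  have hWlow : ∀ y, ∀ j < k, W φ k y (X ^ j) = 0 := fun y j hj => by
    rw [W_X_pow, hlow j hj, smul_zero]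
  have hK : ∀ y, ∀ g ∈ degreeLT ℝ k, ev y g = 0 := fun y g hg =>
    lin_eq_zero_of_lt (W φ k y) (hWlow y) (by rw [degree_taylor]; exact mem_degreeLT.1 hg)
  have hcl := isClosed_zero ev (degreeLT ℝ k) n hc hK
  have hck : φ (X ^ k) ≠ 0 := by
    intro h
    refine h2 k 0 1 1 one_pos one_pos (by simp) ?_
    refine lin_eq_zero_of_lt φ (k := k + 1) (fun j hj => ?_) ?_
    · rcases Nat.lt_succ_iff_lt_or_eq.1 hj with h1 | rfl
      · exact hlow j h1
      · exact h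
    · rw [pow_zero, mul_one, degree_pow, degree_X_add_C]
      simp only [nsmul_eq_mul, mul_one]
      exact_mod_cast Nat.lt_succ_self k
  have h0 : (0 : ℝ) ∉ {y : ℝ | ∃ g, D n g ∧ g ∉ degreeLT ℝ k ∧ ev y g = 0} := by
    rintro ⟨g, ⟨S, -, hS, rfl⟩, hK', h⟩
    have hdeg : k ≤ (P S).natDegree := by
      by_contra h1
      exact hK' (mem_degreeLT.2 ((natDegree_lt_iff_degree_lt (P_ne_zero S)).1 (not_le.1 h1)))
    have h1 : W φ k 0 (taylor ε (P S)) = 0 := h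
    rw [W_zero φ hlow (by rwa [natDegree_taylor]), smul_eq_zero] at h1
    exact (taylor_coeff_pos (coeff_P_nonneg S hS) (P_ne_zero S) hdeg hε).ne'
      (h1.resolve_right hck)
  have hopen : ∀ y : ℝ, 0 < y → y ∈ {y : ℝ | ∃ g, D n g ∧ g ∉ degreeLT ℝ k ∧ ev y g = 0} →
      {y : ℝ | ∃ g, D n g ∧ g ∉ degreeLT ℝ k ∧ ev y g = 0} ∈ 𝓝 y := by
    rintro y hy ⟨f, hf, hfK, hf0⟩
    obtain ⟨ψ, hψ, hψK⟩ := Submodule.exists_le_ker_of_notMem hfK
    have h3 := zero_persists ev (fun _ => ψ) n y hc (fun _ => continuous_const) hf hψ hf0 ?_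
    · filter_upwards [h3] with z hz
      obtain ⟨g, hg, h4, h5⟩ := hz
      exact ⟨g, hg, fun h6 => h4 (hψK h6), h5⟩
    · intro a b v hv h4
      have h5 := smul_W φ hlow y (taylor ε (X ^ a * (X + C v) ^ b))
      have h6 : W φ k y (taylor ε (X ^ a * (X + C v) ^ b)) = 0 := h4
      have h7 : ∀ r : ℝ, (C y * X + C r : ℝ[X]) = C y * (X + C (r / y)) := fun r => by
        rw [mul_add, ← C_mul, mul_div_cancel₀ _ hy.ne']
      have h8 : aeval (C y * X : ℝ[X]) (taylor ε (X ^ a * (X + C v) ^ b)) =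
          y ^ (a + b) • ((X + C (ε / y)) ^ a * (X + C ((ε + v) / y)) ^ b) := by
        rw [taylor_mul, taylor_pow, taylor_pow, map_add, taylor_X, taylor_C, add_assoc, ← C_add]
        simp only [map_mul, map_pow, map_add (aeval (C y * X : ℝ[X])), aeval_X, aeval_C,
          algebraMap_eq]
        rw [h7, h7, mul_pow, mul_pow, smul_eq_C_mul, C_pow, pow_add]
        ring
      rw [h6, smul_zero, h8, map_smul, eq_comm, smul_eq_zero] at h5
      have h9 : a + b < k := by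
        by_contra h10
        exact h2 a b _ _ (by positivity) (by positivity) (not_lt.1 h10)
          (h5.resolve_left (by positivity))
      refine hψK (mem_degreeLT.2 ?_)
      rw [degree_mul, degree_pow, degree_pow, degree_X, degree_X_add_C]
      simp only [nsmul_eq_mul, mul_one]
      exact_mod_cast h9
  have hall := (isPreconnected_Icc (a := (0 : ℝ)) (b := 1)).subset_of_closure_inter_subset
    hcl.isOpen_compl ⟨0, by simp, h0⟩ (fun w hw hwZ => by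
      have hw0 : 0 < w := lt_of_le_of_ne hw.2.1 (by rintro rfl; exact h0 hwZ)
      obtain ⟨x, hx1, hx2⟩ := mem_closure_iff_nhds.1 hw.1 _ (hopen w hw0 hwZ)
      exact hx2 hx1)
  intro h
  refine hall (show (1 : ℝ) ∈ Set.Icc (0 : ℝ) 1 by simp) ⟨g, hg, fun h1 => hk (mem_degreeLT.1 h1), ?_⟩
  have h1 := smul_W φ hlow 1 (taylor ε g)
  rw [one_pow, one_smul, C_1, one_mul, aeval_X_left_apply, h] at h1
  exact h1

end Pool.Agent.Lib.MP_7a4764_an.H44
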