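import Mathlib
import Pool.Agent.Lib.MP_7a4764_an.Basic

set_option autoImplicit false

/-!
Coefficientwise comparison of products of normalised linear factors.
-/

namespace Pool.Agent.Lib.MP_7a4764_an.H60

open Polynomial

/-- Coefficientwise order on polynomials with nonnegative coefficients. -/
def Le (f g : ℝ[X]) : Prop := ∀ k, 0 ≤ f.coeff k ∧ f.coeff k ≤ g.coeff k

theorem Le.mul {f g f' g' : ℝ[X]} (h : Le f g) (h' : Le f' g') : Le (f * f') (g * g') := by
  intro k
  rw [coeff_mul, coeff_mul]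
  exact ⟨Finset.sum_nonneg fun c _ => mul_nonneg (h _).1 (h' _).1,
    Finset.sum_le_sum fun c _ => mul_le_mul (h _).2 (h' _).2 (h' _).1 ((h _).1.trans (h _).2)⟩

theorem le_prod {ι : Type} (s : Finset ι) (f g : ι → ℝ[X]) (h : ∀ i ∈ s, Le (f i) (g i)) :
    Le (∏ i ∈ s, f i) (∏ i ∈ s, g i) := by
  classical
  induction s using Finset.induction_on with
  | empty =>
    intro k
    rw [Finset.prod_empty, Finset.prod_empty, coeff_one]
    split_ifs <;> norm_num
  | insert a s ha ih =>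
    rw [Finset.prod_insert ha, Finset.prod_insert ha]
    exact (h a (Finset.mem_insert_self _ _)).mul (ih fun i hi => h i (Finset.mem_insert_of_mem hi))

theorem le_lin {a b a' b' : ℝ} (ha : 0 ≤ a) (hb : 0 ≤ b) (h1 : a ≤ a') (h2 : b ≤ b') :
    Le (C a * X + C b) (C a' * X + C b') := by
  intro k
  simp only [coeff_add, coeff_C_mul, coeff_X, coeff_C]
  split_ifs <;> constructor <;> linarith

/-- The linear functional with given values on the monomials. -/
noncomputable def lin (c : ℕ → ℝ) : ℝ[X] →ₗ[ℝ] ℝ := (basisMonomials ℝ).constr ℝ c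

theorem lin_X_pow (c : ℕ → ℝ) (k : ℕ) : lin c (X ^ k) = c k := by
  have : (X : ℝ[X]) ^ k = basisMonomials ℝ k := by rw [coe_basisMonomials, X_pow_eq_monomial]
  rw [this, lin, Module.Basis.constr_basis]

theorem lin_sum {M : Type} [AddCommGroup M] [Module ℝ M] (φ : ℝ[X] →ₗ[ℝ] M) (g : ℝ[X]) :
    φ g = ∑ k ∈ Finset.range (g.natDegree + 1), g.coeff k • φ (X ^ k) := by
  conv_lhs => rw [g.as_sum_range' _ (Nat.lt_succ_self _), map_sum]
  refine Finset.sum_congr rfl (fun k _ => ?_)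
  rw [← C_mul_X_pow_eq_monomial, C_mul', map_smul]

theorem lin_mono (φ ψ : ℝ[X] →ₗ[ℝ] ℝ) (h : ∀ k, φ (X ^ k) ≤ ψ (X ^ k)) {f : ℝ[X]}
    (hf : ∀ k, 0 ≤ f.coeff k) : φ f ≤ ψ f := by
  rw [lin_sum φ, lin_sum ψ]
  exact Finset.sum_le_sum fun k _ => mul_le_mul_of_nonneg_left (h k) (hf k)

/-- The product of the first `N` normalised factors. -/
noncomputable def F (p : ℕ → ℝ) (N : ℕ) : ℝ[X] := ∏ i ∈ Finset.range N, L (p i)

theorem F_nonneg {p : ℕ → ℝ} (hp : ∀ i, 0 ≤ p i ∧ p i ≤ 1) (N k : ℕ) : 0 ≤ (F p N).coeff k :=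
  (le_prod (Finset.range N) (fun i => L (p i)) (fun i => L (p i))
    (fun i _ => le_lin (hp i).1 (by linarith [(hp i).2]) le_rfl le_rfl) k).1

theorem F_eval (p : ℕ → ℝ) (N : ℕ) : (F p N).eval 1 = 1 := by
  rw [F, eval_prod]
  exact Finset.prod_eq_one fun i _ => by simp

theorem F_natDegree (p : ℕ → ℝ) (N : ℕ) : (F p N).natDegree ≤ N := by
  induction N with
  | zero => simp [F]
  | succ N ih =>
    rw [F, Finset.prod_range_succ]
    have := natDegree_L_le (p N)
    exact natDegree_mul_le.trans (Nat.add_le_add ih this)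

theorem choose_le {p : ℕ → ℝ} (hp : ∀ i, 0 ≤ p i ∧ p i ≤ 1) {N m : ℕ} (hm : m ≤ N) {r : ℝ}
    (hr : 0 ≤ r) (h : ∀ i, i < m → r ≤ p i) (j : ℕ) :
    (m.choose j : ℝ) * r ^ j ≤ (taylor 1 (F p N)).coeff j := by
  have h1 : taylor 1 (F p N) = ∏ i ∈ Finset.range N, (C (p i) * X + C 1) := by
    induction N with
    | zero => simp [F]
    | succ N _ =>
      rw [F, taylor_apply, prod_comp]
      refine Finset.prod_congr rfl fun i _ => ?_
      simp only [L, add_comp, mul_comp, C_comp, X_comp, map_sub, map_one, sub_comp, one_comp]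
      ring
  have h2 : ∏ i ∈ Finset.range N, (C (if i < m then r else 0) * X + C 1 : ℝ[X]) =
      ((1 + X) ^ m).comp (C r * X) := by
    obtain ⟨d, rfl⟩ := Nat.exists_eq_add_of_le hm
    rw [Finset.prod_range_add, Finset.prod_congr rfl (g := fun _ => C r * X + C 1),
      Finset.prod_congr (s₁ := Finset.range d) rfl (g := fun _ => 1)]
    · simp [add_comm]
    · intro i _; rw [if_neg (by omega)]; simp
    · intro i hi; rw [if_pos (Finset.mem_range.1 hi)]
  have h3 := (le_prod (Finset.range N) (fun i => C (if i < m then r else 0) * X + C 1)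
    (fun i => C (p i) * X + C 1) (fun i _ => le_lin (by split_ifs <;> linarith) zero_le_one
      (by split_ifs with hi; exacts [h i hi, (hp i).1]) le_rfl) j).2
  rw [h2, comp_C_mul_X_coeff, coeff_one_add_X_pow] at h3
  rw [h1]; exact h3

theorem tail_le {m D : ℕ} {r θ τ : ℝ} (hr : 0 ≤ r) (hτ : 0 ≤ τ)
    (h : (m.choose (D + 1) : ℝ) * r ^ (D + 1) ≤ θ)
    (hθ : ((D + 1).factorial : ℝ) * θ ≤ τ ^ (D + 1)) : ((m - D : ℕ) : ℝ) * r ≤ τ := by
  refine le_of_pow_le_pow_left₀ (Nat.succ_ne_zero D) hτ (le_trans ?_ hθ)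
  have h1 := Nat.pow_le_choose (α := ℝ) (D + 1) m
  rw [show m + 1 - (D + 1) = m - D by omega] at h1
  have h2 : (0 : ℝ) < (D + 1).factorial := by exact_mod_cast Nat.factorial_pos _
  rw [div_le_iff₀ h2] at h1
  have h3 : 0 ≤ r ^ (D + 1) := by positivity
  rw [mul_pow]
  calc ((m - D : ℕ) : ℝ) ^ (D + 1) * r ^ (D + 1)
      ≤ (m.choose (D + 1) * (D + 1).factorial) * r ^ (D + 1) := mul_le_mul_of_nonneg_right h1 h3
    _ = (D + 1).factorial * (m.choose (D + 1) * r ^ (D + 1)) := by ring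
    _ ≤ _ := mul_le_mul_of_nonneg_left h h2.le

theorem low_le {p : ℕ → ℝ} (hp : ∀ i, 0 ≤ p i ∧ p i ≤ 1) {N j : ℕ} (hj : j ≤ N) :
    ∏ i ∈ Finset.Ico j N, (1 - p i) ≤ ∑ k ∈ Finset.range (j + 1), (F p N).coeff k := by
  have h1 : Le (F p j * C (∏ i ∈ Finset.Ico j N, (1 - p i))) (F p N) := by
    have e : F p N = F p j * ∏ i ∈ Finset.Ico j N, L (p i) := by
      rw [F, F, Finset.prod_range_mul_prod_Ico _ hj]
    rw [e, map_prod]
    refine Le.mul (fun k => ⟨F_nonneg hp j k, le_rfl⟩) (le_prod _ _ _ fun i _ => ?_)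
    have := le_lin (a := 0) (b := 1 - p i) (a' := p i) (b' := 1 - p i) le_rfl
      (by linarith [(hp i).2]) (hp i).1 le_rfl
    simpa [L] using this
  refine le_trans (le_of_eq ?_) (Finset.sum_le_sum fun k _ => (h1 k).2)
  simp only [coeff_mul_C]
  rw [← Finset.sum_mul]
  have h2 := F_eval p j
  rw [eval_eq_sum_range' (Nat.lt_succ_of_le (F_natDegree p j))] at h2
  simp only [one_pow, mul_one] at h2
  rw [h2, one_mul]

theorem weier {ι : Type} (s : Finset ι) (p : ι → ℝ) (hp : ∀ i, 0 ≤ p i ∧ p i ≤ 1) :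
    1 - ∑ i ∈ s, p i ≤ ∏ i ∈ s, (1 - p i) := by
  classical
  induction s using Finset.induction_on with
  | empty => simp
  | insert a s ha ih =>
    rw [Finset.sum_insert ha, Finset.prod_insert ha]
    have h1 : 0 ≤ ∑ i ∈ s, p i := Finset.sum_nonneg fun i _ => (hp i).1
    have h2 := hp a
    nlinarith [mul_le_mul_of_nonneg_left ih (sub_nonneg.2 h2.2), mul_nonneg h2.1 h1]

/-- The three-block sequence. -/
noncomputable def pp (a b c : ℕ) (p q : ℝ) (i : ℕ) : ℝ :=
  if i < a then 1 else if i < a + b then p else if i < a + b + c then q else 0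

theorem F_pp (a b c : ℕ) (p q : ℝ) {N : ℕ} (hN : a + b + c ≤ N) :
    F (pp a b c p q) N = X ^ a * L p ^ b * L q ^ c := by
  obtain ⟨d, rfl⟩ := Nat.exists_eq_add_of_le hN
  rw [F, Finset.prod_range_add, Finset.prod_range_add, Finset.prod_range_add,
    Finset.prod_congr (s₁ := Finset.range a) rfl (g := fun _ => X),
    Finset.prod_congr (s₁ := Finset.range b) rfl (g := fun _ => L p),
    Finset.prod_congr (s₁ := Finset.range c) rfl (g := fun _ => L q),
    Finset.prod_congr (s₁ := Finset.range d) rfl (g := fun _ => 1)]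
  · simp
  · intro i _; rw [pp, if_neg (by omega), if_neg (by omega), if_neg (by omega), L_zero]
  · intro i hi; have := Finset.mem_range.1 hi
    rw [pp, if_neg (by omega), if_neg (by omega), if_pos (by omega)]
  · intro i hi; have := Finset.mem_range.1 hi
    rw [pp, if_neg (by omega), if_pos (by omega)]
  · intro i hi; have := Finset.mem_range.1 hi
    rw [pp, if_pos (by omega), L_one]

theorem pp_mem (a b c : ℕ) {p q : ℝ} (hq : 0 ≤ q) (hqp : q ≤ p) (hp : p ≤ 1) (i : ℕ) :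
    0 ≤ pp a b c p q i ∧ pp a b c p q i ≤ 1 := by
  unfold pp; split_ifs <;> constructor <;> linarith

theorem pp_anti (a b c : ℕ) {p q : ℝ} (hq : 0 ≤ q) (hqp : q ≤ p) (hp : p ≤ 1) {i j : ℕ}
    (h : i ≤ j) : pp a b c p q j ≤ pp a b c p q i := by
  unfold pp; split_ifs <;> linarith

theorem sum_ite_le (D N m : ℕ) {r : ℝ} (hr : 0 ≤ r) :
    ∑ i ∈ Finset.Ico D N, (if i < m then r else 0) ≤ ((m - D : ℕ) : ℝ) * r := by
  rw [← Finset.sum_filter, Finset.sum_const, nsmul_eq_mul]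
  refine mul_le_mul_of_nonneg_right ?_ hr
  rw [← Nat.card_Ico]
  exact_mod_cast Finset.card_le_card fun i hi => by
    simp only [Finset.mem_filter, Finset.mem_Ico] at hi ⊢; omega

/-- A small high factorial moment forces a small tail of the three-block sequence. -/
theorem pp_tail (a b c : ℕ) {p q : ℝ} (hq : 0 ≤ q) (hqp : q ≤ p) (hp : p ≤ 1) {N D : ℕ}
    (hN : a + b + c ≤ N) {θ τ : ℝ} (hτ : 0 ≤ τ)
    (h : (taylor 1 (F (pp a b c p q) N)).coeff (D + 1) ≤ θ)
    (hθ : ((D + 1).factorial : ℝ) * θ ≤ τ ^ (D + 1)) :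
    ∑ i ∈ Finset.Ico D N, pp a b c p q i ≤ 3 * τ := by
  have hm := pp_mem a b c hq hqp hp
  have h1 := tail_le zero_le_one hτ ((choose_le hm (m := a) (by omega) zero_le_one
    (fun i hi => by rw [pp, if_pos hi]) (D + 1)).trans h) hθ
  have h2 := tail_le (hq.trans hqp) hτ ((choose_le hm (m := a + b) (by omega) (hq.trans hqp)
    (fun i hi => by unfold pp; split_ifs <;> linarith) (D + 1)).trans h) hθ
  have h3 := tail_le hq hτ ((choose_le hm (m := a + b + c) hN hq
    (fun i hi => by unfold pp; split_ifs <;> linarith) (D + 1)).trans h) hθ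
  have e1 := sum_ite_le D N a zero_le_one
  have e2 := sum_ite_le D N (a + b) (hq.trans hqp)
  have e3 := sum_ite_le D N (a + b + c) hq
  have e : ∑ i ∈ Finset.Ico D N, pp a b c p q i ≤ ∑ i ∈ Finset.Ico D N,
      ((if i < a then (1 : ℝ) else 0) + (if i < a + b then p else 0) +
        (if i < a + b + c then q else 0)) := by
    refine Finset.sum_le_sum fun i _ => ?_
    unfold pp; split_ifs <;> linarith
  rw [Finset.sum_add_distrib, Finset.sum_add_distrib] at e
  linarith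

/-- A small mass below the window forces the first entries to be close to one. -/
theorem head_le {p : ℕ → ℝ} (hp : ∀ i, 0 ≤ p i ∧ p i ≤ 1) (hanti : ∀ i j, i ≤ j → p j ≤ p i)
    {N a₀ n : ℕ} (hN : a₀ + n ≤ N) {θ τ : ℝ} (hτ : 0 ≤ τ)
    (h : ∑ k ∈ Finset.range a₀, (F p N).coeff k ≤ θ) (hθ : 2 * θ ≤ τ ^ (n + 1))
    (ht : ∑ i ∈ Finset.Ico (a₀ + n) N, p i ≤ 1 / 2) {i : ℕ} (hi : i < a₀) : 1 - p i ≤ τ := by
  obtain ⟨j, rfl⟩ : ∃ j, a₀ = j + 1 := ⟨a₀ - 1, by omega⟩
  have h1 := (low_le hp (j := j) (N := N) (by omega)).trans h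
  rw [← Finset.prod_Ico_consecutive _ (show j ≤ j + 1 + n by omega) hN] at h1
  have h2 := weier (Finset.Ico (j + 1 + n) N) p hp
  have h3 : (1 - p j) ^ (n + 1) ≤ ∏ i ∈ Finset.Ico j (j + 1 + n), (1 - p i) := by
    have : (1 - p j) ^ (n + 1) = ∏ _i ∈ Finset.Ico j (j + 1 + n), (1 - p j) := by
      rw [Finset.prod_const, Nat.card_Ico]; congr 1; omega
    rw [this]
    exact Finset.prod_le_prod (fun _ _ => by linarith [(hp j).2])
      (fun k hk => by linarith [hanti j k (Finset.mem_Ico.1 hk).1])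
  have h4 : 0 ≤ (1 - p j) ^ (n + 1) := pow_nonneg (by linarith [(hp j).2]) _
  have h5 : (1 - p j) ^ (n + 1) * (1 / 2) ≤ θ :=
    le_trans (mul_le_mul h3 (by linarith) (by norm_num) (h4.trans h3)) h1
  have h6 : 1 - p j ≤ τ := le_of_pow_le_pow_left₀ (n := n + 1) (by omega) hτ (by linarith)
  linarith [hanti i j (by omega)]

end Pool.Agent.Lib.MP_7a4764_an.H60
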