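import Mathlib

set_option autoImplicit false

/-!
A submultiplicative seminorm on real power series (the first `n` coefficients) and the top
coefficients of a product of linear factors.
-/

namespace Pool.Agent.Lib.MP_7a4764_an.H60

open PowerSeries

/-- Sum of the absolute values of the first `n` coefficients. -/
noncomputable def nm (n : ℕ) (G : ℝ⟦X⟧) : ℝ := ∑ j ∈ Finset.range n, |coeff j G|

theorem nm_nonneg (n : ℕ) (G : ℝ⟦X⟧) : 0 ≤ nm n G :=
  Finset.sum_nonneg fun _ _ => abs_nonneg _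

theorem nm_zero (n : ℕ) : nm n 0 = 0 := by simp [nm]

theorem nm_add (n : ℕ) (G H : ℝ⟦X⟧) : nm n (G + H) ≤ nm n G + nm n H := by
  unfold nm
  rw [← Finset.sum_add_distrib]
  exact Finset.sum_le_sum fun j _ => by rw [map_add]; exact abs_add_le _ _

theorem nm_smul (n : ℕ) (r : ℝ) (G : ℝ⟦X⟧) : nm n (r • G) = |r| * nm n G := by
  unfold nm
  rw [Finset.mul_sum]
  exact Finset.sum_congr rfl fun j _ => by rw [map_smul, smul_eq_mul, abs_mul]

theorem coeff_le_nm {n j : ℕ} (hj : j < n) (G : ℝ⟦X⟧) : |coeff j G| ≤ nm n G :=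
  Finset.single_le_sum (f := fun j => |coeff j G|) (fun _ _ => abs_nonneg _)
    (Finset.mem_range.2 hj)

theorem nm_mul (n : ℕ) (G H : ℝ⟦X⟧) : nm n (G * H) ≤ nm n G * nm n H := by
  unfold nm
  calc ∑ j ∈ Finset.range n, |coeff j (G * H)|
      ≤ ∑ j ∈ Finset.range n, ∑ k ∈ Finset.range (j + 1), |coeff k G| * |coeff (j - k) H| := by
        refine Finset.sum_le_sum fun j _ => ?_
        rw [coeff_mul, Finset.Nat.sum_antidiagonal_eq_sum_range_succ
          (fun a b => coeff a G * coeff b H)]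
        refine (Finset.abs_sum_le_sum_abs _ _).trans (le_of_eq ?_)
        exact Finset.sum_congr rfl fun k _ => abs_mul _ _
    _ = ∑ m ∈ Finset.range n, ∑ k ∈ Finset.range (n - m), |coeff m G| * |coeff k H| :=
        Finset.sum_range_diag_flip n (fun a b => |coeff a G| * |coeff b H|)
    _ ≤ ∑ m ∈ Finset.range n, ∑ k ∈ Finset.range n, |coeff m G| * |coeff k H| := by
        refine Finset.sum_le_sum fun m _ => ?_
        exact Finset.sum_le_sum_of_subset_of_nonneg
          (Finset.range_subset_range.2 (Nat.sub_le _ _)) (fun _ _ _ => by positivity)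
    _ = _ := by rw [Finset.sum_mul_sum]

theorem nm_sum {ι : Type} (n : ℕ) (s : Finset ι) (G : ι → ℝ⟦X⟧) :
    nm n (∑ i ∈ s, G i) ≤ ∑ i ∈ s, nm n (G i) := by
  classical
  induction s using Finset.induction_on with
  | empty => simp [nm_zero]
  | insert a s ha ih =>
    rw [Finset.sum_insert ha, Finset.sum_insert ha]
    exact (nm_add _ _ _).trans (by linarith)

theorem nm_X_pow_le (n m : ℕ) : nm n (X ^ m) ≤ 1 := by
  unfold nm
  have : ∀ j, |coeff j ((X : ℝ⟦X⟧) ^ m)| = if j = m then 1 else 0 := by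
    intro j; rw [coeff_X_pow]; split_ifs <;> simp
  simp_rw [this]
  rw [Finset.sum_ite_eq']
  split_ifs <;> norm_num

theorem nm_one_le (n : ℕ) : nm n 1 ≤ 1 := by simpa using nm_X_pow_le n 0

theorem nm_X_pow_self (n : ℕ) : nm n (X ^ n) = 0 := by
  unfold nm
  refine Finset.sum_eq_zero fun j hj => ?_
  rw [coeff_X_pow, if_neg (Finset.mem_range.1 hj).ne, abs_zero]

theorem nm_C_le (n : ℕ) (y : ℝ) : nm n (C y) ≤ |y| := by
  have h : (C y : ℝ⟦X⟧) = y • (1 : ℝ⟦X⟧) := by rw [smul_eq_C_mul, mul_one]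
  rw [h, nm_smul]
  exact mul_le_of_le_one_right (abs_nonneg _) (nm_one_le n)

theorem nm_lin (n : ℕ) {y : ℝ} (hy : |y| ≤ 1) : nm n (X + C y) ≤ 2 := by
  have h1 := nm_add n X (C y)
  have h2 := nm_X_pow_le n 1
  have h3 := nm_C_le n y
  rw [pow_one] at h2
  linarith

theorem nm_prod_one_add {ι : Type} (n : ℕ) (s : Finset ι) (E : ι → ℝ⟦X⟧)
    (h : ∑ i ∈ s, nm n (E i) ≤ 1 / 2) :
    nm n (∏ i ∈ s, (1 + E i) - 1) ≤ 2 * ∑ i ∈ s, nm n (E i) := by
  classical
  induction s using Finset.induction_on with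
  | empty => simp [nm_zero]
  | insert a s ha ih =>
    rw [Finset.sum_insert ha] at h ⊢
    rw [Finset.prod_insert ha]
    have h0 := nm_nonneg n (E a)
    have hs : 0 ≤ ∑ i ∈ s, nm n (E i) := Finset.sum_nonneg fun i _ => nm_nonneg n _
    have ih' := ih (by linarith)
    set F := ∏ i ∈ s, (1 + E i) - 1 with hF
    have he : (1 + E a) * ∏ i ∈ s, (1 + E i) - 1 = E a + (F + E a * F) := by rw [hF]; ring
    rw [he]
    have h1 := nm_add n (E a) (F + E a * F)
    have h2 := nm_add n F (E a * F)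
    have h3 := nm_mul n (E a) F
    have h4 : nm n (E a) * nm n F ≤ nm n (E a) * 1 :=
      mul_le_mul_of_nonneg_left (by linarith) h0
    linarith

theorem nm_prod_lin {ι : Type} (n : ℕ) (s : Finset ι) (y : ι → ℝ) (hy : ∀ i ∈ s, |y i| ≤ 1) :
    nm n (∏ i ∈ s, (X + C (y i))) ≤ 2 ^ s.card := by
  classical
  induction s using Finset.induction_on with
  | empty => simpa using nm_one_le n
  | insert a s ha ih =>
    rw [Finset.prod_insert ha, Finset.card_insert_of_notMem ha, pow_succ']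
    exact (nm_mul _ _ _).trans (mul_le_mul (nm_lin n (hy a (Finset.mem_insert_self _ _)))
      (ih fun i hi => hy i (Finset.mem_insert_of_mem hi)) (nm_nonneg _ _) (by norm_num))

theorem nm_prod_sub {ι : Type} (n : ℕ) (s : Finset ι) (y z : ι → ℝ) (hy : ∀ i ∈ s, |y i| ≤ 1)
    (hz : ∀ i ∈ s, |z i| ≤ 1) :
    nm n (∏ i ∈ s, (X + C (y i)) - ∏ i ∈ s, (X + C (z i))) ≤
      2 ^ s.card * ∑ i ∈ s, |y i - z i| := by
  classical
  induction s using Finset.induction_on with
  | empty => simp [nm_zero]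
  | insert a s ha ih =>
    rw [Finset.prod_insert ha, Finset.prod_insert ha, Finset.card_insert_of_notMem ha,
      Finset.sum_insert ha, pow_succ']
    have ih' := ih (fun i hi => hy i (Finset.mem_insert_of_mem hi))
      (fun i hi => hz i (Finset.mem_insert_of_mem hi))
    have hB := nm_prod_lin n s z (fun i hi => hz i (Finset.mem_insert_of_mem hi))
    set A := ∏ i ∈ s, ((X : ℝ⟦X⟧) + C (y i))
    set B := ∏ i ∈ s, ((X : ℝ⟦X⟧) + C (z i))
    have he : (X + C (y a)) * A - (X + C (z a)) * B =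
        (X + C (y a)) * (A - B) + (y a - z a) • B := by
      rw [smul_eq_C_mul, map_sub]; ring
    rw [he]
    have h1 := nm_add n ((X + C (y a)) * (A - B)) ((y a - z a) • B)
    have h2 := nm_mul n (X + C (y a)) (A - B)
    have h3 := mul_le_mul (nm_lin n (hy a (Finset.mem_insert_self _ _))) ih' (nm_nonneg _ _)
      (by norm_num)
    rw [nm_smul] at h1
    have h4 : |y a - z a| * nm n B ≤ |y a - z a| * 2 ^ s.card :=
      mul_le_mul_of_nonneg_left hB (abs_nonneg _)
    have h5 : 0 ≤ |y a - z a| * 2 ^ s.card := by positivity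
    nlinarith

/-- The top three coefficients of a product of linear factors. -/
theorem vieta_top {ι : Type} (s : Finset ι) (y : ι → ℝ) :
    (∀ j, s.card < j → coeff j (∏ i ∈ s, ((X : ℝ⟦X⟧) + C (y i))) = 0) ∧
    coeff s.card (∏ i ∈ s, ((X : ℝ⟦X⟧) + C (y i))) = 1 ∧
    (∀ k, s.card = k + 1 → coeff k (∏ i ∈ s, ((X : ℝ⟦X⟧) + C (y i))) = ∑ i ∈ s, y i) ∧
    (∀ k, s.card = k + 2 → 2 * coeff k (∏ i ∈ s, ((X : ℝ⟦X⟧) + C (y i))) =
      (∑ i ∈ s, y i) ^ 2 - ∑ i ∈ s, y i ^ 2) := by
  classical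
  induction s using Finset.induction_on with
  | empty =>
    refine ⟨fun j hj => ?_, by simp, by simp, by simp⟩
    rw [Finset.prod_empty, coeff_one, if_neg (by simpa using hj.ne')]
  | insert a s ha ih =>
    obtain ⟨h0, h1, h2, h3⟩ := ih
    rw [Finset.prod_insert ha, Finset.card_insert_of_notMem ha, Finset.sum_insert ha,
      Finset.sum_insert ha]
    set Q := ∏ i ∈ s, ((X : ℝ⟦X⟧) + C (y i))
    have hs : ∀ j, coeff (j + 1) ((X + C (y a)) * Q) = coeff j Q + y a * coeff (j + 1) Q := by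
      intro j; rw [add_mul, map_add, coeff_succ_X_mul, coeff_C_mul]
    have hz : coeff 0 ((X + C (y a)) * Q) = y a * coeff 0 Q := by
      rw [add_mul, map_add, coeff_zero_X_mul, coeff_C_mul, zero_add]
    refine ⟨fun j hj => ?_, ?_, fun k hk => ?_, fun k hk => ?_⟩
    · obtain ⟨j, rfl⟩ : ∃ i, j = i + 1 := ⟨j - 1, by omega⟩
      rw [hs, h0 j (by omega), h0 (j + 1) (by omega)]; ring
    · rw [hs, h1, h0 _ (by omega)]; ring
    · have hk' : s.card = k := by omega
      rcases k with _ | k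
      · have he : s = ∅ := Finset.card_eq_zero.1 hk'
        rw [hz, ← hk', h1, he]; simp
      · rw [hs, h2 k hk', ← hk', h1]; ring
    · have hk' : s.card = k + 1 := by omega
      rcases k with _ | k
      · obtain ⟨b, hb⟩ := Finset.card_eq_one.1 hk'
        rw [hz, h2 0 hk', hb]; simp; ring
      · rw [hs, h2 (k + 1) hk', mul_add, h3 k hk']; ring

end Pool.Agent.Lib.MP_7a4764_an.H60
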