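import Mathlib
import Pool.Agent.Lib.MP_7a4764_an.H60Norm

set_option autoImplicit false

/-!
The polynomials with two distinct roots, root sum zero and a fixed sum of squares of the roots are
linearly independent: they are eigenvectors of one operator with different eigenvalues.
-/

namespace Pool.Agent.Lib.MP_7a4764_an.H60

open PowerSeries

theorem prod_two {M : Type} [CommMonoid M] (b c : ℕ) (g : ℝ → M) (y z : ℝ) :
    ∏ i ∈ Finset.range (b + c), g (if i < b then y else z) = g y ^ b * g z ^ c := by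
  rw [Finset.prod_range_add]
  congr 1
  · rw [Finset.prod_congr rfl (g := fun _ => g y)]
    · simp
    · intro i hi; rw [if_pos (Finset.mem_range.1 hi)]
  · rw [Finset.prod_congr rfl (g := fun _ => g z)]
    · simp
    · intro i _; rw [if_neg (by omega)]

theorem sum_two (b c : ℕ) (g : ℕ → ℝ) (y z : ℝ) (h1 : ∀ i, i < b → g i = y)
    (h2 : ∀ i, b ≤ i → g i = z) : ∑ i ∈ Finset.range (b + c), g i = b * y + c * z := by
  rw [Finset.sum_range_add]
  congr 1
  · rw [Finset.sum_congr rfl (g := fun _ => y)]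
    · simp
    · intro i hi; exact h1 i (Finset.mem_range.1 hi)
  · rw [Finset.sum_congr rfl (g := fun _ => z)]
    · simp
    · intro i _; exact h2 _ (by omega)

/-- A product of two powers of linear factors. -/
noncomputable def QQ (b c : ℕ) (y z : ℝ) : ℝ⟦X⟧ := (X + C y) ^ b * (X + C z) ^ c

theorem QQ_eq (b c : ℕ) (y z : ℝ) :
    QQ b c y z = ∏ i ∈ Finset.range (b + c), ((X : ℝ⟦X⟧) + C (if i < b then y else z)) :=
  (prod_two b c (fun r => (X : ℝ⟦X⟧) + C r) y z).symm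

theorem QQ_coeff (b c : ℕ) (y z : ℝ) {m : ℕ} (hm : b + c = m + 2) :
    (∀ j, m + 2 < j → coeff j (QQ b c y z) = 0) ∧ coeff (m + 2) (QQ b c y z) = 1 ∧
    coeff (m + 1) (QQ b c y z) = b * y + c * z ∧
    2 * coeff m (QQ b c y z) = (b * y + c * z) ^ 2 - (b * y ^ 2 + c * z ^ 2) := by
  obtain ⟨h0, h1, h2, h3⟩ := vieta_top (Finset.range (b + c)) (fun i => if i < b then y else z)
  rw [Finset.card_range] at h0 h1 h2 h3
  rw [← QQ_eq] at h0 h1 h2 h3
  have e1 : ∑ i ∈ Finset.range (b + c), (if i < b then y else z) = b * y + c * z :=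
    sum_two b c _ y z (fun i hi => if_pos hi) (fun i hi => if_neg (by omega))
  have e2 : ∑ i ∈ Finset.range (b + c), (if i < b then y else z) ^ 2 = b * y ^ 2 + c * z ^ 2 :=
    sum_two b c _ _ _ (fun i hi => by rw [if_pos hi]) (fun i hi => by rw [if_neg (by omega)])
  rw [e1] at h2 h3
  rw [e2] at h3
  exact ⟨fun j hj => h0 j (by omega), hm ▸ h1, h2 _ (by omega), h3 _ hm⟩

theorem QQ_ode {b c : ℕ} (hb : 1 ≤ b) (hc : 1 ≤ c) (y z : ℝ) :
    (X + C y) * (X + C z) * d⁄dX ℝ (QQ b c y z) =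
      ((b : ℝ⟦X⟧) * (X + C z) + (c : ℝ⟦X⟧) * (X + C y)) * QQ b c y z := by
  obtain ⟨b, rfl⟩ : ∃ k, b = k + 1 := ⟨b - 1, by omega⟩
  obtain ⟨c, rfl⟩ : ∃ k, c = k + 1 := ⟨c - 1, by omega⟩
  unfold QQ
  rw [Derivation.leibniz, Derivation.leibniz_pow, Derivation.leibniz_pow, map_add, map_add,
    derivative_X, derivative_C, derivative_C]
  simp only [smul_eq_mul, nsmul_eq_mul, Nat.add_sub_cancel, add_zero, mul_one]
  ring

/-- A diagonal operator. -/
noncomputable def diag (d : ℕ → ℝ) : ℝ⟦X⟧ →ₗ[ℝ] ℝ⟦X⟧ where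
  toFun G := mk fun j => d j * coeff j G
  map_add' G H := by ext j; simp [mul_add]
  map_smul' r G := by ext j; simp; ring

theorem coeff_diag (d : ℕ → ℝ) (G : ℝ⟦X⟧) (j : ℕ) : coeff j (diag d G) = d j * coeff j G := by
  simp [diag]

/-- The scale of the vertex of type `(b, c)`. -/
noncomputable def rho (ω : ℝ) (b c : ℕ) : ℝ := Real.sqrt (ω / (b * c))

theorem rho_pos {ω : ℝ} (hω : 0 < ω) {b c : ℕ} (hb : 1 ≤ b) (hc : 1 ≤ c) : 0 < rho ω b c := by
  have : (0 : ℝ) < b := by exact_mod_cast hb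
  have : (0 : ℝ) < c := by exact_mod_cast hc
  unfold rho; positivity

theorem rho_sq {ω : ℝ} (hω : 0 < ω) {b c : ℕ} (hb : 1 ≤ b) (hc : 1 ≤ c) :
    rho ω b c ^ 2 * (b * c) = ω := by
  have : (0 : ℝ) < b := by exact_mod_cast hb
  have : (0 : ℝ) < c := by exact_mod_cast hc
  unfold rho
  rw [Real.sq_sqrt (by positivity)]
  field_simp

/-- The vertex of type `(b, c)`. -/
noncomputable def PP (ω : ℝ) (b c : ℕ) : ℝ⟦X⟧ := QQ b c (rho ω b c * c) (-(rho ω b c * b))

theorem lam_inj {ω : ℝ} (hω : 0 < ω) {b c b' c' : ℕ} (hb : 1 ≤ b) (hc : 1 ≤ c) (hb' : 1 ≤ b')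
    (hc' : 1 ≤ c') (hn : b + c = b' + c')
    (h : rho ω b c * c - rho ω b c * b = rho ω b' c' * c' - rho ω b' c' * b') : b = b' := by
  have hρ := rho_pos hω hb hc
  have hρ' := rho_pos hω hb' hc'
  have hs := rho_sq hω hb hc
  have hs' := rho_sq hω hb' hc'
  have b0 : (0 : ℝ) < b := by exact_mod_cast hb
  have c0 : (0 : ℝ) < c := by exact_mod_cast hc
  have b0' : (0 : ℝ) < b' := by exact_mod_cast hb'
  have c0' : (0 : ℝ) < c' := by exact_mod_cast hc'
  have hn' : (b : ℝ) + c = b' + c' := by exact_mod_cast hn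
  set ρ := rho ω b c
  set ρ' := rho ω b' c'
  have h1 : (ρ * c - ρ' * c') * (ρ * c + ρ' * b') = 0 := by
    have e : ρ * b = ρ * c - ρ' * c' + ρ' * b' := by linarith
    have e1 : (ρ * c) * (ρ * b) = (ρ' * c') * (ρ' * b') := by nlinarith
    rw [e] at e1
    nlinarith
  have h2 : ρ * c = ρ' * c' := by
    rcases mul_eq_zero.1 h1 with h3 | h3
    · linarith
    · have : 0 < ρ * c + ρ' * b' := by positivity
      linarith
  have h3 : ρ * b = ρ' * b' := by linarith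
  have h4 : ρ = ρ' := by
    have : (ρ - ρ') * (b + c) = 0 := by
      have : ρ * (b + c) = ρ' * (b' + c') := by linarith
      rw [← hn'] at this; linarith
    rcases mul_eq_zero.1 this with h5 | h5
    · linarith
    · linarith
  rw [h4] at h3
  exact_mod_cast mul_left_cancel₀ hρ'.ne' h3

theorem exists_mu {ω : ℝ} (hω : 0 < ω) {b₀ c₀ m : ℕ} (hb₀ : 1 ≤ b₀) (hc₀ : 1 ≤ c₀)
    (hm : b₀ + c₀ = m + 2) : ∃ μ : ℕ → ℝ,
      (∀ b c, 1 ≤ b → 1 ≤ c → b + c = m + 2 → b ≠ b₀ →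
        ∑ j ∈ Finset.range (m + 2), μ j * coeff j (PP ω b c) = 0) ∧
      ∑ j ∈ Finset.range (m + 2), μ j * coeff j (PP ω b₀ c₀) ≠ 0 := by
  classical
  let tr : ℝ⟦X⟧ →ₗ[ℝ] ℝ⟦X⟧ := diag fun j => if j < m + 1 then 1 else 0
  let Bi : ℝ⟦X⟧ →ₗ[ℝ] ℝ⟦X⟧ := diag fun j => if j < m + 1 then 1 / ((m : ℝ) + 2 - j) else 0
  let A : ℝ⟦X⟧ →ₗ[ℝ] ℝ⟦X⟧ :=
    LinearMap.mulLeft ℝ (X ^ 2 - C ω) ∘ₗ (d⁄dX ℝ : Derivation ℝ ℝ⟦X⟧ ℝ⟦X⟧).toLinearMap -
      LinearMap.mulLeft ℝ (((m + 2 : ℕ) : ℝ⟦X⟧) * X)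
  have hA : ∀ G, A G = (X ^ 2 - C ω) * d⁄dX ℝ G - ((m + 2 : ℕ) : ℝ⟦X⟧) * X * G := fun G => rfl
  let S : Module.End ℝ ℝ⟦X⟧ := Bi ∘ₗ A
  let lam : ℕ → ℝ := fun b => rho ω b (m + 2 - b) * (m + 2 - b : ℕ) - rho ω b (m + 2 - b) * b
  have hAX : Bi (A (X ^ (m + 2))) = 0 := by
    have : A (X ^ (m + 2)) = (-(ω * (m + 2))) • X ^ (m + 1) := by
      rw [hA, Derivation.leibniz_pow, derivative_X, smul_eq_C_mul, smul_eq_mul, nsmul_eq_mul]
      simp only [map_neg, map_mul, map_add, map_natCast, map_ofNat]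
      push_cast
      ring
    rw [this, map_smul]
    have : Bi (X ^ (m + 1)) = 0 := by
      ext j
      rw [coeff_diag, coeff_X_pow]
      split_ifs with h1 h2 <;> simp
      omega
    rw [this, smul_zero]
  have heig : ∀ b c, 1 ≤ b → 1 ≤ c → b + c = m + 2 →
      S (tr (PP ω b c)) = lam b • tr (PP ω b c) := by
    intro b c hb hc hbc
    have hcb : m + 2 - b = c := by omega
    obtain ⟨h0, h1, h2, -⟩ := QQ_coeff b c (rho ω b c * c) (-(rho ω b c * b)) hbc
    have hP : tr (PP ω b c) = PP ω b c - X ^ (m + 2) := by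
      ext j
      rw [coeff_diag, map_sub, coeff_X_pow]
      unfold PP
      by_cases hj : j < m + 1
      · rw [if_pos hj, if_neg (by omega)]; ring
      · rw [if_neg hj]
        rcases (by omega : j = m + 1 ∨ j = m + 2 ∨ m + 2 < j) with rfl | rfl | h
        · rw [h2, if_neg (by omega)]; ring
        · rw [h1, if_pos rfl]; ring
        · rw [h0 j h, if_neg (by omega)]; ring
    have hode := QQ_ode hb hc (rho ω b c * c) (-(rho ω b c * b))
    have hsq := rho_sq hω hb hc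
    have hAP : A (PP ω b c) =
        lam b • (((m + 2 : ℕ) : ℝ⟦X⟧) * PP ω b c - X * d⁄dX ℝ (PP ω b c)) := by
      rw [hA, smul_eq_C_mul]
      simp only [lam, hcb]
      have e1 : (C ω : ℝ⟦X⟧) = C (rho ω b c) ^ 2 * ((b : ℝ⟦X⟧) * (c : ℝ⟦X⟧)) := by
        conv_lhs => rw [← hsq]
        simp
      have e2 : ((m + 2 : ℕ) : ℝ⟦X⟧) = (b : ℝ⟦X⟧) + (c : ℝ⟦X⟧) := by
        rw [← hbc]; push_cast; ring
      rw [e1, e2]
      change (X + C (rho ω b c * c)) * (X + C (-(rho ω b c * b))) * d⁄dX ℝ (PP ω b c) =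
        ((b : ℝ⟦X⟧) * (X + C (-(rho ω b c * b))) + (c : ℝ⟦X⟧) * (X + C (rho ω b c * c))) *
          PP ω b c at hode
      simp only [map_neg, map_mul, map_sub, map_natCast] at hode ⊢
      linear_combination hode
    change Bi (A (tr (PP ω b c))) = _
    conv_lhs => rw [hP, map_sub, map_sub, hAX, sub_zero, hAP, map_smul]
    congr 1
    ext j
    rw [coeff_diag, coeff_diag]
    split_ifs with hj
    · have e3 : coeff j (X * d⁄dX ℝ (PP ω b c)) = j * coeff j (PP ω b c) := by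
        rcases j with _ | j
        · simp
        · rw [coeff_succ_X_mul, coeff_derivative]; push_cast; ring
      have e4 : coeff j (((m + 2 : ℕ) : ℝ⟦X⟧) * PP ω b c) = ((m : ℝ) + 2) * coeff j (PP ω b c) := by
        rw [← nsmul_eq_mul, map_nsmul, nsmul_eq_mul]; push_cast; ring
      have e5 : (m : ℝ) + 2 - j ≠ 0 := by
        have : (j : ℝ) < m + 1 := by exact_mod_cast hj
        linarith
      rw [map_sub, e3, e4]
      field_simp
    · simp
  let q : Polynomial ℝ :=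
    ∏ b ∈ (Finset.Icc 1 (m + 1)).erase b₀, (Polynomial.X - Polynomial.C (lam b))
  let φ : ℝ⟦X⟧ →ₗ[ℝ] ℝ := coeff m ∘ₗ (Polynomial.aeval S q : Module.End ℝ ℝ⟦X⟧) ∘ₗ tr
  have hφ : ∀ G : ℝ⟦X⟧, ∑ j ∈ Finset.range (m + 2), φ (X ^ j) * coeff j G = φ G := by
    intro G
    have : tr G = tr (∑ j ∈ Finset.range (m + 2), coeff j G • X ^ j) := by
      ext i
      rw [coeff_diag, coeff_diag, map_sum]
      split_ifs with hi
      · simp only [map_smul, coeff_X_pow, smul_eq_mul, mul_ite, mul_one, mul_zero]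
        rw [Finset.sum_ite_eq, if_pos (Finset.mem_range.2 (by omega))]
      · simp
    have h2 : φ G = φ (∑ j ∈ Finset.range (m + 2), coeff j G • X ^ j) := by
      simp only [φ, LinearMap.comp_apply]; rw [this]
    rw [h2, map_sum]
    exact Finset.sum_congr rfl fun j _ => by rw [map_smul, smul_eq_mul, mul_comm]
  have hval : ∀ b c, 1 ≤ b → 1 ≤ c → b + c = m + 2 →
      φ (PP ω b c) = q.eval (lam b) * coeff m (PP ω b c) := by
    intro b c hb hc hbc
    simp only [φ, LinearMap.comp_apply]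
    rw [Module.End.aeval_apply_of_mem_apply_eq_smul (heig b c hb hc hbc), map_smul, coeff_diag,
      if_pos (by omega), one_mul, smul_eq_mul]
  refine ⟨fun j => φ (X ^ j), fun b c hb hc hbc hne => ?_, ?_⟩
  · rw [hφ, hval b c hb hc hbc]
    have : q.eval (lam b) = 0 := by
      rw [Polynomial.eval_prod]
      exact Finset.prod_eq_zero (i := b) (by simp; omega) (by simp)
    rw [this, zero_mul]
  · rw [hφ, hval b₀ c₀ hb₀ hc₀ hm]
    refine mul_ne_zero ?_ ?_
    · rw [Polynomial.eval_prod]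
      refine Finset.prod_ne_zero_iff.2 fun b hb => ?_
      simp only [Finset.mem_erase, Finset.mem_Icc] at hb
      simp only [Polynomial.eval_sub, Polynomial.eval_X, Polynomial.eval_C]
      intro h
      exact hb.1 (lam_inj hω hb₀ (by omega) hb.2.1 (by omega) (by omega) (sub_eq_zero.1 h)).symm
    · obtain ⟨-, -, -, h3⟩ := QQ_coeff b₀ c₀ (rho ω b₀ c₀ * c₀) (-(rho ω b₀ c₀ * b₀)) hm
      intro h
      have h' : coeff m (QQ b₀ c₀ (rho ω b₀ c₀ * c₀) (-(rho ω b₀ c₀ * b₀))) = 0 := h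
      rw [h'] at h3
      have hρ := rho_pos hω hb₀ hc₀
      have b0 : (0 : ℝ) < b₀ := by exact_mod_cast hb₀
      have c0 : (0 : ℝ) < c₀ := by exact_mod_cast hc₀
      have : 0 < b₀ * (rho ω b₀ c₀ * c₀) ^ 2 + c₀ * (-(rho ω b₀ c₀ * b₀)) ^ 2 := by positivity
      nlinarith

end Pool.Agent.Lib.MP_7a4764_an.H60
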