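import Mathlib
import Pool.Agent.Lib.MP_7a4764_an.H60Eigen
import Pool.Agent.Lib.MP_7a4764_an.H60Coef

set_option autoImplicit false

/-!
The vertices of the slice given by a root sum and by a logarithmic derivative at an outside point:
existence, and a functional that vanishes at all of them but one.
-/

namespace Pool.Agent.Lib.MP_7a4764_an.H60

open PowerSeries

theorem exists_aW (n : ℕ) (ς k : ℝ) : ∃ a : ℕ → ℝ, ∀ (s : Finset ℕ) (y : ℕ → ℝ), s.card = n →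
    (∀ i ∈ s, y i < ς) →
    ∑ j ∈ Finset.range (n + 1), a j * coeff j (∏ i ∈ s, ((X : ℝ⟦X⟧) + C (y i))) =
      (∏ i ∈ s, (ς - y i)) * (∑ i ∈ s, 1 / (ς - y i) - k) := by
  classical
  let ψ : Polynomial ℝ →ₗ[ℝ] ℝ := ((-1 : ℝ) ^ n) •
    (-(Polynomial.leval (-ς) ∘ₗ Polynomial.derivative) - k • Polynomial.leval (-ς))
  have hψ : ∀ q : Polynomial ℝ, ψ q =
      (-1) ^ n * (-(Polynomial.derivative q).eval (-ς) - k * q.eval (-ς)) := fun q => rfl
  refine ⟨fun j => ψ (Polynomial.X ^ j), fun s y hs hy => ?_⟩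
  let q : Finset ℕ → Polynomial ℝ := fun s => ∏ i ∈ s, (Polynomial.X + Polynomial.C (y i))
  have h1 : ∀ s : Finset ℕ, (∀ i ∈ s, y i < ς) →
      (q s).eval (-ς) = (-1) ^ s.card * ∏ i ∈ s, (ς - y i) ∧
      (Polynomial.derivative (q s)).eval (-ς) =
        -(∑ i ∈ s, 1 / (ς - y i)) * (q s).eval (-ς) := by
    intro s
    induction s using Finset.induction_on with
    | empty => intro _; simp [q]
    | insert a s ha ih =>
      intro h
      obtain ⟨e1, e2⟩ := ih fun i hi => h i (Finset.mem_insert_of_mem hi)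
      have h0 : ς - y a ≠ 0 := (sub_pos.2 (h a (Finset.mem_insert_self _ _))).ne'
      have e : q (insert a s) = (Polynomial.X + Polynomial.C (y a)) * q s :=
        Finset.prod_insert ha
      rw [e, Finset.prod_insert ha, Finset.sum_insert ha, Finset.card_insert_of_notMem ha]
      simp only [Polynomial.derivative_mul, Polynomial.derivative_X_add_C, Polynomial.eval_add,
        Polynomial.eval_mul, Polynomial.eval_X, Polynomial.eval_C, one_mul]
      refine ⟨by rw [e1]; ring, ?_⟩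
      rw [e2]
      field_simp
      ring
  have h2 : ((q s : Polynomial ℝ) : ℝ⟦X⟧) = ∏ i ∈ s, ((X : ℝ⟦X⟧) + C (y i)) := by
    rw [← Polynomial.coeToPowerSeries.ringHom_apply, map_prod]
    exact Finset.prod_congr rfl fun i _ => by simp
  have h3 : (q s).natDegree = n := by
    rw [Polynomial.natDegree_prod_of_monic _ _ fun i _ => Polynomial.monic_X_add_C _]
    simp [hs]
  obtain ⟨e1, e2⟩ := h1 s hy
  have h4 := lin_sum ψ (q s)
  rw [h3] at h4
  rw [← h2]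
  simp only [Polynomial.coeff_coe]
  rw [Finset.sum_congr rfl (g := fun j => (q s).coeff j • ψ (Polynomial.X ^ j))
    (fun j _ => by rw [smul_eq_mul, mul_comm]), ← h4, hψ, e2, e1, hs]
  have : ((-1 : ℝ) ^ n) * (-1) ^ n = 1 := by rw [← mul_pow]; simp
  linear_combination ((∏ i ∈ s, (ς - y i)) * (∑ i ∈ s, 1 / (ς - y i) - k)) * this

theorem aW_QQ {n : ℕ} {ς k : ℝ} {a : ℕ → ℝ} (ha : ∀ (s : Finset ℕ) (y : ℕ → ℝ), s.card = n →
    (∀ i ∈ s, y i < ς) →
    ∑ j ∈ Finset.range (n + 1), a j * coeff j (∏ i ∈ s, ((X : ℝ⟦X⟧) + C (y i))) =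
      (∏ i ∈ s, (ς - y i)) * (∑ i ∈ s, 1 / (ς - y i) - k)) {b c : ℕ} (hbc : b + c = n) {y z : ℝ}
    (hy : y < ς) (hz : z < ς) : ∑ j ∈ Finset.range (n + 1), a j * coeff j (QQ b c y z) =
      (ς - y) ^ b * (ς - z) ^ c * (b * (1 / (ς - y)) + c * (1 / (ς - z)) - k) := by
  rw [QQ_eq, ha _ _ (by rw [Finset.card_range, hbc]) (fun i _ => by split_ifs <;> assumption),
    prod_two b c (fun r => ς - r) y z, sum_two b c _ (1 / (ς - y)) (1 / (ς - z))
      (fun i hi => by rw [if_pos hi]) (fun i hi => by rw [if_neg (by omega)])]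

theorem exists_rho {ς k κ : ℝ} (hς : 0 < ς) (hκ : 0 < κ) {b c : ℕ} (hb : 1 ≤ b) (hc : 1 ≤ c)
    (h : κ = k * ς - (b + c)) :
    ∃ ρ : ℝ, 0 < ρ ∧ ρ * c < ς ∧ k * (b * c) * ρ ^ 2 = κ * (ς + (b - c) * ρ) := by
  have b0 : (0 : ℝ) < b := by exact_mod_cast hb
  have c0 : (0 : ℝ) < c := by exact_mod_cast hc
  have h1 : (0 : ℝ) ≤ ς / c := by positivity
  have h2 := intermediate_value_Ioo (f := fun ρ : ℝ => k * (b * c) * ρ ^ 2 - κ * (ς + (b - c) * ρ))
    h1 (by fun_prop)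
  have h3 : (0 : ℝ) ∈ Set.Ioo (k * (b * c) * (0 : ℝ) ^ 2 - κ * (ς + (b - c) * 0))
      (k * (b * c) * (ς / c) ^ 2 - κ * (ς + (b - c) * (ς / c))) := by
    constructor
    · have := mul_pos hκ hς
      simpa using this
    · have : k * (b * c) * (ς / c) ^ 2 - κ * (ς + (b - c) * (ς / c)) = ς * b / c * (b + c) := by
        rw [h]; field_simp; ring
      rw [this]; positivity
  obtain ⟨ρ, hρ, e⟩ := h2 h3
  exact ⟨ρ, hρ.1, (lt_div_iff₀ c0).1 hρ.2, sub_eq_zero.1 e⟩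

theorem lam_inj' {ρ ρ' : ℝ} (hρ : 0 < ρ) (hρ' : 0 < ρ') {b c b' c' : ℕ} (hc : 1 ≤ c) (hb' : 1 ≤ b')
    (hn : b + c = b' + c') (hs : ρ ^ 2 * (b * c) = ρ' ^ 2 * (b' * c'))
    (h : ρ * c - ρ * b = ρ' * c' - ρ' * b') : b = b' := by
  have b0 : (0 : ℝ) ≤ b := Nat.cast_nonneg b
  have c0 : (0 : ℝ) < c := by exact_mod_cast hc
  have b0' : (0 : ℝ) < b' := by exact_mod_cast hb'
  have hn' : (b : ℝ) + c = b' + c' := by exact_mod_cast hn
  have h1 : (ρ * c - ρ' * c') * (ρ * c + ρ' * b') = 0 := by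
    have e : ρ * b = ρ * c - ρ' * c' + ρ' * b' := by linarith
    have e1 : (ρ * c) * (ρ * b) = (ρ' * c') * (ρ' * b') := by linarith
    rw [e] at e1
    linarith
  have h2 : ρ * c = ρ' * c' := by
    rcases mul_eq_zero.1 h1 with h3 | h3
    · linarith
    · have : 0 < ρ * c + ρ' * b' := by positivity
      linarith
  have h3 : ρ * b = ρ' * b' := by linarith
  have h4 : ρ = ρ' := by
    have : (ρ - ρ') * (b + c) = 0 := by
      have : ρ * (b + c) = ρ' * (b' + c') := by linarith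
      rw [← hn'] at this; linarith
    rcases mul_eq_zero.1 this with h5 | h5
    · linarith
    · linarith
  rw [h4] at h3
  exact_mod_cast mul_left_cancel₀ hρ'.ne' h3

theorem exists_mu' {m : ℕ} {ς k κ : ℝ} (hς : 0 < ς) (hκ : 0 < κ) (hκe : κ = k * ς - (m + 2))
    (ρ : ℕ → ℝ) (hρ : ∀ b c : ℕ, 1 ≤ b → 1 ≤ c → b + c = m + 2 →
      0 < ρ b ∧ ρ b * c < ς ∧ k * (b * c) * ρ b ^ 2 = κ * (ς + (b - c) * ρ b))
    {b₀ c₀ : ℕ} (hb₀ : 1 ≤ b₀) (hc₀ : 1 ≤ c₀) (hm : b₀ + c₀ = m + 2) : ∃ μ : ℕ → ℝ,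
      (∀ b c, 1 ≤ b → 1 ≤ c → b + c = m + 2 → b ≠ b₀ →
        ∑ j ∈ Finset.range (m + 2), μ j * coeff j (QQ b c (ρ b * c) (-(ρ b * b))) = 0) ∧
      ∑ j ∈ Finset.range (m + 2), μ j * coeff j (QQ b₀ c₀ (ρ b₀ * c₀) (-(ρ b₀ * b₀))) ≠ 0 := by
  classical
  obtain ⟨a, ha⟩ := exists_aW (m + 2) ς k
  have hk : 0 < k := by
    have : (0 : ℝ) ≤ m := Nat.cast_nonneg m
    by_contra h
    have := mul_nonpos_of_nonpos_of_nonneg (not_lt.1 h) hς.le
    linarith
  let γ : ℝ := κ / k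
  have hγ : 0 < γ := div_pos hκ hk
  let P : ℕ → ℕ → ℝ⟦X⟧ := fun b c => QQ b c (ρ b * c) (-(ρ b * b))
  let Dl : ℝ⟦X⟧ →ₗ[ℝ] ℝ⟦X⟧ := (d⁄dX ℝ : Derivation ℝ ℝ⟦X⟧ ℝ⟦X⟧).toLinearMap
  let A : ℝ⟦X⟧ →ₗ[ℝ] ℝ⟦X⟧ := LinearMap.mulLeft ℝ (X ^ 2 - C (γ * ς)) ∘ₗ Dl -
      LinearMap.mulLeft ℝ (((m + 2 : ℕ) : ℝ⟦X⟧) * X)
  let B : ℝ⟦X⟧ →ₗ[ℝ] ℝ⟦X⟧ := LinearMap.mulLeft ℝ ((m + 2 : ℕ) : ℝ⟦X⟧) -
      LinearMap.mulLeft ℝ (X + C γ) ∘ₗ Dl
  have hA : ∀ G, A G = (X ^ 2 - C (γ * ς)) * d⁄dX ℝ G - ((m + 2 : ℕ) : ℝ⟦X⟧) * X * G :=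
    fun G => rfl
  have hB : ∀ G, B G = ((m + 2 : ℕ) : ℝ⟦X⟧) * G - (X + C γ) * d⁄dX ℝ G := fun G => rfl
  have hBc : ∀ G j, coeff j (B G) = ((m : ℝ) + 2 - j) * coeff j G - γ * (coeff (j + 1) G * (j + 1)) := by
    intro G j
    have e3 : coeff j (X * d⁄dX ℝ G) = j * coeff j G := by
      rcases j with _ | j
      · simp
      · rw [coeff_succ_X_mul, coeff_derivative]; push_cast; ring
    have e4 : coeff j (((m + 2 : ℕ) : ℝ⟦X⟧) * G) = ((m : ℝ) + 2) * coeff j G := by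
      rw [← nsmul_eq_mul, map_nsmul, nsmul_eq_mul]; push_cast; ring
    rw [hB, map_sub, add_mul, map_add, e3, e4, coeff_C_mul, coeff_derivative]; ring
  let Z : Submodule ℝ ℝ⟦X⟧ :=
    { carrier := {G | coeff (m + 1) G = 0 ∧ ∀ j, m + 2 < j → coeff j G = 0}
      add_mem' := fun h1 h2 => ⟨by rw [map_add, h1.1, h2.1, add_zero],
        fun j hj => by rw [map_add, h1.2 j hj, h2.2 j hj, add_zero]⟩
      zero_mem' := ⟨map_zero _, fun j _ => map_zero _⟩
      smul_mem' := fun r G h => ⟨by rw [map_smul, h.1, smul_zero],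
        fun j hj => by rw [map_smul, h.2 j hj, smul_zero]⟩ }
  have hinj : LinearMap.ker (B ∘ₗ Z.subtype) = ⊥ := by
    refine LinearMap.ker_eq_bot'.2 fun G hG => Subtype.ext ?_
    have h0 : ∀ j, ((m : ℝ) + 2 - j) * coeff j G.1 = γ * (coeff (j + 1) G.1 * (j + 1)) := by
      intro j
      have h1 : B G.1 = 0 := hG
      have h2 := hBc G.1 j
      rw [h1, map_zero] at h2
      linarith
    have h1 : ∀ i j, i + j = m + 1 → coeff j G.1 = 0 := by
      intro i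
      induction i with
      | zero => intro j hj; rw [show j = m + 1 by omega]; exact G.2.1
      | succ i ih =>
        intro j hj
        have h2 := h0 j
        rw [ih (j + 1) (by omega), zero_mul, mul_zero] at h2
        have h3 : (j : ℝ) < m + 2 := by exact_mod_cast (by omega : j < m + 2)
        exact (mul_eq_zero.1 h2).resolve_left (by linarith)
    ext j
    change coeff j G.1 = coeff j 0
    rw [map_zero]
    rcases (by omega : j ≤ m + 1 ∨ j = m + 2 ∨ m + 2 < j) with h | rfl | h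
    · exact h1 (m + 1 - j) j (by omega)
    · have h2 := h0 (m + 1)
      rw [G.2.1, mul_zero] at h2
      have h3 := (mul_eq_zero.1 h2.symm).resolve_left hγ.ne'
      exact (mul_eq_zero.1 h3).resolve_right (by positivity)
    · exact G.2.2 j h
  obtain ⟨g, hg⟩ := LinearMap.exists_leftInverse_of_injective _ hinj
  let S : Module.End ℝ ℝ⟦X⟧ := Z.subtype ∘ₗ g ∘ₗ A
  let lam : ℕ → ℝ := fun b => ρ b * (m + 2 - b : ℕ) - ρ b * b
  have hom : ∀ b c : ℕ, 1 ≤ b → 1 ≤ c → b + c = m + 2 →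
      ρ b ^ 2 * (b * c) = γ * (ς - (ρ b * c - ρ b * b)) := by
    intro b c hb hc hbc
    obtain ⟨-, -, h3⟩ := hρ b c hb hc hbc
    simp only [γ]
    field_simp
    linear_combination h3
  have heig : ∀ b c, 1 ≤ b → 1 ≤ c → b + c = m + 2 → S (P b c) = lam b • P b c := by
    intro b c hb hc hbc
    have hcb : m + 2 - b = c := by omega
    obtain ⟨h0, -, h2, -⟩ := QQ_coeff b c (ρ b * c) (-(ρ b * b)) hbc
    have hZ : P b c ∈ Z := ⟨h2.trans (by ring), h0⟩
    have hode := QQ_ode hb hc (ρ b * c) (-(ρ b * b))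
    have hAP : A (P b c) = lam b • B (P b c) := by
      rw [hA, hB, smul_eq_C_mul]
      simp only [lam, hcb]
      have e1 := congrArg (C : ℝ → ℝ⟦X⟧) (hom b c hb hc hbc)
      have e2 : ((m + 2 : ℕ) : ℝ⟦X⟧) = (b : ℝ⟦X⟧) + (c : ℝ⟦X⟧) := by
        rw [← hbc]; push_cast; ring
      rw [e2]
      change (X + C (ρ b * c)) * (X + C (-(ρ b * b))) * d⁄dX ℝ (P b c) =
        ((b : ℝ⟦X⟧) * (X + C (-(ρ b * b))) + (c : ℝ⟦X⟧) * (X + C (ρ b * c))) * P b c at hode
      simp only [map_neg, map_mul, map_sub, map_natCast, map_pow] at hode e1 ⊢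
      linear_combination hode + d⁄dX ℝ (P b c) * e1
    have h3 : g (B (P b c)) = ⟨P b c, hZ⟩ := LinearMap.congr_fun hg ⟨P b c, hZ⟩
    change Z.subtype (g (A (P b c))) = _
    rw [hAP, map_smul, h3, map_smul]; rfl
  let q : Polynomial ℝ :=
    ∏ b ∈ (Finset.Icc 1 (m + 1)).erase b₀, (Polynomial.X - Polynomial.C (lam b))
  let φ : ℝ⟦X⟧ →ₗ[ℝ] ℝ := coeff (m + 2) ∘ₗ (Polynomial.aeval S q : Module.End ℝ ℝ⟦X⟧)
  have han : a (m + 2) ≠ 0 := by
    have h1 := aW_QQ ha (b := m + 2) (c := 0) rfl hς hς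
    have h2 : QQ (m + 2) 0 0 0 = X ^ (m + 2) := by simp [QQ]
    simp only [h2, coeff_X_pow, mul_ite, mul_one, mul_zero] at h1
    rw [Finset.sum_ite_eq', if_pos (by simp)] at h1
    rw [h1]
    refine mul_ne_zero (by positivity) ?_
    have : ((m + 2 : ℕ) : ℝ) * (1 / (ς - 0)) + (0 : ℕ) * (1 / (ς - 0)) - k = -κ / ς := by
      rw [hκe, sub_zero]; push_cast; field_simp; ring
    rw [this]
    exact div_ne_zero (neg_ne_zero.2 hκ.ne') hς.ne'
  have hval : ∀ b c, 1 ≤ b → 1 ≤ c → b + c = m + 2 → ∑ j ∈ Finset.range (m + 2),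
      (φ (X ^ j) - φ (X ^ (m + 2)) / a (m + 2) * a j) * coeff j (P b c) = q.eval (lam b) := by
    intro b c hb hc hbc
    obtain ⟨h0, h1, -, -⟩ := QQ_coeff b c (ρ b * c) (-(ρ b * b)) hbc
    obtain ⟨r1, r2, r3⟩ := hρ b c hb hc hbc
    have b0 : (0 : ℝ) < b := by exact_mod_cast hb
    have r4 : -(ρ b * b) < ς := by have := mul_pos r1 b0; linarith
    have e1 : φ (P b c) = q.eval (lam b) := by
      simp only [φ, LinearMap.comp_apply]
      rw [Module.End.aeval_apply_of_mem_apply_eq_smul (heig b c hb hc hbc), map_smul, h1,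
        smul_eq_mul, mul_one]
    have e2 : P b c = ∑ j ∈ Finset.range (m + 2 + 1), coeff j (P b c) • X ^ j := by
      ext i
      simp only [map_sum, map_smul, coeff_X_pow, smul_eq_mul, mul_ite, mul_one, mul_zero]
      rw [Finset.sum_ite_eq]
      split_ifs with hi
      · rfl
      · exact h0 i (by simpa using hi)
    have e3 : φ (P b c) = ∑ j ∈ Finset.range (m + 2), φ (X ^ j) * coeff j (P b c) +
        φ (X ^ (m + 2)) := by
      conv_lhs => rw [e2, map_sum, Finset.sum_range_succ]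
      rw [h1, one_smul]
      exact congrArg (· + _) (Finset.sum_congr rfl fun j _ => by
        rw [map_smul, smul_eq_mul, mul_comm])
    have e4 := aW_QQ ha hbc r2 r4
    have hn : (m : ℝ) + 2 = b + c := by exact_mod_cast hbc.symm
    have e5 : b * (1 / (ς - ρ b * c)) + c * (1 / (ς - -(ρ b * b))) - k = 0 := by
      have p1 : ς - ρ b * c ≠ 0 := by linarith
      have p2 : ς - -(ρ b * b) ≠ 0 := by linarith
      rw [hκe, hn] at r3
      rw [mul_one_div, mul_one_div, div_add_div _ _ p1 p2, sub_eq_zero,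
        div_eq_iff (mul_ne_zero p1 p2)]
      linear_combination r3
    rw [e5, mul_zero, Finset.sum_range_succ, h1, mul_one] at e4
    simp only [sub_mul, mul_assoc]
    rw [Finset.sum_sub_distrib, ← Finset.mul_sum, eq_neg_of_add_eq_zero_left e4, ← e1, e3]
    field_simp
    ring
  refine ⟨fun j => φ (X ^ j) - φ (X ^ (m + 2)) / a (m + 2) * a j,
    fun b c hb hc hbc hne => ?_, ?_⟩
  · rw [hval b c hb hc hbc, Polynomial.eval_prod]
    exact Finset.prod_eq_zero (i := b) (by simp; omega) (by simp)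
  · rw [hval b₀ c₀ hb₀ hc₀ hm, Polynomial.eval_prod]
    refine Finset.prod_ne_zero_iff.2 fun b hb => ?_
    simp only [Finset.mem_erase, Finset.mem_Icc] at hb
    simp only [Polynomial.eval_sub, Polynomial.eval_X, Polynomial.eval_C]
    intro h
    have h1 : ρ b₀ * c₀ - ρ b₀ * b₀ = ρ b * (m + 2 - b : ℕ) - ρ b * b := by
      have := sub_eq_zero.1 h
      simp only [lam] at this
      rwa [show m + 2 - b₀ = c₀ by omega] at this
    refine hb.1 (lam_inj' (hρ b₀ c₀ hb₀ hc₀ hm).1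
      (hρ b (m + 2 - b) hb.2.1 (by omega) (by omega)).1 hc₀ hb.2.1 (by omega) ?_ h1).symm
    rw [hom b₀ c₀ hb₀ hc₀ hm, hom b (m + 2 - b) hb.2.1 (by omega) (by omega), h1]

end Pool.Agent.Lib.MP_7a4764_an.H60
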