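import Mathlib
import Pool.Agent.Lib.MP_7a4764_an.H60Eigen
import Pool.Agent.Lib.MP_7a4764_an.H60Coef

set_option autoImplicit false

/-!
The expansion of `f / (t ^ a₀ (t - 1) ^ n)` in the local coordinate `(t + 1) / (t - 1)` and the three
local estimates.
-/

namespace Pool.Agent.Lib.MP_7a4764_an.H60

open PowerSeries

/-- The inverse of `1 - X`. -/
noncomputable def Im : ℝ⟦X⟧ := mk fun _ => 1

/-- The inverse of `1 + X`. -/
noncomputable def Ip : ℝ⟦X⟧ := mk fun j => (-1) ^ j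

theorem Im_mul : Im * (1 - X) = 1 := mk_one_mul_one_sub_eq_one ℝ

theorem Ip_mul : Ip * (1 + X) = 1 := by
  ext j
  rw [mul_add, mul_one, map_add, coeff_one]
  rcases j with _ | j
  · simp [Ip]
  · rw [coeff_succ_mul_X]; simp [Ip, pow_succ]

theorem nm_Im (n : ℕ) : nm n Im = n := by simp [nm, Im]

theorem nm_Ip (n : ℕ) : nm n Ip = n := by simp [nm, Ip]

/-- The normalising factors. -/
noncomputable def uu (a₀ D i : ℕ) : ℝ⟦X⟧ :=
  if i < a₀ then Ip * (X - 1) else if i < D then X - 1 else 1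

/-- The expansion map. -/
noncomputable def G (a₀ D : ℕ) : Polynomial ℝ →ₗ[ℝ] ℝ⟦X⟧ :=
  LinearMap.mulRight ℝ (∏ i ∈ Finset.range D, uu a₀ D i) ∘ₗ
    (Polynomial.aeval (-(1 + X) * Im : ℝ⟦X⟧)).toLinearMap

/-- The error terms. -/
noncomputable def ee (a₀ D : ℕ) (p : ℕ → ℝ) (i : ℕ) : ℝ⟦X⟧ :=
  if i < a₀ then (-(2 * (1 - p i))) • Ip else if i < D then 0 else (-(2 * p i)) • Im

theorem G_F {a₀ D N : ℕ} (h1 : a₀ ≤ D) (h2 : D ≤ N) (p : ℕ → ℝ) :
    G a₀ D (F p N) = (∏ i ∈ Finset.range N, (1 + ee a₀ D p i)) *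
      ∏ i ∈ Finset.Ico a₀ D, (X + C (2 * p i - 1)) := by
  have e1 : ∏ i ∈ Finset.range D, uu a₀ D i = ∏ i ∈ Finset.range N, uu a₀ D i := by
    refine Finset.prod_subset (Finset.range_subset_range.2 h2) fun i _ hi => ?_
    have : ¬ i < D := by simpa using hi
    rw [uu, if_neg (by omega), if_neg this]
  have e2 : ∏ i ∈ Finset.Ico a₀ D, ((X : ℝ⟦X⟧) + C (2 * p i - 1)) = ∏ i ∈ Finset.range N,
      (if a₀ ≤ i ∧ i < D then (X : ℝ⟦X⟧) + C (2 * p i - 1) else 1) := by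
    rw [← Finset.prod_filter]
    refine Finset.prod_congr ?_ fun _ _ => rfl
    ext i; simp only [Finset.mem_Ico, Finset.mem_filter, Finset.mem_range]; omega
  change Polynomial.aeval (-(1 + X) * Im : ℝ⟦X⟧) (F p N) * ∏ i ∈ Finset.range D, uu a₀ D i = _
  rw [e1, e2, F, map_prod, ← Finset.prod_mul_distrib, ← Finset.prod_mul_distrib]
  refine Finset.prod_congr rfl fun i _ => ?_
  have hL : Polynomial.aeval (-(1 + X) * Im : ℝ⟦X⟧) (L (p i)) =
      C (p i) * (-(1 + X) * Im) + (1 - C (p i)) := by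
    simp [L]
  have h3 := Im_mul
  have h4 := Ip_mul
  rw [hL, uu, ee]
  by_cases ha : i < a₀
  · rw [if_pos ha, if_pos ha, if_neg (by omega), smul_eq_C_mul]
    simp only [map_neg, map_mul, map_sub, map_one, map_ofNat]
    linear_combination (C (p i) * (1 + X) * Ip) * h3 + h4
  · rw [if_neg ha, if_neg ha]
    by_cases hd : i < D
    · rw [if_pos hd, if_pos hd, if_pos ⟨by omega, hd⟩]
      simp only [map_mul, map_sub, map_one, map_ofNat]
      linear_combination (C (p i) * (1 + X)) * h3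
    · rw [if_neg hd, if_neg hd, if_neg (by omega), smul_eq_C_mul]
      simp only [map_neg, map_mul, map_ofNat]
      linear_combination C (p i) * h3

theorem ee_sum {a₀ D N : ℕ} (n : ℕ) (h1 : a₀ ≤ D) (h2 : D ≤ N) {p : ℕ → ℝ}
    (hp : ∀ i, 0 ≤ p i ∧ p i ≤ 1) {τ : ℝ} (hh : ∀ i, i < a₀ → 1 - p i ≤ τ)
    (ht : ∑ i ∈ Finset.Ico D N, p i ≤ 3 * τ) :
    ∑ i ∈ Finset.range N, nm n (ee a₀ D p i) ≤ 2 * n * (a₀ + 3) * τ := by
  rw [← Finset.sum_range_add_sum_Ico _ h2, ← Finset.sum_range_add_sum_Ico _ h1]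
  have hn : (0 : ℝ) ≤ n := Nat.cast_nonneg n
  have e1 : ∑ i ∈ Finset.range a₀, nm n (ee a₀ D p i) ≤ a₀ * (2 * τ * n) := by
    have := Finset.sum_le_card_nsmul (Finset.range a₀) (fun i => nm n (ee a₀ D p i)) (2 * τ * n)
      (fun i hi => by
        have hi' := Finset.mem_range.1 hi
        rw [ee, if_pos hi', nm_smul, nm_Ip, abs_neg, abs_of_nonneg (by linarith [(hp i).2])]
        exact mul_le_mul_of_nonneg_right (by linarith [hh i hi']) hn)
    simpa using this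
  have e2 : ∑ i ∈ Finset.Ico a₀ D, nm n (ee a₀ D p i) = 0 := by
    refine Finset.sum_eq_zero fun i hi => ?_
    have := Finset.mem_Ico.1 hi
    rw [ee, if_neg (by omega), if_pos this.2, nm_zero]
  have e3 : ∑ i ∈ Finset.Ico D N, nm n (ee a₀ D p i) = 2 * n * ∑ i ∈ Finset.Ico D N, p i := by
    rw [Finset.mul_sum]
    refine Finset.sum_congr rfl fun i hi => ?_
    have := Finset.mem_Ico.1 hi
    rw [ee, if_neg (by omega), if_neg (by omega), nm_smul, nm_Im, abs_neg,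
      abs_of_nonneg (by linarith [(hp i).1])]
    ring
  have e4 := mul_le_mul_of_nonneg_left ht (show 0 ≤ 2 * (n : ℝ) by positivity)
  rw [e2, e3]
  nlinarith

theorem split_err {n : ℕ} (W Q : ℝ⟦X⟧) {η : ℝ} (hW : nm n (W - 1) ≤ η) :
    nm n (W * Q) ≤ (1 + η) * nm n Q ∧
      ∀ j, j < n → |coeff j (W * Q) - coeff j Q| ≤ η * nm n Q := by
  have h1 : nm n ((W - 1) * Q) ≤ η * nm n Q :=
    (nm_mul _ _ _).trans (mul_le_mul_of_nonneg_right hW (nm_nonneg _ _))
  constructor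
  · have : W * Q = Q + (W - 1) * Q := by ring
    rw [this]
    linarith [nm_add n Q ((W - 1) * Q)]
  · intro j hj
    rw [← map_sub, show W * Q - Q = (W - 1) * Q by ring]
    exact (coeff_le_nm hj _).trans h1

/-- One of the middle roots is far from the centre. -/
theorem robust {m : ℕ} (s : Finset ℕ) (hs : s.card = m + 2) (y : ℕ → ℝ) (hy : ∀ i ∈ s, |y i| ≤ 1)
    {i₀ : ℕ} (hi₀ : i₀ ∈ s) (h34 : 3 / 4 ≤ |y i₀|) (W : ℝ⟦X⟧) {η A : ℝ}
    (hW : nm (m + 2) (W - 1) ≤ η) (hη : η * 2 ^ (m + 2) ≤ 1 / 32)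
    (hA : -coeff m (W * ∏ i ∈ s, (X + C (y i))) - 1 / 32 ≤ A) :
    nm (m + 2) (W * ∏ i ∈ s, (X + C (y i))) ≤
      32 * 2 ^ (m + 2) * (|A| + |coeff (m + 1) (W * ∏ i ∈ s, (X + C (y i)))|) := by
  obtain ⟨-, -, h2, h3⟩ := vieta_top s y
  have h2' := h2 (m + 1) hs
  have h3' := h3 m hs
  have hQ := nm_prod_lin (m + 2) s y hy
  rw [hs] at hQ
  set Q := ∏ i ∈ s, ((X : ℝ⟦X⟧) + C (y i))
  obtain ⟨e0, e1⟩ := split_err W Q hW
  have hη0 : 0 ≤ η := (nm_nonneg _ _).trans hW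
  have hE : η * nm (m + 2) Q ≤ 1 / 32 := (mul_le_mul_of_nonneg_left hQ hη0).trans hη
  have e2 := abs_le.1 ((e1 m (by omega)).trans hE)
  have e3 := abs_le.1 ((e1 (m + 1) (by omega)).trans hE)
  have hsq : 9 / 16 ≤ ∑ i ∈ s, y i ^ 2 := by
    have := Finset.single_le_sum (f := fun i => y i ^ 2) (fun i _ => sq_nonneg _) hi₀
    have h4 : y i₀ ^ 2 = |y i₀| ^ 2 := (sq_abs _).symm
    nlinarith
  have hp : (1 : ℝ) ≤ 2 ^ (m + 2) := one_le_pow₀ (by norm_num)
  have key : 1 / 16 ≤ |A| + |coeff (m + 1) (W * Q)| := by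
    have a1 := le_abs_self A
    have a2 := abs_nonneg A
    have a3 := le_abs_self (coeff (m + 1) (W * Q))
    have a4 := neg_abs_le (coeff (m + 1) (W * Q))
    have a5 := abs_nonneg (coeff (m + 1) (W * Q))
    rcases le_total (∑ i ∈ s, y i) (-1 / 2) with h | h
    · linarith
    rcases le_total (1 / 2) (∑ i ∈ s, y i) with h' | h'
    · linarith
    have : (∑ i ∈ s, y i) ^ 2 ≤ 1 / 4 := by nlinarith
    linarith
  nlinarith

/-- All middle roots coincide. -/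
theorem single {m : ℕ} (s : Finset ℕ) (hs : s.card = m + 2) (y : ℕ → ℝ) {r : ℝ} (hr : |r| ≤ 1)
    (hy : ∀ i ∈ s, y i = r) (W : ℝ⟦X⟧) {η : ℝ}
    (hW : nm (m + 2) (W - 1) ≤ η) (hη : η * 2 ^ (m + 2) ≤ 1 / 32) :
    nm (m + 2) (W * ∏ i ∈ s, (X + C (y i))) ≤
      4 * 2 ^ (m + 2) * |coeff (m + 1) (W * ∏ i ∈ s, (X + C (y i)))| := by
  obtain ⟨-, -, h2, -⟩ := vieta_top s y
  have h2' := h2 (m + 1) hs
  have hQ := nm_prod_sub (m + 2) s y (fun _ => 0) (fun i hi => by rw [hy i hi]; exact hr)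
    (by simp)
  have hz : ∏ _i ∈ s, ((X : ℝ⟦X⟧) + C (0 : ℝ)) = X ^ (m + 2) := by simp [hs]
  have s1 : ∑ i ∈ s, |y i - 0| = |∑ i ∈ s, y i| := by
    rw [Finset.sum_congr rfl (g := fun _ => |r|) (fun i hi => by rw [hy i hi, sub_zero]),
      Finset.sum_congr rfl (g := fun _ => r) hy]
    simp [abs_mul]
  rw [hz, s1, hs, ← h2'] at hQ
  set Q := ∏ i ∈ s, ((X : ℝ⟦X⟧) + C (y i))
  have hQ' : nm (m + 2) Q ≤ 2 ^ (m + 2) * |coeff (m + 1) Q| := by
    have := nm_add (m + 2) (Q - X ^ (m + 2)) (X ^ (m + 2))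
    rw [sub_add_cancel, nm_X_pow_self] at this
    linarith
  obtain ⟨e0, e1⟩ := split_err W Q hW
  have hη0 : 0 ≤ η := (nm_nonneg _ _).trans hW
  have hp : (1 : ℝ) ≤ 2 ^ (m + 2) := one_le_pow₀ (by norm_num)
  have a0 := abs_nonneg (coeff (m + 1) Q)
  have hE : η * nm (m + 2) Q ≤ 1 / 32 * |coeff (m + 1) Q| := by
    refine (mul_le_mul_of_nonneg_left hQ' hη0).trans ?_
    rw [← mul_assoc]
    exact mul_le_mul_of_nonneg_right hη a0
  have e3 := (e1 (m + 1) (by omega)).trans hE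
  have e4 := abs_sub_abs_le_abs_sub (coeff (m + 1) Q) (coeff (m + 1) (W * Q))
  rw [abs_sub_comm] at e4
  have e5 : |coeff (m + 1) Q| ≤ 2 * |coeff (m + 1) (W * Q)| := by linarith
  have e6 : 2 ^ (m + 2) * |coeff (m + 1) Q| ≤ 2 ^ (m + 2) * (2 * |coeff (m + 1) (W * Q)|) :=
    mul_le_mul_of_nonneg_left e5 (by positivity)
  have e7 : |coeff (m + 1) Q| ≤ 2 ^ (m + 2) * |coeff (m + 1) Q| := le_mul_of_one_le_left a0 hp
  nlinarith

theorem vertex_le {m b c : ℕ} (hb : 1 ≤ b) (hc : 1 ≤ c) (hm : b + c = m + 2) :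
    rho (1 / (16 * (m + 2))) b c * c ≤ 1 / 4 ∧ rho (1 / (16 * (m + 2))) b c * b ≤ 1 / 4 ∧
      1 ≤ 4 * (m + 2) * (rho (1 / (16 * (m + 2))) b c * (m + 2)) := by
  have hω : (0 : ℝ) < 1 / (16 * (m + 2)) := by positivity
  have hρ := rho_pos hω hb hc
  have hs := rho_sq hω hb hc
  set ρ := rho (1 / (16 * (m + 2))) b c
  have b1 : (1 : ℝ) ≤ b := by exact_mod_cast hb
  have c1 : (1 : ℝ) ≤ c := by exact_mod_cast hc
  have hn : (m : ℝ) + 2 = b + c := by exact_mod_cast hm.symm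
  rw [hn] at hs ⊢
  have hs' : 16 * (b + c) * (ρ ^ 2 * (b * c)) = 1 := by rw [hs]; field_simp
  have hρ2 : 0 < ρ ^ 2 := by positivity
  refine ⟨?_, ?_, ?_⟩
  · refine le_of_pow_le_pow_left₀ (n := 2) (by norm_num) (by norm_num) ?_
    have : (c : ℝ) * c ≤ (b + c) * (b * c) := by nlinarith [mul_nonneg (sub_nonneg.2 b1) (sub_nonneg.2 c1)]
    nlinarith
  · refine le_of_pow_le_pow_left₀ (n := 2) (by norm_num) (by norm_num) ?_
    have : (b : ℝ) * b ≤ (b + c) * (b * c) := by nlinarith [mul_nonneg (sub_nonneg.2 b1) (sub_nonneg.2 c1)]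
    nlinarith
  · refine le_of_pow_le_pow_left₀ (n := 2) (by norm_num) (by positivity) ?_
    have h1 : (b : ℝ) * c ≤ (b + c) ^ 2 := by nlinarith
    have h2 : (b + c : ℝ) * (b * c) ≤ (b + c) ^ 4 := by
      have h3 : (b + c : ℝ) ≤ (b + c) ^ 2 := by nlinarith
      calc (b + c : ℝ) * (b * c) ≤ (b + c) ^ 2 * (b + c) ^ 2 :=
            mul_le_mul h3 h1 (by positivity) (by positivity)
        _ = _ := by ring
    nlinarith

/-- Inverse Lipschitz estimate on a face inside the window. -/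
theorem window {m b c : ℕ} (hb : 1 ≤ b) (hc : 1 ≤ c) (hm : b + c = m + 2) {y z : ℝ}
    (hy : |y| ≤ 1) (hz : |z| ≤ 1) (hzy : z ≤ y) :
    nm (m + 2) (QQ b c y z - PP (1 / (16 * (m + 2))) b c) ≤ 17 * (m + 2) ^ 2 * 2 ^ (m + 2) *
      (|-coeff m (QQ b c y z) - 1 / 32| + |coeff (m + 1) (QQ b c y z)|) := by
  obtain ⟨v1, v2, v3⟩ := vertex_le hb hc hm
  have hω : (0 : ℝ) < 1 / (16 * (m + 2)) := by positivity
  have hρ := rho_pos hω hb hc
  have hs := rho_sq hω hb hc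
  obtain ⟨-, -, q2, q3⟩ := QQ_coeff b c y z hm
  unfold PP
  set ρ := rho (1 / (16 * (m + 2))) b c
  have b1 : (1 : ℝ) ≤ b := by exact_mod_cast hb
  have c1 : (1 : ℝ) ≤ c := by exact_mod_cast hc
  have hn : (m : ℝ) + 2 = b + c := by exact_mod_cast hm.symm
  have h1 := nm_prod_sub (m + 2) (Finset.range (b + c)) (fun i => if i < b then y else z)
    (fun i => if i < b then ρ * c else -(ρ * b)) (fun i _ => by split_ifs <;> assumption)
    (fun i _ => by
      split_ifs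
      · rw [abs_of_nonneg (by positivity)]; linarith
      · rw [abs_neg, abs_of_nonneg (by positivity)]; linarith)
  rw [← QQ_eq, ← QQ_eq, Finset.card_range, sum_two b c _ |y - ρ * c| |z - -(ρ * b)|
    (fun i hi => by rw [if_pos hi, if_pos hi])
    (fun i hi => by rw [if_neg (by omega), if_neg (by omega)]), hm] at h1
  refine h1.trans ?_
  rw [mul_comm (17 * ((m : ℝ) + 2) ^ 2), mul_assoc]
  refine mul_le_mul_of_nonneg_left ?_ (by positivity)
  set A := -coeff m (QQ b c y z) - 1 / 32 with hA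
  rw [q2, hn]
  rw [hn] at hs v3
  set s := b * y + c * z with hsdef
  set n : ℝ := b + c with hndef
  have n2 : 2 ≤ n := by linarith
  have hs' : 16 * n * (ρ ^ 2 * (b * c)) = 1 := by rw [hs]; field_simp
  have hsn : |s| ≤ n := by
    refine (abs_add_le _ _).trans ?_
    rw [abs_mul, abs_mul, abs_of_nonneg (by linarith : (0 : ℝ) ≤ b),
      abs_of_nonneg (by linarith : (0 : ℝ) ≤ c)]
    nlinarith
  set e := y - z - ρ * n with he
  have k1 : b * c * e * (y - z + ρ * n) = 2 * n * A + (n - 1) * s ^ 2 := by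
    have : A = ((b * y ^ 2 + c * z ^ 2) - s ^ 2) / 2 - 1 / 32 := by rw [hA]; linarith
    rw [this, he, hsdef, hndef] at *
    linear_combination (-(b + c : ℝ) / 16) * hs'
  have k2 : b * c * |e| * (y - z + ρ * n) ≤ 2 * n * |A| + n * n * |s| := by
    have p1 : 0 ≤ y - z + ρ * n := by have : 0 < ρ * n := by positivity
                                      linarith
    have : b * c * |e| * (y - z + ρ * n) = |b * c * e * (y - z + ρ * n)| := by
      rw [abs_mul, abs_mul, abs_of_nonneg p1, abs_of_nonneg (by positivity : (0 : ℝ) ≤ b * c)]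
    rw [this, k1]
    refine (abs_add_le _ _).trans ?_
    rw [abs_mul, abs_mul (n - 1), abs_of_nonneg (by linarith : 0 ≤ 2 * n),
      abs_of_nonneg (by linarith : 0 ≤ n - 1), abs_pow, sq]
    have a0 := abs_nonneg s
    have : |s| * |s| ≤ n * |s| := mul_le_mul_of_nonneg_right hsn a0
    nlinarith
  have k3 : b * c * |e| ≤ 4 * n * (2 * n * |A| + n * n * |s|) := by
    have p0 : 0 ≤ b * c * |e| := by positivity
    have p1 : 1 ≤ 4 * n * (y - z + ρ * n) := by nlinarith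
    calc b * c * |e| ≤ b * c * |e| * (4 * n * (y - z + ρ * n)) := le_mul_of_one_le_right p0 p1
      _ = 4 * n * (b * c * |e| * (y - z + ρ * n)) := by ring
      _ ≤ _ := mul_le_mul_of_nonneg_left k2 (by linarith)
  have k4 : n * |y - ρ * c| ≤ |s| + c * |e| := by
    have : n * (y - ρ * c) = s + c * e := by rw [he, hsdef, hndef]; ring
    rw [← abs_of_nonneg (by linarith : 0 ≤ n), ← abs_mul, this]
    refine (abs_add_le _ _).trans ?_
    rw [abs_mul, abs_of_nonneg (by linarith : (0 : ℝ) ≤ c)]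
  have k5 : n * |z - -(ρ * b)| ≤ |s| + b * |e| := by
    have : n * (z - -(ρ * b)) = s + -(b * e) := by rw [he, hsdef, hndef]; ring
    rw [← abs_of_nonneg (by linarith : 0 ≤ n), ← abs_mul, this]
    refine (abs_add_le _ _).trans ?_
    rw [abs_neg, abs_mul, abs_of_nonneg (by linarith : (0 : ℝ) ≤ b)]
  refine le_of_mul_le_mul_left ?_ (by linarith : 0 < n)
  have k6 := mul_le_mul_of_nonneg_left k4 (by linarith : (0 : ℝ) ≤ b)
  have k7 := mul_le_mul_of_nonneg_left k5 (by linarith : (0 : ℝ) ≤ c)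
  have k8 : n * (b * |y - ρ * c| + c * |z - -(ρ * b)|) ≤ n * |s| + 2 * (b * c * |e|) := by
    calc n * (b * |y - ρ * c| + c * |z - -(ρ * b)|)
        = b * (n * |y - ρ * c|) + c * (n * |z - -(ρ * b)|) := by ring
      _ ≤ b * (|s| + c * |e|) + c * (|s| + b * |e|) := add_le_add k6 k7
      _ = _ := by rw [hndef]; ring
  have a0 := abs_nonneg s
  have a1 := abs_nonneg A
  have n1 : 1 ≤ n := by linarith
  have k9 : n ^ 1 * |s| ≤ n ^ 3 * |s| :=
    mul_le_mul_of_nonneg_right (pow_le_pow_right₀ n1 (by norm_num)) a0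
  have k10 : n ^ 2 * |A| ≤ n ^ 3 * |A| :=
    mul_le_mul_of_nonneg_right (pow_le_pow_right₀ n1 (by norm_num)) a1
  have k11 : 0 ≤ n ^ 3 * |A| := by positivity
  have k12 : 0 ≤ n ^ 3 * |s| := by positivity
  have k13 : 4 * n * (2 * n * |A| + n * n * |s|) = 8 * (n ^ 2 * |A|) + 4 * (n ^ 3 * |s|) := by ring
  have k14 : n * (17 * n ^ 2 * (|A| + |s|)) = 17 * (n ^ 3 * |A|) + 17 * (n ^ 3 * |s|) := by ring
  rw [pow_one] at k9
  rw [k14]
  linarith

end Pool.Agent.Lib.MP_7a4764_an.H60
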