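import Mathlib
import Pool.Agent.Lib.MP_7a4764_an.H60Jet
import Pool.Agent.Lib.MP_7a4764_an.H60Eig2

set_option autoImplicit false

/-!
The expansion of `f / (t ^ a₀ (t - 1) ^ n)` in the local coordinate `(r t + 1 - r) / (t - 1)` and the
local estimates for the slice through an arbitrary two-block polynomial.
-/

namespace Pool.Agent.Lib.MP_7a4764_an.H60

open PowerSeries

/-- The inverse of `X - r`. -/
noncomputable def Jm (r : ℝ) : ℝ⟦X⟧ := (X - C r)⁻¹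

/-- The inverse of `X + (1 - r)`. -/
noncomputable def Jp (r : ℝ) : ℝ⟦X⟧ := (X + C (1 - r))⁻¹

theorem Jm_mul {r : ℝ} (hr : r ≠ 0) : (X - C r) * Jm r = 1 :=
  PowerSeries.mul_inv_cancel _ (by simpa using hr)

theorem Jp_mul {r : ℝ} (hr : 1 - r ≠ 0) : (X + C (1 - r)) * Jp r = 1 :=
  PowerSeries.mul_inv_cancel _ (by
    rw [map_add, constantCoeff_X, constantCoeff_C, zero_add]; exact hr)

/-- The normalising factors. -/
noncomputable def uu' (r : ℝ) (a₀ D i : ℕ) : ℝ⟦X⟧ :=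
  if i < a₀ then Jp r * (X - C r) else if i < D then X - C r else 1

/-- The expansion map. -/
noncomputable def G' (r : ℝ) (a₀ D : ℕ) : Polynomial ℝ →ₗ[ℝ] ℝ⟦X⟧ :=
  LinearMap.mulRight ℝ (∏ i ∈ Finset.range D, uu' r a₀ D i) ∘ₗ
    (Polynomial.aeval ((X + C (1 - r)) * Jm r : ℝ⟦X⟧)).toLinearMap

/-- The error terms. -/
noncomputable def ee' (r : ℝ) (a₀ D : ℕ) (p : ℕ → ℝ) (i : ℕ) : ℝ⟦X⟧ :=
  if i < a₀ then (-(1 - p i)) • Jp r else if i < D then 0 else p i • Jm r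

theorem G'_F {r : ℝ} (hr0 : r ≠ 0) (hr1 : 1 - r ≠ 0) {a₀ D N : ℕ} (h1 : a₀ ≤ D) (h2 : D ≤ N)
    (p : ℕ → ℝ) : G' r a₀ D (F p N) = (∏ i ∈ Finset.range N, (1 + ee' r a₀ D p i)) *
      ∏ i ∈ Finset.Ico a₀ D, (X + C (p i - r)) := by
  have e1 : ∏ i ∈ Finset.range D, uu' r a₀ D i = ∏ i ∈ Finset.range N, uu' r a₀ D i := by
    refine Finset.prod_subset (Finset.range_subset_range.2 h2) fun i _ hi => ?_
    have : ¬ i < D := by simpa using hi
    rw [uu', if_neg (by omega), if_neg this]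
  have e2 : ∏ i ∈ Finset.Ico a₀ D, ((X : ℝ⟦X⟧) + C (p i - r)) = ∏ i ∈ Finset.range N,
      (if a₀ ≤ i ∧ i < D then (X : ℝ⟦X⟧) + C (p i - r) else 1) := by
    rw [← Finset.prod_filter]
    refine Finset.prod_congr ?_ fun _ _ => rfl
    ext i; simp only [Finset.mem_Ico, Finset.mem_filter, Finset.mem_range]; omega
  change Polynomial.aeval ((X + C (1 - r)) * Jm r : ℝ⟦X⟧) (F p N) *
    ∏ i ∈ Finset.range D, uu' r a₀ D i = _
  rw [e1, e2, F, map_prod, ← Finset.prod_mul_distrib, ← Finset.prod_mul_distrib]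
  refine Finset.prod_congr rfl fun i _ => ?_
  have hL : Polynomial.aeval ((X + C (1 - r)) * Jm r : ℝ⟦X⟧) (L (p i)) =
      C (p i) * ((X + C (1 - r)) * Jm r) + (1 - C (p i)) := by
    simp [L]
  have h3 := Jm_mul hr0
  have h4 := Jp_mul hr1
  rw [hL, uu', ee']
  simp only [map_sub, map_one] at h4 ⊢
  by_cases ha : i < a₀
  · rw [if_pos ha, if_pos ha, if_neg (by omega), smul_eq_C_mul]
    simp only [map_neg, map_sub, map_one]
    linear_combination (C (p i) * (X + (1 - C r)) * Jp r) * h3 + h4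
  · rw [if_neg ha, if_neg ha]
    by_cases hd : i < D
    · rw [if_pos hd, if_pos hd, if_pos ⟨by omega, hd⟩]
      linear_combination (C (p i) * (X + (1 - C r))) * h3
    · rw [if_neg hd, if_neg hd, if_neg (by omega), smul_eq_C_mul]
      linear_combination C (p i) * h3

theorem ee'_sum (r : ℝ) {a₀ D N : ℕ} (n : ℕ) (h1 : a₀ ≤ D) (h2 : D ≤ N) {p : ℕ → ℝ}
    (hp : ∀ i, 0 ≤ p i ∧ p i ≤ 1) {τ : ℝ} (hτ : 0 ≤ τ) (hh : ∀ i, i < a₀ → 1 - p i ≤ τ)
    (ht : ∑ i ∈ Finset.Ico D N, p i ≤ 3 * τ) :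
    ∑ i ∈ Finset.range N, nm n (ee' r a₀ D p i) ≤
      (nm n (Jp r) + nm n (Jm r)) * (a₀ + 3) * τ := by
  rw [← Finset.sum_range_add_sum_Ico _ h2, ← Finset.sum_range_add_sum_Ico _ h1]
  have j1 := nm_nonneg n (Jp r)
  have j2 := nm_nonneg n (Jm r)
  have e1 : ∑ i ∈ Finset.range a₀, nm n (ee' r a₀ D p i) ≤ a₀ * (τ * nm n (Jp r)) := by
    have := Finset.sum_le_card_nsmul (Finset.range a₀) (fun i => nm n (ee' r a₀ D p i))
      (τ * nm n (Jp r)) (fun i hi => by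
        have hi' := Finset.mem_range.1 hi
        rw [ee', if_pos hi', nm_smul, abs_neg, abs_of_nonneg (by linarith [(hp i).2])]
        exact mul_le_mul_of_nonneg_right (hh i hi') j1)
    simpa using this
  have e2 : ∑ i ∈ Finset.Ico a₀ D, nm n (ee' r a₀ D p i) = 0 := by
    refine Finset.sum_eq_zero fun i hi => ?_
    have := Finset.mem_Ico.1 hi
    rw [ee', if_neg (by omega), if_pos this.2, nm_zero]
  have e3 : ∑ i ∈ Finset.Ico D N, nm n (ee' r a₀ D p i) =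
      (∑ i ∈ Finset.Ico D N, p i) * nm n (Jm r) := by
    rw [Finset.sum_mul]
    refine Finset.sum_congr rfl fun i hi => ?_
    have := Finset.mem_Ico.1 hi
    rw [ee', if_neg (by omega), if_neg (by omega), nm_smul, abs_of_nonneg (hp i).1]
  have e4 := mul_le_mul_of_nonneg_right ht j2
  have e5 : 0 ≤ τ * nm n (Jp r) := mul_nonneg hτ j1
  have e6 : 0 ≤ a₀ * (τ * nm n (Jm r)) := by positivity
  rw [e2, e3]
  linarith

theorem abs_sum_le {n N : ℕ} (hN : n ≤ N) (a : ℕ → ℝ) (H : ℝ⟦X⟧) :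
    |∑ j ∈ Finset.range n, a j * coeff j H| ≤ (∑ j ∈ Finset.range N, |a j|) * nm n H := by
  refine le_trans ?_ (mul_le_mul_of_nonneg_right (Finset.sum_le_sum_of_subset_of_nonneg
    (Finset.range_subset_range.2 hN) (fun _ _ _ => abs_nonneg _)) (nm_nonneg _ _))
  rw [Finset.sum_mul]
  refine (Finset.abs_sum_le_sum_abs _ _).trans (Finset.sum_le_sum fun j hj => ?_)
  rw [abs_mul]
  exact mul_le_mul_of_nonneg_left (coeff_le_nm (Finset.mem_range.1 hj) H) (abs_nonneg _)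

/-- One of the middle roots is close to infinity. -/
theorem robust_lo {m : ℕ} (s : Finset ℕ) (hs : s.card = m + 2) (y : ℕ → ℝ)
    (hy : ∀ i ∈ s, |y i| ≤ 1) {r : ℝ} (hr : ((m : ℝ) + 2) * (1 - r) ≤ 1 / 2)
    (hy' : ∀ i ∈ s, y i ≤ 1 - r) {i₀ : ℕ} (hi₀ : i₀ ∈ s) (h8 : y i₀ ≤ 1 / 8 - r) (W : ℝ⟦X⟧)
    {η : ℝ} (hW : nm (m + 2) (W - 1) ≤ η) (hη : η * 2 ^ (m + 2) ≤ 1 / 32) :
    nm (m + 2) (W * ∏ i ∈ s, (X + C (y i))) ≤
      8 * 2 ^ (m + 2) * |coeff (m + 1) (W * ∏ i ∈ s, (X + C (y i)))| := by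
  obtain ⟨-, -, h2, -⟩ := vieta_top s y
  have h2' := h2 (m + 1) hs
  have hQ := nm_prod_lin (m + 2) s y hy
  rw [hs] at hQ
  set Q := ∏ i ∈ s, ((X : ℝ⟦X⟧) + C (y i))
  obtain ⟨e0, e1⟩ := split_err W Q hW
  have hη0 : 0 ≤ η := (nm_nonneg _ _).trans hW
  have hE : η * nm (m + 2) Q ≤ 1 / 32 := (mul_le_mul_of_nonneg_left hQ hη0).trans hη
  have e3 := abs_le.1 ((e1 (m + 1) (by omega)).trans hE)
  have hsum : ∑ i ∈ s, y i ≤ -3 / 8 := by
    have h3 := Finset.single_le_sum (f := fun i => 1 - r - y i)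
      (fun i hi => sub_nonneg.2 (hy' i hi)) hi₀
    rw [Finset.sum_sub_distrib, Finset.sum_const, hs, nsmul_eq_mul] at h3
    push_cast at h3
    linarith
  have hp : (1 : ℝ) ≤ 2 ^ (m + 2) := one_le_pow₀ (by norm_num)
  have key : 1 / 4 ≤ |coeff (m + 1) (W * Q)| := by linarith [neg_abs_le (coeff (m + 1) (W * Q))]
  have := mul_le_mul_of_nonneg_left key (show (0 : ℝ) ≤ 8 * 2 ^ (m + 2) by positivity)
  linarith

/-- One of the middle roots is close to zero. -/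
theorem robust_hi {n : ℕ} {ς k ε : ℝ} {a : ℕ → ℝ} (ha : ∀ (s : Finset ℕ) (y : ℕ → ℝ), s.card = n →
    (∀ i ∈ s, y i < ς) →
    ∑ j ∈ Finset.range (n + 1), a j * coeff j (∏ i ∈ s, ((X : ℝ⟦X⟧) + C (y i))) =
      (∏ i ∈ s, (ς - y i)) * (∑ i ∈ s, 1 / (ς - y i) - k)) (hε : 0 < ε) (hε1 : 4 * ε ≤ 1)
    (hk : 4 * ε * k ≤ 1) (s : Finset ℕ) (hs : s.card = n) (y : ℕ → ℝ) (hy : ∀ i ∈ s, |y i| ≤ 1)
    (hy' : ∀ i ∈ s, ε ≤ ς - y i) {i₀ : ℕ} (hi₀ : i₀ ∈ s) (h2 : ς - y i₀ ≤ 2 * ε) (W : ℝ⟦X⟧)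
    {η A : ℝ} (hW : nm n (W - 1) ≤ η) (hη : η ≤ 1)
    (hη' : (∑ j ∈ Finset.range (n + 1), |a j|) * (η * 2 ^ n) ≤ ε ^ n / 2)
    (hA : ∑ j ∈ Finset.range n, a j * coeff j (W * ∏ i ∈ s, (X + C (y i))) + a n ≤ A) :
    nm n (W * ∏ i ∈ s, (X + C (y i))) ≤ 4 * 2 ^ n / ε ^ n * |A| := by
  obtain ⟨-, h1, -, -⟩ := vieta_top s y
  have hQ := nm_prod_lin n s y hy
  have h3 := ha s y hs (fun i hi => by linarith [hy' i hi])
  rw [hs] at hQ h1
  rw [Finset.sum_range_succ, h1, mul_one] at h3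
  set Q := ∏ i ∈ s, ((X : ℝ⟦X⟧) + C (y i))
  have hη0 : 0 ≤ η := (nm_nonneg _ _).trans hW
  obtain ⟨e0, -⟩ := split_err W Q hW
  have e1 : nm n ((W - 1) * Q) ≤ η * 2 ^ n :=
    (nm_mul _ _ _).trans (mul_le_mul hW hQ (nm_nonneg _ _) hη0)
  have e2 := (abs_sum_le (Nat.le_succ n) a ((W - 1) * Q)).trans ((mul_le_mul_of_nonneg_left e1
    (Finset.sum_nonneg fun _ _ => abs_nonneg _)).trans hη')
  simp only [sub_mul, one_mul, map_sub, mul_sub] at e2
  rw [Finset.sum_sub_distrib] at e2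
  have e3 : ε ^ n ≤ ∏ i ∈ s, (ς - y i) := by
    rw [← hs, ← Finset.prod_const]
    exact Finset.prod_le_prod (fun _ _ => hε.le) hy'
  have e4 : 1 ≤ ∑ i ∈ s, 1 / (ς - y i) - k := by
    have h4 := Finset.single_le_sum (f := fun i => 1 / (ς - y i))
      (fun i hi => one_div_nonneg.2 (hε.le.trans (hy' i hi))) hi₀
    have h5 := one_div_le_one_div_of_le (hε.trans_le (hy' i₀ hi₀)) h2
    have h6 : k + 1 ≤ 1 / (2 * ε) := by
      rw [le_div_iff₀ (by positivity)]; linarith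
    linarith
  have hεn : 0 < ε ^ n := by positivity
  have e5 : ε ^ n * 1 ≤ (∏ i ∈ s, (ς - y i)) * (∑ i ∈ s, 1 / (ς - y i) - k) :=
    mul_le_mul e3 e4 zero_le_one (hεn.le.trans e3)
  have e6 : ε ^ n / 2 ≤ |A| := by
    have := abs_le.1 e2
    linarith [le_abs_self A]
  have e7 : nm n (W * Q) ≤ 2 * 2 ^ n :=
    e0.trans (mul_le_mul (by linarith) hQ (nm_nonneg _ _) (by norm_num))
  refine e7.trans ?_
  rw [div_mul_eq_mul_div, le_div_iff₀ hεn]
  have := mul_le_mul_of_nonneg_left e6 (show (0 : ℝ) ≤ 4 * 2 ^ n by positivity)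
  linarith

/-- Inverse Lipschitz estimate on a face inside the window. -/
theorem window' {b c : ℕ} (hb : 1 ≤ b) (hc : 1 ≤ c) {ς k κ ε ρ y z : ℝ} (hε : 0 < ε)
    (hς : 0 < ς) (hς1 : ς ≤ 1) (hk : 0 ≤ k) (hκ : 0 < κ) (hκe : κ = k * ς - (b + c)) (hρ : 0 < ρ)
    (hρc : ρ * c < ς) (hq : k * (b * c) * ρ ^ 2 = κ * (ς + (b - c) * ρ)) (hy : |y| ≤ 1)
    (hz : |z| ≤ 1) (hzy : z ≤ y) (hεy : ε ≤ ς - y) :
    b * |y - ρ * c| + c * |z - -(ρ * b)| ≤
      (1 + 2 * (b + c) ^ 2 / κ * (4 / ε ^ (b + c) + 1 + 5 * k)) *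
        (|(ς - y) ^ b * (ς - z) ^ c * (b * (1 / (ς - y)) + c * (1 / (ς - z)) - k)| +
          |b * y + c * z|) := by
  have b1 : (1 : ℝ) ≤ b := by exact_mod_cast hb
  have c1 : (1 : ℝ) ≤ c := by exact_mod_cast hc
  have y1 := abs_le.1 hy
  have z1 := abs_le.1 hz
  have p1 : 0 < ς - y := by linarith
  have p2 : 0 < ς - z := by linarith
  have hεn : 0 < ε ^ (b + c) := by positivity
  obtain ⟨S, hS⟩ : ∃ S, S = b * (1 / (ς - y)) + c * (1 / (ς - z)) - k := ⟨_, rfl⟩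
  obtain ⟨n, hn⟩ : ∃ n : ℝ, n = b + c := ⟨_, rfl⟩
  have n0 : 0 < n := by linarith
  obtain ⟨w, hw⟩ : ∃ w, w = (b * y + c * z) / n := ⟨_, rfl⟩
  obtain ⟨d, hd⟩ : ∃ d, d = (y - z) / n := ⟨_, rfl⟩
  have hs : b * y + c * z = n * w := by rw [hw]; field_simp
  have hyz : y - z = n * d := by rw [hd]; field_simp
  have ey : y = w + c * d := by
    refine mul_left_cancel₀ n0.ne' ?_
    rw [mul_add, ← hs, mul_left_comm, ← hyz, hn]; ring
  have ez : z = w - b * d := by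
    refine mul_left_cancel₀ n0.ne' ?_
    rw [mul_sub, ← hs, mul_left_comm, ← hyz, hn]; ring
  have d0 : 0 ≤ d := by rw [hd]; exact div_nonneg (by linarith) n0.le
  rw [← hS, hs, ← hn]
  obtain ⟨A, hA⟩ : ∃ A, A = |(ς - y) ^ b * (ς - z) ^ c * S| := ⟨_, rfl⟩
  rw [← hA]
  have A0 : 0 ≤ A := hA ▸ abs_nonneg _
  have k1 : ε ^ (b + c) * |S| ≤ A := by
    rw [hA, abs_mul, abs_of_pos (by positivity : 0 < (ς - y) ^ b * (ς - z) ^ c), pow_add]
    exact mul_le_mul_of_nonneg_right (mul_le_mul (pow_le_pow_left₀ hε.le hεy _)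
      (pow_le_pow_left₀ hε.le (by linarith) _) (by positivity) (by positivity)) (abs_nonneg _)
  have k2 : |(ς - y) * (ς - z) * S| ≤ 4 / ε ^ (b + c) * A := by
    rw [abs_mul, abs_of_pos (mul_pos p1 p2), div_mul_eq_mul_div, le_div_iff₀ hεn]
    have h1 : (ς - y) * (ς - z) ≤ 2 * 2 := mul_le_mul (by linarith) (by linarith) p2.le (by norm_num)
    have h2 := mul_le_mul h1 k1 (by positivity) (by norm_num)
    linarith
  have k3 : (ς - y) * (ς - z) * S = b * (ς - z) + c * (ς - y) - k * ((ς - y) * (ς - z)) := by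
    rw [hS]; field_simp
  obtain ⟨φ, hφ⟩ : ∃ φ, φ = k * (b * c) * d ^ 2 - κ * (ς + (b - c) * d) := ⟨_, rfl⟩
  have k4 : φ = (ς - y) * (ς - z) * S + (n * w - k * w * (2 * ς - w + (b - c) * d)) := by
    rw [k3, hφ, hκe, hn]
    conv_rhs => rw [ey, ez]
    ring
  have w1 : |w| ≤ 1 := by
    refine le_of_mul_le_mul_left ?_ n0
    rw [← abs_of_pos n0, ← abs_mul, ← hs, abs_of_pos n0, mul_one, hn]
    refine (abs_add_le _ _).trans ?_
    rw [abs_mul, abs_mul, abs_of_nonneg (by linarith : (0 : ℝ) ≤ b),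
      abs_of_nonneg (by linarith : (0 : ℝ) ≤ c)]
    exact add_le_add (mul_le_of_le_one_right (by linarith) hy)
      (mul_le_of_le_one_right (by linarith) hz)
  have w2 : |w| ≤ |n * w| := by
    rw [abs_mul, abs_of_pos n0]
    exact le_mul_of_one_le_left (abs_nonneg _) (by linarith)
  have k5 : |2 * ς - w + (b - c) * d| ≤ 5 := by
    have h1 : b * d + c * d ≤ 2 := by rw [← add_mul, ← hn, ← hyz]; linarith
    have h2 : 0 ≤ b * d := by positivity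
    have h3 : 0 ≤ c * d := by positivity
    have := abs_le.1 w1
    rw [sub_mul]
    exact abs_le.2 ⟨by linarith, by linarith⟩
  have k6 : |φ| ≤ 4 / ε ^ (b + c) * A + (1 + 5 * k) * |n * w| := by
    rw [k4]
    refine (abs_add_le _ _).trans (add_le_add k2 ((abs_sub _ _).trans ?_))
    rw [abs_mul (k * w), abs_mul k, abs_of_nonneg hk]
    have := mul_le_mul (mul_le_mul_of_nonneg_left w2 hk) k5 (abs_nonneg _) (by positivity)
    linarith
  have k7 : κ * |d - ρ| ≤ |φ| := by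
    have h1 : (d - ρ) * (k * (b * c) * d * ρ + κ * ς) = φ * ρ := by
      rw [hφ]; linear_combination (-d) * hq
    have h2 : 0 ≤ k * (b * c) * d * ρ := by positivity
    have h3 : 0 < κ * ς := by positivity
    have h4 := congrArg abs h1
    rw [abs_mul, abs_mul, abs_of_pos hρ, abs_of_pos (by linarith : 0 < k * (b * c) * d * ρ + κ * ς)]
      at h4
    have h5 : ρ ≤ ς := (le_mul_of_one_le_right hρ.le c1).trans hρc.le
    refine le_of_mul_le_mul_right ?_ hς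
    have h6 := mul_le_mul_of_nonneg_left h5 (abs_nonneg φ)
    have h7 := mul_nonneg (abs_nonneg (d - ρ)) h2
    linarith
  have k8 : b * |y - ρ * c| + c * |z - -(ρ * b)| ≤ |n * w| + 2 * n ^ 2 * |d - ρ| := by
    have h1 : |y - ρ * c| ≤ |w| + c * |d - ρ| := by
      rw [show y - ρ * c = w + c * (d - ρ) by rw [ey]; ring]
      refine (abs_add_le _ _).trans ?_
      rw [abs_mul, abs_of_nonneg (by linarith : (0 : ℝ) ≤ c)]
    have h2 : |z - -(ρ * b)| ≤ |w| + b * |d - ρ| := by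
      rw [show z - -(ρ * b) = w - b * (d - ρ) by rw [ez]; ring]
      refine (abs_sub _ _).trans ?_
      rw [abs_mul, abs_of_nonneg (by linarith : (0 : ℝ) ≤ b)]
    have h3 := mul_le_mul_of_nonneg_left h1 (by linarith : (0 : ℝ) ≤ b)
    have h4 := mul_le_mul_of_nonneg_left h2 (by linarith : (0 : ℝ) ≤ c)
    have h5 : (b : ℝ) * c ≤ n ^ 2 := by rw [hn]; nlinarith
    have h6 := mul_le_mul_of_nonneg_right h5 (abs_nonneg (d - ρ))
    rw [abs_mul n, abs_of_pos n0]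
    have h7 : n * |w| = b * |w| + c * |w| := by rw [hn]; ring
    linarith
  have k9 : |d - ρ| ≤ 1 / κ * ((4 / ε ^ (b + c) + 1 + 5 * k) * (A + |n * w|)) := by
    rw [one_div, ← div_eq_inv_mul, le_div_iff₀' hκ]
    have h1 : 0 ≤ 4 / ε ^ (b + c) * |n * w| := by positivity
    have h2 : 0 ≤ (1 + 5 * k) * A := by positivity
    linarith
  have k10 := mul_le_mul_of_nonneg_left k9 (show 0 ≤ 2 * n ^ 2 by positivity)
  have k11 : (1 + 2 * n ^ 2 / κ * (4 / ε ^ (b + c) + 1 + 5 * k)) * (A + |n * w|) = A + |n * w| +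
      2 * n ^ 2 * (1 / κ * ((4 / ε ^ (b + c) + 1 + 5 * k) * (A + |n * w|))) := by ring
  rw [k11]
  linarith

end Pool.Agent.Lib.MP_7a4764_an.H60
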