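import Mathlib
import Pool.Agent.Lib.MP_7a4764_an.Basic

set_option autoImplicit false

/-!
Limits of real-rooted polynomials along a ray, and real-rooted quadratics.
-/

namespace Pool.Agent.Lib.MP_7a4764_an.H60

open Polynomial

theorem norm_prod_le (z w : ℂ) {κ : ℝ} (hκ : 0 ≤ κ) (h : ∀ r : ℝ, ‖w - r‖ ≤ κ * ‖z - r‖)
    (R : Multiset ℝ) : ‖aeval w (R.map (fun r => (X - C r : ℝ[X]))).prod‖ ≤
      κ ^ R.card * ‖aeval z (R.map (fun r => (X - C r : ℝ[X]))).prod‖ := by
  induction R using Multiset.induction_on with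
  | empty => simp
  | cons r R ih =>
    rw [Multiset.map_cons, Multiset.prod_cons, map_mul, map_mul, norm_mul, norm_mul,
      Multiset.card_cons, pow_succ]
    have e : ∀ x : ℂ, aeval x (X - C r : ℝ[X]) = x - r := fun x => by simp
    rw [e, e]
    calc _ ≤ (κ * ‖z - r‖) * (κ ^ R.card * ‖aeval z (R.map (fun r => (X - C r : ℝ[X]))).prod‖) :=
          mul_le_mul (h r) ih (norm_nonneg _) (by positivity)
      _ = _ := by ring

theorem norm_aeval_le {z : ℂ} (hz : z.im ≠ 0) (w : ℂ) (n : ℕ) : ∃ κ : ℝ, 0 ≤ κ ∧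
    ∀ f : ℝ[X], f.Splits → f.natDegree ≤ n → ‖aeval w f‖ ≤ κ * ‖aeval z f‖ := by
  have hz' : 0 < |z.im| := abs_pos.2 hz
  have h1 : (1 : ℝ) ≤ 1 + ‖w - z‖ / |z.im| := le_add_of_nonneg_right (by positivity)
  refine ⟨(1 + ‖w - z‖ / |z.im|) ^ n, by positivity, fun f hf hn => ?_⟩
  have h2 := norm_prod_le z w (κ := 1 + ‖w - z‖ / |z.im|) (by positivity) (fun r => by
    have e1 : ‖w - r‖ ≤ ‖w - z‖ + ‖z - r‖ := norm_sub_le_norm_sub_add_norm_sub _ _ _
    have e2 : |z.im| ≤ ‖z - r‖ := by simpa using Complex.abs_im_le_norm (z - r)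
    have e3 : ‖w - z‖ ≤ ‖w - z‖ / |z.im| * ‖z - r‖ := by
      rw [div_mul_eq_mul_div, le_div_iff₀ hz']
      exact mul_le_mul_of_nonneg_left e2 (norm_nonneg _)
    linarith) f.roots
  rw [← hf.natDegree_eq_card_roots] at h2
  have h3 := pow_le_pow_right₀ h1 hn
  have e : ∀ x : ℂ, ‖aeval x f‖ =
      |f.leadingCoeff| * ‖aeval x (f.roots.map (fun r => (X - C r : ℝ[X]))).prod‖ := by
    intro x
    conv_lhs => rw [hf.eq_prod_roots]
    rw [map_mul, norm_mul, aeval_C]
    simp
  rw [e, e, mul_left_comm]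
  exact mul_le_mul_of_nonneg_left (h2.trans (mul_le_mul_of_nonneg_right h3 (norm_nonneg _)))
    (abs_nonneg _)

theorem splits_of_ray {A B : ℝ[X]} {w₀ : ℝ} (h : ∀ w, w₀ < w → (A + w • B).Splits) :
    B.Splits := by
  refine splits_iff_im.2 ?_
  by_cases hB : B = 0
  · exact Or.inl hB
  refine Or.inr fun z hz => ?_
  by_contra him
  have key : ∀ w : ℂ, aeval w B = 0 := by
    intro w
    obtain ⟨κ, -, hκ⟩ := norm_aeval_le him w (max A.natDegree B.natDegree)
    by_contra hw
    have hw' : 0 < ‖aeval w B‖ := norm_pos_iff.2 hw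
    set s := max (w₀ + 1) ((κ * ‖aeval z A‖ + ‖aeval w A‖ + 1) / ‖aeval w B‖) with hs
    have hs1 : w₀ < s := lt_of_lt_of_le (by linarith) (le_max_left _ _)
    have hs2 : κ * ‖aeval z A‖ + ‖aeval w A‖ + 1 ≤ s * ‖aeval w B‖ := by
      rw [← div_le_iff₀ hw']; exact le_max_right _ _
    have h1 := hκ _ (h s hs1) ((natDegree_add_le _ _).trans
      (max_le_max le_rfl (natDegree_smul_le _ _)))
    rw [map_add, map_add, map_smul, map_smul, hz, smul_zero, add_zero] at h1
    have h2 : ‖s • aeval w B‖ ≤ ‖aeval w A + s • aeval w B‖ + ‖aeval w A‖ := by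
      simpa using norm_sub_le (aeval w A + s • aeval w B) (aeval w A)
    rw [norm_smul, Real.norm_eq_abs] at h2
    have h3 := mul_le_mul_of_nonneg_right (le_abs_self s) hw'.le
    linarith
  refine hB (Polynomial.funext fun r => ?_)
  have := key r
  rw [← Complex.coe_algebraMap, aeval_algebraMap_apply_eq_algebraMap_eval] at this
  simpa using this

theorem splits_quad {A B D : ℝ} (h : A * D ≤ B ^ 2) :
    (C A * X ^ 2 + C (2 * B) * X + C D : ℝ[X]).Splits := by
  refine splits_iff_im.2 ?_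
  by_cases h0 : (C A * X ^ 2 + C (2 * B) * X + C D : ℝ[X]) = 0
  · exact Or.inl h0
  refine Or.inr fun z hz => ?_
  by_contra him
  have hz' : (A : ℂ) * z ^ 2 + (2 * B : ℝ) * z + D = 0 := by simpa using hz
  have hre := congrArg Complex.re hz'
  have hi := congrArg Complex.im hz'
  simp [sq] at hre hi
  have h1 : A * z.re + B = 0 := by
    have : z.im * (A * z.re + B) = 0 := by linarith
    exact (mul_eq_zero.1 this).resolve_left him
  have h2 : (A * z.im) ^ 2 ≤ 0 := by
    have e : B = -(A * z.re) := by linarith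
    have e2 : D = -(A * (z.re * z.re - z.im * z.im) + 2 * B * z.re) := by linarith
    rw [e2, e] at h
    nlinarith
  have h3 : A = 0 := by
    have := pow_eq_zero_iff (n := 2) (by norm_num) |>.1 (le_antisymm h2 (sq_nonneg _))
    exact (mul_eq_zero.1 this).resolve_right him
  have h4 : B = 0 := by rw [h3] at h1; linarith
  have h5 : D = 0 := by rw [h3, h4] at hre; linarith
  exact h0 (by simp [h3, h4, h5])

end Pool.Agent.Lib.MP_7a4764_an.H60
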