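import Mathlib
import Pool.Agent.Lib.MP_7a4764_an.H60Jet

set_option autoImplicit false

/-!
For every exponent triple with two nonempty blocks: three functionals whose cone condition fails on
that triple only.
-/

namespace Pool.Agent.Lib.MP_7a4764_an.H60

open Polynomial

theorem exists_weights (a₀ D n : ℕ) : ∃ (Ω Ξ : ℝ[X] →ₗ[ℝ] ℝ) (Γ : ℝ), 0 ≤ Γ ∧
    ∀ f : ℝ[X], (∀ k, 0 ≤ f.coeff k) → f.eval 1 = 1 →
      Ω f ≤ 1 ∧ 0 ≤ Ξ f ∧ nm n (G a₀ D f) ≤ Γ + Ξ f ∧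
      ∑ k ∈ Finset.range a₀, f.coeff k ≤ Ξ f ∧ (taylor 1 f).coeff (D + 1) ≤ Ξ f ∧
      ((∀ k, f.coeff k ≠ 0 → a₀ ≤ k ∧ k ≤ D) → Ω f = 1 ∧ Ξ f = 0) := by
  let g : ℕ → ℝ := fun k => nm n (G a₀ D (X ^ k))
  have hg : ∀ k, 0 ≤ g k := fun k => nm_nonneg _ _
  let ξ : ℕ → ℝ := fun k => if a₀ ≤ k ∧ k ≤ D then 0 else 1 + g k + k.choose (D + 1)
  have hξ : ∀ k, 0 ≤ ξ k := fun k => by
    have := hg k
    simp only [ξ]; split_ifs <;> positivity
  let Γ : ℝ := ∑ k ∈ Finset.Icc a₀ D, g k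
  have hΓ : 0 ≤ Γ := Finset.sum_nonneg fun k _ => hg k
  refine ⟨lin fun k => if a₀ ≤ k ∧ k ≤ D then 1 else 0, lin ξ, Γ, hΓ, fun f hf h1 => ?_⟩
  have hev : leval (1 : ℝ) f = 1 := by rw [leval_apply]; exact h1
  refine ⟨?_, ?_, ?_, ?_, ?_, fun hw => ⟨?_, ?_⟩⟩
  · refine le_trans (lin_mono _ (leval 1) (fun k => ?_) hf) hev.le
    rw [lin_X_pow, leval_apply]; split_ifs <;> simp
  · exact lin_mono 0 _ (fun k => by rw [lin_X_pow]; exact hξ k) hf
  · have e1 : nm n (G a₀ D f) ≤ lin g f := by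
      rw [lin_sum (G a₀ D), lin_sum (lin g)]
      refine (nm_sum _ _ _).trans (le_of_eq (Finset.sum_congr rfl fun k _ => ?_))
      rw [nm_smul, lin_X_pow, abs_of_nonneg (hf k), smul_eq_mul]
    have e2 := lin_mono (lin g) (Γ • leval 1 + lin ξ) (fun k => by
      rw [LinearMap.add_apply, LinearMap.smul_apply, lin_X_pow, lin_X_pow, leval_apply]
      simp only [eval_pow, eval_X, one_pow, smul_eq_mul, mul_one, ξ]
      split_ifs with h
      · rw [add_zero]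
        exact Finset.single_le_sum (f := g) (fun k _ => hg k) (Finset.mem_Icc.2 h)
      · have : (0 : ℝ) ≤ k.choose (D + 1) := Nat.cast_nonneg _
        linarith) hf
    rw [LinearMap.add_apply, LinearMap.smul_apply, hev, smul_eq_mul, mul_one] at e2
    exact e1.trans e2
  · have e2 := lin_mono (∑ k ∈ Finset.range a₀, lcoeff ℝ k) (lin ξ) (fun k => by
      rw [lin_X_pow, LinearMap.sum_apply]
      simp only [lcoeff_apply, coeff_X_pow]
      rw [Finset.sum_ite_eq']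
      split_ifs with h
      · have h' := Finset.mem_range.1 h
        have : (0 : ℝ) ≤ k.choose (D + 1) := Nat.cast_nonneg _
        simp only [ξ]
        rw [if_neg (by omega)]
        linarith [hg k]
      · exact hξ k) hf
    rw [LinearMap.sum_apply] at e2
    exact e2
  · refine lin_mono (lcoeff ℝ (D + 1) ∘ₗ taylor 1) (lin ξ) (fun k => ?_) hf
    rw [lin_X_pow, LinearMap.comp_apply, lcoeff_apply, taylor_pow, taylor_X, C_1,
      coeff_X_add_one_pow]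
    simp only [ξ]
    split_ifs with h
    · rw [Nat.choose_eq_zero_of_lt (by omega)]; simp
    · linarith [hg k]
  · refine Eq.trans ?_ hev
    rw [lin_sum (leval 1), lin_sum (lin _)]
    refine Finset.sum_congr rfl fun k _ => ?_
    by_cases h : f.coeff k = 0
    · rw [h, zero_smul, zero_smul]
    · rw [lin_X_pow, if_pos (hw k h), leval_apply]; simp
  · rw [lin_sum (lin _)]
    refine Finset.sum_eq_zero fun k _ => ?_
    by_cases h : f.coeff k = 0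
    · rw [h, zero_smul]
    · rw [lin_X_pow]; simp only [ξ]; rw [if_pos (hw k h), smul_zero]

theorem exists_params (a₀ m : ℕ) {Γ : ℝ} (hΓ : 0 ≤ Γ) : ∃ τ θ R : ℝ, 0 ≤ τ ∧ τ ≤ 1 / 24 ∧
    2 * (2 * ((m + 2 : ℕ) : ℝ) * (a₀ + 3) * τ) * 2 ^ (m + 2) ≤ 1 / 32 ∧
    ((a₀ + (m + 2) + 1).factorial : ℝ) * θ ≤ τ ^ (a₀ + (m + 2) + 1) ∧
    2 * θ ≤ τ ^ (m + 2 + 1) ∧ 4 ≤ R ∧ 4 * (Γ + 1) ≤ R * θ := by
  let τ : ℝ := 1 / (128 * ((m + 2 : ℕ) : ℝ) * (a₀ + 3) * 2 ^ (m + 2))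
  have hτ : 0 < τ := by positivity
  have hf : (0 : ℝ) < (a₀ + (m + 2) + 1).factorial := by exact_mod_cast Nat.factorial_pos _
  let θ : ℝ := min (τ ^ (a₀ + (m + 2) + 1) / (a₀ + (m + 2) + 1).factorial) (τ ^ (m + 2 + 1) / 2)
  have hθ : 0 < θ := lt_min (by positivity) (by positivity)
  refine ⟨τ, θ, 4 + 4 * (Γ + 1) / θ, hτ.le, ?_, ?_, ?_, ?_, ?_, ?_⟩
  · refine one_div_le_one_div_of_le (by norm_num) ?_
    have h1 : (1 : ℝ) ≤ ((m + 2 : ℕ) : ℝ) := by exact_mod_cast (by omega : 1 ≤ m + 2)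
    have h2 : (1 : ℝ) ≤ a₀ + 3 := by have : (0 : ℝ) ≤ a₀ := Nat.cast_nonneg _
                                     linarith
    have h3 : (1 : ℝ) ≤ 2 ^ (m + 2) := one_le_pow₀ (by norm_num)
    have h4 := one_le_mul_of_one_le_of_one_le (one_le_mul_of_one_le_of_one_le h1 h2) h3
    nlinarith
  · refine le_of_eq ?_
    simp only [τ]
    field_simp
    norm_num
  · rw [← le_div_iff₀' hf]; exact min_le_left _ _
  · rw [← le_div_iff₀' (by norm_num : (0 : ℝ) < 2)]; exact min_le_right _ _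
  · have : 0 ≤ 4 * (Γ + 1) / θ := by positivity
    linarith
  · rw [add_mul, div_mul_cancel₀ _ hθ.ne']
    linarith

theorem G_window (a₀ : ℕ) {m b c N : ℕ} (hm : b + c = m + 2) (hN : a₀ + (m + 2) ≤ N) (p q : ℝ) :
    G a₀ (a₀ + (m + 2)) (F (pp a₀ b c p q) N) = QQ b c (2 * p - 1) (2 * q - 1) ∧
      ∀ k, (F (pp a₀ b c p q) N).coeff k ≠ 0 → a₀ ≤ k ∧ k ≤ a₀ + (m + 2) := by
  constructor
  · rw [G_F (by omega) hN, Finset.prod_eq_one, one_mul, Finset.prod_Ico_eq_prod_range, QQ_eq,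
      Nat.add_sub_cancel_left, hm]
    · refine Finset.prod_congr rfl fun i hi => ?_
      have := Finset.mem_range.1 hi
      unfold pp
      by_cases h : i < b
      · rw [if_neg (by omega), if_pos (by omega), if_pos h]
      · rw [if_neg (by omega), if_neg (by omega), if_pos (by omega), if_neg h]
    · intro i _
      unfold ee pp
      by_cases h : i < a₀
      · simp [h]
      · by_cases h' : i < a₀ + (m + 2)
        · simp [h, h']
        · rw [if_neg h, if_neg h', if_neg h, if_neg (by omega), if_neg (by omega)]; simp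
  · intro k hk
    constructor
    · by_contra h
      rw [F_pp _ _ _ _ _ (by omega), mul_assoc, coeff_X_pow_mul', if_neg h] at hk
      exact hk rfl
    · have e : F (pp a₀ b c p q) N = F (pp a₀ b c p q) (a₀ + (m + 2)) := by
        rw [F_pp _ _ _ _ _ (by omega), F_pp _ _ _ _ _ (by omega)]
      rw [e] at hk
      exact (le_natDegree_of_ne_zero hk).trans (F_natDegree _ _)

theorem exists_alpha (a₀ m : ℕ) : ∃ α : ℝ[X] →ₗ[ℝ] ℝ,
    ∀ (a b c : ℕ) (p q : ℝ), 0 ≤ q → q ≤ p → p ≤ 1 →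
      ((a = a₀ ∧ 1 ≤ b ∧ 1 ≤ c ∧ b + c = m + 2) →
        G a₀ (a₀ + (m + 2)) (X ^ a * L p ^ b * L q ^ c) = QQ b c (2 * p - 1) (2 * q - 1) ∧
        α (X ^ a * L p ^ b * L q ^ c) =
          -PowerSeries.coeff m (QQ b c (2 * p - 1) (2 * q - 1)) - 1 / 32) ∧
      (¬ (a = a₀ ∧ 1 ≤ b ∧ 1 ≤ c ∧ b + c = m + 2) →
        nm (m + 2) (G a₀ (a₀ + (m + 2)) (X ^ a * L p ^ b * L q ^ c)) ≤ 32 * 2 ^ (m + 2) *
          (|α (X ^ a * L p ^ b * L q ^ c)| +
            |PowerSeries.coeff (m + 1) (G a₀ (a₀ + (m + 2)) (X ^ a * L p ^ b * L q ^ c))|)) := by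
  obtain ⟨Ω, Ξ, Γ, hΓ, hw⟩ := exists_weights a₀ (a₀ + (m + 2)) (m + 2)
  obtain ⟨τ, θ, R, hτ, hτ', hη, hθ1, hθ2, hR, hRθ⟩ := exists_params a₀ m hΓ
  refine ⟨-(PowerSeries.coeff m ∘ₗ G a₀ (a₀ + (m + 2))) - (1 / 32 : ℝ) • Ω + R • Ξ,
    fun a b c p q hq hqp hp => ?_⟩
  set D := a₀ + (m + 2) with hD
  have hN : D ≤ a + b + c + D := by omega
  have hN' : a + b + c ≤ a + b + c + D := by omega
  set N := a + b + c + D
  rw [← F_pp a b c p q hN']
  have hP := pp_mem a b c hq hqp hp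
  have hanti : ∀ i j, i ≤ j → pp a b c p q j ≤ pp a b c p q i :=
    fun i j h => pp_anti a b c hq hqp hp h
  obtain ⟨w1, w2, w3, w4, w5, w6⟩ := hw _ (F_nonneg hP N) (F_eval _ N)
  have hα : (-(PowerSeries.coeff m ∘ₗ G a₀ D) - (1 / 32 : ℝ) • Ω + R • Ξ) (F (pp a b c p q) N) =
      -PowerSeries.coeff m (G a₀ D (F (pp a b c p q) N)) - 1 / 32 * Ω (F (pp a b c p q) N) +
        R * Ξ (F (pp a b c p q) N) := rfl
  rw [hα]
  constructor
  · rintro ⟨rfl, -, -, hbc⟩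
    obtain ⟨g1, g2⟩ := G_window a hbc hN p q
    obtain ⟨g3, g4⟩ := w6 g2
    rw [g1, g3, g4]
    exact ⟨rfl, by ring⟩
  intro hne
  set A := -PowerSeries.coeff m (G a₀ D (F (pp a b c p q) N)) - 1 / 32 * Ω (F (pp a b c p q) N) +
    R * Ξ (F (pp a b c p q) N) with hA
  have hp2 : (1 : ℝ) ≤ 2 ^ (m + 2) := one_le_pow₀ (by norm_num)
  rcases le_total (4 * (Γ + 1)) (R * Ξ (F (pp a b c p q) N)) with hbig | hsmall
  · have h1 := (le_abs_self _).trans
      (coeff_le_nm (n := m + 2) (j := m) (by omega) (G a₀ D (F (pp a b c p q) N)))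
    have h2 : 4 * Ξ (F (pp a b c p q) N) ≤ R * Ξ (F (pp a b c p q) N) :=
      mul_le_mul_of_nonneg_right hR w2
    have h3 : nm (m + 2) (G a₀ D (F (pp a b c p q) N)) ≤ A := by rw [hA]; linarith
    have h4 := le_abs_self A
    have h5 := abs_nonneg A
    have h6 := abs_nonneg (PowerSeries.coeff (m + 1) (G a₀ D (F (pp a b c p q) N)))
    nlinarith
  have hΞ : Ξ (F (pp a b c p q) N) ≤ θ := le_of_mul_le_mul_left (hsmall.trans hRθ) (by linarith)
  have ht := pp_tail a b c hq hqp hp hN' hτ (w5.trans hΞ) hθ1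
  have hh : ∀ i, i < a₀ → 1 - pp a b c p q i ≤ τ :=
    fun i hi => head_le hP hanti hN hτ (w4.trans hΞ) hθ2 (by linarith) hi
  have hE := ee_sum (m + 2) (by omega : a₀ ≤ D) hN hP hh ht
  have hx0 : 0 ≤ 2 * ((m + 2 : ℕ) : ℝ) * (a₀ + 3) * τ := by positivity
  have hW := (nm_prod_one_add (m + 2) (Finset.range N) (ee a₀ D (pp a b c p q))
    (by nlinarith)).trans (mul_le_mul_of_nonneg_left hE (by norm_num))
  have hG := G_F (by omega : a₀ ≤ D) hN (pp a b c p q)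
  have hcard : (Finset.Ico a₀ D).card = m + 2 := by rw [Nat.card_Ico]; omega
  have hy : ∀ i ∈ Finset.Ico a₀ D, |2 * pp a b c p q i - 1| ≤ 1 := fun i _ =>
    abs_le.2 ⟨by linarith [(hP i).1], by linarith [(hP i).2]⟩
  have hrob : ∀ i ∈ Finset.Ico a₀ D, 3 / 4 ≤ |2 * pp a b c p q i - 1| →
      nm (m + 2) (G a₀ D (F (pp a b c p q) N)) ≤ 32 * 2 ^ (m + 2) *
        (|A| + |PowerSeries.coeff (m + 1) (G a₀ D (F (pp a b c p q) N))|) := by
    intro i hi h34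
    have hA' : -PowerSeries.coeff m (G a₀ D (F (pp a b c p q) N)) - 1 / 32 ≤ A := by
      have : 0 ≤ R * Ξ (F (pp a b c p q) N) := mul_nonneg (by linarith) w2
      rw [hA]; linarith
    rw [hG] at hA' ⊢
    exact robust _ hcard (fun i => 2 * pp a b c p q i - 1) hy hi h34 _ hW hη hA'
  have hsing : ∀ r, 0 ≤ r → r ≤ 1 → (∀ i ∈ Finset.Ico a₀ D, pp a b c p q i = r) →
      nm (m + 2) (G a₀ D (F (pp a b c p q) N)) ≤ 32 * 2 ^ (m + 2) *
        (|A| + |PowerSeries.coeff (m + 1) (G a₀ D (F (pp a b c p q) N))|) := by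
    intro r hr0 hr1 hr
    have h1 := single _ hcard (fun i => 2 * pp a b c p q i - 1) (r := 2 * r - 1)
      (abs_le.2 ⟨by linarith, by linarith⟩) (fun i hi => by rw [hr i hi]) _ hW hη
    rw [← hG] at h1
    have h5 := abs_nonneg A
    have h6 := abs_nonneg (PowerSeries.coeff (m + 1) (G a₀ D (F (pp a b c p q) N)))
    nlinarith
  have m1 : a₀ ∈ Finset.Ico a₀ D := Finset.mem_Ico.2 ⟨le_rfl, by omega⟩
  have m2 : a₀ + (m + 1) ∈ Finset.Ico a₀ D := Finset.mem_Ico.2 ⟨by omega, by omega⟩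
  by_cases c1 : a₀ < a
  · refine hrob _ m1 ?_
    rw [pp, if_pos c1]; norm_num
  by_cases c2 : a + b + c < D
  · refine hrob _ m2 ?_
    rw [pp, if_neg (by omega), if_neg (by omega), if_neg (by omega)]; norm_num
  by_cases c3 : a + b ≤ a₀
  · refine hsing q hq (hqp.trans hp) fun i hi => ?_
    have := Finset.mem_Ico.1 hi
    rw [pp, if_neg (by omega), if_neg (by omega), if_pos (by omega)]
  by_cases c4 : D ≤ a + b
  · refine hsing p (hq.trans hqp) hp fun i hi => ?_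
    have := Finset.mem_Ico.1 hi
    rw [pp, if_neg (by omega), if_pos (by omega)]
  by_cases c5 : a < a₀
  · refine hrob _ m1 ?_
    have h1 := hh a c5
    rw [pp, if_neg (by omega), if_pos (by omega)] at h1
    rw [pp, if_neg (by omega), if_pos (by omega)]
    exact le_trans (by linarith) (le_abs_self _)
  by_cases c6 : D < a + b + c
  · refine hrob _ m2 ?_
    have h1 := (Finset.single_le_sum (f := pp a b c p q) (fun i _ => (hP i).1)
      (Finset.mem_Ico.2 ⟨le_rfl, (by omega : D < N)⟩)).trans ht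
    rw [pp, if_neg (by omega), if_neg (by omega), if_pos (by omega)] at h1
    rw [pp, if_neg (by omega), if_neg (by omega), if_pos (by omega)]
    exact le_trans (by linarith) (neg_le_abs _)
  exact absurd ⟨by omega, by omega, by omega, by omega⟩ hne

theorem exists_counter (a₀ b₀ c₀ : ℕ) (hb₀ : 1 ≤ b₀) (hc₀ : 1 ≤ c₀) :
    ∃ (α β M : ℝ[X] →ₗ[ℝ] ℝ) (K : ℝ),
      (∀ (a b c : ℕ) (p q : ℝ), 0 ≤ q → q ≤ p → p ≤ 1 → (a, b, c) ≠ (a₀, b₀, c₀) →
        |M (X ^ a * L p ^ b * L q ^ c)| ≤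
          K * (|α (X ^ a * L p ^ b * L q ^ c)| + |β (X ^ a * L p ^ b * L q ^ c)|)) ∧
      ∃ p q : ℝ, 0 < q ∧ q < p ∧ p < 1 ∧ α (X ^ a₀ * L p ^ b₀ * L q ^ c₀) = 0 ∧
        β (X ^ a₀ * L p ^ b₀ * L q ^ c₀) = 0 ∧ M (X ^ a₀ * L p ^ b₀ * L q ^ c₀) ≠ 0 := by
  obtain ⟨m, hm⟩ : ∃ m, b₀ + c₀ = m + 2 := ⟨b₀ + c₀ - 2, by omega⟩
  have hω : (0 : ℝ) < 1 / (16 * (m + 2)) := by positivity
  obtain ⟨μ, hμ1, hμ2⟩ := exists_mu hω hb₀ hc₀ hm
  obtain ⟨α, hα⟩ := exists_alpha a₀ m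
  let Mf : PowerSeries ℝ →ₗ[ℝ] ℝ := ∑ j ∈ Finset.range (m + 2), μ j • PowerSeries.coeff j
  have hMf : ∀ H, Mf H = ∑ j ∈ Finset.range (m + 2), μ j * PowerSeries.coeff j H := by
    intro H; simp only [Mf, LinearMap.sum_apply, LinearMap.smul_apply, smul_eq_mul]
  let mb : ℝ := ∑ j ∈ Finset.range (m + 2), |μ j|
  have hmb : 0 ≤ mb := Finset.sum_nonneg fun _ _ => abs_nonneg _
  have hbd : ∀ H, |Mf H| ≤ mb * nm (m + 2) H := by
    intro H
    rw [hMf, Finset.sum_mul]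
    refine (Finset.abs_sum_le_sum_abs _ _).trans (Finset.sum_le_sum fun j hj => ?_)
    rw [abs_mul]
    exact mul_le_mul_of_nonneg_left (coeff_le_nm (Finset.mem_range.1 hj) H) (abs_nonneg _)
  refine ⟨α, PowerSeries.coeff (m + 1) ∘ₗ G a₀ (a₀ + (m + 2)), Mf ∘ₗ G a₀ (a₀ + (m + 2)),
    mb * (17 * (m + 2) ^ 2 * 2 ^ (m + 2)), fun a b c p q hq hqp hp hne => ?_, ?_⟩
  · obtain ⟨h1, h2⟩ := hα a b c p q hq hqp hp
    rw [LinearMap.comp_apply, LinearMap.comp_apply, mul_assoc mb]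
    by_cases h : a = a₀ ∧ 1 ≤ b ∧ 1 ≤ c ∧ b + c = m + 2
    · obtain ⟨g1, g2⟩ := h1 h
      obtain ⟨rfl, hb, hc, hbc⟩ := h
      have hbb : b ≠ b₀ := by
        rintro rfl
        exact hne (by rw [show c = c₀ by omega])
      have h0 : Mf (PP (1 / (16 * (m + 2))) b c) = 0 := by rw [hMf]; exact hμ1 b c hb hc hbc hbb
      rw [g1, g2, ← sub_zero (Mf _), ← h0, ← map_sub]
      exact (hbd _).trans (mul_le_mul_of_nonneg_left (window hb hc hbc
        (abs_le.2 ⟨by linarith, by linarith⟩) (abs_le.2 ⟨by linarith, by linarith⟩)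
        (by linarith)) hmb)
    · refine (hbd _).trans (mul_le_mul_of_nonneg_left ((h2 h).trans ?_) hmb)
      refine mul_le_mul_of_nonneg_right (mul_le_mul_of_nonneg_right ?_ (by positivity))
        (by positivity)
      have : (0 : ℝ) ≤ m := Nat.cast_nonneg m
      nlinarith
  · obtain ⟨v1, v2, -⟩ := vertex_le hb₀ hc₀ hm
    have hρ := rho_pos hω hb₀ hc₀
    have hs := rho_sq hω hb₀ hc₀
    have b0 : (0 : ℝ) < b₀ := by exact_mod_cast hb₀
    have c0 : (0 : ℝ) < c₀ := by exact_mod_cast hc₀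
    have hPP : PP (1 / (16 * (m + 2))) b₀ c₀ = QQ b₀ c₀ (rho (1 / (16 * (m + 2))) b₀ c₀ * c₀)
      (-(rho (1 / (16 * (m + 2))) b₀ c₀ * b₀)) := rfl
    set ρ := rho (1 / (16 * (m + 2))) b₀ c₀
    have p1 : 0 < ρ * c₀ := by positivity
    have p2 : 0 < ρ * b₀ := by positivity
    obtain ⟨g1, g2⟩ := (hα a₀ b₀ c₀ ((1 + ρ * c₀) / 2) ((1 - ρ * b₀) / 2) (by linarith)
      (by linarith) (by linarith)).1 ⟨rfl, hb₀, hc₀, hm⟩
    rw [show 2 * ((1 + ρ * c₀) / 2) - 1 = ρ * c₀ by ring,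
      show 2 * ((1 - ρ * b₀) / 2) - 1 = -(ρ * b₀) by ring] at g1 g2
    obtain ⟨-, -, q2, q3⟩ := QQ_coeff b₀ c₀ (ρ * c₀) (-(ρ * b₀)) hm
    refine ⟨(1 + ρ * c₀) / 2, (1 - ρ * b₀) / 2, by linarith, by linarith, by linarith, ?_, ?_, ?_⟩
    · have hn : (m : ℝ) + 2 = b₀ + c₀ := by exact_mod_cast hm.symm
      rw [hn] at hs
      have hs' : 16 * (b₀ + c₀) * (ρ ^ 2 * (b₀ * c₀)) = 1 := by rw [hs]; field_simp
      rw [g2]
      linear_combination (-1 / 2 : ℝ) * q3 + (1 / 32 : ℝ) * hs'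
    · rw [LinearMap.comp_apply, g1, q2]; ring
    · rw [LinearMap.comp_apply, g1, ← hPP, hMf]; exact hμ2

end Pool.Agent.Lib.MP_7a4764_an.H60
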