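import Mathlib
import Pool.Agent.Lib.MP_7a4764_an.H60Jet2

set_option autoImplicit false

/-!
For every two-block test polynomial: three functionals whose cone condition fails only near it.
-/

namespace Pool.Agent.Lib.MP_7a4764_an.H60

open Polynomial

theorem exists_weights' (Gm : ℝ[X] →ₗ[ℝ] PowerSeries ℝ) (a₀ D n : ℕ) :
    ∃ (Ω Ξ : ℝ[X] →ₗ[ℝ] ℝ) (Γ : ℝ), 0 ≤ Γ ∧
    ∀ f : ℝ[X], (∀ k, 0 ≤ f.coeff k) → f.eval 1 = 1 →
      Ω f ≤ 1 ∧ 0 ≤ Ξ f ∧ nm n (Gm f) ≤ Γ + Ξ f ∧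
      ∑ k ∈ Finset.range a₀, f.coeff k ≤ Ξ f ∧ (taylor 1 f).coeff (D + 1) ≤ Ξ f ∧
      ((∀ k, f.coeff k ≠ 0 → a₀ ≤ k ∧ k ≤ D) → Ω f = 1 ∧ Ξ f = 0) := by
  let g : ℕ → ℝ := fun k => nm n (Gm (X ^ k))
  have hg : ∀ k, 0 ≤ g k := fun k => nm_nonneg _ _
  let ξ : ℕ → ℝ := fun k => if a₀ ≤ k ∧ k ≤ D then 0 else 1 + g k + k.choose (D + 1)
  have hξ : ∀ k, 0 ≤ ξ k := fun k => by
    have := hg k
    simp only [ξ]; split_ifs <;> positivity
  let Γ : ℝ := ∑ k ∈ Finset.Icc a₀ D, g k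
  have hΓ : 0 ≤ Γ := Finset.sum_nonneg fun k _ => hg k
  refine ⟨lin fun k => if a₀ ≤ k ∧ k ≤ D then 1 else 0, lin ξ, Γ, hΓ, fun f hf h1 => ?_⟩
  have hev : leval (1 : ℝ) f = 1 := by rw [leval_apply]; exact h1
  refine ⟨?_, ?_, ?_, ?_, ?_, fun hw => ⟨?_, ?_⟩⟩
  · refine le_trans (lin_mono _ (leval 1) (fun k => ?_) hf) hev.le
    rw [lin_X_pow, leval_apply]; split_ifs <;> simp
  · exact lin_mono 0 _ (fun k => by rw [lin_X_pow]; exact hξ k) hf
  · have e1 : nm n (Gm f) ≤ lin g f := by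
      rw [lin_sum Gm, lin_sum (lin g)]
      refine (nm_sum _ _ _).trans (le_of_eq (Finset.sum_congr rfl fun k _ => ?_))
      rw [nm_smul, lin_X_pow, abs_of_nonneg (hf k), smul_eq_mul]
    have e2 := lin_mono (lin g) (Γ • leval 1 + lin ξ) (fun k => by
      rw [LinearMap.add_apply, LinearMap.smul_apply, lin_X_pow, lin_X_pow, leval_apply]
      simp only [eval_pow, eval_X, one_pow, smul_eq_mul, mul_one, ξ]
      split_ifs with h
      · rw [add_zero]
        exact Finset.single_le_sum (f := g) (fun k _ => hg k) (Finset.mem_Icc.2 h)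
      · have : (0 : ℝ) ≤ k.choose (D + 1) := Nat.cast_nonneg _
        linarith) hf
    rw [LinearMap.add_apply, LinearMap.smul_apply, hev, smul_eq_mul, mul_one] at e2
    exact e1.trans e2
  · have e2 := lin_mono (∑ k ∈ Finset.range a₀, lcoeff ℝ k) (lin ξ) (fun k => by
      rw [lin_X_pow, LinearMap.sum_apply]
      simp only [lcoeff_apply, coeff_X_pow]
      rw [Finset.sum_ite_eq']
      split_ifs with h
      · have h' := Finset.mem_range.1 h
        have : (0 : ℝ) ≤ k.choose (D + 1) := Nat.cast_nonneg _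
        simp only [ξ]
        rw [if_neg (by omega)]
        linarith [hg k]
      · exact hξ k) hf
    rw [LinearMap.sum_apply] at e2
    exact e2
  · refine lin_mono (lcoeff ℝ (D + 1) ∘ₗ taylor 1) (lin ξ) (fun k => ?_) hf
    rw [lin_X_pow, LinearMap.comp_apply, lcoeff_apply, taylor_pow, taylor_X, C_1,
      coeff_X_add_one_pow]
    simp only [ξ]
    split_ifs with h
    · rw [Nat.choose_eq_zero_of_lt (by omega)]; simp
    · linarith [hg k]
  · refine Eq.trans ?_ hev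
    rw [lin_sum (leval 1), lin_sum (lin _)]
    refine Finset.sum_congr rfl fun k _ => ?_
    by_cases h : f.coeff k = 0
    · rw [h, zero_smul, zero_smul]
    · rw [lin_X_pow, if_pos (hw k h), leval_apply]; simp
  · rw [lin_sum (lin _)]
    refine Finset.sum_eq_zero fun k _ => ?_
    by_cases h : f.coeff k = 0
    · rw [h, zero_smul]
    · rw [lin_X_pow]; simp only [ξ]; rw [if_pos (hw k h), smul_zero]

theorem exists_params' (D n : ℕ) {η J Λ : ℝ} (hη : 0 < η) (hJ : 0 ≤ J) (hΛ : 0 ≤ Λ) :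
    ∃ τ θ R : ℝ, 0 ≤ τ ∧ τ ≤ η ∧ 2 * (J * τ) ≤ η ∧
      ((D + 1).factorial : ℝ) * θ ≤ τ ^ (D + 1) ∧ 2 * θ ≤ τ ^ (n + 1) ∧ Λ ≤ R ∧ Λ ≤ R * θ := by
  let τ : ℝ := η / (2 * J + 1)
  have hτ : 0 < τ := by positivity
  have hτe : τ * (2 * J + 1) = η := div_mul_cancel₀ _ (by positivity)
  have hf : (0 : ℝ) < (D + 1).factorial := by exact_mod_cast Nat.factorial_pos _
  let θ : ℝ := min (τ ^ (D + 1) / (D + 1).factorial) (τ ^ (n + 1) / 2)
  have hθ : 0 < θ := lt_min (by positivity) (by positivity)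
  have hJτ := mul_nonneg hJ hτ.le
  refine ⟨τ, θ, Λ + Λ / θ, hτ.le, by linarith, by linarith, ?_, ?_, ?_, ?_⟩
  · rw [← le_div_iff₀' hf]; exact min_le_left _ _
  · rw [← le_div_iff₀' (by norm_num : (0 : ℝ) < 2)]; exact min_le_right _ _
  · exact le_add_of_nonneg_right (by positivity)
  · rw [add_mul, div_mul_cancel₀ _ hθ.ne']
    exact le_add_of_nonneg_left (by positivity)

theorem G'_window {r : ℝ} (hr0 : r ≠ 0) (hr1 : 1 - r ≠ 0) (a₀ : ℕ) {m b c N : ℕ}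
    (hm : b + c = m + 2) (hN : a₀ + (m + 2) ≤ N) (p q : ℝ) :
    G' r a₀ (a₀ + (m + 2)) (F (pp a₀ b c p q) N) = QQ b c (p - r) (q - r) ∧
      ∀ k, (F (pp a₀ b c p q) N).coeff k ≠ 0 → a₀ ≤ k ∧ k ≤ a₀ + (m + 2) := by
  constructor
  · rw [G'_F hr0 hr1 (by omega) hN, Finset.prod_eq_one, one_mul, Finset.prod_Ico_eq_prod_range,
      QQ_eq, Nat.add_sub_cancel_left, hm]
    · refine Finset.prod_congr rfl fun i hi => ?_
      have := Finset.mem_range.1 hi
      unfold pp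
      by_cases h : i < b
      · rw [if_neg (by omega), if_pos (by omega), if_pos h]
      · rw [if_neg (by omega), if_neg (by omega), if_pos (by omega), if_neg h]
    · intro i _
      unfold ee' pp
      by_cases h : i < a₀
      · simp [h]
      · by_cases h' : i < a₀ + (m + 2)
        · simp [h, h']
        · rw [if_neg h, if_neg h', if_neg h, if_neg (by omega), if_neg (by omega)]; simp
  · intro k hk
    constructor
    · by_contra h
      rw [F_pp _ _ _ _ _ (by omega), mul_assoc, coeff_X_pow_mul', if_neg h] at hk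
      exact hk rfl
    · have e : F (pp a₀ b c p q) N = F (pp a₀ b c p q) (a₀ + (m + 2)) := by
        rw [F_pp _ _ _ _ _ (by omega), F_pp _ _ _ _ _ (by omega)]
      rw [e] at hk
      exact (le_natDegree_of_ne_zero hk).trans (F_natDegree _ _)

theorem exists_alpha' (a₀ m : ℕ) {r k ε : ℝ} (hr0 : 0 < r) (hr1 : r < 1)
    (hr : ((m : ℝ) + 2) * (1 - r) ≤ 1 / 2) (hε : 0 < ε) (hε1 : 4 * ε ≤ 1) (hk : 4 * ε * k ≤ 1)
    {w : ℕ → ℝ} (hw : ∀ (s : Finset ℕ) (y : ℕ → ℝ), s.card = m + 2 → (∀ i ∈ s, y i < 1 - r + ε) →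
      ∑ j ∈ Finset.range (m + 2 + 1), w j * PowerSeries.coeff j
        (∏ i ∈ s, ((PowerSeries.X : PowerSeries ℝ) + PowerSeries.C (y i))) =
      (∏ i ∈ s, (1 - r + ε - y i)) * (∑ i ∈ s, 1 / (1 - r + ε - y i) - k))
    (hwn : w (m + 2) ≤ 0) : ∃ (α : ℝ[X] →ₗ[ℝ] ℝ) (K : ℝ), 0 ≤ K ∧
    ∀ (a b c : ℕ) (p q : ℝ), 0 ≤ q → q ≤ p → p ≤ 1 →
      ((a = a₀ ∧ 1 ≤ b ∧ 1 ≤ c ∧ b + c = m + 2) →
        G' r a₀ (a₀ + (m + 2)) (X ^ a * L p ^ b * L q ^ c) = QQ b c (p - r) (q - r) ∧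
        α (X ^ a * L p ^ b * L q ^ c) = ∑ j ∈ Finset.range (m + 2 + 1),
          w j * PowerSeries.coeff j (QQ b c (p - r) (q - r))) ∧
      (¬ (a = a₀ ∧ 1 ≤ b ∧ 1 ≤ c ∧ b + c = m + 2) →
        nm (m + 2) (G' r a₀ (a₀ + (m + 2)) (X ^ a * L p ^ b * L q ^ c)) ≤ K *
          (|α (X ^ a * L p ^ b * L q ^ c)| +
            |PowerSeries.coeff (m + 1) (G' r a₀ (a₀ + (m + 2)) (X ^ a * L p ^ b * L q ^ c))|)) := by
  obtain ⟨Ω, Ξ, Γ, hΓ, hW⟩ := exists_weights' (G' r a₀ (a₀ + (m + 2))) a₀ (a₀ + (m + 2)) (m + 2)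
  obtain ⟨wb, hwb⟩ : ∃ wb, wb = ∑ j ∈ Finset.range (m + 2 + 1), |w j| := ⟨_, rfl⟩
  have wb0 : 0 ≤ wb := hwb ▸ Finset.sum_nonneg fun _ _ => abs_nonneg _
  have wb1 : -wb ≤ w (m + 2) := by
    have := Finset.single_le_sum (f := fun j => |w j|) (fun _ _ => abs_nonneg _)
      (Finset.self_mem_range_succ (m + 2))
    rw [← hwb] at this
    linarith [neg_abs_le (w (m + 2))]
  have hp2 : (1 : ℝ) ≤ 2 ^ (m + 2) := one_le_pow₀ (by norm_num)
  obtain ⟨η, η0, η1, η2, η3⟩ : ∃ η : ℝ, 0 < η ∧ η * 2 ^ (m + 2) ≤ 1 / 32 ∧ η ≤ ε ∧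
      wb * (η * 2 ^ (m + 2)) ≤ ε ^ (m + 2) / 2 := by
    refine ⟨min (min (1 / 32 / 2 ^ (m + 2)) ε) (ε ^ (m + 2) / 2 / (wb + 1) / 2 ^ (m + 2)),
      by positivity, ?_, (min_le_left _ _).trans (min_le_right _ _), ?_⟩
    · rw [← le_div_iff₀ (by positivity)]; exact (min_le_left _ _).trans (min_le_left _ _)
    · refine le_trans (mul_le_mul_of_nonneg_right (by linarith : wb ≤ wb + 1) (by positivity)) ?_
      rw [← le_div_iff₀' (by positivity), ← le_div_iff₀ (by positivity)]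
      exact min_le_right _ _
  have η4 : η ≤ 1 / 32 := (le_mul_of_one_le_right η0.le hp2).trans η1
  obtain ⟨τ, θ, R, hτ, hτ', hJ, hθ1, hθ2, hR, hRθ⟩ := exists_params' (a₀ + (m + 2)) (m + 2) η0
    (J := (nm (m + 2) (Jp r) + nm (m + 2) (Jm r)) * (a₀ + 3))
    (mul_nonneg (add_nonneg (nm_nonneg _ _) (nm_nonneg _ _)) (by positivity))
    (Λ := 4 * (wb + 1) * (Γ + 1)) (by positivity)
  let Af : PowerSeries ℝ →ₗ[ℝ] ℝ := ∑ j ∈ Finset.range (m + 2), w j • PowerSeries.coeff j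
  have hAf : ∀ H, Af H = ∑ j ∈ Finset.range (m + 2), w j * PowerSeries.coeff j H := by
    intro H; simp only [Af, LinearMap.sum_apply, LinearMap.smul_apply, smul_eq_mul]
  have K1 : (0 : ℝ) ≤ 4 * 2 ^ (m + 2) / ε ^ (m + 2) := by positivity
  refine ⟨Af ∘ₗ G' r a₀ (a₀ + (m + 2)) + w (m + 2) • Ω + R • Ξ,
    8 * 2 ^ (m + 2) + 4 * 2 ^ (m + 2) / ε ^ (m + 2), by positivity,
    fun a b c p q hq hqp hp => ?_⟩
  set D := a₀ + (m + 2) with hD
  have hN : D ≤ a + b + c + D := by omega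
  have hN' : a + b + c ≤ a + b + c + D := by omega
  set N := a + b + c + D
  rw [← F_pp a b c p q hN']
  have hP := pp_mem a b c hq hqp hp
  have hanti : ∀ i j, i ≤ j → pp a b c p q j ≤ pp a b c p q i :=
    fun i j h => pp_anti a b c hq hqp hp h
  obtain ⟨w1, w2, w3, w4, w5, w6⟩ := hW _ (F_nonneg hP N) (F_eval _ N)
  have hα : (Af ∘ₗ G' r a₀ D + w (m + 2) • Ω + R • Ξ) (F (pp a b c p q) N) =
      Af (G' r a₀ D (F (pp a b c p q) N)) + w (m + 2) * Ω (F (pp a b c p q) N) +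
        R * Ξ (F (pp a b c p q) N) := rfl
  rw [hα, hAf]
  constructor
  · rintro ⟨rfl, -, -, hbc⟩
    obtain ⟨g1, g2⟩ := G'_window hr0.ne' (sub_pos.2 hr1).ne' a hbc hN p q
    obtain ⟨g3, g4⟩ := w6 g2
    rw [g1, g3, g4, Finset.sum_range_succ _ (m + 2), (QQ_coeff b c (p - r) (q - r) hbc).2.1]
    exact ⟨rfl, by ring⟩
  intro hne
  obtain ⟨H, hH⟩ : ∃ H, H = G' r a₀ D (F (pp a b c p q) N) := ⟨_, rfl⟩
  rw [← hH] at w3 ⊢
  obtain ⟨x, hx⟩ : ∃ x, x = Ξ (F (pp a b c p q) N) := ⟨_, rfl⟩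
  rw [← hx] at w2 w3 w4 w5 ⊢
  have hΩ : w (m + 2) ≤ w (m + 2) * Ω (F (pp a b c p q) N) := by
    have := mul_le_mul_of_nonpos_left w1 hwn
    rwa [mul_one] at this
  obtain ⟨A, hA⟩ : ∃ A, A = ∑ j ∈ Finset.range (m + 2), w j * PowerSeries.coeff j H +
    w (m + 2) * Ω (F (pp a b c p q) N) + R * x := ⟨_, rfl⟩
  rw [← hA]
  have R0 : 0 < R := lt_of_lt_of_le (by positivity) hR
  have a5 := abs_nonneg A
  have a6 := abs_nonneg (PowerSeries.coeff (m + 1) H)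
  have a7 := mul_nonneg K1 a5
  have a8 := mul_nonneg K1 a6
  have a9 := mul_nonneg (zero_le_one.trans hp2) a5
  have a10 := mul_nonneg (zero_le_one.trans hp2) a6
  rcases le_total (4 * (wb + 1) * (Γ + 1)) (R * x) with hbig | hsmall
  · have h1 := (neg_le_abs _).trans (abs_sum_le (Nat.le_succ (m + 2)) w H)
    rw [← hwb] at h1
    have h2 : 4 * (wb + 1) * (Γ + 1) * x ≤ R * x := mul_le_mul_of_nonneg_right hR w2
    have h3 := mul_le_mul_of_nonneg_left w3 wb0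
    have h4 := mul_nonneg wb0 hΓ
    have h5 := mul_nonneg wb0 w2
    have h6 := mul_nonneg hΓ w2
    have h7 := mul_nonneg h4 w2
    have h8 : nm (m + 2) H ≤ A := by rw [hA]; linarith
    have h9 := le_mul_of_one_le_left a5 hp2
    linarith [le_abs_self A]
  have hΞ : x ≤ θ := le_of_mul_le_mul_left (hsmall.trans hRθ) R0
  have ht := pp_tail a b c hq hqp hp hN' hτ (w5.trans hΞ) hθ1
  have hh : ∀ i, i < a₀ → 1 - pp a b c p q i ≤ τ :=
    fun i hi => head_le hP hanti hN hτ (w4.trans hΞ) hθ2 (by linarith) hi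
  have hE := ee'_sum r (m + 2) (by omega : a₀ ≤ D) hN hP hτ hh ht
  have hW' := (nm_prod_one_add (m + 2) (Finset.range N) (ee' r a₀ D (pp a b c p q))
    (by linarith)).trans ((mul_le_mul_of_nonneg_left hE (by norm_num)).trans hJ)
  have hG := hH.trans (G'_F hr0.ne' (sub_pos.2 hr1).ne' (by omega : a₀ ≤ D) hN (pp a b c p q))
  have hcard : (Finset.Ico a₀ D).card = m + 2 := by rw [Nat.card_Ico]; omega
  have hy : ∀ i ∈ Finset.Ico a₀ D, |pp a b c p q i - r| ≤ 1 := fun i _ =>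
    abs_le.2 ⟨by linarith [(hP i).1], by linarith [(hP i).2]⟩
  have hhi : ∀ i ∈ Finset.Ico a₀ D, 1 - pp a b c p q i ≤ τ → nm (m + 2) H ≤
      (8 * 2 ^ (m + 2) + 4 * 2 ^ (m + 2) / ε ^ (m + 2)) * (|A| + |PowerSeries.coeff (m + 1) H|) := by
    intro i hi h34
    have hA' : ∑ j ∈ Finset.range (m + 2), w j * PowerSeries.coeff j H + w (m + 2) ≤ A := by
      have := mul_nonneg R0.le w2
      rw [hA]; linarith
    rw [hG] at hA'
    have h1 := robust_hi hw hε hε1 hk _ hcard (fun i => pp a b c p q i - r) hy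
      (fun i _ => by linarith [(hP i).2]) hi (by linarith) _ hW' (by linarith) (hwb ▸ η3) hA'
    rw [← hG] at h1
    linarith
  have hlo : ∀ i ∈ Finset.Ico a₀ D, pp a b c p q i ≤ 3 * τ → nm (m + 2) H ≤
      (8 * 2 ^ (m + 2) + 4 * 2 ^ (m + 2) / ε ^ (m + 2)) * (|A| + |PowerSeries.coeff (m + 1) H|) := by
    intro i hi h34
    have h1 := robust_lo _ hcard (fun i => pp a b c p q i - r) hy hr
      (fun i _ => by linarith [(hP i).2]) hi (by linarith) _ hW' η1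
    rw [← hG] at h1
    linarith
  have hsing : ∀ s, 0 ≤ s → s ≤ 1 → (∀ i ∈ Finset.Ico a₀ D, pp a b c p q i = s) → nm (m + 2) H ≤
      (8 * 2 ^ (m + 2) + 4 * 2 ^ (m + 2) / ε ^ (m + 2)) * (|A| + |PowerSeries.coeff (m + 1) H|) := by
    intro s hs0 hs1 hs
    have h1 := single _ hcard (fun i => pp a b c p q i - r) (r := s - r)
      (abs_le.2 ⟨by linarith, by linarith⟩) (fun i hi => by rw [hs i hi]) _ hW' η1
    rw [← hG] at h1
    linarith
  have m1 : a₀ ∈ Finset.Ico a₀ D := Finset.mem_Ico.2 ⟨le_rfl, by omega⟩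
  have m2 : a₀ + (m + 1) ∈ Finset.Ico a₀ D := Finset.mem_Ico.2 ⟨by omega, by omega⟩
  by_cases c1 : a₀ < a
  · refine hhi _ m1 ?_
    rw [pp, if_pos c1]; linarith
  by_cases c2 : a + b + c < D
  · refine hlo _ m2 ?_
    rw [pp, if_neg (by omega), if_neg (by omega), if_neg (by omega)]; linarith
  by_cases c3 : a + b ≤ a₀
  · refine hsing q hq (hqp.trans hp) fun i hi => ?_
    have := Finset.mem_Ico.1 hi
    rw [pp, if_neg (by omega), if_neg (by omega), if_pos (by omega)]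
  by_cases c4 : D ≤ a + b
  · refine hsing p (hq.trans hqp) hp fun i hi => ?_
    have := Finset.mem_Ico.1 hi
    rw [pp, if_neg (by omega), if_pos (by omega)]
  by_cases c5 : a < a₀
  · refine hhi _ m1 ?_
    have h1 := hh a c5
    rw [pp, if_neg (by omega), if_pos (by omega)] at h1
    rw [pp, if_neg (by omega), if_pos (by omega)]
    exact h1
  by_cases c6 : D < a + b + c
  · refine hlo _ m2 ?_
    have h1 := (Finset.single_le_sum (f := pp a b c p q) (fun i _ => (hP i).1)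
      (Finset.mem_Ico.2 ⟨le_rfl, (by omega : D < N)⟩)).trans ht
    rw [pp, if_neg (by omega), if_neg (by omega), if_pos (by omega)] at h1
    rw [pp, if_neg (by omega), if_neg (by omega), if_pos (by omega)]
    exact h1
  exact absurd ⟨by omega, by omega, by omega, by omega⟩ hne

end Pool.Agent.Lib.MP_7a4764_an.H60
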