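import Mathlib
import Pool.Agent.Lib.MP_7a4764_an.H60Main2
import Pool.Agent.Lib.MP_7a4764_an.H60Limit

set_option autoImplicit false

/-!
The counterexample that fails only near a given two-block test polynomial, and limits of test
polynomials.
-/

namespace Pool.Agent.Lib.MP_7a4764_an.H60

open Polynomial

theorem exists_counter' (a₀ b₀ c₀ : ℕ) (hb₀ : 1 ≤ b₀) (hc₀ : 1 ≤ c₀) {p₀ q₀ δ : ℝ} (hq₀ : 0 < q₀)
    (hqp₀ : q₀ < p₀) (hp₀ : p₀ < 1) (hs : b₀ * (1 - p₀) + c₀ * (1 - q₀) ≤ 1 / 2) (hδ : 0 < δ) :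
    ∃ (α β M : ℝ[X] →ₗ[ℝ] ℝ) (K : ℝ),
      (∀ (a b c : ℕ) (p q : ℝ), 0 ≤ q → q ≤ p → p ≤ 1 →
        ((a, b, c) ≠ (a₀, b₀, c₀) ∨ δ ≤ |p - p₀| + |q - q₀|) →
        |M (X ^ a * L p ^ b * L q ^ c)| ≤
          K * (|α (X ^ a * L p ^ b * L q ^ c)| + |β (X ^ a * L p ^ b * L q ^ c)|)) ∧
      α (X ^ a₀ * L p₀ ^ b₀ * L q₀ ^ c₀) = 0 ∧ β (X ^ a₀ * L p₀ ^ b₀ * L q₀ ^ c₀) = 0 ∧
        M (X ^ a₀ * L p₀ ^ b₀ * L q₀ ^ c₀) ≠ 0 := by
  classical
  obtain ⟨m, hm⟩ : ∃ m, b₀ + c₀ = m + 2 := ⟨b₀ + c₀ - 2, by omega⟩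
  have b1 : (1 : ℝ) ≤ b₀ := by exact_mod_cast hb₀
  have c1 : (1 : ℝ) ≤ c₀ := by exact_mod_cast hc₀
  have hn : (m : ℝ) + 2 = b₀ + c₀ := by exact_mod_cast hm.symm
  have n0 : (0 : ℝ) < m + 2 := by positivity
  obtain ⟨d, hd⟩ : ∃ d, d = (p₀ - q₀) / (m + 2) := ⟨_, rfl⟩
  have d0 : 0 < d := by rw [hd]; exact div_pos (by linarith) n0
  have d1 : d * b₀ + d * c₀ = p₀ - q₀ := by rw [← mul_add, ← hn, hd]; field_simp
  obtain ⟨r, hr⟩ : ∃ r, r = p₀ - d * c₀ := ⟨_, rfl⟩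
  have db : 0 < d * b₀ := by positivity
  have dc : 0 < d * c₀ := by positivity
  have r0 : 0 < r := by linarith
  have r1 : r < 1 := by linarith
  have r2 : ((m : ℝ) + 2) * (1 - r) ≤ 1 / 2 := by
    have : ((m : ℝ) + 2) * (1 - r) = b₀ * (1 - p₀) + c₀ * (1 - q₀) := by
      rw [hn, hr]; linear_combination (c₀ : ℝ) * d1
    linarith
  obtain ⟨ε, hε⟩ : ∃ ε, ε = (1 - p₀) / (4 * (m + 2)) := ⟨_, rfl⟩
  have ε0 : 0 < ε := by rw [hε]; exact div_pos (by linarith) (by positivity)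
  have ε1 : 4 * ε * (m + 2) = 1 - p₀ := by rw [hε]; field_simp
  have ε2 : 4 * ε ≤ 1 := by
    have := le_mul_of_one_le_right (by linarith : 0 ≤ 4 * ε) (by linarith : (1 : ℝ) ≤ m + 2)
    linarith
  have P1 : 0 < 1 - p₀ + ε := by linarith
  have P2 : 0 < 1 - q₀ + ε := by linarith
  obtain ⟨k, hk⟩ : ∃ k, k = b₀ * (1 / (1 - p₀ + ε)) + c₀ * (1 / (1 - q₀ + ε)) := ⟨_, rfl⟩
  have k0 : 0 < k := by rw [hk]; positivity
  have k1 : 4 * ε * k ≤ 1 := by
    have h1 := one_div_le_one_div_of_le (by linarith : 0 < 1 - p₀) (by linarith : 1 - p₀ ≤ 1 - p₀ + ε)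
    have h2 := one_div_le_one_div_of_le (by linarith : 0 < 1 - p₀) (by linarith : 1 - p₀ ≤ 1 - q₀ + ε)
    have h3 : k ≤ (m + 2) * (1 / (1 - p₀)) := by
      rw [hk, hn, add_mul]
      exact add_le_add (mul_le_mul_of_nonneg_left h1 (by linarith))
        (mul_le_mul_of_nonneg_left h2 (by linarith))
    refine (mul_le_mul_of_nonneg_left h3 (by linarith)).trans (le_of_eq ?_)
    rw [← mul_assoc, ε1, mul_one_div_cancel (by linarith)]
  have s0 : 0 < 1 - r + ε := by linarith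
  have s1 : (1 - r + ε) * (m + 2) ≤ 1 := by linarith
  have s2 : 1 - r + ε ≤ 1 := (le_mul_of_one_le_right s0.le (by linarith)).trans s1
  obtain ⟨κ, hκ⟩ : ∃ κ, κ = k * (1 - r + ε) - (m + 2) := ⟨_, rfl⟩
  have hquad : k * (b₀ * c₀) * d ^ 2 = κ * (1 - r + ε + (b₀ - c₀) * d) := by
    have h1 : k * ((1 - p₀ + ε) * (1 - q₀ + ε)) = b₀ * (1 - q₀ + ε) + c₀ * (1 - p₀ + ε) := by
      rw [hk]; field_simp
    have h2 : q₀ = p₀ - d * b₀ - d * c₀ := by linarith
    rw [h2] at h1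
    rw [hκ, hn, hr]
    linear_combination -h1
  have κ0 : 0 < κ := by
    have h1 : 0 < k * (b₀ * c₀) * d ^ 2 := by positivity
    rw [hquad] at h1
    exact (pos_iff_pos_of_mul_pos h1).2 (by linarith)
  have hρ' : ∀ b : ℕ, ∃ ρ : ℝ, (b = b₀ → ρ = d) ∧ ∀ c : ℕ, 1 ≤ b → 1 ≤ c → b + c = m + 2 →
      0 < ρ ∧ ρ * c < 1 - r + ε ∧ k * (b * c) * ρ ^ 2 = κ * (1 - r + ε + (b - c) * ρ) := by
    intro b
    by_cases h : b = b₀
    · refine ⟨d, fun _ => rfl, fun c _ _ hbc => ?_⟩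
      rw [h, show c = c₀ by omega]
      exact ⟨d0, by linarith, hquad⟩
    by_cases h' : 1 ≤ b ∧ b ≤ m + 1
    · obtain ⟨ρ, h1⟩ := exists_rho (k := k) s0 κ0 h'.1 (show 1 ≤ m + 2 - b by omega) (by
        rw [hκ, ← Nat.cast_add, show b + (m + 2 - b) = m + 2 by omega]; push_cast; ring)
      refine ⟨ρ, fun h2 => absurd h2 h, fun c _ _ hbc => ?_⟩
      rw [show c = m + 2 - b by omega]; exact h1
    · exact ⟨0, fun h2 => absurd h2 h, fun c hb hc hbc => absurd ⟨hb, by omega⟩ h'⟩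
  choose ρ hρ0 hρ using hρ'
  obtain ⟨μ, hμ1, hμ2⟩ := exists_mu' s0 κ0 hκ ρ hρ hb₀ hc₀ hm
  obtain ⟨w, hw⟩ := exists_aW (m + 2) (1 - r + ε) k
  have hwn : w (m + 2) ≤ 0 := by
    have h1 := aW_QQ hw (b := m + 2) (c := 0) rfl s0 s0
    have h2 : QQ (m + 2) 0 0 0 = PowerSeries.X ^ (m + 2) := by simp [QQ]
    simp only [h2, PowerSeries.coeff_X_pow, mul_ite, mul_one, mul_zero] at h1
    rw [Finset.sum_ite_eq', if_pos (by simp), sub_zero] at h1
    rw [h1]
    refine mul_nonpos_of_nonneg_of_nonpos (by positivity) ?_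
    have : ((m + 2 : ℕ) : ℝ) * (1 / (1 - r + ε)) + (0 : ℕ) * (1 / (1 - r + ε)) - k =
        -κ / (1 - r + ε) := by
      rw [hκ]; push_cast; field_simp; ring
    rw [this]
    exact div_nonpos_of_nonpos_of_nonneg (by linarith) s0.le
  obtain ⟨α, K, K0, hα⟩ := exists_alpha' a₀ m r0 r1 r2 ε0 ε2 k1 hw hwn
  let Mf : PowerSeries ℝ →ₗ[ℝ] ℝ := ∑ j ∈ Finset.range (m + 2), μ j • PowerSeries.coeff j
  have hMf : ∀ H, Mf H = ∑ j ∈ Finset.range (m + 2), μ j * PowerSeries.coeff j H := by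
    intro H; simp only [Mf, LinearMap.sum_apply, LinearMap.smul_apply, smul_eq_mul]
  obtain ⟨mb, hmb⟩ : ∃ mb, mb = ∑ j ∈ Finset.range (m + 2), |μ j| := ⟨_, rfl⟩
  have mb0 : 0 ≤ mb := hmb ▸ Finset.sum_nonneg fun _ _ => abs_nonneg _
  have hbd : ∀ H, |Mf H| ≤ mb * nm (m + 2) H := fun H => by
    rw [hMf, hmb]; exact abs_sum_le le_rfl μ H
  obtain ⟨Cw, hCw⟩ : ∃ Cw, Cw = 1 + 2 * ((m : ℝ) + 2) ^ 2 / κ * (4 / ε ^ (m + 2) + 1 + 5 * k) :=
    ⟨_, rfl⟩
  have Cw0 : 0 ≤ Cw := by rw [hCw]; positivity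
  have y0 : ρ b₀ * c₀ = p₀ - r := by rw [hρ0 b₀ rfl]; linarith
  have z0 : -(ρ b₀ * b₀) = q₀ - r := by rw [hρ0 b₀ rfl]; linarith
  obtain ⟨g1, g2⟩ := (hα a₀ b₀ c₀ p₀ q₀ hq₀.le hqp₀.le hp₀.le).1 ⟨rfl, hb₀, hc₀, hm⟩
  refine ⟨α, PowerSeries.coeff (m + 1) ∘ₗ G' r a₀ (a₀ + (m + 2)), Mf ∘ₗ G' r a₀ (a₀ + (m + 2)),
    mb * (K + 2 ^ (m + 2) * (Cw + Cw / δ)), fun a b c p q hq hqp hp hne => ?_, ?_, ?_, ?_⟩
  · obtain ⟨h1, h2⟩ := hα a b c p q hq hqp hp
    rw [LinearMap.comp_apply, LinearMap.comp_apply, mul_assoc mb]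
    by_cases h : a = a₀ ∧ 1 ≤ b ∧ 1 ≤ c ∧ b + c = m + 2
    · obtain ⟨e1, e2⟩ := h1 h
      obtain ⟨rfl, hb, hc, hbc⟩ := h
      obtain ⟨t1, t2, t3⟩ := hρ b c hb hc hbc
      have hbc' : (m : ℝ) + 2 = b + c := by exact_mod_cast hbc.symm
      have hy : |p - r| ≤ 1 := abs_le.2 ⟨by linarith, by linarith⟩
      have hz : |q - r| ≤ 1 := abs_le.2 ⟨by linarith, by linarith⟩
      have hwin := window' hb hc ε0 s0 s2 k0.le κ0 (hbc' ▸ hκ) t1 t2 t3 hy hz (by linarith)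
        (by linarith)
      rw [← aW_QQ hw hbc (by linarith) (by linarith), ← e2,
        ← (QQ_coeff b c (p - r) (q - r) hbc).2.2.1, ← hbc', hbc, ← hCw] at hwin
      rw [e1]
      obtain ⟨S, hS⟩ : ∃ S, S = |α (X ^ a * L p ^ b * L q ^ c)| +
        |PowerSeries.coeff (m + 1) (QQ b c (p - r) (q - r))| := ⟨_, rfl⟩
      have S0 : 0 ≤ S := by rw [hS]; positivity
      rw [← hS] at hwin ⊢
      have u1 := mul_nonneg K0 S0
      have u2 : 0 ≤ 2 ^ (m + 2) * (Cw * S) := by positivity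
      have u3 : 0 ≤ 2 ^ (m + 2) * (Cw / δ * S) := by positivity
      by_cases hbb : b = b₀
      · have hcc : c = c₀ := by omega
        subst hbb hcc
        have hfar := hne.resolve_left (fun h3 => h3 rfl)
        rw [y0, z0, sub_sub_sub_cancel_right, sub_sub_sub_cancel_right] at hwin
        have h3 : δ ≤ Cw * S := by
          have := le_mul_of_one_le_left (abs_nonneg (p - p₀)) b1
          have := le_mul_of_one_le_left (abs_nonneg (q - q₀)) c1
          linarith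
        have h4 : 1 ≤ Cw / δ * S := by rw [div_mul_eq_mul_div, le_div_iff₀ hδ]; linarith
        have h5 := nm_prod_lin (m + 2) (Finset.range (b + c))
          (fun i => if i < b then p - r else q - r) (fun i _ => by split_ifs <;> assumption)
        rw [← QQ_eq, Finset.card_range, hbc] at h5
        have h6 := le_mul_of_one_le_right (show (0 : ℝ) ≤ 2 ^ (m + 2) by positivity) h4
        exact (hbd _).trans (mul_le_mul_of_nonneg_left (by linarith) mb0)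
      · have h0 : Mf (QQ b c (ρ b * c) (-(ρ b * b))) = 0 := by
          rw [hMf]; exact hμ1 b c hb hc hbc hbb
        have bb : (0 : ℝ) < b := by exact_mod_cast hb
        have cc : (1 : ℝ) ≤ c := by exact_mod_cast hc
        have v1 : ρ b * b ≤ 1 := by
          have h3 : ρ b ≤ 1 - r + ε := (le_mul_of_one_le_right t1.le cc).trans t2.le
          exact (mul_le_mul h3 (by linarith : (b : ℝ) ≤ m + 2) bb.le s0.le).trans s1
        have h5 := nm_prod_sub (m + 2) (Finset.range (b + c))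
          (fun i => if i < b then p - r else q - r)
          (fun i => if i < b then ρ b * c else -(ρ b * b)) (fun i _ => by split_ifs <;> assumption)
          (fun i _ => by
            split_ifs
            · rw [abs_of_nonneg (by positivity)]; linarith
            · rw [abs_neg, abs_of_nonneg (by positivity)]; exact v1)
        rw [← QQ_eq, ← QQ_eq, Finset.card_range,
          sum_two b c _ |p - r - ρ b * c| |q - r - -(ρ b * b)|
          (fun i hi => by rw [if_pos hi, if_pos hi])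
          (fun i hi => by rw [if_neg (by omega), if_neg (by omega)]), hbc] at h5
        have h6 := mul_le_mul_of_nonneg_left hwin (show (0 : ℝ) ≤ 2 ^ (m + 2) by positivity)
        rw [← sub_zero (Mf _), ← h0, ← map_sub]
        exact (hbd _).trans (mul_le_mul_of_nonneg_left (by linarith) mb0)
    · refine (hbd _).trans (mul_le_mul_of_nonneg_left ((h2 h).trans ?_) mb0)
      exact mul_le_mul_of_nonneg_right (le_add_of_nonneg_right (by positivity)) (by positivity)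
  · rw [g2, aW_QQ hw hm (by linarith) (by linarith),
      show 1 - r + ε - (p₀ - r) = 1 - p₀ + ε by ring,
      show 1 - r + ε - (q₀ - r) = 1 - q₀ + ε by ring, ← hk, sub_self, mul_zero]
  · rw [LinearMap.comp_apply, g1, (QQ_coeff b₀ c₀ _ _ hm).2.2.1, ← y0, ← z0]; ring
  · rw [LinearMap.comp_apply, g1, hMf, ← y0, ← z0]; exact hμ2

theorem continuous_test (b c : ℕ) : ∀ φ : ℝ[X] →ₗ[ℝ] ℂ,
    Continuous fun x : ℝ × ℝ => φ ((X + C x.1) ^ b * (X + C x.2) ^ c) := by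
  have key : ∀ (φ : ℝ[X] →ₗ[ℝ] ℂ) (s : ℝ) (g : ℝ[X]),
      φ ((X + C s) * g) = (φ ∘ₗ LinearMap.mulLeft ℝ X) g + s • φ g := by
    intro φ s g
    rw [add_mul, map_add, C_mul', map_smul]; rfl
  induction b with
  | zero =>
    simp only [pow_zero, one_mul]
    induction c with
    | zero => intro φ; simpa using continuous_const
    | succ c ih =>
      intro φ
      simp only [pow_succ', key]
      exact (ih _).add (continuous_snd.smul (ih _))
  | succ b ih =>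
    intro φ
    simp only [pow_succ', mul_assoc, key]
    exact (ih _).add (continuous_fst.smul (ih _))

theorem isClosed_test (T : ℝ[X] →ₗ[ℝ] ℝ[X]) (a b c : ℕ) :
    IsClosed {x : ℝ × ℝ | (T (X ^ a * (X + C x.1) ^ b * (X + C x.2) ^ c)).Splits} := by
  obtain ⟨n, hn⟩ : ∃ n, ∀ x : ℝ × ℝ,
      (T (X ^ a * (X + C x.1) ^ b * (X + C x.2) ^ c)).natDegree ≤ n := by
    refine ⟨∑ k ∈ Finset.range (a + b + c + 1), (T (X ^ k)).natDegree, fun x => ?_⟩
    have h1 : (X ^ a * (X + C x.1) ^ b * (X + C x.2) ^ c : ℝ[X]).natDegree ≤ a + b + c := by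
      refine natDegree_mul_le.trans (add_le_add (natDegree_mul_le.trans (add_le_add ?_ ?_)) ?_)
      · exact natDegree_X_pow_le a
      · simp
      · simp
    rw [lin_sum T]
    refine natDegree_sum_le_of_forall_le _ _ fun k hk => (natDegree_smul_le _ _).trans ?_
    exact Finset.single_le_sum (f := fun k => (T (X ^ k)).natDegree) (fun _ _ => Nat.zero_le _)
      (Finset.mem_range.2 (by have := Finset.mem_range.1 hk; omega))
  have hc : ∀ z : ℂ, Continuous fun x : ℝ × ℝ =>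
      aeval z (T (X ^ a * (X + C x.1) ^ b * (X + C x.2) ^ c)) := by
    intro z
    simp only [mul_assoc]
    exact continuous_test b c ((aeval z : ℝ[X] →ₐ[ℝ] ℂ).toLinearMap ∘ₗ T ∘ₗ
      LinearMap.mulLeft ℝ (X ^ a))
  refine closure_subset_iff_isClosed.1 fun x hx => splits_iff_im.2 ?_
  by_cases hB : T (X ^ a * (X + C x.1) ^ b * (X + C x.2) ^ c) = 0
  · exact Or.inl hB
  refine Or.inr fun z hz => ?_
  by_contra him
  refine hB (Polynomial.funext fun s => ?_)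
  obtain ⟨κ, -, hκ⟩ := norm_aeval_le him s n
  have h1 : ‖aeval (s : ℂ) (T (X ^ a * (X + C x.1) ^ b * (X + C x.2) ^ c))‖ ≤
      κ * ‖aeval z (T (X ^ a * (X + C x.1) ^ b * (X + C x.2) ^ c))‖ :=
    closure_minimal (t := {y : ℝ × ℝ |
      ‖aeval (s : ℂ) (T (X ^ a * (X + C y.1) ^ b * (X + C y.2) ^ c))‖ ≤
        κ * ‖aeval z (T (X ^ a * (X + C y.1) ^ b * (X + C y.2) ^ c))‖})
      (fun y hy => hκ _ hy (hn y))
      (isClosed_le (hc s).norm (continuous_const.mul (hc z).norm)) hx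
  rw [hz, norm_zero, mul_zero, norm_le_zero_iff, ← Complex.coe_algebraMap,
    aeval_algebraMap_apply_eq_algebraMap_eval] at h1
  simpa using h1

end Pool.Agent.Lib.MP_7a4764_an.H60
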