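import Mathlib
import Pool.Agent.Variants.MP_7a4764_an.ExactTests

set_option autoImplicit false

/-!
No family of regions for the complex parameter `w` turns the one-block symbols
`T (X ^ a * (X + w) ^ n)` into a characterisation of the class.
-/

namespace Pool.Agent.Lib.MP_7a4764_an.H60

open Polynomial

/-- The value at `z` of the complexification of `T` applied to `X ^ a * (X + w) ^ n`. -/
noncomputable def symb (T : ℝ[X] →ₗ[ℝ] ℝ[X]) (a n : ℕ) (z w : ℂ) : ℂ :=
  ∑ k ∈ Finset.range (n + 1), (n.choose k : ℂ) * w ^ (n - k) * aeval z (T (X ^ (a + k)))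

theorem symb_real (T : ℝ[X] →ₗ[ℝ] ℝ[X]) (a n : ℕ) (z : ℂ) (v : ℝ) :
    symb T a n z v = aeval z (T (X ^ a * (X + C v) ^ n)) := by
  rw [add_pow, Finset.mul_sum, map_sum, map_sum, symb]
  refine Finset.sum_congr rfl fun k _ => ?_
  have : (X ^ a * (X ^ k * C v ^ (n - k) * (n.choose k : ℝ[X])) : ℝ[X]) =
      ((n.choose k : ℝ) * v ^ (n - k)) • X ^ (a + k) := by
    rw [smul_eq_C_mul, C_mul, C_pow, map_natCast, pow_add]; ring
  rw [this, map_smul, map_smul, Complex.real_smul]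
  push_cast
  ring

theorem no_symbol (A : Set ℕ) (hA : 0 ∈ A) (O : Set (Set ℂ)) : ¬ ∀ T : ℝ[X] →ₗ[ℝ] ℝ[X],
    ((∀ f : ℝ[X], f.Splits → (∀ k, 0 ≤ f.coeff k) → (T f).Splits) ↔
      ((∀ f : ℝ[X], (T f).Splits) ∨ ∃ Ω ∈ O, ∀ a ∈ A, ∀ n : ℕ, ∀ w ∈ Ω,
        (∀ z : ℂ, symb T a n z w = 0) ∨ ∀ z : ℂ, 0 < z.im → symb T a n z w ≠ 0)) := by
  intro h
  let T₁ : ℝ[X] →ₗ[ℝ] ℝ[X] := (lcoeff ℝ 1).smulRight (X ^ 2) + (lcoeff ℝ 2).smulRight X -
    (lcoeff ℝ 0).smulRight 1
  have hT₁ : ∀ f, T₁ f = C (f.coeff 1) * X ^ 2 + C (2 * (f.coeff 2 / 2)) * X + C (-f.coeff 0) := by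
    intro f
    simp only [T₁, LinearMap.add_apply, LinearMap.sub_apply, LinearMap.smulRight_apply,
      lcoeff_apply, smul_eq_C_mul, mul_one, map_neg]
    rw [mul_div_cancel₀ _ (two_ne_zero)]; ring
  have hs : ∀ z w : ℂ, symb T₁ 0 1 z w = z ^ 2 - w := by
    intro z w
    simp [symb, Finset.sum_range_succ, hT₁]
    ring
  have h1 := (h T₁).1 (fun f _ hc => by
    rw [hT₁]
    exact splits_quad (by nlinarith [mul_nonneg (hc 1) (hc 0), sq_nonneg (f.coeff 2 / 2)]))
  obtain ⟨Ω, hΩ, h2⟩ := h1.resolve_left (fun h2 => by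
    have h3 := splits_iff_im.1 (h2 (X - 1))
    rw [hT₁] at h3
    rcases h3 with h3 | h3
    · have := congrArg (fun f : ℝ[X] => f.eval 0) h3
      simp at this
    · have := h3 Complex.I (by simp [coeff_X, coeff_one])
      simp at this)
  have h3 : ∀ w ∈ Ω, ∃ v : ℝ, 0 ≤ v ∧ w = v := by
    intro w hw
    obtain ⟨z, hz⟩ := IsAlgClosed.exists_pow_nat_eq w (n := 2) (by norm_num)
    rcases h2 0 hA 1 w hw with h4 | h4
    · have e1 := h4 0
      have e2 := h4 1
      rw [hs] at e1 e2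
      have : (1 : ℂ) = 0 := by linear_combination e2 - e1
      simp at this
    · have h5 : z.im = 0 := by
        rcases lt_trichotomy z.im 0 with h6 | h6 | h6
        · exact absurd (by rw [hs, neg_sq, hz, sub_self]) (h4 (-z) (by simpa using h6))
        · exact h6
        · exact absurd (by rw [hs, hz, sub_self]) (h4 z h6)
      refine ⟨z.re ^ 2, sq_nonneg _, ?_⟩
      rw [← hz]
      have : z = z.re := Complex.ext (by simp) (by simp [h5])
      rw [this]; simp
  have h4 := (Variants.MP_7a4764_an.ExactTests.result {x | x.2.1 = 0}).not.2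
    (fun h5 => by simpa using h5 0 1 1 le_rfl le_rfl)
  refine h4 fun T => ⟨fun h5 a b c u v _ hu huv =>
    (Variants.MP_7a4764_an.TestFamily.result T).1 h5 a b c u v hu (hu.trans huv), fun h5 f hf hc =>
    splits_iff_im.1 ((h T).2 (Or.inr ⟨Ω, hΩ, fun a _ n w hw => ?_⟩) f (splits_iff_im.2 hf) hc)⟩
  obtain ⟨v, hv, rfl⟩ := h3 w hw
  have h6 : T (X ^ a * (X + C v) ^ n) = 0 ∨
      ∀ z : ℂ, aeval z (T (X ^ a * (X + C v) ^ n)) = 0 → z.im = 0 := by
    rcases hv.eq_or_lt with rfl | hv'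
    · have := h5 (a + n) 0 0 1 2 rfl one_pos one_lt_two
      simpa [pow_add, Variants.MP_7a4764_an.ExactTests.RealRooted] using this
    · have := h5 a 0 n (v / 2) v rfl (by linarith) (by linarith)
      simpa [Variants.MP_7a4764_an.ExactTests.RealRooted] using this
  simp only [symb_real]
  rcases h6 with h6 | h6
  · exact Or.inl fun z => by rw [h6, map_zero]
  · exact Or.inr fun z hz h7 => hz.ne' (h6 z h7)

end Pool.Agent.Lib.MP_7a4764_an.H60
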