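import Mathlib
import Pool.Agent.Lib.MP_7a4764_an.H44Flow

set_option autoImplicit false

/-!
Limits of real-rooted polynomials, and the Jensen multiplier.
-/

namespace Pool.Agent.Lib.MP_7a4764_an.H79

open Polynomial Filter Topology Pool.Agent.Lib.MP_7a4764_an Pool.Agent.Lib.MP_7a4764_an.H57

theorem norm_aeval_mono {p : ℝ[X]} (hp : p.Splits) (x y y' : ℝ) (h : |y'| ≤ |y|) :
    ‖aeval ((x : ℂ) + y' * Complex.I) p‖ ≤ ‖aeval ((x : ℂ) + y * Complex.I) p‖ := by
  have key : ∀ R : Multiset ℝ,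
      ‖aeval ((x : ℂ) + y' * Complex.I) (R.map (fun r => X - C r)).prod‖ ≤
      ‖aeval ((x : ℂ) + y * Complex.I) (R.map (fun r => X - C r)).prod‖ := by
    intro R
    induction R using Multiset.induction_on with
    | empty => simp
    | cons r R ih =>
      rw [Multiset.map_cons, Multiset.prod_cons, map_mul, map_mul, norm_mul, norm_mul]
      refine mul_le_mul ?_ ih (norm_nonneg _) (norm_nonneg _)
      have h2 : y' ^ 2 ≤ y ^ 2 := sq_le_sq.2 h
      rw [← sq_le_sq₀ (norm_nonneg _) (norm_nonneg _), Complex.sq_norm, Complex.sq_norm,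
        Complex.normSq_apply, Complex.normSq_apply]
      simp
      nlinarith
  rw [hp.eq_prod_roots, map_mul, map_mul, norm_mul, norm_mul, aeval_C, aeval_C]
  exact mul_le_mul_of_nonneg_left (key _) (norm_nonneg _)

/-- A pointwise limit of real-rooted polynomials is real-rooted. -/
theorem splits_of_tendsto {ι : Type} {l : Filter ι} [l.NeBot] {p : ι → ℝ[X]} {q : ℝ[X]}
    (hp : ∀ᶠ i in l, (p i).Splits)
    (h : ∀ z : ℂ, Tendsto (fun i => aeval z (p i)) l (𝓝 (aeval z q))) : q.Splits := by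
  rw [splits_iff_im]
  by_cases hq : q = 0
  · exact Or.inl hq
  refine Or.inr fun z hz => ?_
  by_contra hy
  have h1 : ∀ y' : ℝ, |y'| ≤ |z.im| → aeval ((z.re : ℂ) + y' * Complex.I) q = 0 := by
    intro y' hy'
    have h2 : ‖aeval ((z.re : ℂ) + y' * Complex.I) q‖ ≤
        ‖aeval ((z.re : ℂ) + z.im * Complex.I) q‖ :=
      le_of_tendsto_of_tendsto (h _).norm (h _).norm
        (hp.mono fun i hi => norm_aeval_mono hi _ _ _ hy')
    rw [Complex.re_add_im, hz, norm_zero] at h2
    exact norm_le_zero_iff.1 h2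
  have h3 : q.map (algebraMap ℝ ℂ) = 0 := by
    apply eq_zero_of_infinite_isRoot
    have hinf : (Set.Icc (0 : ℝ) |z.im|).Infinite := Set.Icc_infinite (abs_pos.2 hy)
    have hinj : Function.Injective (fun t : ℝ => (z.re : ℂ) + t * Complex.I) := by
      intro a b hab
      simpa using congrArg Complex.im hab
    refine (hinf.image hinj.injOn).mono ?_
    rintro _ ⟨t, ht, rfl⟩
    change IsRoot _ _
    rw [IsRoot, eval_map_algebraMap]
    exact h1 t (by rw [abs_of_nonneg ht.1]; exact ht.2)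
  exact hq ((Polynomial.map_eq_zero_iff (algebraMap ℝ ℂ).injective).1 h3)

theorem splits_L (s : ℝ) : (L s).Splits := by
  by_cases hs : s = 0
  · rw [hs, L_zero]; exact Splits.one
  · rw [L_eq hs]; exact (Splits.C s).mul (Splits.X_add_C _)

theorem splits_P (S : Multiset ℝ) : (P S).Splits := by
  induction S using Multiset.induction_on with
  | empty => rw [P_zero]; exact Splits.one
  | cons s S ih => rw [P_cons]; exact (splits_L s).mul ih

theorem D_spec {n : ℕ} {g : ℝ[X]} (hg : D n g) :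
    g.Splits ∧ (∀ k, 0 ≤ g.coeff k) ∧ g.natDegree ≤ n ∧ g.eval 1 = 1 ∧ g ≠ 0 := by
  obtain ⟨S, rfl, hS, rfl⟩ := hg
  exact ⟨splits_P S, H44.coeff_P_nonneg S hS, natDegree_P_le S, eval_one_P S, P_ne_zero S⟩

theorem D_coeff_le {n : ℕ} {g : ℝ[X]} (hg : D n g) (k : ℕ) : |g.coeff k| ≤ 1 := by
  obtain ⟨-, h1, -, h2, -⟩ := D_spec hg
  rw [abs_of_nonneg (h1 k)]
  by_cases hk : k < g.natDegree + 1
  · rw [eval_eq_sum_range] at h2
    rw [← h2]
    have := Finset.single_le_sum (f := fun i => g.coeff i * 1 ^ i)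
      (fun i _ => mul_nonneg (h1 i) (by positivity)) (Finset.mem_range.2 hk)
    simpa using this
  · rw [coeff_eq_zero_of_natDegree_lt (by omega)]; norm_num

theorem norm_lin_le {n : ℕ} {g : ℝ[X]} (hg : D n g) (φ : ℝ[X] →ₗ[ℝ] ℂ) :
    ‖φ g‖ ≤ ∑ k ∈ Finset.range (n + 1), ‖φ (X ^ k)‖ := by
  rw [lin_eq_sum φ (D_spec hg).2.2.1]
  refine (norm_sum_le _ _).trans (Finset.sum_le_sum fun k _ => ?_)
  rw [norm_smul, Real.norm_eq_abs]
  exact mul_le_of_le_one_left (norm_nonneg _) (D_coeff_le hg k)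

theorem splits_of_upper {p : ℝ[X]} (h : ∀ z : ℂ, 0 < z.im → aeval z p = 0 → p = 0) :
    p.Splits := by
  rw [splits_iff_im]
  by_cases hp : p = 0
  · exact Or.inl hp
  refine Or.inr fun z hz => ?_
  rcases lt_trichotomy z.im 0 with h1 | h1 | h1
  · refine absurd (h ((starRingEnd ℂ) z) (by simpa using h1) ?_) hp
    rw [aeval_conj, hz, map_zero]
  · exact h1
  · exact absurd (h z h1 hz) hp

theorem aeval_ne_zero {p : ℝ[X]} (hp : p.Splits) (h0 : p ≠ 0) {z : ℂ} (hz : z.im ≠ 0) :
    aeval z p ≠ 0 := fun h => hz ((splits_iff_im.1 hp).resolve_left h0 z h)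

/-- The polar derivative at the origin. -/
theorem polar (R : Multiset ℝ) (hR : ∀ s ∈ R, 0 ≤ s ∧ s ≤ 1) {z : ℂ} (hz : 0 < z.im) :
    ∃ w : ℂ, z * aeval z (C (R.card : ℝ) * P R - X * derivative (P R)) = w * aeval z (P R) ∧
      0 ≤ w.im ∧ (w.im = 0 → C (R.card : ℝ) * P R - X * derivative (P R) = 0) := by
  induction R using Multiset.induction_on with
  | empty => exact ⟨0, by simp, le_rfl, fun _ => by simp⟩
  | cons s R ih =>
    obtain ⟨w, h1, h2, h3⟩ := ih (fun t ht => hR t (Multiset.mem_cons_of_mem ht))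
    have hL : aeval z (L s) ≠ 0 := aeval_ne_zero (splits_L s)
      (fun h => by simpa [h] using eval_L s 1) hz.ne'
    have hid : C (((s ::ₘ R).card : ℕ) : ℝ) * P (s ::ₘ R) - X * derivative (P (s ::ₘ R)) =
        L s * (C (R.card : ℝ) * P R - X * derivative (P R)) + C (1 - s) * P R := by
      rw [P_cons, Multiset.card_cons, derivative_mul, Nat.cast_succ, C_add, C_1]
      have : derivative (L s) = C s := by simp [L]
      rw [this, L]
      ring
    have hLz : aeval z (L s) = (s : ℂ) * z + ((1 - s : ℝ) : ℂ) := by simp [L]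
    have him : (((1 - s : ℝ) : ℂ) * z / aeval z (L s)).im =
        (1 - s) ^ 2 * z.im / Complex.normSq (aeval z (L s)) := by
      rw [Complex.div_im, hLz]
      simp
      ring
    have hns : 0 < Complex.normSq (aeval z (L s)) := Complex.normSq_pos.2 hL
    have hnn : 0 ≤ (1 - s) ^ 2 * z.im / Complex.normSq (aeval z (L s)) := by positivity
    refine ⟨w + ((1 - s : ℝ) : ℂ) * z / aeval z (L s), ?_, ?_, fun h => ?_⟩
    · rw [hid, P_cons, map_add, map_mul, map_mul, map_mul, aeval_C, mul_add,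
        mul_left_comm z, h1]
      field_simp
      rfl
    · rw [Complex.add_im, him]; positivity
    · rw [Complex.add_im, him] at h
      have h4 : w.im = 0 := by linarith
      have h5 : (1 - s) ^ 2 * z.im / Complex.normSq (aeval z (L s)) = 0 := by linarith
      have h6 : 1 - s = 0 := by
        rcases div_eq_zero_iff.1 h5 with h | h
        · rcases mul_eq_zero.1 h with h | h
          · exact pow_eq_zero_iff (two_ne_zero) |>.1 h
          · exact absurd h hz.ne'
        · exact absurd h hns.ne'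
      rw [hid, h3 h4, h6]; simp

/-- The Jensen multiplier sequence. -/
noncomputable def γ (n k : ℕ) : ℝ := ∏ i ∈ Finset.range k, (1 - (i : ℝ) / n)

theorem γ_eq_zero {n k : ℕ} (hn : 0 < n) (h : n < k) : γ n k = 0 :=
  Finset.prod_eq_zero (Finset.mem_range.2 h) (by
    have : (n : ℝ) ≠ 0 := by positivity
    rw [div_self this, sub_self])

theorem γ_nonneg {n : ℕ} (hn : 0 < n) (k : ℕ) : 0 ≤ γ n k := by
  rcases lt_or_ge n k with h | h
  · exact (γ_eq_zero hn h).ge
  · refine Finset.prod_nonneg fun i hi => ?_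
    have h1 : (i : ℝ) ≤ n := by exact_mod_cast ((Finset.mem_range.1 hi).le.trans h)
    have h2 : (0 : ℝ) < n := by positivity
    rw [sub_nonneg, div_le_one h2]; exact h1

theorem tendsto_γ (k : ℕ) : Tendsto (fun n => γ n k) atTop (𝓝 1) := by
  have : Tendsto (fun n : ℕ => ∏ i ∈ Finset.range k, (1 - (i : ℝ) / n)) atTop
      (𝓝 (∏ _i ∈ Finset.range k, (1 - 0 : ℝ))) :=
    tendsto_finsetProd _ fun i _ =>
      tendsto_const_nhds.sub (tendsto_const_div_atTop_nhds_zero_nat (i : ℝ))
  simpa [γ] using this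

/-- The Jensen operator. -/
noncomputable def J (n : ℕ) : ℝ[X] →ₗ[ℝ] ℝ[X] :=
  (basisMonomials ℝ).constr ℝ (fun k => γ n k • X ^ k)

theorem J_X_pow (n k : ℕ) : J n (X ^ k) = γ n k • X ^ k := by
  have h := (basisMonomials ℝ).constr_basis ℝ (fun k => γ n k • (X ^ k : ℝ[X])) k
  rw [coe_basisMonomials] at h
  conv_lhs => rw [X_pow_eq_monomial]
  exact h

theorem coeff_J (n : ℕ) (f : ℝ[X]) (k : ℕ) : (J n f).coeff k = γ n k * f.coeff k := by
  induction f using Polynomial.induction_on' with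
  | add p q hp hq => rw [map_add, coeff_add, coeff_add, hp, hq, mul_add]
  | monomial j a =>
    rw [← C_mul_X_pow_eq_monomial, C_mul', map_smul, J_X_pow, coeff_smul, coeff_smul, coeff_smul,
      coeff_X_pow]
    split_ifs with h
    · subst h; simp [mul_comm]
    · simp

theorem natDegree_J_le {n : ℕ} (hn : 0 < n) (f : ℝ[X]) : (J n f).natDegree ≤ n :=
  natDegree_le_iff_coeff_eq_zero.2 fun k hk => by rw [coeff_J, γ_eq_zero hn hk, zero_mul]

theorem J_X_mul {n : ℕ} (hn : 0 < n) (f : ℝ[X]) :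
    J n (X * f) = C (1 / (n : ℝ)) * (X * (C (n : ℝ) * J n f - X * derivative (J n f))) := by
  have h0 : (n : ℝ) ≠ 0 := by positivity
  ext k
  rw [coeff_J, coeff_C_mul]
  cases k with
  | zero => simp
  | succ k =>
    rw [coeff_X_mul, coeff_X_mul, coeff_sub, coeff_C_mul, coeff_J, γ, Finset.prod_range_succ]
    cases k with
    | zero => simp [γ]; field_simp
    | succ k =>
      rw [coeff_X_mul, coeff_derivative, coeff_J, γ]
      push_cast
      field_simp

theorem splits_J_P {n : ℕ} (hn : 0 < n) (S : Multiset ℝ) (hS : ∀ s ∈ S, 0 ≤ s ∧ s ≤ 1) :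
    (J n (P S)).Splits := by
  induction S using Multiset.induction_on with
  | empty =>
    have : J n (P 0) = 1 := by simpa [γ] using J_X_pow n 0
    rw [this]; exact Splits.one
  | cons s S ih =>
    have hS' : ∀ t ∈ S, 0 ≤ t ∧ t ≤ 1 := fun t ht => hS t (Multiset.mem_cons_of_mem ht)
    have hid : J n (P (s ::ₘ S)) = C (1 - s) * J n (P S) + C (s / n) *
        (X * (C (n : ℝ) * J n (P S) - X * derivative (J n (P S)))) := by
      rw [P_cons, L, add_mul, map_add, mul_assoc, C_mul', C_mul', map_smul, map_smul,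
        J_X_mul hn, ← C_mul', ← C_mul', ← mul_assoc, ← C_mul, add_comm, mul_one_div]
    by_cases h0 : J n (P S) = 0
    · rw [hid, h0]; simp
    obtain ⟨g, ⟨R, hRc, hR, rfl⟩, hg⟩ := exists_D (ih hS') (fun k => by
      rw [coeff_J]; exact mul_nonneg (γ_nonneg hn k) (H44.coeff_P_nonneg S hS' k)) h0
      (natDegree_J_le hn _)
    have hid2 : J n (P (s ::ₘ S)) = C ((J n (P S)).eval 1) * (C (1 - s) * P R + C (s / n) *
        (X * (C (R.card : ℝ) * P R - X * derivative (P R)))) := by
      rw [hid, hRc]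
      generalize (J n (P S)).eval 1 = c at hg
      rw [hg, derivative_mul, derivative_C]
      ring
    rw [hid2]
    refine (Splits.C _).mul (splits_of_upper fun z hz hz0 => ?_)
    obtain ⟨w, h1, h2, h3⟩ := polar R hR hz
    have hP : aeval z (P R) ≠ 0 := aeval_ne_zero (splits_P R) (P_ne_zero R) hz.ne'
    rw [map_add, map_mul, map_mul, map_mul, aeval_X, h1, aeval_C, aeval_C, ← mul_assoc,
      ← add_mul] at hz0
    have h4 := (mul_eq_zero.1 hz0).resolve_right hP
    have h5 : s / n * w.im = 0 := by simpa using congrArg Complex.im h4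
    rcases mul_eq_zero.1 h5 with h6 | h6
    · have h7 : s = 0 := (div_eq_zero_iff.1 h6).resolve_right (by positivity)
      rw [h7] at h4
      simp at h4
    · have h7 := h3 h6
      rw [h7] at h1 ⊢
      have h8 : w = 0 := by
        have : w * aeval z (P R) = 0 := by rw [← h1]; simp
        exact (mul_eq_zero.1 this).resolve_right hP
      rw [h8] at h4
      have h9 : 1 - s = 0 := by simpa using congrArg Complex.re h4
      rw [h9]; simp

theorem splits_J {n : ℕ} (hn : 0 < n) {f : ℝ[X]} (hf : f.Splits) (hc : ∀ k, 0 ≤ f.coeff k) :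
    (J n f).Splits := by
  by_cases h0 : f = 0
  · rw [h0, map_zero]; exact Splits.zero
  obtain ⟨g, ⟨S, -, hS, rfl⟩, hg⟩ := exists_D hf hc h0 le_rfl
  rw [hg, C_mul', map_smul, ← C_mul']
  exact (Splits.C _).mul (splits_J_P hn S hS)

end Pool.Agent.Lib.MP_7a4764_an.H79
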