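import Mathlib
import Pool.Agent.Lib.MP_7a4764_an.H79Limit

set_option autoImplicit false

/-!
Smoothing on the source side: a linear map close to the identity that sends every normalised
polynomial of degree at most `n` to a polynomial with `n` simple negative roots.
-/

namespace Pool.Agent.Lib.MP_7a4764_an.H79

open Polynomial Filter Topology Pool.Agent.Lib.MP_7a4764_an Pool.Agent.Lib.MP_7a4764_an.H57

theorem logder (R : Multiset ℝ) {z : ℂ} (hz : 0 < z.im) :
    ∃ w : ℂ, aeval z (derivative (R.map (fun r => X - C r)).prod) =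
      w * aeval z (R.map (fun r => X - C r)).prod ∧ w.im ≤ 0 ∧ (w.im = 0 → w = 0) := by
  induction R using Multiset.induction_on with
  | empty => exact ⟨0, by simp, le_rfl, fun _ => rfl⟩
  | cons r R ih =>
    obtain ⟨w, h1, h2, -⟩ := ih
    have hr : z - r ≠ 0 := fun h => by simpa [hz.ne'] using congrArg Complex.im h
    have him : (z - r)⁻¹.im < 0 := by
      rw [Complex.inv_im]
      have := Complex.normSq_pos.2 hr
      apply div_neg_of_neg_of_pos _ this
      simpa using hz
    refine ⟨w + (z - r)⁻¹, ?_, ?_, fun h => ?_⟩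
    · rw [Multiset.map_cons, Multiset.prod_cons, derivative_mul, map_add, map_mul, map_mul,
        map_mul, h1]
      simp only [derivative_X, derivative_C, sub_zero, map_one, map_sub, aeval_X,
        aeval_C, Complex.coe_algebraMap]
      field_simp
      ring
    · rw [Complex.add_im]; linarith
    · rw [Complex.add_im] at h; linarith

theorem laguerre (R : Multiset ℝ) (x : ℝ) :
    0 ≤ (derivative (R.map (fun r => X - C r)).prod).eval x ^ 2 -
      ((R.map (fun r => X - C r)).prod).eval x *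
        (derivative (derivative (R.map (fun r => X - C r)).prod)).eval x ∧
    (R ≠ 0 → ((R.map (fun r => X - C r)).prod).eval x ≠ 0 →
      0 < (derivative (R.map (fun r => X - C r)).prod).eval x ^ 2 -
        ((R.map (fun r => X - C r)).prod).eval x *
          (derivative (derivative (R.map (fun r => X - C r)).prod)).eval x) := by
  induction R using Multiset.induction_on with
  | empty => simp
  | cons r R ih =>
    rw [Multiset.map_cons, Multiset.prod_cons]
    generalize (R.map (fun r => X - C r)).prod = Q at ih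
    have hid : (derivative ((X - C r) * Q)).eval x ^ 2 - ((X - C r) * Q).eval x *
        (derivative (derivative ((X - C r) * Q))).eval x =
        (x - r) ^ 2 * ((derivative Q).eval x ^ 2 - Q.eval x * (derivative (derivative Q)).eval x) +
          Q.eval x ^ 2 := by
      simp [derivative_mul]
      ring
    rw [hid]
    have h1 := ih.1
    refine ⟨by positivity, fun _ h => ?_⟩
    have h2 : Q.eval x ≠ 0 := fun h3 => h (by simp [h3])
    positivity

/-- The operator `1 + ε D`. -/
noncomputable def A (ε : ℝ) : ℝ[X] →ₗ[ℝ] ℝ[X] := LinearMap.id + ε • derivative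

theorem A_apply (ε : ℝ) (g : ℝ[X]) : A ε g = g + C ε * derivative g := by
  simp [A, C_mul']

theorem coeff_A (ε : ℝ) (g : ℝ[X]) (k : ℕ) :
    (A ε g).coeff k = g.coeff k + ε * (g.coeff (k + 1) * (k + 1)) := by
  rw [A_apply, coeff_add, coeff_C_mul, coeff_derivative]

theorem splits_A (ε : ℝ) {g : ℝ[X]} (hg : g.Splits) : (A ε g).Splits := by
  rw [hg.eq_prod_roots, C_mul', map_smul, ← C_mul']
  refine (Splits.C _).mul (splits_of_upper fun z hz h0 => ?_)
  obtain ⟨w, h1, -, h3⟩ := logder g.roots hz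
  have hQ : aeval z (g.roots.map (fun r => X - C r)).prod ≠ 0 := by
    refine aeval_ne_zero (Splits.multisetProd fun p hp => ?_)
      (monic_multisetProd_X_sub_C _).ne_zero hz.ne'
    obtain ⟨r, -, rfl⟩ := Multiset.mem_map.1 hp
    exact Splits.X_sub_C r
  rw [A_apply, map_add, map_mul, h1, aeval_C, ← mul_assoc, ← one_add_mul] at h0
  have h4 := (mul_eq_zero.1 h0).resolve_right hQ
  have h5 : ε * w.im = 0 := by simpa using congrArg Complex.im h4
  rcases mul_eq_zero.1 h5 with h | h
  · rw [h] at h4; simp at h4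
  · rw [h3 h] at h4; simp at h4

theorem mult_A {ε : ℝ} (hε : ε ≠ 0) {g : ℝ[X]} (hg : g.Splits) (h0 : g ≠ 0) (x : ℝ) :
    (A ε g).rootMultiplicity x ≤ max 1 (g.rootMultiplicity x - 1) := by
  by_cases hA : A ε g = 0
  · rw [hA]; simp
  by_cases hx : g.eval x = 0
  · refine le_trans ?_ (le_max_right _ _)
    obtain ⟨G, hG, hnd⟩ := exists_eq_pow_rootMultiplicity_mul_and_not_dvd g h0 x
    obtain ⟨k, hk⟩ : ∃ k, g.rootMultiplicity x = k + 1 :=
      Nat.exists_eq_succ_of_ne_zero ((rootMultiplicity_pos h0).2 hx).ne'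
    rw [hk] at hG ⊢
    rw [Nat.add_sub_cancel, rootMultiplicity_le_iff hA]
    have hid : A ε g = (X - C x) ^ k * ((X - C x) * G +
        C ε * (C ((k + 1 : ℕ) : ℝ) * G + (X - C x) * derivative G)) := by
      rw [A_apply, hG, derivative_mul, derivative_X_sub_C_pow]
      simp only [Nat.add_sub_cancel]
      ring
    rw [hid, pow_succ, mul_dvd_mul_iff_left (pow_ne_zero _ (X_sub_C_ne_zero x)), dvd_iff_isRoot]
    intro h
    have h1 : G.eval x ≠ 0 := fun h2 => hnd (dvd_iff_isRoot.2 h2)
    have h2 : ((k : ℝ) + 1) ≠ 0 := by positivity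
    simp [IsRoot, hε, h1, h2] at h
  · refine le_trans ?_ (le_max_left _ _)
    rw [rootMultiplicity_le_iff hA]
    rintro ⟨B, hB⟩
    have e1 : (A ε g).eval x = 0 := by rw [hB]; simp
    have e2 : (derivative (A ε g)).eval x = 0 := by
      rw [hB, derivative_mul, derivative_X_sub_C_pow]; simp
    have hc : g.leadingCoeff ≠ 0 := leadingCoeff_ne_zero.2 h0
    have hl := laguerre g.roots x
    have hR : g.roots = 0 → derivative (g.roots.map (fun r => X - C r)).prod = 0 := by
      intro h; rw [h]; simp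
    have hp := hg.eq_prod_roots
    generalize (g.roots.map (fun r => X - C r)).prod = Q at hl hR hp
    generalize g.leadingCoeff = c at hc hp
    generalize g.roots = R at hl hR
    subst hp
    simp only [A_apply, derivative_add, derivative_mul, derivative_C, zero_mul, zero_add, eval_add,
      eval_mul, eval_C] at e1 e2 hx
    have hQ : Q.eval x ≠ 0 := fun h => hx (by rw [h, mul_zero])
    have e3 : Q.eval x + ε * (derivative Q).eval x = 0 :=
      mul_left_cancel₀ hc (by linear_combination e1)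
    have e4 : (derivative Q).eval x + ε * (derivative (derivative Q)).eval x = 0 :=
      mul_left_cancel₀ hc (by linear_combination e2)
    by_cases hR0 : R = 0
    · rw [hR hR0] at e3
      exact hQ (by simpa using e3)
    · have := hl.2 hR0 hQ
      have e5 : (derivative Q).eval x ^ 2 - Q.eval x * (derivative (derivative Q)).eval x = 0 := by
        linear_combination (derivative Q).eval x * e4 - (derivative (derivative Q)).eval x * e3
      linarith

theorem pow_A {ε : ℝ} (hε : 0 < ε) {n : ℕ} {h : ℝ[X]} (hs : h.Splits) (hc : ∀ k, 0 ≤ h.coeff k)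
    (hd : h.natDegree ≤ n) (hn : 0 < h.coeff n) (j : ℕ) :
    ((A ε ^ j) h).Splits ∧ (∀ k, 0 ≤ ((A ε ^ j) h).coeff k) ∧ ((A ε ^ j) h).natDegree ≤ n ∧
      0 < ((A ε ^ j) h).coeff n ∧ 0 < ((A ε ^ j) h).coeff (n - j) ∧
      ∀ x, ((A ε ^ j) h).rootMultiplicity x ≤ max 1 (n - j) := by
  induction j with
  | zero =>
    refine ⟨hs, hc, hd, hn, hn, fun x => le_trans ?_ (le_max_right _ _)⟩
    have h0 : h ≠ 0 := fun h1 => by simp [h1] at hn
    have h1 : h.rootMultiplicity x ≤ h.natDegree := by
      rw [← count_roots]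
      exact (Multiset.count_le_card _ _).trans (card_roots' h)
    simpa using h1.trans hd
  | succ j ih =>
    obtain ⟨h1, h2, h3, h4, h5, h6⟩ := ih
    rw [pow_succ', Module.End.mul_apply]
    generalize (A ε ^ j) h = g at h1 h2 h3 h4 h5 h6
    have h0 : g ≠ 0 := fun h1 => by simp [h1] at h4
    refine ⟨splits_A ε h1, fun k => ?_, ?_, ?_, ?_, fun x => (mult_A hε.ne' h1 h0 x).trans ?_⟩
    · rw [coeff_A]; have := h2 k; have := h2 (k + 1); positivity
    · refine natDegree_le_iff_coeff_eq_zero.2 fun k hk => ?_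
      rw [coeff_A, coeff_eq_zero_of_natDegree_lt (by omega),
        coeff_eq_zero_of_natDegree_lt (by omega)]
      simp
    · rw [coeff_A]; have := h2 (n + 1); positivity
    · rw [coeff_A]
      rcases lt_or_ge j n with hj | hj
      · have e : n - (j + 1) + 1 = n - j := by omega
        rw [e]; have := h2 (n - (j + 1)); positivity
      · have e : n - (j + 1) = n - j := by omega
        rw [e]; have := h2 (n - j + 1); positivity
    · have := h6 x
      omega

theorem homog {p : ℝ[X]} {d : ℕ} (hp : p.natDegree ≤ d) (a : ℂ) {b : ℂ} (hb : b ≠ 0) :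
    ∑ k ∈ Finset.range (d + 1), p.coeff k • (a ^ k * b ^ (d - k)) = b ^ d * aeval (a / b) p := by
  rw [aeval_eq_sum_range' (Nat.lt_succ_of_le hp), Finset.mul_sum]
  refine Finset.sum_congr rfl fun k hk => ?_
  have hk' : k ≤ d := Nat.lt_succ_iff.1 (Finset.mem_range.1 hk)
  obtain ⟨j, rfl⟩ := Nat.exists_eq_add_of_le hk'
  rw [Nat.add_sub_cancel_left, mul_smul_comm, div_pow, pow_add]
  congr 1
  field_simp

/-- The substitution `g ↦ (1 + ε t) ^ n g (t / (1 + ε t))`. -/
noncomputable def M (n : ℕ) (ε : ℝ) : ℝ[X] →ₗ[ℝ] ℝ[X] :=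
  ∑ k ∈ Finset.range (n + 1), (lcoeff ℝ k).smulRight (X ^ k * (1 + C ε * X) ^ (n - k))

theorem M_apply (n : ℕ) (ε : ℝ) (g : ℝ[X]) : M n ε g =
    ∑ k ∈ Finset.range (n + 1), g.coeff k • (X ^ k * (1 + C ε * X) ^ (n - k)) := by
  simp [M, LinearMap.sum_apply]

theorem natDegree_M_le (n : ℕ) (ε : ℝ) (g : ℝ[X]) : (M n ε g).natDegree ≤ n := by
  rw [M_apply]
  refine natDegree_sum_le_of_forall_le _ _ fun k hk => (natDegree_smul_le _ _).trans ?_
  have hk' : k ≤ n := Nat.lt_succ_iff.1 (Finset.mem_range.1 hk)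
  have h1 : (1 + C ε * X : ℝ[X]).natDegree ≤ 1 := by compute_degree
  have h2 := natDegree_pow_le_of_le (n - k) h1
  refine natDegree_mul_le.trans ?_
  rw [natDegree_X_pow]; omega

theorem M_spec {ε : ℝ} (hε : 0 < ε) {n : ℕ} {g : ℝ[X]} (hg : D n g) :
    (M n ε g).Splits ∧ (∀ k, 0 ≤ (M n ε g).coeff k) ∧ 0 < (M n ε g).coeff n := by
  obtain ⟨h1, h2, h3, -, h5⟩ := D_spec hg
  have hX : ∀ k, 0 ≤ (X : ℝ[X]).coeff k := by simpa using coeff_X_add_C_nonneg le_rfl
  have hY : ∀ k, 0 ≤ (1 + C ε * X : ℝ[X]).coeff k := fun k => by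
    rw [coeff_add, coeff_C_mul, coeff_one]
    have := hX k
    split_ifs <;> positivity
  refine ⟨splits_of_upper fun z hz h0 => ?_, fun k => ?_, ?_⟩
  · have hb : (1 + ε * z : ℂ) ≠ 0 := fun h => by
      have := congrArg Complex.im h
      simp [hε.ne', hz.ne'] at this
    have e : aeval z (M n ε g) = (1 + ε * z) ^ n * aeval (z / (1 + ε * z)) g := by
      rw [← homog h3 z hb, M_apply, map_sum]
      simp
    rw [e] at h0
    refine absurd h0 (mul_ne_zero (pow_ne_zero _ hb) (aeval_ne_zero h1 h5 ?_))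
    have e2 : (z / (1 + ε * z)).im = z.im / Complex.normSq (1 + ε * z) := by
      rw [Complex.div_im]; simp; ring
    rw [e2]
    exact (div_pos hz (Complex.normSq_pos.2 hb)).ne'
  · rw [M_apply, finsetSum_coeff]
    refine Finset.sum_nonneg fun j _ => ?_
    rw [coeff_smul]
    exact mul_nonneg (h2 j) (coeff_mul_nonneg (coeff_pow_nonneg hX j) (coeff_pow_nonneg hY _) k)
  · have e : ∀ k ≤ n, (X ^ k * (1 + C ε * X) ^ (n - k) : ℝ[X]).coeff n = ε ^ (n - k) := by
      intro k hk
      obtain ⟨j, rfl⟩ := Nat.exists_eq_add_of_le hk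
      have h1 : (1 + C ε * X : ℝ[X]).natDegree ≤ 1 := by compute_degree
      have h6 := coeff_pow_of_natDegree_le (m := j) h1
      rw [Nat.add_sub_cancel_left, add_comm k j, coeff_X_pow_mul]
      simpa [coeff_one] using h6
    rw [M_apply, finsetSum_coeff]
    refine Finset.sum_pos' (fun j hj => ?_) ⟨g.natDegree, Finset.mem_range.2 (by omega), ?_⟩
    · rw [coeff_smul, e j (Nat.lt_succ_iff.1 (Finset.mem_range.1 hj))]
      exact mul_nonneg (h2 j) (by positivity)
    · rw [coeff_smul, e _ h3]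
      exact mul_pos (lt_of_le_of_ne (h2 _) (leadingCoeff_ne_zero.2 h5).symm) (by positivity)

/-- The smoothing operator. -/
noncomputable def V (n : ℕ) (ε : ℝ) : ℝ[X] →ₗ[ℝ] ℝ[X] := (A ε ^ n) ∘ₗ M n ε

theorem V_spec {ε : ℝ} (hε : 0 < ε) {n : ℕ} {g : ℝ[X]} (hg : D n g) :
    (V n ε g).Splits ∧ (∀ k, 0 ≤ (V n ε g).coeff k) ∧
    ∃ (c : ℝ) (s : Finset ℝ), c ≠ 0 ∧ s.card = n ∧ (∀ x ∈ s, x < 0) ∧
      V n ε g = C c * ∏ x ∈ s, (X - C x) := by
  obtain ⟨m1, m2, m3⟩ := M_spec hε hg
  obtain ⟨h1, h2, h3, h4, h5, h6⟩ := pow_A hε m1 m2 (natDegree_M_le n ε g) m3 n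
  change ((A ε ^ n) (M n ε g)).Splits ∧ (∀ k, 0 ≤ ((A ε ^ n) (M n ε g)).coeff k) ∧
    ∃ (c : ℝ) (s : Finset ℝ), c ≠ 0 ∧ s.card = n ∧ (∀ x ∈ s, x < 0) ∧
      (A ε ^ n) (M n ε g) = C c * ∏ x ∈ s, (X - C x)
  generalize (A ε ^ n) (M n ε g) = p at h1 h2 h3 h4 h5 h6
  have h0 : p ≠ 0 := fun h => by simp [h] at h4
  have hnd : p.roots.Nodup := Multiset.nodup_iff_count_le_one.2 fun x => by
    rw [count_roots]; simpa using h6 x
  refine ⟨h1, h2, p.leadingCoeff, ⟨p.roots, hnd⟩, leadingCoeff_ne_zero.2 h0, ?_, fun x hx => ?_,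
    h1.eq_prod_roots⟩
  · change p.roots.card = n
    rw [← h1.natDegree_eq_card_roots]
    exact le_antisymm h3 (le_natDegree_of_ne_zero h4.ne')
  · have hx0 : p.eval x = 0 := (mem_roots'.1 hx).2
    rcases lt_trichotomy x 0 with h | h | h
    · exact h
    · rw [h, ← coeff_zero_eq_eval_zero] at hx0
      rw [Nat.sub_self, hx0] at h5
      exact absurd h5 (lt_irrefl _)
    · exact absurd hx0 (eval_pos_of_coeff_nonneg h2 h0 h).ne'

theorem natDegree_V_le (n : ℕ) (ε : ℝ) (g : ℝ[X]) : (V n ε g).natDegree ≤ n := by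
  have : ∀ j, ((A ε ^ j) (M n ε g)).natDegree ≤ n := by
    intro j
    induction j with
    | zero => exact natDegree_M_le n ε g
    | succ j ih =>
      rw [pow_succ', Module.End.mul_apply]
      refine natDegree_le_iff_coeff_eq_zero.2 fun k hk => ?_
      rw [coeff_A, coeff_eq_zero_of_natDegree_lt (by omega),
        coeff_eq_zero_of_natDegree_lt (by omega)]
      simp
  exact this n

theorem V_zero {n : ℕ} {g : ℝ[X]} (hg : g.natDegree ≤ n) : V n 0 g = g := by
  have h1 : A 0 = 1 := by simp [A]; rfl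
  have h2 : M n 0 g = g := by
    rw [M_apply]
    conv_rhs => rw [g.as_sum_range' _ (Nat.lt_succ_of_le hg)]
    refine Finset.sum_congr rfl fun k _ => ?_
    simp [← C_mul_X_pow_eq_monomial, C_mul']
  simp [V, h1, h2]

theorem continuous_coeff_V (n : ℕ) (g : ℝ[X]) (k : ℕ) :
    Continuous fun ε : ℝ => (V n ε g).coeff k := by
  have h1 : ∀ m k, Continuous fun ε : ℝ => ((1 + C ε * X : ℝ[X]) ^ m).coeff k := by
    intro m
    induction m with
    | zero => intro k; simpa using continuous_const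
    | succ m ih =>
      intro k
      simp only [pow_succ, mul_add, mul_one, mul_left_comm _ (C _), coeff_add, coeff_C_mul]
      refine (ih k).add (continuous_id.mul ?_)
      cases k with
      | zero => simpa using continuous_const
      | succ k => simpa only [coeff_mul_X] using ih k
  have h2 : ∀ k, Continuous fun ε : ℝ => (M n ε g).coeff k := by
    intro k
    simp only [M_apply, finsetSum_coeff, coeff_smul, coeff_X_pow_mul']
    refine continuous_finsetSum _ fun j _ => ?_
    split_ifs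
    · have := h1 (n - j) (k - j)
      fun_prop
    · exact continuous_const
  have h3 : ∀ j k, Continuous fun ε : ℝ => ((A ε ^ j) (M n ε g)).coeff k := by
    intro j
    induction j with
    | zero => exact h2
    | succ j ih =>
      intro k
      simp only [pow_succ', Module.End.mul_apply, coeff_A]
      exact (ih k).add (continuous_id.mul ((ih _).mul continuous_const))
  exact h3 n k

theorem hasDerivAt_prod (a b : ℝ → ℝ[X]) (s : Finset ℝ) : ∀ φ : ℝ[X] →ₗ[ℝ] ℂ,
    HasDerivAt (fun δ : ℝ => φ (∏ i ∈ s, (a i + δ • b i)))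
      (φ (∑ i ∈ s, b i * ∏ j ∈ s.erase i, a j)) 0 := by
  induction s using Finset.induction_on with
  | empty => intro φ; simpa using hasDerivAt_const _ _
  | insert i s hi ih =>
    intro φ
    have e1 : (fun δ : ℝ => φ (∏ k ∈ insert i s, (a k + δ • b k))) = fun δ : ℝ =>
        (φ ∘ₗ LinearMap.mulLeft ℝ (a i)) (∏ k ∈ s, (a k + δ • b k)) +
        δ • (φ ∘ₗ LinearMap.mulLeft ℝ (b i)) (∏ k ∈ s, (a k + δ • b k)) := by
      funext δ
      rw [Finset.prod_insert hi, add_mul, map_add, smul_mul_assoc, map_smul]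
      rfl
    have e2 : ∑ k ∈ insert i s, b k * ∏ j ∈ (insert i s).erase k, a j =
        a i * ∑ k ∈ s, b k * ∏ j ∈ s.erase k, a j + b i * ∏ j ∈ s, a j := by
      rw [Finset.sum_insert hi, Finset.erase_insert hi, add_comm, Finset.mul_sum]
      congr 1
      refine Finset.sum_congr rfl fun k hk => ?_
      have hki : i ≠ k := fun h => hi (h ▸ hk)
      rw [Finset.erase_insert_of_ne hki,
        Finset.prod_insert (fun h => hi (Finset.mem_of_mem_erase h))]
      ring
    rw [e1, e2, map_add]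
    refine (ih _).add ?_
    have := (hasDerivAt_id' (0 : ℝ)).fun_smul (ih (φ ∘ₗ LinearMap.mulLeft ℝ (b i)))
    simpa using this

/-- If a member of the class kills a polynomial with `n` simple negative roots, all its values on
degree at most `n` are real-rooted. -/
theorem tangent (T : ℝ[X] →ₗ[ℝ] ℝ[X])
    (hT : ∀ f : ℝ[X], f.Splits → (∀ k, 0 ≤ f.coeff k) → (T f).Splits) (s : Finset ℝ)
    (hs : ∀ x ∈ s, x < 0) (h0 : T (∏ x ∈ s, (X - C x)) = 0) {h : ℝ[X]}
    (hh : h.natDegree ≤ s.card) : (T h).Splits := by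
  have hmon : (∏ x ∈ s, (X - C x) : ℝ[X]).Monic :=
    monic_prod_of_monic _ _ fun x _ => monic_X_sub_C x
  have hdeg : (∏ x ∈ s, (X - C x) : ℝ[X]).natDegree = s.card :=
    natDegree_finsetProd_X_sub_C_eq_card s id
  set r : ℝ[X] := h - C (h.coeff s.card) * ∏ x ∈ s, (X - C x) with hr
  have hrd : r.degree < s.card := by
    rw [degree_lt_iff_coeff_zero]
    intro m hm
    rw [hr, coeff_sub, coeff_C_mul]
    rcases hm.eq_or_lt with rfl | hm
    · rw [← hdeg, hmon.coeff_natDegree]; simp
    · rw [coeff_eq_zero_of_natDegree_lt (hh.trans_lt hm),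
        coeff_eq_zero_of_natDegree_lt (hdeg.trans_lt hm)]
      simp
  let β : ℝ → ℝ := fun i => r.eval i * ∏ j ∈ s.erase i, (i - j)⁻¹
  have hL : r = ∑ i ∈ s, C (β i) * ∏ j ∈ s.erase i, (X - C j) := by
    conv_lhs => rw [Lagrange.eq_interpolate (v := id) (Set.injOn_id _) hrd]
    rw [Lagrange.interpolate_apply]
    refine Finset.sum_congr rfl fun i _ => ?_
    simp only [Lagrange.basis, Lagrange.basisDivisor, id, β, Finset.prod_mul_distrib, C_mul,
      map_prod, mul_assoc]
  have hTh : T h = T r := by rw [hr, map_sub, C_mul', map_smul, h0]; simp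
  rw [hTh]
  refine splits_of_tendsto (l := 𝓝[≠] (0 : ℝ))
    (p := fun δ => δ⁻¹ • T (∏ i ∈ s, (X - C i + δ • C (β i)))) ?_ fun z => ?_
  · have : ∀ᶠ δ in 𝓝 (0 : ℝ), ∀ i ∈ s, 0 < -i + δ * β i := by
      rw [eventually_all_finset]
      intro i hi
      have hc : Continuous fun δ : ℝ => -i + δ * β i := by fun_prop
      exact (hc.tendsto 0).eventually (lt_mem_nhds (by simpa using hs i hi))
    filter_upwards [nhdsWithin_le_nhds this] with δ hδ
    have e : ∀ i, (X - C i + δ • C (β i) : ℝ[X]) = X + C (-i + δ * β i) := fun i => by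
      rw [smul_C, C_add, C_neg, smul_eq_mul]; ring
    rw [← C_mul']
    simp only [e]
    refine (Splits.C _).mul (hT _ (Splits.prod fun i _ => Splits.X_add_C _) ?_)
    exact Finset.prod_induction _ (fun p : ℝ[X] => ∀ k, 0 ≤ p.coeff k)
      (fun _ _ ha hb => coeff_mul_nonneg ha hb) (coeff_pow_nonneg (f := 0) (by simp) 0)
      (fun i hi => coeff_X_add_C_nonneg (hδ i hi).le)
  · have := (hasDerivAt_prod (fun i => X - C i) (fun i => C (β i)) s
      ((aeval z : ℝ[X] →ₐ[ℝ] ℂ).toLinearMap ∘ₗ T)).tendsto_slope_zero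
    rw [← hL] at this
    simpa [h0] using this

end Pool.Agent.Lib.MP_7a4764_an.H79
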