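import Mathlib
import Pool.Agent.Lib.MP_7a4764_an.H79Smooth

set_option autoImplicit false

/-!
Families of complex polynomials without zeros in the closed lower half plane: the value at
infinity can be moved along any path of functionals without zeros.
-/

namespace Pool.Agent.Lib.MP_7a4764_an.H79

open Polynomial Filter Topology Complex
open Pool.Agent.Lib.MP_7a4764_an Pool.Agent.Lib.MP_7a4764_an.H57

/-- Evaluation of complex polynomials as a real linear map. -/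
noncomputable def ev (z : ℂ) : ℂ[X] →ₗ[ℝ] ℂ := (leval z).restrictScalars ℝ

@[simp] theorem ev_apply (z : ℂ) (p : ℂ[X]) : ev z p = p.eval z := by simp [ev]

theorem bdd (Φ : ℝ[X] →ₗ[ℝ] ℂ[X]) (n : ℕ) (M : ℝ) :
    ∃ B : ℝ, ∀ g, D n g → ∀ z : ℂ, ‖z‖ ≤ M → ‖(Φ g).eval z‖ ≤ B := by
  have hc : Continuous fun z : ℂ => ∑ k ∈ Finset.range (n + 1), ‖(Φ (X ^ k)).eval z‖ :=
    continuous_finsetSum _ fun k _ => (Φ (X ^ k)).continuous.norm
  obtain ⟨B, hB⟩ := (isCompact_closedBall (0 : ℂ) M).bddAbove_image hc.continuousOn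
  refine ⟨B, fun g hg z hz => (norm_lin_le hg (ev z ∘ₗ Φ)).trans (hB ⟨z, by simpa using hz, ?_⟩)⟩
  simp

theorem small (K : ℝ) {δ : ℝ} (hδ : 0 < δ) : ∀ᶠ ρ in 𝓝[>] (0 : ℝ), ρ * K ≤ δ := by
  have hc : Continuous fun ρ : ℝ => ρ * K := by fun_prop
  exact nhdsWithin_le_nhds ((hc.tendsto 0).eventually (ge_mem_nhds (by simpa using hδ)))

theorem factor {ρ : ℝ} (hρ : 0 < ρ) {z : ℂ} (hz : z.im ≤ 0) :
    1 ≤ ‖1 + ρ * I * z‖ ∧ ρ * ‖z‖ ≤ ‖1 + ρ * I * z‖ := by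
  have e : ‖1 + ρ * I * z‖ ^ 2 = (1 - ρ * z.im) ^ 2 + (ρ * z.re) ^ 2 := by
    rw [Complex.sq_norm, normSq_apply]; simp; ring
  have e2 : ‖z‖ ^ 2 = z.re ^ 2 + z.im ^ 2 := by rw [Complex.sq_norm, normSq_apply]; ring
  have h1 : 0 ≤ ρ * -z.im := mul_nonneg hρ.le (by linarith)
  constructor
  · rw [← sq_le_sq₀ zero_le_one (norm_nonneg _), e]; nlinarith [sq_nonneg (ρ * z.re)]
  · rw [← sq_le_sq₀ (by positivity) (norm_nonneg _), e, mul_pow, e2]; nlinarith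

/-- The invariant of the gluing. -/
structure Inv (n : ℕ) (Ψ : ℝ[X] →ₗ[ℝ] ℂ[X]) (E : ℂ[X]) (d : ℕ) (φ : ℝ[X] →ₗ[ℝ] ℂ) : Prop where
  one_le : ∀ z : ℂ, z.im ≤ 0 → 1 ≤ ‖E.eval z‖
  low : ∃ c : ℝ, 0 < c ∧ ∀ g, D n g → ∀ z : ℂ, z.im ≤ 0 → c * ‖E.eval z‖ ≤ ‖(Ψ g).eval z‖
  far : ∀ δ : ℝ, 0 < δ → ∃ R : ℝ, ∀ g, D n g → ∀ z : ℂ, z.im ≤ 0 → R ≤ ‖z‖ →
    ‖(Ψ g).eval z - φ g * E.eval z‖ ≤ δ * ‖E.eval z‖
  degE : E.natDegree ≤ d
  lead : ∃ r : ℝ, 0 < r ∧ E.coeff d = I ^ d * r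
  deg : ∀ g, (Ψ g).natDegree ≤ d
  coef : ∀ g, D n g → (Ψ g).coeff d = φ g * E.coeff d

theorem step {n d : ℕ} {Ψ : ℝ[X] →ₗ[ℝ] ℂ[X]} {E : ℂ[X]} {φ φ' : ℝ[X] →ₗ[ℝ] ℂ}
    (h : Inv n Ψ E d φ) {c₀ : ℝ} (hc₀ : 0 < c₀) (h1 : ∀ g, D n g → c₀ ≤ ‖φ g‖)
    (h2 : ∀ g, D n g → ‖φ' g - φ g‖ ≤ c₀ / 4) (M : ℝ) {δ : ℝ} (hδ : 0 < δ) :
    ∃ (Ψ' : ℝ[X] →ₗ[ℝ] ℂ[X]) (E' : ℂ[X]), Inv n Ψ' E' (d + 1) φ' ∧
      ∀ g, D n g → ∀ z : ℂ, ‖z‖ ≤ M → ‖(Ψ' g).eval z - (Ψ g).eval z‖ ≤ δ := by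
  obtain ⟨c, hc, hlow⟩ := h.low
  obtain ⟨R, hR⟩ := h.far (c₀ / 4) (by positivity)
  obtain ⟨B, hB⟩ := bdd (Ψ + (φ' - φ).smulRight E) n M
  obtain ⟨ρ, ⟨hρ1, hρ2⟩, hρ⟩ := (((small (M * B) hδ).and
    (small (R * (c₀ / 4)) (half_pos hc))).and self_mem_nhdsWithin).exists
  replace hρ : 0 < ρ := hρ
  let Ψ' : ℝ[X] →ₗ[ℝ] ℂ[X] := Ψ + LinearMap.mulLeft ℝ (C (ρ * I : ℂ) * X) ∘ₗ
    (Ψ + (φ' - φ).smulRight E)
  have hΨ : ∀ g, Ψ' g = Ψ g + C (ρ * I : ℂ) * X * (Ψ g + C (φ' g - φ g) * E) := fun g => by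
    simp [Ψ', smul_eq_C_mul, mul_assoc]
  have hev : ∀ g z, (Ψ' g).eval z =
      (Ψ g).eval z * (1 + ρ * I * z) + (φ' g - φ g) * (ρ * I * z) * E.eval z := fun g z => by
    rw [hΨ]; simp; ring
  have hE : ∀ z : ℂ, (E + C (ρ * I : ℂ) * X * E).eval z = E.eval z * (1 + ρ * I * z) :=
    fun z => by simp; ring
  have hn : ∀ z : ℂ, ‖(ρ * I * z : ℂ)‖ = ρ * ‖z‖ := fun z => by simp [abs_of_pos hρ]
  have hdeg : ∀ p q : ℂ[X], p.natDegree ≤ d → q.natDegree ≤ d →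
      (p + C (ρ * I : ℂ) * X * q).natDegree ≤ d + 1 ∧
      (p + C (ρ * I : ℂ) * X * q).coeff (d + 1) = ρ * I * q.coeff d := by
    intro p q hp hq
    refine ⟨natDegree_add_le_of_degree_le (by omega) (natDegree_mul_le.trans ?_), ?_⟩
    · have : (C (ρ * I : ℂ) * X).natDegree ≤ 1 := by compute_degree
      omega
    · rw [coeff_add, coeff_eq_zero_of_natDegree_lt (by omega), mul_assoc, coeff_C_mul,
        coeff_X_mul, zero_add]
  have hq : ∀ g, (Ψ g + C (φ' g - φ g) * E).natDegree ≤ d := fun g =>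
    natDegree_add_le_of_degree_le (h.deg g) ((natDegree_C_mul_le _ _).trans h.degE)
  refine ⟨Ψ', E + C (ρ * I : ℂ) * X * E, ⟨fun z hz => ?_,
    ⟨min (c / 2) (c₀ / 2), by positivity, fun g hg z hz => ?_⟩, fun ε hε => ?_,
    (hdeg E E h.degE h.degE).1, ?_, fun g => ?_, fun g hg => ?_⟩, fun g hg z hz => ?_⟩
  · rw [hE, norm_mul]
    exact one_le_mul_of_one_le_of_one_le (h.one_le z hz) (factor hρ hz).1
  · obtain ⟨f1, f2⟩ := factor hρ hz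
    have e0 := h.one_le z hz
    have e1 : ‖(Ψ g).eval z‖ * ‖1 + ρ * I * z‖ - c₀ / 4 * (ρ * ‖z‖) * ‖E.eval z‖ ≤
        ‖(Ψ' g).eval z‖ := by
      have a1 : ‖(φ' g - φ g) * (ρ * I * z) * E.eval z‖ ≤ c₀ / 4 * (ρ * ‖z‖) * ‖E.eval z‖ := by
        rw [norm_mul, norm_mul, hn]
        gcongr
        exact h2 g hg
      have a2 := norm_sub_norm_le ((Ψ g).eval z * (1 + ρ * I * z))
        (-((φ' g - φ g) * (ρ * I * z) * E.eval z))
      rw [sub_neg_eq_add, norm_neg, norm_mul, ← hev] at a2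
      linarith
    rw [hE, norm_mul]
    refine le_trans ?_ e1
    rcases le_total R ‖z‖ with hz2 | hz2
    · have a1 := hR g hg z hz hz2
      have a2 := norm_sub_norm_le (φ g * E.eval z) ((Ψ g).eval z)
      rw [norm_sub_rev, norm_mul] at a2
      have a3 : c₀ * ‖E.eval z‖ ≤ ‖φ g‖ * ‖E.eval z‖ := by gcongr; exact h1 g hg
      have a4 : 3 * c₀ / 4 * ‖E.eval z‖ * ‖1 + ρ * I * z‖ ≤ ‖(Ψ g).eval z‖ * ‖1 + ρ * I * z‖ :=
        mul_le_mul_of_nonneg_right (by linarith) (norm_nonneg _)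
      have a5 : c₀ / 4 * (ρ * ‖z‖) * ‖E.eval z‖ ≤ c₀ / 4 * ‖1 + ρ * I * z‖ * ‖E.eval z‖ := by
        gcongr
      have a6 : min (c / 2) (c₀ / 2) * (‖E.eval z‖ * ‖1 + ρ * I * z‖) ≤
          c₀ / 2 * (‖E.eval z‖ * ‖1 + ρ * I * z‖) := by gcongr; exact min_le_right _ _
      linarith
    · have a4 : c * ‖E.eval z‖ * ‖1 + ρ * I * z‖ ≤ ‖(Ψ g).eval z‖ * ‖1 + ρ * I * z‖ :=
        mul_le_mul_of_nonneg_right (hlow g hg z hz) (norm_nonneg _)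
      have a3 : c₀ / 4 * (ρ * ‖z‖) ≤ c / 2 * ‖1 + ρ * I * z‖ := by
        have b1 : c₀ / 4 * (ρ * ‖z‖) ≤ c₀ / 4 * (ρ * R) := by gcongr
        have b2 : c / 2 * 1 ≤ c / 2 * ‖1 + ρ * I * z‖ := by gcongr
        linarith
      have a5 := mul_le_mul_of_nonneg_right a3 (norm_nonneg (E.eval z))
      have a6 : min (c / 2) (c₀ / 2) * (‖E.eval z‖ * ‖1 + ρ * I * z‖) ≤
          c / 2 * (‖E.eval z‖ * ‖1 + ρ * I * z‖) := by gcongr; exact min_le_left _ _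
      linarith
  · obtain ⟨R', hR'⟩ := h.far (ε / 2) (by positivity)
    refine ⟨max R' (c₀ / (2 * ε * ρ)), fun g hg z hz hz2 => ?_⟩
    obtain ⟨-, f2⟩ := factor hρ hz
    have e1 : (Ψ' g).eval z - φ' g * (E + C (ρ * I : ℂ) * X * E).eval z =
        ((Ψ g).eval z - φ g * E.eval z) * (1 + ρ * I * z) - (φ' g - φ g) * E.eval z := by
      rw [hev, hE]; ring
    rw [e1, hE, norm_mul]
    refine (norm_sub_le _ _).trans ?_
    rw [norm_mul, norm_mul]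
    have a1 := mul_le_mul_of_nonneg_right (hR' g hg z hz ((le_max_left _ _).trans hz2))
      (norm_nonneg (1 + ρ * I * z))
    have a2 : c₀ / 4 ≤ ε / 2 * ‖1 + ρ * I * z‖ := by
      have b1 := (le_max_right _ _).trans hz2
      rw [div_le_iff₀ (by positivity)] at b1
      have b2 : ε / 2 * (ρ * ‖z‖) ≤ ε / 2 * ‖1 + ρ * I * z‖ := by gcongr
      linarith
    have a3 := mul_le_mul_of_nonneg_right ((h2 g hg).trans a2) (norm_nonneg (E.eval z))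
    linarith
  · obtain ⟨r, hr, hr2⟩ := h.lead
    refine ⟨ρ * r, by positivity, ?_⟩
    rw [(hdeg E E h.degE h.degE).2, hr2]; push_cast; ring
  · rw [hΨ]; exact (hdeg _ _ (h.deg g) (hq g)).1
  · rw [hΨ, (hdeg _ _ (h.deg g) (hq g)).2, (hdeg E E h.degE h.degE).2, coeff_add, coeff_C_mul,
      h.coef g hg]
    ring
  · have e1 : (Ψ' g).eval z - (Ψ g).eval z =
        ρ * I * z * ((Ψ + (φ' - φ).smulRight E) g).eval z := by
      rw [hev]; simp; ring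
    rw [e1, norm_mul, hn]
    have a1 := hB g hg z hz
    have a2 : 0 ≤ M := (norm_nonneg _).trans hz
    calc _ ≤ ρ * M * B := by gcongr
      _ ≤ δ := by linarith

/-- The functional `φ` is the value at infinity of families arbitrarily close to `Ψ₀`. -/
def Reach (n : ℕ) (Ψ₀ : ℝ[X] →ₗ[ℝ] ℂ[X]) (φ : ℝ[X] →ₗ[ℝ] ℂ) : Prop :=
  ∀ (M δ : ℝ), 0 < δ → ∀ j : ℕ, ∃ (Ψ : ℝ[X] →ₗ[ℝ] ℂ[X]) (E : ℂ[X]) (d : ℕ),
    I ^ d = I ^ j ∧ Inv n Ψ E d φ ∧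
      ∀ g, D n g → ∀ z : ℂ, ‖z‖ ≤ M → ‖(Ψ g).eval z - (Ψ₀ g).eval z‖ ≤ δ

theorem Reach.step {n : ℕ} {Ψ₀ : ℝ[X] →ₗ[ℝ] ℂ[X]} {φ φ' : ℝ[X] →ₗ[ℝ] ℂ} (h : Reach n Ψ₀ φ)
    {c₀ : ℝ} (hc₀ : 0 < c₀) (h1 : ∀ g, D n g → c₀ ≤ ‖φ g‖)
    (h2 : ∀ g, D n g → ‖φ' g - φ g‖ ≤ c₀ / 4) : Reach n Ψ₀ φ' := by
  intro M δ hδ j
  obtain ⟨Ψ, E, d, a1, a2, a3⟩ := h M (δ / 2) (half_pos hδ) (j + 3)
  obtain ⟨Ψ', E', b2, b3⟩ := H79.step a2 hc₀ h1 h2 M (half_pos hδ)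
  refine ⟨Ψ', E', d + 1, ?_, b2, fun g hg z hz => ?_⟩
  · rw [pow_succ, a1, ← pow_succ, add_assoc, pow_add, I_pow_four, mul_one]
  · have := norm_sub_le_norm_sub_add_norm_sub ((Ψ' g).eval z) ((Ψ g).eval z) ((Ψ₀ g).eval z)
    linarith [a3 g hg z hz, b3 g hg z hz]

theorem Inv.reach {n d : ℕ} {Ψ₀ : ℝ[X] →ₗ[ℝ] ℂ[X]} {E : ℂ[X]} {φ : ℝ[X] →ₗ[ℝ] ℂ}
    (h : Inv n Ψ₀ E d φ) {c₀ : ℝ} (hc₀ : 0 < c₀) (h1 : ∀ g, D n g → c₀ ≤ ‖φ g‖) :
    Reach n Ψ₀ φ := by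
  intro M δ hδ j
  have key : ∀ (i : ℕ) (δ : ℝ), 0 < δ → ∃ (Ψ : ℝ[X] →ₗ[ℝ] ℂ[X]) (E : ℂ[X]),
      Inv n Ψ E (d + i) φ ∧
      ∀ g, D n g → ∀ z : ℂ, ‖z‖ ≤ M → ‖(Ψ g).eval z - (Ψ₀ g).eval z‖ ≤ δ := by
    intro i
    induction i with
    | zero => exact fun δ hδ => ⟨Ψ₀, E, h, fun g _ z _ => by simpa using hδ.le⟩
    | succ i ih =>
      intro δ hδ
      obtain ⟨Ψ, E, a2, a3⟩ := ih (δ / 2) (half_pos hδ)
      obtain ⟨Ψ', E', b2, b3⟩ := H79.step (φ' := φ) a2 hc₀ h1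
        (fun g _ => by simpa using by positivity) M (half_pos hδ)
      refine ⟨Ψ', E', b2, fun g hg z hz => ?_⟩
      have := norm_sub_le_norm_sub_add_norm_sub ((Ψ' g).eval z) ((Ψ g).eval z) ((Ψ₀ g).eval z)
      linarith [a3 g hg z hz, b3 g hg z hz]
  obtain ⟨Ψ, E, a2, a3⟩ := key (3 * d + j) δ hδ
  refine ⟨Ψ, E, _, ?_, a2, a3⟩
  rw [show d + (3 * d + j) = 4 * d + j by ring, pow_add, pow_mul, I_pow_four, one_pow, one_mul]

theorem continuous_L_pow (k : ℕ) : ∀ φ : ℝ[X] →ₗ[ℝ] ℂ, Continuous fun s : ℝ => φ (L s ^ k) := by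
  induction k with
  | zero => intro φ; simpa using continuous_const
  | succ k ih =>
    intro φ
    have h : ∀ s : ℝ, φ (L s ^ (k + 1)) =
        s • (φ ∘ₗ LinearMap.mulLeft ℝ X) (L s ^ k) + (1 - s) • φ (L s ^ k) := by
      intro s
      rw [pow_succ']
      nth_rewrite 1 [L]
      rw [add_mul, map_add, mul_assoc, C_mul', C_mul', map_smul, map_smul]
      rfl
    simp_rw [h]
    have h1 := ih (φ ∘ₗ LinearMap.mulLeft ℝ X)
    have h2 := ih φ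
    exact (continuous_id.smul h1).add ((continuous_const.sub continuous_id).smul h2)

theorem D_comp {n : ℕ} {g : ℝ[X]} (hg : D n g) {s : ℝ} (hs : s ∈ Set.Icc (0 : ℝ) 1) :
    D n (aeval (L s) g) := by
  obtain ⟨S, rfl, hS, rfl⟩ := hg
  refine ⟨S.map (fun p => p * s), by simp, fun x hx => ?_, ?_⟩
  · obtain ⟨p, hp, rfl⟩ := Multiset.mem_map.1 hx
    exact ⟨mul_nonneg (hS p hp).1 hs.1, mul_le_one₀ (hS p hp).2 hs.1 hs.2⟩
  · rw [P, P, map_multiset_prod, Multiset.map_map, Multiset.map_map]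
    congr 1
    refine Multiset.map_congr rfl fun p _ => ?_
    simp only [Function.comp, L, map_add, map_mul, aeval_C, aeval_X, algebraMap_eq, map_sub,
      map_one]
    ring

/-- The contraction to evaluation at `1`. -/
theorem Reach.contract {n : ℕ} {Ψ₀ : ℝ[X] →ₗ[ℝ] ℂ[X]} {φ : ℝ[X] →ₗ[ℝ] ℂ} (h : Reach n Ψ₀ φ)
    {c₀ : ℝ} (hc₀ : 0 < c₀) (h1 : ∀ g, D n g → c₀ ≤ ‖φ g‖) :
    Reach n Ψ₀ (φ ∘ₗ (aeval (L 0) : ℝ[X] →ₐ[ℝ] ℝ[X]).toLinearMap) := by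
  let ψ : ℝ → ℝ[X] →ₗ[ℝ] ℂ := fun s => φ ∘ₗ (aeval (L s) : ℝ[X] →ₐ[ℝ] ℝ[X]).toLinearMap
  have hlow : ∀ s ∈ Set.Icc (0 : ℝ) 1, ∀ g, D n g → c₀ ≤ ‖ψ s g‖ :=
    fun s hs g hg => h1 _ (D_comp hg hs)
  have key : Reach n Ψ₀ (ψ 1) → Reach n Ψ₀ (ψ 0) := by
    refine isPreconnected_Icc.induction₂' (fun s t => Reach n Ψ₀ (ψ s) → Reach n Ψ₀ (ψ t))
      (fun s hs => ?_) (fun _ _ _ _ _ _ a b => b ∘ a) (Set.right_mem_Icc.2 zero_le_one)
      (Set.left_mem_Icc.2 zero_le_one)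
    have hc : Continuous fun t : ℝ =>
        ∑ k ∈ Finset.range (n + 1), ‖φ (L t ^ k) - φ (L s ^ k)‖ :=
      continuous_finsetSum _ fun k _ => ((continuous_L_pow k φ).sub continuous_const).norm
    have hev : ∀ᶠ t in 𝓝 s,
        ∑ k ∈ Finset.range (n + 1), ‖φ (L t ^ k) - φ (L s ^ k)‖ ≤ c₀ / 4 :=
      (hc.tendsto s).eventually (ge_mem_nhds (by simpa using hc₀))
    filter_upwards [nhdsWithin_le_nhds hev, self_mem_nhdsWithin] with t ht ht'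
    have hcl : ∀ g, D n g → ‖ψ t g - ψ s g‖ ≤ c₀ / 4 := fun g hg =>
      (norm_lin_le hg (ψ t - ψ s)).trans (by simpa [ψ] using ht)
    exact ⟨fun a => a.step hc₀ (hlow s hs) hcl,
      fun a => a.step hc₀ (hlow t ht') fun g hg => by rw [norm_sub_rev]; exact hcl g hg⟩
  refine key ?_
  have : ψ 1 = φ := LinearMap.ext fun g => by simp [ψ]
  rwa [this]

/-- The coefficientwise real part. -/
noncomputable def RP : ℂ[X] →ₗ[ℝ] ℝ[X] := lsum fun k => monomial k ∘ₗ reLm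

theorem RP_monomial (k : ℕ) (a : ℂ) : RP (monomial k a) = monomial k a.re := by
  simp [RP, lsum_apply, sum_monomial_index]

theorem coeff_RP (p : ℂ[X]) (k : ℕ) : (RP p).coeff k = (p.coeff k).re := by
  induction p using Polynomial.induction_on' with
  | add p q hp hq => rw [map_add, coeff_add, coeff_add, hp, hq, add_re]
  | monomial j a => rw [RP_monomial, coeff_monomial, coeff_monomial]; split_ifs <;> simp

theorem aeval_RP (p : ℂ[X]) (z : ℂ) :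
    aeval z (RP p) = (p.eval z + (starRingEnd ℂ) (p.eval ((starRingEnd ℂ) z))) / 2 := by
  induction p using Polynomial.induction_on' with
  | add p q hp hq => rw [map_add, map_add, hp, hq, eval_add, eval_add, map_add]; ring
  | monomial j a =>
    rw [RP_monomial, aeval_monomial, eval_monomial, eval_monomial, map_mul, map_pow,
      conj_conj, coe_algebraMap, re_eq_add_conj]
    ring

/-- The easy half of the Hermite-Biehler theorem. -/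
theorem splits_RP {p : ℂ[X]} (hp : ∀ z : ℂ, z.im ≤ 0 → p.eval z ≠ 0) : (RP p).Splits := by
  refine splits_of_upper fun z hz h0 => ?_
  have key : ∀ R : Multiset ℂ, (∀ a ∈ R, 0 < a.im) →
      0 < ‖(R.map fun a => (starRingEnd ℂ) z - a).prod‖ ∧
      ‖(R.map fun a => z - a).prod‖ ≤ ‖(R.map fun a => (starRingEnd ℂ) z - a).prod‖ ∧
      (R ≠ 0 → ‖(R.map fun a => z - a).prod‖ < ‖(R.map fun a => (starRingEnd ℂ) z - a).prod‖) := by
    intro R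
    induction R using Multiset.induction_on with
    | empty => simp
    | cons a R ih =>
      intro hR
      obtain ⟨b1, b2, -⟩ := ih fun b hb => hR b (Multiset.mem_cons_of_mem hb)
      have ha := hR a (Multiset.mem_cons_self _ _)
      have b3 : ‖z - a‖ < ‖(starRingEnd ℂ) z - a‖ := by
        rw [← sq_lt_sq₀ (norm_nonneg _) (norm_nonneg _), Complex.sq_norm, Complex.sq_norm,
          normSq_apply, normSq_apply]
        simp
        nlinarith [mul_pos hz ha]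
      simp only [Multiset.map_cons, Multiset.prod_cons, norm_mul]
      have b5 : ‖z - a‖ * ‖(R.map fun a => z - a).prod‖ <
          ‖(starRingEnd ℂ) z - a‖ * ‖(R.map fun a => (starRingEnd ℂ) z - a).prod‖ :=
        (mul_le_mul_of_nonneg_left b2 (norm_nonneg _)).trans_lt (mul_lt_mul_of_pos_right b3 b1)
      exact ⟨mul_pos ((norm_nonneg _).trans_lt b3) b1, b5.le, fun _ => b5⟩
  have hp0 : p ≠ 0 := fun h => hp 0 le_rfl (by simp [h])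
  have hs := IsAlgClosed.splits p
  by_cases hR : p.roots = 0
  · have e : p = monomial 0 p.leadingCoeff := by
      conv_lhs => rw [hs.eq_prod_roots, hR]
      simp
    rw [e, RP_monomial] at h0 ⊢
    have : p.leadingCoeff.re = 0 := by simpa using h0
    rw [this, map_zero]
  · exfalso
    have b := (key p.roots fun a ha => not_le.1 fun h => hp a h (mem_roots'.1 ha).2).2.2 hR
    rw [aeval_RP, div_eq_zero_iff] at h0
    have e1 : ‖p.eval z‖ = ‖p.eval ((starRingEnd ℂ) z)‖ := by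
      rw [eq_neg_of_add_eq_zero_left (h0.resolve_right two_ne_zero), norm_neg, norm_conj]
    rw [hs.eval_eq_prod_roots, hs.eval_eq_prod_roots, norm_mul, norm_mul] at e1
    exact b.ne (mul_left_cancel₀ (norm_ne_zero_iff.2 (leadingCoeff_ne_zero.2 hp0)) e1)

end Pool.Agent.Lib.MP_7a4764_an.H79
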