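import Mathlib
import Pool.Agent.Lib.MP_7a4764_an.H79Glue

set_option autoImplicit false

/-!
Approximation of the members of the class by translates of maps with nonnegative matrix.
-/

namespace Pool.Agent.Lib.MP_7a4764_an.H79

open Polynomial Filter Topology Complex
open Pool.Agent.Lib.MP_7a4764_an Pool.Agent.Lib.MP_7a4764_an.H57

theorem tube {F : ℝ × ℂ → ℝ} (hF : Continuous F) (h0 : ∀ z, F (0, z) = 0) (M : ℝ) {δ : ℝ}
    (hδ : 0 < δ) : ∀ᶠ η in 𝓝 (0 : ℝ), ∀ z : ℂ, ‖z‖ ≤ M → F (η, z) ≤ δ := by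
  have := (isCompact_closedBall (0 : ℂ) M).eventually_forall_of_forall_eventually
    (x₀ := (0 : ℝ)) (P := fun η z => F (η, z) ≤ δ) (fun z _ =>
      (hF.tendsto (0, z)).eventually (ge_mem_nhds (by rw [h0]; exact hδ)))
  exact this.mono fun η hη z hz => hη z (by simpa using hz)

/-- The complex lift through a Moebius map. -/
noncomputable def lift (T : ℝ[X] →ₗ[ℝ] ℝ[X]) (d : ℕ) (a : ℂ) : ℝ[X] →ₗ[ℝ] ℂ[X] :=
  ∑ j ∈ Finset.range (d + 1), (lcoeff ℝ j ∘ₗ T).smulRight ((X - C a) ^ j * (1 + C a * X) ^ (d - j))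

theorem lift_apply (T : ℝ[X] →ₗ[ℝ] ℝ[X]) (d : ℕ) (a : ℂ) (g : ℝ[X]) : lift T d a g =
    ∑ j ∈ Finset.range (d + 1), (T g).coeff j • ((X - C a) ^ j * (1 + C a * X) ^ (d - j)) := by
  simp [lift, LinearMap.sum_apply]

theorem eval_lift (T : ℝ[X] →ₗ[ℝ] ℝ[X]) (d : ℕ) (a : ℂ) (g : ℝ[X]) (z : ℂ) :
    (lift T d a g).eval z =
      ∑ j ∈ Finset.range (d + 1), (T g).coeff j • ((z - a) ^ j * (1 + a * z) ^ (d - j)) := by
  rw [lift_apply, eval_finsetSum]
  simp

theorem inv_lift (T : ℝ[X] →ₗ[ℝ] ℝ[X]) {n d : ℕ} (hd : ∀ g, D n g → (T g).natDegree ≤ d)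
    (hT : ∀ g, D n g → (T g).Splits ∧ T g ≠ 0) {η : ℝ} (hη : 0 < η) (hη1 : η ≤ 1) :
    Inv n (lift T d (η * I)) ((1 + C (η * I : ℂ) * X) ^ d) d
      ((aeval (1 / (η * I) : ℂ) : ℝ[X] →ₐ[ℝ] ℂ).toLinearMap ∘ₗ T) ∧
    ∃ c₀ : ℝ, 0 < c₀ ∧ ∀ g, D n g → c₀ ≤ ‖aeval (1 / (η * I) : ℂ) (T g)‖ := by
  have ha : (η * I : ℂ) ≠ 0 := mul_ne_zero (ofReal_ne_zero.2 hη.ne') I_ne_zero
  have hw₀ : (1 / (η * I) : ℂ) = ((-η⁻¹ : ℝ) : ℂ) * I := by
    rw [div_eq_iff ha]
    have : (η : ℂ) ≠ 0 := ofReal_ne_zero.2 hη.ne'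
    push_cast
    field_simp
    simp
  have hinv : η ≤ η⁻¹ := hη1.trans (one_le_inv₀ hη |>.2 hη1)
  let W : Set ℂ := Metric.closedBall (1 / (η * I) : ℂ) η⁻¹ ∩ {w | w.im ≤ -η}
  have hW : IsCompact W :=
    (isCompact_closedBall _ _).inter_right (isClosed_le continuous_im continuous_const)
  obtain ⟨c, hc, hcW⟩ : ∃ c : ℝ, 0 < c ∧ ∀ g, D n g → ∀ w ∈ W, c ≤ ‖aeval w (T g)‖ := by
    have hcont : Continuous fun x : (Fin n → ℝ) × ℂ =>
        ‖∑ j ∈ Finset.range (d + 1), (T (∏ i, L (x.1 i))).coeff j • x.2 ^ j‖ := by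
      refine (continuous_finsetSum _ fun j _ => ?_).norm
      exact ((continuous_lin n (lcoeff ℝ j ∘ₗ T)).comp continuous_fst).smul (continuous_snd.pow j)
    obtain ⟨c, hc, h⟩ := ((isCompact_Icc (a := (0 : Fin n → ℝ)) (b := 1)).prod
      hW).exists_forall_le' hcont.continuousOn (a := 0) (by
        rintro ⟨s, w⟩ ⟨hs, hw⟩
        have hg : D n (∏ i, L (s i)) := D_iff.2 ⟨s, hs, rfl⟩
        rw [← aeval_eq_sum_range' (Nat.lt_succ_of_le (hd _ hg))]
        have : w.im ≤ -η := hw.2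
        exact norm_pos_iff.2 (aeval_ne_zero (hT _ hg).1 (hT _ hg).2 (by linarith : w.im < 0).ne))
    refine ⟨c, hc, fun g hg w hw => ?_⟩
    obtain ⟨s, hs, rfl⟩ := D_iff.1 hg
    rw [aeval_eq_sum_range' (Nat.lt_succ_of_le (hd _ hg))]
    exact h (s, w) ⟨hs, hw⟩
  have hb : ∀ z : ℂ, z.im ≤ 0 → (1 + η * I * z : ℂ) ≠ 0 := fun z hz =>
    norm_pos_iff.1 (one_pos.trans_le (factor hη hz).1)
  have hdist : ∀ z : ℂ, z.im ≤ 0 → ‖(z - η * I) / (1 + η * I * z) - 1 / (η * I)‖ ≤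
      η⁻¹ / ‖1 + η * I * z‖ := by
    intro z hz
    have e : (z - η * I) / (1 + η * I * z) - 1 / (η * I) =
        ((η⁻¹ - η : ℝ) : ℂ) * I / (1 + η * I * z) := by
      have := hb z hz
      have h2 : (η : ℂ) ≠ 0 := ofReal_ne_zero.2 hη.ne'
      have h3 : (η : ℂ)⁻¹ * η = 1 := inv_mul_cancel₀ h2
      rw [hw₀, sub_eq_iff_eq_add, div_add' _ _ _ this]
      congr 1
      push_cast
      linear_combination (z * I ^ 2) * h3 + z * I_sq
    rw [e, norm_div, norm_mul, norm_I, mul_one, norm_real, Real.norm_eq_abs,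
      abs_of_nonneg (by linarith)]
    gcongr
    linarith
  have hmem : ∀ z : ℂ, z.im ≤ 0 → (z - η * I) / (1 + η * I * z) ∈ W := by
    intro z hz
    refine ⟨?_, ?_⟩
    · rw [mem_closedBall_iff_norm]
      exact (hdist z hz).trans (div_le_self (by positivity) (factor hη hz).1)
    · change ((z - η * I) / (1 + η * I * z)).im ≤ -η
      have hp := normSq_pos.2 (hb z hz)
      rw [div_im, ← sub_div, div_le_iff₀ hp, normSq_apply]
      simp
      have h1 : 0 ≤ 1 - η ^ 2 := by nlinarith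
      nlinarith [mul_nonneg h1 (neg_nonneg.2 hz), mul_nonneg (mul_nonneg hη.le h1) (sq_nonneg z.re),
        mul_nonneg (mul_nonneg hη.le h1) (sq_nonneg z.im)]
  have hev : ∀ g, D n g → ∀ z : ℂ, z.im ≤ 0 → (lift T d (η * I) g).eval z =
      (1 + η * I * z) ^ d * aeval ((z - η * I) / (1 + η * I * z)) (T g) := fun g hg z hz => by
    rw [eval_lift, homog (hd g hg) _ (hb z hz)]
  have hE : ∀ z : ℂ, ((1 + C (η * I : ℂ) * X) ^ d).eval z = (1 + η * I * z) ^ d := fun z => by simp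
  have h1 : (1 + C (η * I : ℂ) * X).natDegree ≤ 1 := by compute_degree
  have hco : ∀ m, ((1 + C (η * I : ℂ) * X) ^ m).coeff m = (η * I) ^ m := fun m => by
    simpa [coeff_one] using coeff_pow_of_natDegree_le (m := m) h1
  have hdg : ∀ m, ((1 + C (η * I : ℂ) * X) ^ m).natDegree ≤ m := fun m => by
    simpa using natDegree_pow_le_of_le m h1
  have hX : ∀ m, ((X - C (η * I : ℂ)) ^ m).natDegree = m := fun m => by
    rw [(monic_X_sub_C _).natDegree_pow, natDegree_X_sub_C, mul_one]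
  refine ⟨⟨fun z hz => ?_, ⟨c, hc, fun g hg z hz => ?_⟩, fun δ hδ => ?_, hdg d,
    ⟨η ^ d, by positivity, ?_⟩, fun g => ?_, fun g hg => ?_⟩, c, hc, fun g hg => hcW g hg _ ?_⟩
  · rw [hE, norm_pow]; exact one_le_pow₀ (factor hη hz).1
  · rw [hE, hev g hg z hz, norm_mul, mul_comm]
    exact mul_le_mul_of_nonneg_left (hcW g hg _ (hmem z hz)) (norm_nonneg _)
  · have hcont : Continuous fun w : ℂ => ∑ k ∈ Finset.range (n + 1),
        ‖aeval w (T (X ^ k)) - aeval (1 / (η * I) : ℂ) (T (X ^ k))‖ :=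
      continuous_finsetSum _ fun k _ => ((T (X ^ k)).continuous_aeval.sub continuous_const).norm
    obtain ⟨κ, hκ, hκ2⟩ := Metric.eventually_nhds_iff.1
      ((hcont.tendsto (1 / (η * I))).eventually_le_const (u := δ) (by simpa using hδ))
    refine ⟨2 / (κ * η * η), fun g hg z hz hz2 => ?_⟩
    rw [hE, hev g hg z hz, mul_comm _ ((1 + η * I * z : ℂ) ^ d), ← mul_sub, norm_mul, mul_comm]
    refine mul_le_mul_of_nonneg_right ?_ (norm_nonneg _)
    refine (norm_lin_le hg ((aeval ((z - η * I) / (1 + η * I * z)) :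
      ℝ[X] →ₐ[ℝ] ℂ).toLinearMap ∘ₗ T -
      (aeval (1 / (η * I) : ℂ) : ℝ[X] →ₐ[ℝ] ℂ).toLinearMap ∘ₗ T)).trans (hκ2 ?_)
    rw [dist_eq_norm]
    refine (hdist z hz).trans_lt ?_
    obtain ⟨f1, f2⟩ := factor hη hz
    rw [div_le_iff₀ (by positivity)] at hz2
    rw [div_lt_iff₀ (by positivity), inv_eq_one_div, div_lt_iff₀ hη]
    have : κ * (η * ‖z‖) * η ≤ κ * ‖1 + η * I * z‖ * η := by gcongr
    linarith
  · rw [hco]; push_cast; ring
  · rw [lift_apply]
    refine natDegree_sum_le_of_forall_le _ _ fun j hj => (natDegree_smul_le _ _).trans ?_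
    have := hdg (d - j)
    have := Finset.mem_range.1 hj
    refine natDegree_mul_le.trans ?_
    rw [hX]; omega
  · have e := homog (hd g hg) 1 ha
    rw [hco, lift_apply, finsetSum_coeff]
    refine Eq.trans (Finset.sum_congr rfl fun j hj => ?_) (e.trans (mul_comm _ _))
    have hj' : j ≤ d := Nat.lt_succ_iff.1 (Finset.mem_range.1 hj)
    have e2 := coeff_mul_add_eq_of_natDegree_le (hX j).le (hdg (d - j))
    have e3 : ((X - C (η * I : ℂ)) ^ j).coeff j = 1 := by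
      have := ((monic_X_sub_C (η * I : ℂ)).pow j).coeff_natDegree
      rwa [hX] at this
    rw [Nat.add_sub_cancel' hj', e3, hco] at e2
    rw [coeff_smul, e2, one_pow]
  · refine ⟨Metric.mem_closedBall_self (by positivity), ?_⟩
    change (1 / (η * I) : ℂ).im ≤ -η
    rw [hw₀]; simpa using hinv

theorem approx_nondeg (T : ℝ[X] →ₗ[ℝ] ℝ[X]) {n : ℕ} (hT : ∀ g, D n g → (T g).Splits ∧ T g ≠ 0)
    (M : ℝ) {δ : ℝ} (hδ : 0 < δ) :
    ∃ G : ℝ[X] →ₗ[ℝ] ℝ[X], (∀ g, D n g → (G g).Splits ∧ 0 < (G g).leadingCoeff) ∧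
      ∀ g, D n g → ∀ z : ℂ, ‖z‖ ≤ M → ‖aeval z (G g) - aeval z (T g)‖ ≤ δ := by
  let d := (Finset.range (n + 1)).sup fun k => (T (X ^ k)).natDegree
  have hdk : ∀ k ∈ Finset.range (n + 1), (T (X ^ k)).natDegree ≤ d := fun k hk =>
    Finset.le_sup (f := fun k => (T (X ^ k)).natDegree) hk
  have hd : ∀ g, D n g → (T g).natDegree ≤ d := fun g hg => by
    rw [lin_eq_sum T (D_spec hg).2.2.1]
    exact natDegree_sum_le_of_forall_le _ _ fun k hk => (natDegree_smul_le _ _).trans (hdk k hk)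
  have hcl := tube (F := fun x => ∑ k ∈ Finset.range (n + 1),
    ‖(lift T d (x.1 * I) (X ^ k)).eval x.2 - aeval x.2 (T (X ^ k))‖)
    (continuous_finsetSum _ fun k _ => by
      simp only [eval_lift]
      have := (T (X ^ k)).continuous_aeval (A := ℂ)
      fun_prop)
    (fun z => Finset.sum_eq_zero fun k hk => by
      rw [eval_lift, aeval_eq_sum_range' (Nat.lt_succ_of_le (hdk k hk))]; simp) M (half_pos hδ)
  obtain ⟨η, ⟨hη1, hη2⟩, hη⟩ := (((hcl.filter_mono (nhdsWithin_le_nhds (s := Set.Ioi 0))).and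
    (small 1 one_pos)).and self_mem_nhdsWithin).exists
  replace hη : 0 < η := hη
  obtain ⟨hinv, c₀, hc₀, hlow⟩ := inv_lift T hd hT hη (by linarith)
  have hreach := (hinv.reach hc₀ hlow).contract hc₀ hlow
  set c : ℂ := aeval (1 / (η * I) : ℂ) (T 1) with hc
  have hc0 : c ≠ 0 := norm_pos_iff.1 (hc₀.trans_le (hlow 1
    ⟨Multiset.replicate n 0, by simp, fun s hs => by simp [Multiset.eq_of_mem_replicate hs],
      by simp [P_replicate]⟩))
  obtain ⟨j, hj⟩ : ∃ j : ℕ, 0 < (c * I ^ j).re := by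
    rcases lt_trichotomy c.re 0 with h | h | h
    · exact ⟨2, by simpa using h⟩
    · rcases lt_trichotomy c.im 0 with h2 | h2 | h2
      · exact ⟨1, by simpa using h2⟩
      · exact absurd (Complex.ext h h2) hc0
      · exact ⟨3, by simpa using h2⟩
    · exact ⟨0, by simpa using h⟩
  obtain ⟨Ψ, E, e, a1, a2, a3⟩ := hreach M (δ / 2) (half_pos hδ) j
  have hclose : ∀ g, D n g → ∀ z : ℂ, ‖z‖ ≤ M → ‖(Ψ g).eval z - aeval z (T g)‖ ≤ δ := by
    intro g hg z hz
    have b1 := (norm_lin_le hg (ev z ∘ₗ lift T d (η * I) -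
      (aeval z : ℝ[X] →ₐ[ℝ] ℂ).toLinearMap ∘ₗ T)).trans (by simpa using hη1 z hz)
    have b2 := norm_sub_le_norm_sub_add_norm_sub ((Ψ g).eval z) ((lift T d (η * I) g).eval z)
      (aeval z (T g))
    have b3 : ‖(lift T d (η * I) g).eval z - aeval z (T g)‖ ≤ δ / 2 := by simpa using b1
    linarith [a3 g hg z hz]
  refine ⟨RP ∘ₗ Ψ, fun g hg => ⟨splits_RP fun z hz => ?_, ?_⟩, fun g hg z hz => ?_⟩
  · obtain ⟨c', hc', hlow'⟩ := a2.low
    have := a2.one_le z hz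
    exact norm_pos_iff.1 (lt_of_lt_of_le (by positivity) (hlow' g hg z hz))
  · obtain ⟨r, hr, hr2⟩ := a2.lead
    have b1 : aeval (L 0) g = 1 := by
      have := aeval_algebraMap_apply ℝ[X] (1 : ℝ) g
      rw [coe_aeval_eq_eval, (D_spec hg).2.2.2.1, map_one] at this
      rw [L_zero, this]
    have b2 : 0 < (RP (Ψ g)).coeff e := by
      rw [coeff_RP, a2.coef g hg, hr2, a1]
      change 0 < (aeval (1 / (η * I) : ℂ) (T (aeval (L 0) g)) * _).re
      rw [b1, ← hc, ← mul_assoc, re_mul_ofReal]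
      positivity
    have b3 : (RP (Ψ g)).natDegree ≤ e := natDegree_le_iff_coeff_eq_zero.2 fun k hk => by
      rw [coeff_RP, coeff_eq_zero_of_natDegree_lt ((a2.deg g).trans_lt hk), zero_re]
    change 0 < (RP (Ψ g)).leadingCoeff
    rwa [leadingCoeff, le_antisymm b3 (le_natDegree_of_ne_zero b2.ne')]
  · change ‖aeval z (RP (Ψ g)) - _‖ ≤ δ
    have b1 := hclose g hg z hz
    have b2 := hclose g hg ((starRingEnd ℂ) z) (by simpa using hz)
    rw [← norm_conj, map_sub, aeval_conj, conj_conj] at b2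
    have b3 : aeval z (RP (Ψ g)) - aeval z (T g) = (((Ψ g).eval z - aeval z (T g)) +
        ((starRingEnd ℂ) ((Ψ g).eval ((starRingEnd ℂ) z)) - aeval z (T g))) / 2 := by
      rw [aeval_RP]; ring
    rw [b3, norm_div, Complex.norm_two, div_le_iff₀ two_pos]
    linarith [norm_add_le ((Ψ g).eval z - aeval z (T g))
      ((starRingEnd ℂ) ((Ψ g).eval ((starRingEnd ℂ) z)) - aeval z (T g))]

theorem D_X_pow {n k : ℕ} (hk : k ≤ n) : D n (X ^ k) := by
  refine ⟨Multiset.replicate k 1 + Multiset.replicate (n - k) 0, by simp [hk], fun s hs => ?_,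
    by simp [P_add, P_replicate]⟩
  rcases Multiset.mem_add.1 hs with h | h <;> simp [Multiset.eq_of_mem_replicate h]

theorem approx_level (T : ℝ[X] →ₗ[ℝ] ℝ[X])
    (hT : ∀ f : ℝ[X], f.Splits → (∀ k, 0 ≤ f.coeff k) → (T f).Splits) {n : ℕ} {f₀ : ℝ[X]}
    (hf₀ : f₀.natDegree ≤ n) (h₀ : ¬ (T f₀).Splits) (M : ℝ) {δ : ℝ} (hδ : 0 < δ) :
    ∃ G : ℝ[X] →ₗ[ℝ] ℝ[X], (∀ g, D n g → (G g).Splits ∧ 0 < (G g).leadingCoeff) ∧
      ∀ k ≤ n, ∀ z : ℂ, ‖z‖ ≤ M → ‖aeval z (G (X ^ k)) - aeval z (T (X ^ k))‖ ≤ δ := by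
  have hV : ∀ (ε : ℝ) (g : ℝ[X]) (z : ℂ), aeval z (T (V n ε g)) =
      ∑ j ∈ Finset.range (n + 1), (V n ε g).coeff j • aeval z (T (X ^ j)) := fun ε g z =>
    lin_eq_sum ((aeval z : ℝ[X] →ₐ[ℝ] ℂ).toLinearMap ∘ₗ T) (natDegree_V_le n ε g)
  have hcl := tube (F := fun x => ∑ k ∈ Finset.range (n + 1),
    ‖aeval x.2 (T (V n x.1 (X ^ k))) - aeval x.2 (T (X ^ k))‖)
    (continuous_finsetSum _ fun k _ => by
      simp only [hV]
      refine ((continuous_finsetSum _ fun j _ => ?_).sub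
        ((T (X ^ k)).continuous_aeval.comp continuous_snd)).norm
      exact ((continuous_coeff_V n _ j).comp continuous_fst).smul
        ((T (X ^ j)).continuous_aeval.comp continuous_snd))
    (fun z => Finset.sum_eq_zero fun k hk => by
      rw [V_zero (by simpa using Nat.lt_succ_iff.1 (Finset.mem_range.1 hk))]; simp) M (half_pos hδ)
  obtain ⟨ε, hε1, hε⟩ := ((hcl.filter_mono (nhdsWithin_le_nhds (s := Set.Ioi 0))).and
    self_mem_nhdsWithin).exists
  replace hε : 0 < ε := hε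
  obtain ⟨G, hG, hG2⟩ := approx_nondeg (T ∘ₗ V n ε) (n := n) (fun g hg => by
    obtain ⟨a1, a2, c, s, hc, hs, hneg, hg2⟩ := V_spec hε hg
    refine ⟨hT _ a1 a2, fun h => h₀ (tangent T hT s hneg ?_ (hs ▸ hf₀))⟩
    rw [LinearMap.comp_apply, hg2, C_mul', map_smul] at h
    exact (smul_eq_zero.1 h).resolve_left hc) M (half_pos hδ)
  refine ⟨G, hG, fun k hk z hz => ?_⟩
  have b1 : ‖aeval z (G (X ^ k)) - aeval z (T (V n ε (X ^ k)))‖ ≤ δ / 2 :=
    hG2 _ (D_X_pow hk) z hz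
  have b2 := (Finset.single_le_sum (f := fun k =>
    ‖aeval z (T (V n ε (X ^ k))) - aeval z (T (X ^ k))‖) (fun _ _ => norm_nonneg _)
    (Finset.mem_range.2 (Nat.lt_succ_of_le hk))).trans (hε1 z hz)
  linarith [norm_sub_le_norm_sub_add_norm_sub (aeval z (G (X ^ k)))
    (aeval z (T (V n ε (X ^ k)))) (aeval z (T (X ^ k)))]

theorem eventually_taylor {p : ℝ[X]} (hp : p.Splits) (h0 : 0 < p.leadingCoeff) :
    ∀ᶠ μ in atTop, ∀ k, 0 ≤ (taylor μ p).coeff k := by
  have key : ∀ R : Multiset ℝ, ∀ᶠ μ in atTop,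
      ∀ k, 0 ≤ (taylor μ (R.map fun r => X - C r).prod).coeff k := by
    intro R
    induction R using Multiset.induction_on with
    | empty =>
      exact Eventually.of_forall fun μ => by simpa using coeff_pow_nonneg (f := 0) (by simp) 0
    | cons r R ih =>
      filter_upwards [ih, eventually_ge_atTop r] with μ h1 h2
      rw [Multiset.map_cons, Multiset.prod_cons, taylor_mul]
      refine coeff_mul_nonneg ?_ h1
      have : taylor μ (X - C r) = X + C (μ - r) := by simp; ring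
      rw [this]
      exact coeff_X_add_C_nonneg (by linarith)
  filter_upwards [key p.roots] with μ h k
  rw [hp.eq_prod_roots, C_mul', map_smul, coeff_smul]
  exact mul_nonneg h0.le (h k)

theorem splits_of_D {G : ℝ[X] →ₗ[ℝ] ℝ[X]} {n : ℕ} (hG : ∀ g, D n g → (G g).Splits) {f : ℝ[X]}
    (hf : f.Splits) (hc : ∀ k, 0 ≤ f.coeff k) (hn : f.natDegree ≤ n) : (G f).Splits := by
  by_cases h0 : f = 0
  · rw [h0, map_zero]; exact Splits.zero
  obtain ⟨g, hg, e⟩ := exists_D hf hc h0 hn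
  rw [e, C_mul', map_smul, ← C_mul']
  exact (Splits.C _).mul (hG g hg)

/-- Approximation by translates of maps with nonnegative matrix. -/
theorem approx₀ (T : ℝ[X] →ₗ[ℝ] ℝ[X])
    (hT : ∀ f : ℝ[X], f.Splits → (∀ k, 0 ≤ f.coeff k) → (T f).Splits) {f₀ : ℝ[X]}
    (h₀ : ¬ (T f₀).Splits) :
    ∃ (S : ℕ → ℝ[X] →ₗ[ℝ] ℝ[X]) (μ : ℕ → ℝ),
      (∀ m k, m + (f₀.natDegree + 1) < k → S m (X ^ k) = 0) ∧
      (∀ m k j, 0 ≤ (S m (X ^ k)).coeff j) ∧
      (∀ m, ∀ f : ℝ[X], f.Splits → (∀ k, 0 ≤ f.coeff k) → (S m f).Splits) ∧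
      ∀ (f : ℝ[X]) (z : ℂ),
        Tendsto (fun m => aeval (z - μ m) (S m f)) atTop (𝓝 (aeval z (T f))) := by
  let N : ℕ → ℕ := fun m => m + (f₀.natDegree + 1)
  have hN : ∀ m, 0 < N m := fun m => by simp [N]
  have hex := fun m : ℕ => approx_level T hT (n := N m) (f₀ := f₀) (by simp only [N]; omega) h₀ m
    (Nat.one_div_pos_of_nat (α := ℝ) (n := m))
  choose G hG hG2 using hex
  have hμ : ∀ m, ∃ μ : ℝ, ∀ k ∈ Finset.range (N m + 1),
      ∀ j, 0 ≤ (taylor μ (G m (X ^ k))).coeff j := fun m =>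
    ((eventually_all_finset _).2 fun k hk => by
      have := hG m _ (D_X_pow (Nat.lt_succ_iff.1 (Finset.mem_range.1 hk)))
      exact eventually_taylor this.1 this.2).exists
  choose μ hμ using hμ
  refine ⟨fun m => taylor (μ m) ∘ₗ G m ∘ₗ J (N m), μ, fun m k hk => ?_, fun m k j => ?_,
    fun m f hf hc => ?_, fun f z => ?_⟩
  · simp only [LinearMap.comp_apply, J_X_pow, γ_eq_zero (hN m) hk, zero_smul, map_zero]
  · simp only [LinearMap.comp_apply, J_X_pow, map_smul, coeff_smul, smul_eq_mul]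
    rcases lt_or_ge (N m) k with h | h
    · rw [γ_eq_zero (hN m) h, zero_mul]
    · exact mul_nonneg (γ_nonneg (hN m) k) (hμ m k (Finset.mem_range.2 (by omega)) j)
  · exact (splits_of_D (fun g hg => (hG m g hg).1) (splits_J (hN m) hf hc) (fun k => by
      rw [coeff_J]; exact mul_nonneg (γ_nonneg (hN m) k) (hc k)) (natDegree_J_le (hN m) f)).taylor _
  · have e : ∀ m, aeval (z - μ m) ((taylor (μ m) ∘ₗ G m ∘ₗ J (N m)) f) =
        ∑ k ∈ Finset.range (f.natDegree + 1),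
          f.coeff k • γ (N m) k • aeval z (G m (X ^ k)) := by
      intro m
      have e1 : ∀ p : ℝ[X], aeval (z - μ m) (taylor (μ m) p) = aeval z p := fun p => by
        rw [taylor_apply, aeval_comp]; simp
      rw [LinearMap.comp_apply, e1, lin_eq_sum (G m ∘ₗ J (N m)) le_rfl, map_sum]
      simp [J_X_pow]
    have e2 : aeval z (T f) = ∑ k ∈ Finset.range (f.natDegree + 1),
        f.coeff k • (1 : ℝ) • aeval z (T (X ^ k)) := by
      rw [lin_eq_sum T le_rfl, map_sum]; simp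
    simp only [e]
    rw [e2]
    refine tendsto_finsetSum _ fun k _ => Tendsto.const_smul (Tendsto.smul
      ((tendsto_γ k).comp (tendsto_add_atTop_nat _)) ?_) _
    rw [tendsto_iff_norm_sub_tendsto_zero]
    refine squeeze_zero' (Eventually.of_forall fun _ => norm_nonneg _) ?_
      tendsto_one_div_add_atTop_nhds_zero_nat
    filter_upwards [eventually_ge_atTop k,
      tendsto_natCast_atTop_atTop.eventually (eventually_ge_atTop ‖z‖)] with m h1 h2
    exact hG2 m k (by simp only [N]; omega) z h2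

theorem approx (T : ℝ[X] →ₗ[ℝ] ℝ[X])
    (hT : ∀ f : ℝ[X], f.Splits → (∀ k, 0 ≤ f.coeff k) → (T f).Splits) {f₀ : ℝ[X]}
    (h₀ : ¬ (T f₀).Splits) :
    ∃ (S : ℕ → ℝ[X] →ₗ[ℝ] ℝ[X]) (μ : ℕ → ℝ), (∀ m k, m < k → S m (X ^ k) = 0) ∧
      (∀ m k j, 0 ≤ (S m (X ^ k)).coeff j) ∧
      (∀ m, ∀ f : ℝ[X], f.Splits → (∀ k, 0 ≤ f.coeff k) → (S m f).Splits) ∧
      ∀ (f : ℝ[X]) (z : ℂ),
        Tendsto (fun m => aeval (z - μ m) (S m f)) atTop (𝓝 (aeval z (T f))) := by
  obtain ⟨S, μ, h1, h2, h3, h4⟩ := approx₀ T hT h₀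
  generalize f₀.natDegree + 1 = c at h1
  refine ⟨fun m => if c ≤ m then S (m - c) else 0, fun m => μ (m - c), fun m k hk => ?_,
    fun m k j => ?_, fun m f hf hc => ?_, fun f z => ?_⟩
  · dsimp only
    split_ifs with h
    · exact h1 _ _ (by omega)
    · rfl
  · dsimp only
    split_ifs with h
    · exact h2 _ _ _
    · simp
  · dsimp only
    split_ifs with h
    · exact h3 _ f hf hc
    · exact Splits.zero
  · refine ((h4 f z).comp (tendsto_sub_atTop_nat c)).congr' ?_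
    filter_upwards [eventually_ge_atTop c] with m hm
    simp [hm]

/-- For a nonnegative matrix the one-parameter symbols decide. -/
theorem splits_of_nonneg (S : ℝ[X] →ₗ[ℝ] ℝ[X]) (h0 : ∀ k j, 0 ≤ (S (X ^ k)).coeff j)
    (h1 : ∀ (a b : ℕ) (v : ℝ), 0 < v → (S (X ^ a * (X + C v) ^ b)).Splits) {f : ℝ[X]}
    (hf : f.Splits) (hc : ∀ k, 0 ≤ f.coeff k) : (S f).Splits := by
  refine splits_of_D (n := f.natDegree) (fun g hg => splits_of_upper fun z hz hz0 => ?_) hf hc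
    le_rfl
  generalize f.natDegree = n at hg
  let d := (Finset.range (n + 1)).sup fun k => (S (X ^ k)).natDegree
  have hev : ∀ᶠ η : ℝ in 𝓝 0, ∀ j ∈ Finset.range (d + 1), 0 < ((1 + η * I : ℂ) ^ j).re := by
    refine (eventually_all_finset _).2 fun j _ => ?_
    have hc : Continuous fun η : ℝ => ((1 + η * I : ℂ) ^ j).re := by fun_prop
    exact (hc.tendsto 0).eventually_const_lt (by simp)
  obtain ⟨η, hη1, hη⟩ := ((hev.filter_mono (nhdsWithin_le_nhds (s := Set.Ioi 0))).and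
    self_mem_nhdsWithin).exists
  replace hη : 0 < η := hη
  by_contra hne
  refine not_mem_Zo S n (fun a b v hv w hw hw0 => ?_) (z₀ := 1 + η * I) (by simpa using hη) ?_ hz
    ⟨g, hg, hne, hz0⟩
  · by_contra h
    exact aeval_ne_zero (h1 a b v hv) h hw.ne' hw0
  · rintro ⟨p, hp, a1, a2⟩
    have b1 : ∀ j, 0 ≤ (S p).coeff j := fun j => by
      rw [lin_eq_sum S le_rfl, finsetSum_coeff]
      exact Finset.sum_nonneg fun k _ => by
        rw [coeff_smul]; exact mul_nonneg ((D_spec hp).2.1 k) (h0 k j)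
    have b2 : (S p).natDegree ≤ d := by
      rw [lin_eq_sum S (D_spec hp).2.2.1]
      exact natDegree_sum_le_of_forall_le _ _ fun k hk => (natDegree_smul_le _ _).trans
        (Finset.le_sup (f := fun k => (S (X ^ k)).natDegree) hk)
    have b3 : 0 < (aeval (1 + η * I : ℂ) (S p)).re := by
      rw [aeval_eq_sum_range' (Nat.lt_succ_of_le b2), re_sum]
      refine Finset.sum_pos' (fun j hj => ?_)
        ⟨(S p).natDegree, Finset.mem_range.2 (by omega), ?_⟩
      · rw [smul_re]; exact mul_nonneg (b1 j) (hη1 j hj).le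
      · rw [smul_re]
        exact mul_pos (lt_of_le_of_ne (b1 _) (leadingCoeff_ne_zero.2 a1).symm)
          (hη1 _ (Finset.mem_range.2 (by omega)))
    rw [a2] at b3
    simp at b3

end Pool.Agent.Lib.MP_7a4764_an.H79
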