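import Mathlib
import Pool.Agent.Lib.MP_7a4764_an.H79Main

set_option autoImplicit false

/-!
Linear maps all of whose values are real-rooted.
-/

namespace Pool.Agent.Lib.MP_7a4764_an.H79

open Polynomial Filter Topology Complex
open Pool.Agent.Lib.MP_7a4764_an Pool.Agent.Lib.MP_7a4764_an.H57

theorem splits_comb {p q : ℝ[X]} (h : ∀ z : ℂ, 0 < z.im → aeval z p + I * aeval z q ≠ 0)
    (a b : ℝ) : (a • p + b • q).Splits := by
  by_cases hw : (a + b * I : ℂ) = 0
  · have h1 : a = 0 := by simpa using congrArg re hw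
    have h2 : b = 0 := by simpa using congrArg im hw
    rw [h1, h2]; simp
  let F : ℂ[X] := C (a + b * I) * (p.map (algebraMap ℝ ℂ) - C I * q.map (algebraMap ℝ ℂ))
  have hF : ∀ z : ℂ, F.eval z = (a + b * I) * (aeval z p - I * aeval z q) := fun z => by
    simp only [F, eval_mul, eval_C, eval_sub, eval_map_algebraMap]
  have hRP : RP F = a • p + b • q := by
    ext k
    simp only [coeff_RP, F, coeff_C_mul, coeff_sub, coeff_map, coeff_add, coeff_smul]
    simp
  rw [← hRP]
  refine splits_of_tendsto (l := 𝓝[>] (0 : ℝ)) (p := fun ε => RP (taylor (-(ε * I) : ℂ) F)) ?_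
    fun z => ?_
  · filter_upwards [self_mem_nhdsWithin] with ε hε
    replace hε : 0 < ε := hε
    refine splits_RP fun z hz => ?_
    rw [taylor_eval, hF]
    refine mul_ne_zero hw fun h0 => h ((starRingEnd ℂ) (z + -(ε * I))) (by simp; linarith) ?_
    have := congrArg (starRingEnd ℂ) h0
    rw [map_sub, map_mul, ← aeval_conj, ← aeval_conj, conj_I, map_zero] at this
    linear_combination this
  · simp only [aeval_RP, taylor_eval]
    have hc : Continuous fun ε : ℝ => (F.eval (z + -(ε * I)) +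
        (starRingEnd ℂ) (F.eval ((starRingEnd ℂ) z + -(ε * I)))) / 2 := by
      have := F.continuous
      fun_prop
    simpa using (hc.tendsto 0).mono_left nhdsWithin_le_nhds

theorem exists_form (T : ℝ[X] →ₗ[ℝ] ℝ[X]) (hT : ∀ f, (T f).Splits) :
    ∃ (α β : ℝ[X] →ₗ[ℝ] ℝ) (p q : ℝ[X]), (∀ z : ℂ, 0 < z.im → aeval z p + I * aeval z q ≠ 0) ∧
      ∀ f, T f = α f • p + β f • q := by
  have inj : ∀ (f : ℝ[X]) (z : ℂ), 0 < z.im → aeval z (T f) = 0 → T f = 0 := fun f z hz h => by
    by_contra h0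
    exact aeval_ne_zero (hT f) h0 hz.ne' h
  let e : ℝ[X] →ₗ[ℝ] ℂ := (aeval I : ℝ[X] →ₐ[ℝ] ℂ).toLinearMap ∘ₗ T
  have he : ∀ f, e f = aeval I (T f) := fun _ => rfl
  by_cases h0 : ∀ f, T f = 0
  · exact ⟨0, 0, 1, 0, fun z _ => by simp, fun f => by simp [h0]⟩
  obtain ⟨f₁, hf₁⟩ := not_forall.1 h0
  have hp : e f₁ ≠ 0 := fun h => hf₁ (inj f₁ I (by simp) h)
  let lam : ℝ[X] →ₗ[ℝ] ℂ := LinearMap.mulLeft ℝ (e f₁)⁻¹ ∘ₗ e
  have hlam : ∀ f, e f = lam f * e f₁ := fun f => by
    simp only [lam, LinearMap.comp_apply, LinearMap.mulLeft_apply]; field_simp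
  by_cases h1 : ∀ f, (lam f).im = 0
  · refine ⟨reLm ∘ₗ lam, 0, T f₁, 0, fun z hz => by simpa using fun h => hf₁ (inj f₁ z hz h),
      fun f => ?_⟩
    have := inj (f - (lam f).re • f₁) I (by simp) (by
      rw [← he, map_sub, map_smul, hlam f, real_smul, conj_eq_iff_re.1 (conj_eq_iff_im.2 (h1 f)),
        sub_self])
    rw [map_sub, map_smul, sub_eq_zero] at this
    simpa using this
  obtain ⟨f₃, hf₃⟩ := not_forall.1 h1
  let f₂ : ℝ[X] := (-((lam f₃).im)⁻¹) • (f₃ - (lam f₃).re • f₁)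
  have hl1 : lam f₁ = 1 := by
    simp only [lam, LinearMap.comp_apply, LinearMap.mulLeft_apply]; field_simp
  have hl2 : lam f₂ = -I := by
    simp only [f₂, map_smul, map_sub, hl1]
    apply Complex.ext
    · simp
    · simp [hf₃]
  have hcomb : ∀ a b : ℝ, e (a • f₁ + b • f₂) = (a - b * I) * e f₁ := fun a b => by
    rw [hlam, map_add, map_smul, map_smul, hl1, hl2]
    simp [sub_eq_add_neg]
  have hne : ∀ (a b : ℝ) (z : ℂ), 0 < z.im → a * aeval z (T f₁) + b * aeval z (T f₂) = 0 →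
      a = 0 ∧ b = 0 := by
    intro a b z hz h
    have h2 := inj (a • f₁ + b • f₂) z hz (by simpa using h)
    have h3 := hcomb a b
    rw [he, h2, map_zero] at h3
    have h4 := (mul_eq_zero.1 h3.symm).resolve_right hp
    exact ⟨by simpa using congrArg re h4, by simpa using congrArg im h4⟩
  have hP : ∀ z : ℂ, 0 < z.im → aeval z (T f₁) ≠ 0 := fun z hz h => hf₁ (inj f₁ z hz h)
  have hIm : ∀ z : ℂ, 0 < z.im → (aeval z (T f₂) / aeval z (T f₁)).im ≠ 0 := by
    intro z hz h
    have := (hne (-(aeval z (T f₂) / aeval z (T f₁)).re) 1 z hz (by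
      push_cast
      rw [conj_eq_iff_re.1 (conj_eq_iff_im.2 h)]
      have := hP z hz
      field_simp
      ring)).2
    exact one_ne_zero this
  refine ⟨reLm ∘ₗ lam, -(imLm ∘ₗ lam), T f₁, T f₂, fun z hz h => ?_, fun f => ?_⟩
  · have hc : ContinuousOn (fun w : ℂ => (aeval w (T f₂) / aeval w (T f₁)).im) {w | 0 < w.im} :=
      continuous_im.comp_continuousOn ((T f₂).continuous_aeval.continuousOn.div
        (T f₁).continuous_aeval.continuousOn hP)
    have a1 : (aeval I (T f₂) / aeval I (T f₁)).im ≤ 0 := by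
      rw [← he, ← he, hlam f₂, hl2, mul_div_cancel_right₀ _ hp]; simp
    have a2 : 0 ≤ (aeval z (T f₂) / aeval z (T f₁)).im := by
      have : aeval z (T f₂) / aeval z (T f₁) = I := by
        rw [div_eq_iff (hP z hz)]
        linear_combination (-I) * h + aeval z (T f₂) * I_sq
      rw [this]; simp
    obtain ⟨w, hw, hw0⟩ := (convex_halfSpace_im_gt 0).isPreconnected.intermediate_value
      (a := I) (b := z) (by simp) hz hc ⟨a1, a2⟩
    exact hIm w hw hw0
  · have := inj (f - ((lam f).re • f₁ + (-(lam f).im) • f₂)) I (by simp) (by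
      rw [← he, map_sub, hcomb, hlam f, sub_eq_zero]
      congr 1
      apply Complex.ext <;> simp)
    rw [map_sub, map_add, map_smul, map_smul, sub_eq_zero] at this
    simpa using this

end Pool.Agent.Lib.MP_7a4764_an.H79
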