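import Mathlib
import Pool.Agent.Lib.MP_7a4764_an.H44Family

set_option autoImplicit false

/-!
The maps `g ↦ g + s X g'` are injective and preserve real-rootedness. A zero of a complex
functional on the normalised polynomials persists along a family without zeros on the edges.
-/

namespace Pool.Agent.Lib.MP_7a4764_an.H81

open Polynomial Filter Topology Pool.Agent.Lib.MP_7a4764_an.H57 Pool.Agent.Lib.MP_7a4764_an.H44

/-- The map `g ↦ g + s X g'`. -/
noncomputable def U (s : ℝ) : ℝ[X] →ₗ[ℝ] ℝ[X] :=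
  LinearMap.id + s • (LinearMap.mulLeft ℝ X ∘ₗ derivative)

theorem U_apply (s : ℝ) (g : ℝ[X]) : U s g = g + s • (X * derivative g) := rfl

theorem coeff_U (s : ℝ) (g : ℝ[X]) (j : ℕ) : (U s g).coeff j = (1 + s * j) * g.coeff j := by
  rw [U_apply, coeff_add, coeff_smul, smul_eq_mul]
  rcases j with _ | j
  · simp
  · rw [coeff_X_mul, coeff_derivative]; push_cast; ring

theorem U_ne_zero {s : ℝ} (hs : 0 ≤ s) {g : ℝ[X]} (hg : g ≠ 0) : U s g ≠ 0 := by
  intro h
  have h1 := coeff_U s g g.natDegree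
  rw [h, coeff_zero, eq_comm, mul_eq_zero] at h1
  rcases h1 with h1 | h1
  · have : (0 : ℝ) < 1 + s * g.natDegree := by positivity
    exact this.ne' h1
  · exact leadingCoeff_ne_zero.2 hg h1

theorem im_log_deriv {g : ℝ[X]} (hg : g.Splits) (z : ℂ) :
    z.im * ((starRingEnd ℂ) (aeval z g) * aeval z (derivative g)).im ≤ 0 := by
  induction hg using Submonoid.closure_induction with
  | mem x hx =>
    rcases hx with ⟨a, rfl⟩ | ⟨a, rfl⟩
    · simp
    · simp; nlinarith [sq_nonneg z.im]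
  | one => simp
  | mul f g _ _ hf hg =>
    rw [derivative_mul, map_add, map_mul (aeval z), map_mul (aeval z), map_mul (aeval z)]
    generalize aeval z f = a at *
    generalize aeval z g = b at *
    generalize aeval z (derivative f) = c at *
    generalize aeval z (derivative g) = d at *
    have h1 := mul_nonneg (add_nonneg (sq_nonneg b.re) (sq_nonneg b.im)) (neg_nonneg.2 hf)
    have h2 := mul_nonneg (add_nonneg (sq_nonneg a.re) (sq_nonneg a.im)) (neg_nonneg.2 hg)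
    simp only [map_mul, Complex.mul_im, Complex.mul_re, Complex.add_im, Complex.add_re,
      Complex.conj_re, Complex.conj_im] at h1 h2 ⊢
    nlinarith

theorem U_im {s : ℝ} (hs : 0 ≤ s) {g : ℝ[X]} (hg : g.Splits) (h0 : g ≠ 0) {z : ℂ}
    (hz : aeval z (U s g) = 0) : z.im = 0 := by
  by_contra him
  have h1 := im_log_deriv hg z
  have h2 : aeval z g ≠ 0 := fun h => him (((splits_iff_im.1 hg).resolve_left h0) z h)
  rw [U_apply, map_add, map_smul, map_mul, aeval_X] at hz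
  generalize aeval z g = a at *
  generalize aeval z (derivative g) = c at *
  have h3 : 0 < a.re ^ 2 + a.im ^ 2 := by
    have := Complex.normSq_pos.2 h2
    rw [Complex.normSq_apply] at this
    nlinarith
  have h4 : 0 < z.im ^ 2 := by positivity
  have h5 := congrArg (fun w => z.im * ((starRingEnd ℂ) a * (starRingEnd ℂ) z * w).im) hz
  have h6 := mul_nonneg (mul_nonneg hs (add_nonneg (sq_nonneg z.re) (sq_nonneg z.im)))
    (neg_nonneg.2 h1)
  simp only [Complex.real_smul, Complex.mul_im, Complex.mul_re, Complex.add_im, Complex.add_re,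
    Complex.conj_re, Complex.conj_im, Complex.ofReal_re, Complex.ofReal_im, Complex.zero_re,
    Complex.zero_im] at h5 h6
  nlinarith [mul_pos h3 h4]

theorem splits_U {s : ℝ} (hs : 0 ≤ s) {g : ℝ[X]} (hg : g.Splits) : (U s g).Splits := by
  by_cases h0 : g = 0
  · rw [h0, map_zero]; exact Splits.zero
  · exact splits_iff_im.2 (Or.inr fun z hz => U_im hs hg h0 hz)

theorem coeff_U_pow (N : ℕ) (g : ℝ[X]) (j : ℕ) :
    ((U 1 ^ N) g).coeff j = (1 + j) ^ N * g.coeff j := by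
  induction N with
  | zero => simp
  | succ N ih => rw [pow_succ', Module.End.mul_apply, coeff_U, ih]; ring

theorem U_pow_spec (N : ℕ) {g : ℝ[X]} (hg : g.Splits) (h0 : g ≠ 0) :
    ((U 1 ^ N) g).Splits ∧ (U 1 ^ N) g ≠ 0 := by
  induction N with
  | zero => exact ⟨hg, h0⟩
  | succ N ih =>
    rw [pow_succ', Module.End.mul_apply]
    exact ⟨splits_U zero_le_one ih.1, U_ne_zero zero_le_one ih.2⟩

/-- The one-parameter symbols of level `n` are real-rooted. -/
def One (T : ℝ[X] →ₗ[ℝ] ℝ[X]) (n : ℕ) : Prop :=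
  ∀ (a b : ℕ) (v : ℝ), a + b ≤ n → 0 < v → (T (X ^ a * (X + C v) ^ b)).Splits

/-- The persistence lemma, with the edges bounded by the level. -/
theorem persists (ev : ℝ → ℝ[X] →ₗ[ℝ] ℂ) (ψ : ℝ → ℝ[X] →ₗ[ℝ] ℝ) (n : ℕ) (y₀ : ℝ)
    (hc : ∀ g : ℝ[X], Continuous (fun y => ev y g))
    (hψc : ∀ g : ℝ[X], Continuous (fun y => ψ y g))
    {f : ℝ[X]} (hf : D n f) (hfψ : ψ y₀ f ≠ 0) (hf0 : ev y₀ f = 0)
    (h : ∀ (a b : ℕ) (v : ℝ), a + b ≤ n → 0 < v → ev y₀ (X ^ a * (X + C v) ^ b) = 0 →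
      ψ y₀ (X ^ a * (X + C v) ^ b) = 0) :
    ∀ᶠ y in 𝓝 y₀, ∃ g, D n g ∧ ψ y g ≠ 0 ∧ ev y g = 0 := by
  classical
  obtain ⟨g, ⟨S, hcard, hS, rfl⟩, e₁, e₂, e₃, hext⟩ := exists_extreme' (Complex.reLm ∘ₗ ev y₀)
    (Complex.imLm ∘ₗ ev y₀) (ψ y₀) hf (by simp [hf0]) (by simp [hf0]) hfψ
  have e : ev y₀ (P S) = 0 := Complex.ext e₁ e₂
  rcases one_or_two S hS with ⟨σ, hσ, hσ1, hall⟩ | ⟨a, b, ha, hab, hb, haS, hbS⟩
  · obtain ⟨κ, a, b, c, habc, hP⟩ := P_eq_test hσ hσ S (fun s hs => by have := hall s hs; tauto)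
    have hκ : κ ≠ 0 := by rintro rfl; exact P_ne_zero _ (by rw [hP, C_0, zero_mul])
    rw [hP, C_mul', map_smul, smul_eq_zero, mul_assoc, ← pow_add] at e
    have h1 := h a (b + c) _ (by omega) (div_pos (by linarith) hσ) (e.resolve_left hκ)
    refine absurd ?_ e₃
    rw [hP, C_mul', map_smul, mul_assoc, ← pow_add, h1, smul_zero]
  obtain ⟨S₁, rfl⟩ := Multiset.exists_cons_of_mem haS
  obtain ⟨R, rfl⟩ := Multiset.exists_cons_of_mem ((Multiset.mem_cons.1 hbS).resolve_left hab.ne')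
  have hR : D R.card (P R) := ⟨R, rfl, fun s hs => hS s (by simp [hs]), rfl⟩
  have hn : 2 + R.card = n := by rw [← hcard]; simp; omega
  let d : ℝ → ℝ → ℝ[X] := fun α β => (C α * (X - 1) + C β * ((X - 1) * X)) * P R
  let w₀ : ℝ → ℂ := fun z => ev z (P (a ::ₘ b ::ₘ R))
  let w₁ : ℝ → ℂ := fun z => ev z ((X - 1) * P R)
  let w₂ : ℝ → ℂ := fun z => ev z ((X - 1) * X * P R)
  have hd : ∀ z α β, ev z (d α β) = α * w₁ z + β * w₂ z := by
    intro z α β
    simp only [d, w₁, w₂, add_mul, C_mul', smul_mul_assoc, map_add, map_smul, Complex.real_smul]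
  have hdψ : ∀ z α β, ψ z (d α β) =
      α * ψ z ((X - 1) * P R) + β * ψ z ((X - 1) * X * P R) := by
    intro z α β
    simp only [d, add_mul, C_mul', smul_mul_assoc, map_add, map_smul, smul_eq_mul]
  have hD : ∀ α β, D 2 (L a * L b + (C α * (X - 1) + C β * ((X - 1) * X))) →
      D n (P (a ::ₘ b ::ₘ R) + d α β) := by
    intro α β h1
    rw [← hn]
    convert h1.mul hR using 1
    simp only [P_cons, d]; ring
  have hinj : ∀ α β : ℝ, α * w₁ y₀ + β * w₂ y₀ = 0 → α = 0 ∧ β = 0 := by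
    intro α β h0
    have t1 : ∀ c : ℝ, Tendsto (fun ε : ℝ => ε * c) (𝓝 0) (𝓝 0) := fun c => by
      simpa using (continuous_mul_const c).tendsto 0
    obtain ⟨ε, ⟨hε1, hε2⟩, hε0⟩ := ((((quad_perturb₂ ha hab hb (t1 α) (t1 β)).and
      (quad_perturb₂ ha hab hb (t1 (-α)) (t1 (-β)))).filter_mono
      (nhdsWithin_le_nhds (s := {0}ᶜ))).and self_mem_nhdsWithin).exists
    have hε0' : ε ≠ 0 := hε0
    have h3 : ev y₀ (d (ε * α) (ε * β)) = 0 := by
      rw [hd]; push_cast; linear_combination ε * h0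
    have h4 := hext (d (ε * α) (ε * β)) (by
        have h5 := natDegree_P_le R
        have h6 : (C (ε * α) * (X - 1) + C (ε * β) * ((X - 1) * X) : ℝ[X]).natDegree ≤ 2 := by
          compute_degree
        exact natDegree_mul_le.trans (by omega))
      (by simp [h3]) (by simp [h3]) (hD _ _ hε1) (by
        convert hD _ _ hε2 using 1
        simp only [d, mul_neg, C_neg]; ring)
    have h5 := (mul_eq_zero.1 h4).resolve_right (P_ne_zero R)
    have h6 := congrArg (eval 0) h5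
    have h7 := congrArg (eval 2) h5
    simp only [eval_add, eval_mul, eval_C, eval_sub, eval_X, eval_one, eval_zero] at h6 h7
    have h8 : ε * α = 0 := by linarith
    have h9 : ε * β = 0 := by linarith
    exact ⟨(mul_eq_zero.1 h8).resolve_left hε0', (mul_eq_zero.1 h9).resolve_left hε0'⟩
  let δ : ℝ → ℝ := fun z => (w₁ z).re * (w₂ z).im - (w₁ z).im * (w₂ z).re
  have hδ : δ y₀ ≠ 0 := by
    intro h0
    simp only [δ] at h0
    have h1 := hinj (w₂ y₀).im (-(w₁ y₀).im) (Complex.ext (by simp; linarith) (by simp; linarith))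
    have h2 := hinj (w₂ y₀).re (-(w₁ y₀).re) (Complex.ext (by simp; linarith) (by simp; linarith))
    have h3 : w₂ y₀ = 0 := Complex.ext h2.1 h1.1
    exact one_ne_zero (hinj 0 1 (by simp [h3])).2
  have c₀ : Continuous w₀ := hc _
  have c₁ : Continuous w₁ := hc _
  have c₂ : Continuous w₂ := hc _
  have cδ : Continuous δ := by simp only [δ]; fun_prop
  let α : ℝ → ℝ := fun z => ((w₀ z).im * (w₂ z).re - (w₀ z).re * (w₂ z).im) / δ z
  let β : ℝ → ℝ := fun z => ((w₀ z).re * (w₁ z).im - (w₀ z).im * (w₁ z).re) / δ z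
  have hw₀ : w₀ y₀ = 0 := e
  have hα : Tendsto α (𝓝 y₀) (𝓝 0) := by
    have : ContinuousAt α y₀ := ContinuousAt.div (by fun_prop) cδ.continuousAt hδ
    simpa [ContinuousAt, α, hw₀] using this
  have hβ : Tendsto β (𝓝 y₀) (𝓝 0) := by
    have : ContinuousAt β y₀ := ContinuousAt.div (by fun_prop) cδ.continuousAt hδ
    simpa [ContinuousAt, β, hw₀] using this
  have hψ : ∀ᶠ z in 𝓝 y₀, ψ z (P (a ::ₘ b ::ₘ R) + d (α z) (β z)) ≠ 0 := by
    simp only [map_add, hdψ]
    refine (((hψc _).tendsto y₀).add ((hα.mul ((hψc _).tendsto y₀)).add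
      (hβ.mul ((hψc _).tendsto y₀)))).eventually_ne ?_
    simpa using e₃
  filter_upwards [quad_perturb₂ ha hab hb hα hβ, cδ.continuousAt.eventually_ne hδ, hψ]
    with z h1 h2 h3
  refine ⟨_, hD _ _ h1, h3, ?_⟩
  rw [map_add, hd]
  change w₀ z + _ = 0
  apply Complex.ext
  · simp only [Complex.add_re, Complex.re_ofReal_mul, Complex.zero_re, α, β]
    field_simp
    simp only [δ]; ring
  · simp only [Complex.add_im, Complex.im_ofReal_mul, Complex.zero_im, α, β]
    field_simp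
    simp only [δ]; ring

theorem flow_family (ev : ℝ → ℝ[X] →ₗ[ℝ] ℂ) (K : Submodule ℝ ℝ[X]) (n : ℕ)
    (hc : ∀ g : ℝ[X], Continuous (fun y => ev y g)) (hK : ∀ y, ∀ g ∈ K, ev y g = 0)
    (h : ∀ y, 0 ≤ y → y ≤ 1 → ∀ (a b : ℕ) (v : ℝ), a + b ≤ n → 0 < v →
      ev y (X ^ a * (X + C v) ^ b) = 0 → X ^ a * (X + C v) ^ b ∈ K)
    (h1 : ∀ g, D n g → ev 1 g = 0 → g ∈ K) {g : ℝ[X]} (hg : D n g) (h0 : ev 0 g = 0) : g ∈ K := by
  have hcl := isClosed_zero ev K n hc hK
  have hopen : ∀ y : ℝ, 0 ≤ y → y ≤ 1 → y ∈ {y : ℝ | ∃ g, D n g ∧ g ∉ K ∧ ev y g = 0} →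
      {y : ℝ | ∃ g, D n g ∧ g ∉ K ∧ ev y g = 0} ∈ 𝓝 y := by
    rintro y hy hy' ⟨f, hf, hfK, hf0⟩
    obtain ⟨ψ, hψ, hψK⟩ := Submodule.exists_le_ker_of_notMem hfK
    filter_upwards [persists ev (fun _ => ψ) n y hc (fun _ => continuous_const) hf hψ hf0
      (fun a b v hab hv h4 => hψK (h y hy hy' a b v hab hv h4))] with w hw
    obtain ⟨g, hg, h4, h5⟩ := hw
    exact ⟨g, hg, fun h6 => h4 (hψK h6), h5⟩
  have hall := (isPreconnected_Icc (a := (0 : ℝ)) (b := 1)).subset_of_closure_inter_subset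
    hcl.isOpen_compl ⟨1, by simp, fun ⟨g, hg, h2, h3⟩ => h2 (h1 g hg h3)⟩ (fun w hw hwZ => by
      obtain ⟨x, hx1, hx2⟩ := mem_closure_iff_nhds.1 hw.1 _ (hopen w hw.2.1 hw.2.2 hwZ)
      exact hx2 hx1)
  by_contra h2
  exact hall (show (0 : ℝ) ∈ Set.Icc (0 : ℝ) 1 by simp) ⟨g, hg, h2, h0⟩

end Pool.Agent.Lib.MP_7a4764_an.H81
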