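import Mathlib
import Pool.Agent.Lib.MP_7a4764_an.H81Flow

set_option autoImplicit false

/-!
Log-concavity of the coefficients of normalised polynomials, gaps in limits of real-rooted
polynomials, and the chord lemma for the orders of the images of the monomials.
-/

namespace Pool.Agent.Lib.MP_7a4764_an.H81

open Polynomial Filter Topology Pool.Agent.Lib.MP_7a4764_an.H57

theorem ratio_P (S : Multiset ℝ) (hS : ∀ s ∈ S, 0 ≤ s ∧ s ≤ 1) :
    (∀ k, 0 ≤ (P S).coeff k) ∧ ∀ a c, a ≤ c →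
      (P S).coeff a * (P S).coeff (c + 1) ≤ (P S).coeff (a + 1) * (P S).coeff c := by
  induction S using Multiset.induction_on with
  | empty =>
    refine ⟨fun k => ?_, fun a c _ => ?_⟩
    · rw [P_zero, coeff_one]; split_ifs <;> norm_num
    · simp [coeff_one]
  | cons s S ih =>
    obtain ⟨i0, i1⟩ := ih (fun t ht => hS t (by simp [ht]))
    obtain ⟨h0, h1⟩ := hS s (by simp)
    have h1' : 0 ≤ 1 - s := by linarith
    rw [P_cons]
    generalize P S = f at *
    have e0 : (L s * f).coeff 0 = (1 - s) * f.coeff 0 := by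
      rw [L, add_mul, mul_assoc, coeff_add, coeff_C_mul, coeff_C_mul, coeff_X_mul_zero]; ring
    have e1 : ∀ k, (L s * f).coeff (k + 1) = s * f.coeff k + (1 - s) * f.coeff (k + 1) := by
      intro k
      rw [L, add_mul, mul_assoc, coeff_add, coeff_C_mul, coeff_C_mul, coeff_X_mul]
    generalize 1 - s = t at *
    refine ⟨fun k => ?_, fun a c hac => ?_⟩
    · rcases k with _ | k
      · rw [e0]; exact mul_nonneg h1' (i0 _)
      · rw [e1]; exact add_nonneg (mul_nonneg h0 (i0 _)) (mul_nonneg h1' (i0 _))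
    rcases hac.eq_or_lt with rfl | hlt
    · rw [mul_comm]
    obtain ⟨c, rfl⟩ : ∃ c', c = c' + 1 := ⟨c - 1, by omega⟩
    rcases a with _ | a
    · rw [e0, e1, e1, e1]
      have j1 := mul_le_mul_of_nonneg_left (i1 0 (c + 1) (by omega)) (mul_nonneg h1' h1')
      have j2 := mul_nonneg (mul_nonneg h0 h0) (mul_nonneg (i0 0) (i0 c))
      have j3 := mul_nonneg (mul_nonneg h0 h1') (mul_nonneg (i0 (0 + 1)) (i0 c))
      nlinarith
    · rw [e1, e1, e1, e1]
      have j1 := mul_le_mul_of_nonneg_left (i1 (a + 1) (c + 1) (by omega)) (mul_nonneg h1' h1')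
      have j2 := mul_le_mul_of_nonneg_left (i1 a c (by omega)) (mul_nonneg h0 h0)
      have j3 := mul_le_mul_of_nonneg_left ((i1 a (c + 1) (by omega)).trans
        (i1 (a + 1) c (by omega))) (mul_nonneg h0 h1')
      nlinarith

theorem pow_le_of_ratio {f : ℕ → ℝ} (h0 : ∀ k, 0 ≤ f k)
    (h : ∀ a c, a ≤ c → f a * f (c + 1) ≤ f (a + 1) * f c) (j q p : ℕ) (hp : 0 < p) (hq : 0 < q) :
    f j ^ p * f (j + q + p) ^ q ≤ f (j + q) ^ (p + q) := by
  rcases (h0 j).eq_or_lt with hj | hj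
  · rw [← hj, zero_pow hp.ne', zero_mul]; exact pow_nonneg (h0 _) _
  rcases (h0 (j + q + p)).eq_or_lt with hk | hk
  · rw [← hk, zero_pow hq.ne', mul_zero]; exact pow_nonneg (h0 _) _
  have hpos : ∀ i, i ≤ q + p → 0 < f (j + i) := by
    intro i
    induction i with
    | zero => exact fun _ => hj
    | succ i ih =>
      intro hi
      obtain ⟨c, hc⟩ : ∃ c, j + q + p = c + 1 := ⟨j + q + p - 1, by omega⟩
      have h1 := h (j + i) c (by omega)
      rw [← hc] at h1
      have h2 := (mul_pos (ih (by omega)) hk).trans_le h1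
      refine lt_of_le_of_ne (h0 _) (fun h3 => ?_)
      have h4 : f (j + i + 1) = 0 := h3.symm
      rw [h4, zero_mul] at h2
      exact lt_irrefl _ h2
  have hx := hpos q (by omega)
  have hy : 0 < f (j + q + 1) := hpos (q + 1) (by omega)
  generalize hm : j + q = m at *
  have up : ∀ r, f (m + r) * f m ^ r ≤ f m * f (m + 1) ^ r := by
    intro r
    induction r with
    | zero => simp
    | succ r ih =>
      have h1 := mul_le_mul_of_nonneg_right (h m (m + r) (by omega)) (pow_nonneg hx.le r)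
      have h2 := mul_le_mul_of_nonneg_left ih hy.le
      rw [← add_assoc, pow_succ, pow_succ]
      nlinarith
  have down : ∀ r a, a + r = m → f a * f (m + 1) ^ r ≤ f m * f m ^ r := by
    intro r
    induction r with
    | zero => intro a ha; rw [← ha]; simp
    | succ r ih =>
      intro a ha
      have h1 := mul_le_mul_of_nonneg_right (h a m (by omega)) (pow_nonneg hy.le r)
      have h2 := mul_le_mul_of_nonneg_left (ih (a + 1) (by omega)) hx.le
      rw [pow_succ, pow_succ]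
      nlinarith
  have h1 := pow_le_pow_left₀ (mul_nonneg (h0 _) (pow_nonneg hx.le _)) (up p) q
  have h2 := pow_le_pow_left₀ (mul_nonneg (h0 _) (pow_nonneg hy.le _)) (down q j hm) p
  have h3 := mul_le_mul h1 h2 (by positivity) (by positivity)
  have h4 : 0 < (f m ^ p) ^ q * (f (m + 1) ^ p) ^ q := by positivity
  refine le_of_mul_le_mul_right ?_ h4
  convert h3 using 1 <;> ring

theorem gap {ι : Type} {l : Filter ι} [l.NeBot] {F : ι → ℝ[X]} {n : ℕ}
    (hF : ∀ᶠ i in l, (F i).Splits ∧ (F i).natDegree ≤ n) {α : ℕ → ℝ}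
    (hα : ∀ j, Tendsto (fun i => (F i).coeff j) l (𝓝 (α j))) {j m : ℕ} (hj : α j ≠ 0)
    (hm : α m ≠ 0) (h0 : ∀ k, j < k → k < m → α k = 0) :
    ¬ (j + 3 ≤ m) ∧ (j + 2 = m → α j * α m < 0) := by
  let G : ℝ → ι → ℝ[X] := fun s i => (derivative^[j] (F i)).comp (C s * X)
  have hpos : ∀ k, (0 : ℝ) < (k + j).descFactorial j := fun k => by
    exact_mod_cast Nat.descFactorial_pos.2 (by omega)
  have hlim : ∀ s k, Tendsto (fun i => (G s i).coeff k) l
      (𝓝 (((k + j).descFactorial j : ℝ) * α (k + j) * s ^ k)) := by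
    intro s k
    simp only [G, comp_C_mul_X_coeff, coeff_iterate_derivative, nsmul_eq_mul]
    exact ((hα _).const_mul _).mul_const _
  have hGs : ∀ s, ∀ᶠ i in l, (G s i).Splits ∧ (G s i).natDegree ≤ n := by
    intro s
    have hs : (C s * X : ℝ[X]).natDegree ≤ 1 := by compute_degree
    filter_upwards [hF] with i hi
    refine ⟨(splits_iterate_derivative hi.1 j).comp_of_natDegree_le_one hs, ?_⟩
    refine natDegree_comp_le.trans ?_
    have := natDegree_iterate_derivative (F i) j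
    calc _ ≤ n * 1 := Nat.mul_le_mul (by omega) hs
      _ = n := mul_one n
  have hc : ((0 + j).descFactorial j : ℝ) * α (0 + j) ≠ 0 :=
    mul_ne_zero (hpos 0).ne' (by simpa using hj)
  constructor
  · intro h3
    obtain ⟨k, rfl⟩ : ∃ k, m = k + j := ⟨m - j, by omega⟩
    have hall : ∀ s : ℝ, |((k + j).descFactorial j : ℝ) * α (k + j) * s ^ k| ≤
        |((0 + j).descFactorial j : ℝ) * α (0 + j)| * (1 + 1) ^ n := by
      intro s
      have l0 := hlim s 0
      have l1 := hlim s 1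
      have l2 := hlim s 2
      rw [pow_zero, mul_one] at l0
      rw [h0 _ (by omega) (by omega)] at l1 l2
      have e1 := ((l1.pow 2).sub ((l0.const_mul 2).mul l2)).eventually_lt
        ((l0.pow 2).const_mul (1 ^ 2)) (by simpa using sq_pos_of_ne_zero hc)
      refine le_of_tendsto_of_tendsto (hlim s k).abs (l0.abs.mul_const _) ?_
      filter_upwards [e1, l0.eventually_ne hc, hGs s] with i i1 i2 i3
      exact (vieta i3.1 i3.2 i2).2 1 zero_le_one i1.le k
    have ht : Tendsto (fun s : ℝ => |((k + j).descFactorial j : ℝ) * α (k + j) * s ^ k|)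
        atTop atTop := by
      simp_rw [abs_mul _ (_ ^ k)]
      refine Tendsto.const_mul_atTop (abs_pos.2 (mul_ne_zero (hpos k).ne' hm)) ?_
      exact tendsto_abs_atTop_atTop.comp (tendsto_pow_atTop (by omega))
    obtain ⟨s, hs⟩ := (ht.eventually_gt_atTop _).exists
    exact (hall s).not_gt hs
  · rintro rfl
    have l0 := hlim 1 0
    have l1 := hlim 1 1
    have l2 := hlim 1 2
    rw [pow_zero, mul_one] at l0
    rw [h0 _ (by omega) (by omega)] at l1
    have h1 := le_of_tendsto_of_tendsto ((l0.const_mul 2).mul l2) (l1.pow 2) (by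
      filter_upwards [l0.eventually_ne hc, hGs 1] with i i2 i3
      exact (vieta i3.1 i3.2 i2).1)
    have h2 := mul_pos (hpos 0) (hpos 2)
    rw [zero_add] at h1 h2
    rw [add_comm 2 j] at h1 h2
    refine lt_of_le_of_ne ?_ (mul_ne_zero hj hm)
    by_contra h3
    nlinarith [mul_pos h2 (not_le.1 h3)]

theorem test_expand (T : ℝ[X] →ₗ[ℝ] ℝ[X]) (j b : ℕ) (v : ℝ) (m : ℕ) :
    (T (X ^ j * (X + C v) ^ b)).coeff m = ∑ i ∈ Finset.range (b + 1),
      (b.choose i : ℝ) * (T (X ^ (j + i))).coeff m * v ^ (b - i) := by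
  rw [add_pow, Finset.mul_sum, map_sum, finsetSum_coeff]
  refine Finset.sum_congr rfl (fun i _ => ?_)
  have : (X ^ j * (X ^ i * C v ^ (b - i) * (b.choose i : ℝ[X])) : ℝ[X]) =
      ((b.choose i : ℝ) * v ^ (b - i)) • X ^ (j + i) := by
    rw [smul_eq_C_mul, C_mul, C_pow, map_natCast, pow_add]; ring
  rw [this, map_smul, coeff_smul, smul_eq_mul]; ring

/-- A scale, such as `R → ∞` for `τ = 1`. -/
def Scale (τ : ℤ) (l : Filter ℝ) : Prop :=
  τ ≠ 0 ∧ l.NeBot ∧ (∀ᶠ R in l, 0 < R) ∧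
    ∀ e : ℤ, τ * e < 0 → Tendsto (fun R : ℝ => R ^ e) l (𝓝 0)

theorem scale_atTop : Scale 1 atTop :=
  ⟨one_ne_zero, inferInstance, eventually_gt_atTop 0,
    fun e he => tendsto_zpow_atTop_zero (by simpa using he)⟩

theorem chord {T : ℝ[X] →ₗ[ℝ] ℝ[X]} {n : ℕ} (h1 : One T n) {τ : ℤ} {l : Filter ℝ}
    (hl : Scale τ l) {d : ℕ → ℕ} (hd : ∀ k m, (T (X ^ k)).coeff m ≠ 0 → τ * m ≤ τ * d k)
    {j b : ℕ} (hb : 0 < b) (hn : j + b ≤ n)
    (hj : (T (X ^ j)).coeff (d j) ≠ 0) (hk : (T (X ^ (j + b))).coeff (d (j + b)) ≠ 0)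
    (hno : ∀ i, 0 < i → i < b → T (X ^ (j + i)) ≠ 0 →
      τ * (b * d (j + i)) < τ * ((b - i) * d j + i * d (j + b)))
    (hne : d j ≠ d (j + b)) :
    ¬ (d j + 3 ≤ d (j + b)) ∧ ¬ (d (j + b) + 3 ≤ d j) ∧
      (d j + 2 = d (j + b) ∨ d (j + b) + 2 = d j →
        (T (X ^ j)).coeff (d j) * (T (X ^ (j + b))).coeff (d (j + b)) < 0) := by
  obtain ⟨hτ, hne', hpos, hlim⟩ := hl
  let F : ℝ → ℝ[X] := fun ρ => C (ρ ^ (-(b * d (j + b) : ℤ))) *
    (T (X ^ j * (X + C (ρ ^ ((d (j + b) : ℤ) - d j))) ^ b)).comp (C (ρ ^ b) * X)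
  have hF : ∀ ρ : ℝ, 0 < ρ → ∀ m, (F ρ).coeff m = ∑ i ∈ Finset.range (b + 1),
      (b.choose i : ℝ) * (T (X ^ (j + i))).coeff m *
        ρ ^ ((b * m : ℤ) - ((b - i) * d j + i * d (j + b))) := by
    intro ρ hρ m
    simp only [F, coeff_C_mul, comp_C_mul_X_coeff, test_expand, Finset.mul_sum, Finset.sum_mul]
    refine Finset.sum_congr rfl (fun i hi => ?_)
    have hi' : i ≤ b := Nat.lt_succ_iff.1 (Finset.mem_range.1 hi)
    have e : (b * m : ℤ) - ((b - i) * d j + i * d (j + b)) = -(b * d (j + b) : ℤ) +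
        (((d (j + b) : ℤ) - d j) * ((b - i : ℕ) : ℤ) + ((b * m : ℕ) : ℤ)) := by
      push_cast [hi']; ring
    rw [e, zpow_add₀ hρ.ne', zpow_add₀ hρ.ne', zpow_mul, zpow_natCast, zpow_natCast, pow_mul]
    ring
  let α : ℕ → ℝ := fun m => (if m = d j then (T (X ^ j)).coeff (d j) else 0) +
    (if m = d (j + b) then (T (X ^ (j + b))).coeff (d (j + b)) else 0)
  have hb' : (0 : ℤ) < b := by exact_mod_cast hb
  have hend : ∀ k m, Tendsto (fun ρ : ℝ => (T (X ^ k)).coeff m * ρ ^ ((b * m : ℤ) - b * d k)) l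
      (𝓝 (if m = d k then (T (X ^ k)).coeff (d k) else 0)) := by
    intro k m
    split_ifs with h
    · subst h; simp
    by_cases h2 : (T (X ^ k)).coeff m = 0
    · simp [h2]
    have h3 : τ * m < τ * d k :=
      lt_of_le_of_ne (hd k m h2) (fun h4 => h (by exact_mod_cast mul_left_cancel₀ hτ h4))
    simpa using (hlim _ (by nlinarith [mul_lt_mul_of_pos_left h3 hb'])).const_mul
      ((T (X ^ k)).coeff m)
  have hα : ∀ m, Tendsto (fun ρ => (F ρ).coeff m) l (𝓝 (α m)) := by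
    intro m
    refine Tendsto.congr' (hpos.mono fun ρ hρ => (hF ρ hρ m).symm) ?_
    obtain ⟨c, rfl⟩ : ∃ c, b = c + 1 := ⟨b - 1, by omega⟩
    simp_rw [Finset.sum_range_succ _ (c + 1), Finset.sum_range_succ' _ c]
    have hmid : Tendsto (fun ρ : ℝ => ∑ i ∈ Finset.range c, (((c + 1).choose (i + 1) : ℕ) : ℝ) *
        (T (X ^ (j + (i + 1)))).coeff m * ρ ^ ((((c + 1 : ℕ) : ℤ) * m : ℤ) -
          ((((c + 1 : ℕ) : ℤ) - ((i + 1 : ℕ) : ℤ)) * d j + ((i + 1 : ℕ) : ℤ) * d (j + (c + 1)))))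
        l (𝓝 (∑ i ∈ Finset.range c, 0)) := by
      refine tendsto_finsetSum _ (fun i hi => ?_)
      by_cases h2 : (T (X ^ (j + (i + 1)))).coeff m = 0
      · simp [h2]
      have h3 := hno (i + 1) (by omega) (by simpa using hi) (fun h => h2 (by simp [h]))
      have h4 := mul_le_mul_of_nonneg_left (hd _ m h2) hb'.le
      simpa using (hlim _ (by push_cast at h3 h4; linarith)).const_mul
        ((((c + 1).choose (i + 1) : ℕ) : ℝ) * (T (X ^ (j + (i + 1)))).coeff m)
    have := (hmid.add (hend j m)).add (hend (j + (c + 1)) m)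
    simpa [α] using this
  have hFs : ∀ᶠ ρ in l, (F ρ).Splits ∧
      (F ρ).natDegree ≤ ∑ i ∈ Finset.range (b + 1), (T (X ^ (j + i))).natDegree := by
    filter_upwards [hpos] with ρ hρ
    refine ⟨(Splits.C _).mul ((h1 j b _ hn (zpow_pos hρ _)).comp_of_natDegree_le_one
      (by compute_degree)), natDegree_le_iff_coeff_eq_zero.2 (fun m hm => ?_)⟩
    rw [hF ρ hρ]
    refine Finset.sum_eq_zero (fun i hi => ?_)
    rw [coeff_eq_zero_of_natDegree_lt (lt_of_le_of_lt (Finset.single_le_sum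
      (f := fun i => (T (X ^ (j + i))).natDegree) (fun _ _ => Nat.zero_le _) hi) hm)]
    simp
  have a1 : α (d j) = (T (X ^ j)).coeff (d j) := by simp [α, hne]
  have a2 : α (d (j + b)) = (T (X ^ (j + b))).coeff (d (j + b)) := by simp [α, hne.symm]
  have g1 := gap hFs hα (a1 ▸ hj) (a2 ▸ hk) (fun k h2 h3 => by simp [α, h2.ne', h3.ne])
  have g2 := gap hFs hα (a2 ▸ hk) (a1 ▸ hj) (fun k h2 h3 => by simp [α, h2.ne', h3.ne])
  rw [a1, a2] at g1 g2
  exact ⟨g1.1, g2.1, fun h => h.elim g1.2 (fun h => by rw [mul_comm]; exact g2.2 h)⟩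

end Pool.Agent.Lib.MP_7a4764_an.H81
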