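import Mathlib
import Pool.Agent.Lib.MP_7a4764_an.H81Flow

set_option autoImplicit false

/-!
A complex functional without zeros on the nonzero real-rooted polynomials of degree at most `d` has
no zeros on the polynomials with all roots in one of the closed half-planes, so it can be deformed
to an evaluation at a nonreal point.
-/

namespace Pool.Agent.Lib.MP_7a4764_an.H81

open Polynomial Filter Topology Pool.Agent.Lib.MP_7a4764_an.H57

theorem continuous_path {ι : Type} (Λ : ℂ[X] →ₗ[ℂ] ℂ) (A B : ι → ℂ[X]) (W : Multiset ι) :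
    ∀ H : ℂ[X], Continuous fun s : ℝ =>
      Λ (H * (W.map fun w => C (s : ℂ) * A w + C (1 - s : ℂ) * B w).prod) := by
  induction W using Multiset.induction_on with
  | empty => intro H; simpa using continuous_const
  | cons w W ih =>
    intro H
    have h : ∀ (s : ℂ) (G : ℂ[X]), Λ (H * ((C s * A w + C (1 - s) * B w) * G)) =
        s * Λ (H * A w * G) + (1 - s) * Λ (H * B w * G) := by
      intro s G
      rw [← smul_eq_mul s, ← smul_eq_mul (1 - s), ← map_smul, ← map_smul, ← map_add, smul_eq_C_mul,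
        smul_eq_C_mul]
      congr 1; ring
    simp only [Multiset.map_cons, Multiset.prod_cons, h]
    exact (Complex.continuous_ofReal.mul (ih _)).add
      ((continuous_const.sub Complex.continuous_ofReal).mul (ih _))

theorem sign_path {A B : ℝ → ℂ} (hA : Continuous A) (hB : Continuous B)
    (h : ∀ s, 0 ≤ s → s ≤ 1 → B s ≠ 0 ∧ ∀ x : ℝ, A s - x * B s ≠ 0) :
    0 < (A 0 * (starRingEnd ℂ) (B 0)).im * (A 1 * (starRingEnd ℂ) (B 1)).im := by
  have hne : ∀ s, 0 ≤ s → s ≤ 1 → (A s * (starRingEnd ℂ) (B s)).im ≠ 0 := by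
    intro s h0 h1 h2
    obtain ⟨h3, h4⟩ := h s h0 h1
    refine h4 (A s / B s).re ?_
    have h5 : (A s / B s).im = 0 := by
      rw [Complex.div_im, ← sub_div]
      simp only [Complex.mul_im, Complex.conj_re, Complex.conj_im] at h2
      rw [show (A s).im * (B s).re - (A s).re * (B s).im = 0 by linarith, zero_div]
    have h6 : ((A s / B s).re : ℂ) = A s / B s := Complex.ext (by simp) (by simp [h5])
    rw [h6, div_mul_cancel₀ _ h3, sub_self]
  by_contra hcon
  have hc : Continuous fun s => (A 0 * (starRingEnd ℂ) (B 0)).im *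
      (A s * (starRingEnd ℂ) (B s)).im := by fun_prop
  obtain ⟨s, hs, e⟩ := intermediate_value_Icc' zero_le_one hc.continuousOn
    (⟨not_lt.1 hcon, mul_self_nonneg _⟩ : (0 : ℝ) ∈ Set.Icc _ _)
  exact mul_ne_zero (hne 0 le_rfl zero_le_one) (hne s hs.1 hs.2) e

theorem half_plane (Λ : ℂ[X] →ₗ[ℂ] ℂ) (d : ℕ)
    (hN : ∀ W : Multiset ℂ, W.card ≤ d → (∀ w ∈ W, w.im = 0) →
      Λ (W.map fun w => X - C w).prod ≠ 0) (k : ℕ) :
    ∀ W : Multiset ℂ, W.card ≤ d → (∀ w ∈ W, (Λ X * (starRingEnd ℂ) (Λ 1)).im * w.im ≤ 0) →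
      W.countP (fun w => w.im ≠ 0) ≤ k → Λ (W.map fun w => X - C w).prod ≠ 0 := by
  induction k with
  | zero =>
    intro W h1 _ h3
    refine hN W h1 (fun w hw => ?_)
    simpa using Multiset.countP_eq_zero.1 (Nat.le_zero.1 h3) w hw
  | succ k ih =>
    intro W h1 h2 h3
    by_cases h4 : W.countP (fun w => w.im ≠ 0) ≤ k
    · exact ih W h1 h2 h4
    obtain ⟨w, hw, hw'⟩ := Multiset.countP_pos.1 (show 0 < W.countP (fun w => w.im ≠ 0) by omega)
    obtain ⟨V, rfl⟩ := Multiset.exists_cons_of_mem hw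
    rw [Multiset.countP_cons_of_pos (p := fun w : ℂ => w.im ≠ 0) _ hw'] at h3
    rw [Multiset.card_cons] at h1
    let G : ℝ → ℂ[X] := fun s => (V.map fun w => C (s : ℂ) * (X - C w) + C (1 - s : ℂ) * 1).prod
    have hG : ∀ s : ℝ, ∃ (c : ℂ) (V' : Multiset ℂ), c ≠ 0 ∧ V'.card ≤ V.card ∧
        (∀ w ∈ V', (Λ X * (starRingEnd ℂ) (Λ 1)).im * w.im ≤ 0) ∧
        V'.countP (fun w => w.im ≠ 0) ≤ k ∧ G s = c • (V'.map fun w => X - C w).prod := by
      intro s
      by_cases hs : s = 0
      · exact ⟨1, 0, one_ne_zero, by simp, by simp, by simp, by simp [G, hs]⟩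
      have hs' : (s : ℂ) ≠ 0 := by exact_mod_cast hs
      have him : ∀ w : ℂ, (w - ((1 - s) / s : ℝ)).im = w.im := fun w => by
        rw [Complex.sub_im, Complex.ofReal_im, sub_zero]
      refine ⟨s ^ V.card, V.map (fun w => w - ((1 - s) / s : ℝ)), pow_ne_zero _ hs', by simp,
        fun x hx => ?_, ?_, ?_⟩
      · obtain ⟨y, hy, rfl⟩ := Multiset.mem_map.1 hx
        rw [him]; exact h2 y (Multiset.mem_cons_of_mem hy)
      · rw [Multiset.countP_map, ← Multiset.countP_eq_card_filter]
        simp only [him]; omega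
      · have e : ∀ y : ℂ, C (s : ℂ) * (X - C y) + C (1 - s : ℂ) * 1 =
            C (s : ℂ) * (X - C (y - ((1 - s) / s : ℝ))) := by
          intro y
          have : (s : ℂ) * (y - ((1 - s) / s : ℝ)) = s * y - (1 - s) := by
            push_cast; field_simp
          rw [mul_sub (C (s : ℂ)) X (C _), mul_sub (C (s : ℂ)) X (C _), ← C_mul, ← C_mul, this,
            C_sub (a := (s : ℂ) * y)]
          ring
        simp only [G, e]
        rw [Multiset.prod_map_mul, Multiset.map_map, smul_eq_C_mul, C_pow]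
        simp
    have hc : ∀ H : ℂ[X], Continuous fun s => Λ (H * G s) :=
      continuous_path Λ (fun w => X - C w) (fun _ => 1) V
    have hs := sign_path (A := fun s => Λ (X * G s)) (B := fun s => Λ (G s))
      (hc X) (by simpa only [one_mul] using hc 1) (fun s _ _ => by
        obtain ⟨c, V', c0, v1, v2, v3, e⟩ := hG s
        refine ⟨?_, fun x => ?_⟩
        · rw [e, map_smul]
          exact smul_ne_zero c0 (ih V' (by omega) v2 v3)
        · have h5 := ih ((x : ℂ) ::ₘ V') (by rw [Multiset.card_cons]; omega)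
            (fun y hy => by
              rcases Multiset.mem_cons.1 hy with rfl | hy
              · simp
              · exact v2 y hy)
            (by rw [Multiset.countP_cons_of_neg _ (by simp)]; exact v3)
          rw [Multiset.map_cons, Multiset.prod_cons, sub_mul, map_sub, C_mul', map_smul] at h5
          rw [e, mul_smul_comm, map_smul, map_smul, smul_eq_mul, smul_eq_mul, mul_left_comm,
            ← mul_sub]
          exact mul_ne_zero c0 h5)
    have g0 : G 0 = 1 := by simp [G]
    have g1 : G 1 = (V.map fun w => X - C w).prod := by simp [G]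
    simp only [g0, g1, mul_one] at hs
    intro h5
    rw [Multiset.map_cons, Multiset.prod_cons, sub_mul, map_sub, C_mul', map_smul, sub_eq_zero]
      at h5
    rw [h5, smul_eq_mul, mul_assoc, Complex.mul_conj, Complex.im_mul_ofReal, ← mul_assoc] at hs
    exact hs.not_ge (mul_nonpos_of_nonpos_of_nonneg (h2 w (Multiset.mem_cons_self _ _))
      (Complex.normSq_nonneg _))

/-- Transfer from any functional without zeros on real-rooted polynomials to evaluations. -/
theorem transfer (φ : ℝ[X] →ₗ[ℝ] ℂ) (d : ℕ)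
    (hφ : ∀ g : ℝ[X], g.natDegree ≤ d → g.Splits → g ≠ 0 → φ g ≠ 0)
    {T : ℝ[X] →ₗ[ℝ] ℝ[X]} {n : ℕ} (h1 : One T n)
    (hd : ∀ g : ℝ[X], g.natDegree ≤ n → (T g).natDegree ≤ d)
    (h2 : ∀ g, D n g → φ (T g) = 0 → T g = 0) {z : ℂ} (hz : z.im ≠ 0) {g : ℝ[X]} (hg : D n g)
    (h0 : aeval z (T g) = 0) : T g = 0 := by
  let Λ : ℂ[X] →ₗ[ℂ] ℂ := (basisMonomials ℂ).constr ℂ (fun j => φ (X ^ j))
  have hΛ : ∀ j, Λ (X ^ j) = φ (X ^ j) := fun j => by
    have h := (basisMonomials ℂ).constr_basis ℂ (fun j => φ (X ^ j)) j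
    rw [X_pow_eq_monomial (R := ℂ)]
    exact h
  let E : ℂ[X] → ℝ[X] →ₗ[ℝ] ℂ := fun p =>
    Λ.restrictScalars ℝ ∘ₗ (aeval p : ℝ[X] →ₐ[ℝ] ℂ[X]).toLinearMap
  have hE : ∀ p g, E p g = Λ (aeval p g) := fun _ _ => rfl
  have hX : ∀ g, E X g = φ g := fun g => by
    rw [lin_eq_sum (E X) le_rfl, lin_eq_sum φ le_rfl]
    simp only [hE, map_pow, aeval_X, hΛ]
  have hN := fun W h1 h2 => half_plane Λ d (fun W h1 h2 => by
    have e : (W.map fun w => X - C w).prod =
        aeval (X : ℂ[X]) (W.map fun w => (X - C w.re : ℝ[X])).prod := by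
      rw [map_multiset_prod, Multiset.map_map]
      refine congrArg _ (Multiset.map_congr rfl (fun w hw => ?_))
      have : (w.re : ℂ) = w := Complex.ext (by simp) (by simp [h2 w hw])
      simp only [Function.comp, map_sub, aeval_X, aeval_C]
      rw [← this]; rfl
    have hm := monic_multiset_prod_of_monic W (fun w => (X - C w.re : ℝ[X]))
      (fun w _ => monic_X_sub_C _)
    rw [e, ← hE, hX]
    refine hφ _ ?_ (Splits.multisetProd (fun p hp => ?_)) hm.ne_zero
    · have := natDegree_multiset_prod_X_sub_C_eq_card (W.map Complex.re)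
      rw [Multiset.map_map, Multiset.card_map] at this
      exact this.le.trans h1
    · obtain ⟨w, -, rfl⟩ := Multiset.mem_map.1 hp
      exact Splits.X_sub_C _) _ W h1 h2 le_rfl
  wlog hσ : 0 ≤ (Λ X * (starRingEnd ℂ) (Λ 1)).im * z.im generalizing z
  · refine this (z := (starRingEnd ℂ) z) (by simpa using hz) (by rw [aeval_conj, h0, map_zero]) ?_
    rw [Complex.conj_im]
    linarith
  let p : ℝ → ℂ[X] := fun s => C (s : ℂ) * X + C (1 - s : ℂ) * C z
  have hev : ∀ (s : ℝ) (w : ℂ) (f : ℝ[X]), (aeval (p s) f).eval w = aeval (s * w + (1 - s) * z) f := by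
    intro s w f
    have := aeval_algHom_apply ((aeval w : ℂ[X] →ₐ[ℂ] ℂ).restrictScalars ℝ) (p s) f
    simpa [p] using this.symm
  refine flow_family (fun s => E (p s) ∘ₗ T) (LinearMap.ker T) n (fun f => ?_)
    (fun y f hf => by rw [LinearMap.comp_apply, LinearMap.mem_ker.1 hf, map_zero])
    (fun s s0 s1 a b v hab hv h3 => ?_) (fun f hf h3 => h2 f hf ?_) hg ?_
  · simp only [LinearMap.comp_apply, fun s => lin_eq_sum (E (p s)) (g := T f) le_rfl]
    refine continuous_finsetSum _ (fun k _ => Continuous.const_smul ?_ _)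
    have := continuous_path Λ (fun _ : Unit => X) (fun _ => C z) (Multiset.replicate k ()) 1
    simpa [hE, p] using this
  · by_contra h4
    have h5 := (splits_iff_im.1 (h1 a b v hab hv)).resolve_left h4
    have h6 := hd (X ^ a * (X + C v) ^ b) (natDegree_mul_le.trans (by
      rw [natDegree_X_pow, natDegree_pow, natDegree_X_add_C]; omega))
    rw [LinearMap.comp_apply, hE] at h3
    generalize T (X ^ a * (X + C v) ^ b) = f at *
    have h7 : aeval (p s) f ≠ 0 := by
      intro h
      have := hev s z f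
      rw [h, eval_zero, show s * z + (1 - s) * z = z by ring] at this
      exact hz (h5 z this.symm)
    have h8 : (aeval (p s) f).natDegree ≤ d := by
      rw [← aeval_map_algebraMap ℂ, ← comp_eq_aeval]
      refine natDegree_comp_le.trans ?_
      calc _ ≤ d * 1 := Nat.mul_le_mul (natDegree_map_le.trans h6)
            (by simp only [p]; compute_degree)
        _ = d := mul_one d
    rw [(IsAlgClosed.splits (aeval (p s) f)).eq_prod_roots, C_mul', map_smul, smul_eq_zero] at h3
    refine hN _ ((card_roots' _).trans h8) (fun w hw => ?_)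
      (h3.resolve_left (leadingCoeff_ne_zero.2 h7))
    have h9 := h5 _ ((hev s w f).symm.trans (mem_roots'.1 hw).2)
    simp only [Complex.add_im, Complex.mul_im, Complex.ofReal_re, Complex.ofReal_im,
      Complex.sub_re, Complex.sub_im, Complex.one_re, Complex.one_im] at h9
    by_contra h10
    rcases s0.eq_or_lt with rfl | s0'
    · exact hz (by linarith)
    · have h11 := congrArg (fun t => (Λ X * (starRingEnd ℂ) (Λ 1)).im * t) h9
      nlinarith [mul_pos s0' (not_le.1 h10), mul_nonneg (sub_nonneg.2 s1) hσ]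
  · rw [← hX, hE]
    simpa [hE, p] using h3
  · have : aeval (p 0) (T g) = C (aeval z (T g)) := by
      have := aeval_algHom_apply (IsScalarTower.toAlgHom ℝ ℂ ℂ[X]) z (T g)
      simpa [p] using this
    rw [LinearMap.comp_apply, hE, this, h0, C_0, map_zero]

end Pool.Agent.Lib.MP_7a4764_an.H81
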