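import Mathlib
import Pool.Agent.Lib.MP_7a4764_an.H81Gap
import Pool.Agent.Lib.MP_7a4764_an.H81Grace

set_option autoImplicit false

/-!
After many steps of the flow and far out on the imaginary axis, the largest term cannot cancel.
-/

namespace Pool.Agent.Lib.MP_7a4764_an.H81

open Polynomial Filter Topology Pool.Agent.Lib.MP_7a4764_an.H57

theorem am_gm {x y z : ℝ} (hx : 0 < x) (hy : 0 < y) (hxy : x ≠ y) {p q : ℕ} (hp : 0 < p)
    (hq : 0 < q) (h : p * x + q * y = (p + q) * z) : x ^ p * y ^ q < z ^ (p + q) := by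
  have hp' : (0 : ℝ) < p := by exact_mod_cast hp
  have hq' : (0 : ℝ) < q := by exact_mod_cast hq
  have hs : (0 : ℝ) < p + q := by positivity
  have h1 := strictConcaveOn_log_Ioi.2 hx hy hxy (div_pos hp' hs) (div_pos hq' hs)
    (by field_simp)
  have h2 : (p / (p + q) : ℝ) • x + (q / (p + q) : ℝ) • y = z := by
    simp only [smul_eq_mul]; field_simp; linarith
  have hz : 0 < z := by rw [← h2]; simp only [smul_eq_mul]; positivity
  rw [h2] at h1
  rw [← Real.log_lt_log_iff (by positivity) (by positivity), Real.log_mul (by positivity)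
    (by positivity), Real.log_pow, Real.log_pow, Real.log_pow]
  have h3 := mul_lt_mul_of_pos_left h1 hs
  simp only [smul_eq_mul] at h3
  push_cast
  exact lt_of_eq_of_lt (by field_simp) h3

theorem triple {τ : ℤ} {l : Filter ℝ} (hl : Scale τ l) (x y : ℝ) {z : ℝ}
    (hz : 0 < z) {d₁ d₂ d₃ p q : ℕ} (hp : 0 < p) (hq : 0 < q)
    (h : τ * (p * d₁ + q * d₃) ≤ τ * ((p + q) * d₂))
    (hne : d₁ ≠ d₃ ∨ τ * (p * d₁ + q * d₃) < τ * ((p + q) * d₂)) :
    ∀ᶠ N : ℕ in atTop, ∀ᶠ R in l, (x * ((1 + d₁) ^ N * R ^ d₁)) ^ p *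
      (y * ((1 + d₃) ^ N * R ^ d₃)) ^ q ≤ (z * ((1 + d₂) ^ N * R ^ d₂)) ^ (p + q) := by
  obtain ⟨hτ, -, hpos, hlim⟩ := hl
  rcases h.eq_or_lt with h | h
  · have h1 : (p * d₁ + q * d₃ : ℤ) = (p + q) * d₂ := mul_left_cancel₀ hτ h
    have h2 : p * d₁ + q * d₃ = (p + q) * d₂ := by exact_mod_cast h1
    have h3 : (p * d₁ + q * d₃ : ℝ) = (p + q) * d₂ := by exact_mod_cast h1
    have h4 : d₁ ≠ d₃ := hne.resolve_right (by rw [h]; exact lt_irrefl _)
    have h5 := am_gm (x := 1 + d₁) (y := 1 + d₃) (z := 1 + d₂) (by positivity) (by positivity)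
      (by simpa using h4) hp hq (by linarith)
    have h6 : (0 : ℝ) < (1 + d₂) ^ (p + q) := by positivity
    have h7 := ((tendsto_pow_atTop_nhds_zero_of_lt_one (by positivity)
      ((div_lt_one h6).2 h5)).const_mul (x ^ p * y ^ q)).eventually
      (gt_mem_nhds (by rw [mul_zero]; exact pow_pos hz (p + q)))
    filter_upwards [h7] with N hN
    filter_upwards [hpos] with R hR
    rw [div_pow, ← mul_div_assoc, div_lt_iff₀ (by positivity)] at hN
    have h8 := mul_le_mul_of_nonneg_right hN.le (pow_nonneg hR.le ((p + q) * d₂))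
    exact (le_of_eq (by rw [← h2]; ring)).trans (h8.trans (le_of_eq (by ring)))
  · refine Eventually.of_forall (fun N => ?_)
    have h6 : (0 : ℝ) < (z * (1 + d₂) ^ N) ^ (p + q) := by positivity
    have h7 := ((hlim ((p * d₁ + q * d₃ : ℤ) - (p + q) * d₂) (by linarith)).const_mul
      ((x * (1 + d₁) ^ N) ^ p * (y * (1 + d₃) ^ N) ^ q)).eventually
      (gt_mem_nhds (by rw [mul_zero]; exact h6))
    filter_upwards [h7, hpos] with R h8 hR
    rw [zpow_sub₀ hR.ne', ← mul_div_assoc, div_lt_iff₀ (by positivity)] at h8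
    norm_cast at h8
    push_cast at h8
    exact (le_of_eq (by ring)).trans (h8.le.trans (le_of_eq (by ring)))

theorem tail {τ : ℤ} {l : Filter ℝ} (hl : Scale τ l) {B : ℝ[X]} {d : ℕ}
    (hd : ∀ m, B.coeff m ≠ 0 → τ * m ≤ τ * d) (h0 : B ≠ 0 → B.coeff d ≠ 0) {ε : ℝ} (hε : 0 < ε) :
    ∀ᶠ R : ℝ in l, ‖aeval (R * Complex.I) B - (B.coeff d * R ^ d : ℝ) * Complex.I ^ d‖ ≤
      ε * |B.coeff d * R ^ d| := by
  obtain ⟨hτ, -, hpos, hlim⟩ := hl
  by_cases hB : B = 0
  · simp [hB]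
  have h1 : Tendsto (fun R : ℝ => ∑ m ∈ (Finset.range (B.natDegree + 1)).erase d,
      |B.coeff m| * R ^ ((m : ℤ) - d)) l (𝓝 (∑ m ∈ (Finset.range (B.natDegree + 1)).erase d, 0)) := by
    refine tendsto_finsetSum _ (fun m hm => ?_)
    by_cases h2 : B.coeff m = 0
    · simpa [h2] using tendsto_const_nhds
    have h3 : τ * m < τ * d := lt_of_le_of_ne (hd m h2)
      (fun h4 => Finset.ne_of_mem_erase hm (by exact_mod_cast mul_left_cancel₀ hτ h4))
    simpa using (hlim _ (by linarith)).const_mul |B.coeff m|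
  rw [Finset.sum_const_zero] at h1
  filter_upwards [h1.eventually (gt_mem_nhds (mul_pos hε (abs_pos.2 (h0 hB)))), hpos] with R h2 hR
  have h3 : d ∈ Finset.range (B.natDegree + 1) :=
    Finset.mem_range.2 (Nat.lt_succ_of_le (le_natDegree_of_ne_zero (h0 hB)))
  have h4 : B.coeff d • ((R : ℂ) * Complex.I) ^ d = (B.coeff d * R ^ d : ℝ) * Complex.I ^ d := by
    rw [Complex.real_smul, mul_pow]; push_cast; ring
  rw [aeval_eq_sum_range, ← Finset.add_sum_erase _ _ h3, h4, add_sub_cancel_left]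
  refine (norm_sum_le _ _).trans ?_
  have h5 := mul_le_mul_of_nonneg_right h2.le (pow_nonneg hR.le d)
  rw [Finset.sum_mul] at h5
  rw [abs_mul, abs_of_pos (pow_pos hR d), ← mul_assoc]
  refine le_trans (le_of_eq (Finset.sum_congr rfl (fun m _ => ?_))) h5
  rw [norm_smul, norm_pow, norm_mul, Complex.norm_I, mul_one, Complex.norm_real, Real.norm_eq_abs,
    Real.norm_eq_abs, abs_of_pos hR, zpow_sub₀ hR.ne', zpow_natCast, zpow_natCast]
  field_simp

theorem small {x A ε : ℝ} (hA : 0 < A) (hε : 0 < ε) (hε' : ε ≤ 1) {p q : ℕ} (hq : 0 < q)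
    (h : A ^ p * x ^ q ≤ (ε * A) ^ (p + q)) : x ≤ ε * A := by
  refine le_of_pow_le_pow_left₀ hq.ne' (by positivity) ?_
  refine le_of_mul_le_mul_left (h.trans ?_) (pow_pos hA p)
  rw [pow_add]
  exact mul_le_mul_of_nonneg_right (pow_le_pow_left₀ (by positivity) (by nlinarith) p)
    (by positivity)

theorem final (n : ℕ) {f μ : ℕ → ℝ} {E u : ℕ → ℂ} (hu : ∀ k, ‖u k‖ = 1) (h0 : ∀ k, 0 ≤ f k)
    (hf : ∀ a c, a ≤ c → f a * f (c + 1) ≤ f (a + 1) * f c) {ε : ℝ} (hε : 0 < ε)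
    (hε' : (n + 1) * (2 * ε) < 1) (hE : ∀ k ≤ n, ‖E k - μ k * u k‖ ≤ ε * |μ k|)
    (hW : ∀ j k, j < k → k ≤ n → 0 ≤ μ j * μ k * ((starRingEnd ℂ) (u j) * u k).re ∨
      ∃ q p, 0 < q ∧ 0 < p ∧ k = j + q + p ∧ |μ j| ^ p * |μ k| ^ q ≤ (ε * |μ (j + q)|) ^ (p + q))
    (hne : ∃ k ≤ n, f k * μ k ≠ 0) : ∑ k ∈ Finset.range (n + 1), f k • E k ≠ 0 := by
  obtain ⟨k₀, hk₀, hmax⟩ := (Finset.range (n + 1)).exists_max_image (fun k => f k * |μ k|)
    ⟨0, by simp⟩
  simp only [Finset.mem_range, Nat.lt_succ_iff] at hk₀ hmax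
  have hA : 0 < f k₀ * |μ k₀| := by
    obtain ⟨k, hk, h1⟩ := hne
    refine lt_of_lt_of_le ?_ (hmax k hk)
    exact mul_pos (lt_of_le_of_ne (h0 k) (left_ne_zero_of_mul h1).symm)
      (abs_pos.2 (right_ne_zero_of_mul h1))
  have hμ : 0 < |μ k₀| := by
    refine abs_pos.2 (fun h => ?_)
    simp [h] at hA
  have hε1 : ε ≤ 1 := by nlinarith [(Nat.cast_nonneg n : (0 : ℝ) ≤ n)]
  have htri : ∀ j q p, 0 < q → 0 < p → j + q + p ≤ n →
      |μ j| ^ p * |μ (j + q + p)| ^ q ≤ (ε * |μ (j + q)|) ^ (p + q) →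
      (f j * |μ j|) ^ p * (f (j + q + p) * |μ (j + q + p)|) ^ q ≤
        (ε * (f k₀ * |μ k₀|)) ^ (p + q) := by
    intro j q p hq hp hn h
    have h1 := mul_le_mul (pow_le_of_ratio h0 hf j q p hp hq) h (by positivity)
      (pow_nonneg (h0 _) _)
    have h2 := pow_le_pow_left₀ (mul_nonneg hε.le (mul_nonneg (h0 _) (abs_nonneg _)))
      (mul_le_mul_of_nonneg_left (hmax (j + q) (by omega)) hε.le) (p + q)
    refine le_trans ?_ h2
    convert h1 using 1 <;> ring
  have hcase : ∀ k ≤ n, k ≠ k₀ → 0 ≤ μ k₀ * μ k * ((starRingEnd ℂ) (u k₀) * u k).re ∨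
      f k * |μ k| ≤ ε * (f k₀ * |μ k₀|) := by
    intro k hk hne
    rcases lt_or_gt_of_ne hne with h | h
    · rcases hW k k₀ h hk₀ with h1 | ⟨q, p, hq, hp, e, h1⟩
      · left
        convert h1 using 1
        simp only [Complex.mul_re, Complex.conj_re, Complex.conj_im]; ring
      · right
        have h2 := htri k q p hq hp (by omega) (by rwa [← e])
        rw [← e, mul_comm, add_comm p q] at h2
        exact small hA hε hε1 hp h2
    · rcases hW k₀ k h hk with h1 | ⟨q, p, hq, hp, e, h1⟩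
      · exact Or.inl h1
      · right
        have h2 := htri k₀ q p hq hp (by omega) (by rwa [← e])
        rw [← e] at h2
        exact small hA hε hε1 hq h2
  have hterm : ∀ k ∈ Finset.range (n + 1),
      (if k = k₀ then |μ k₀| * (f k₀ * |μ k₀|) else 0) - 2 * ε * (|μ k₀| * (f k₀ * |μ k₀|)) ≤
        ((μ k₀ : ℂ) * (starRingEnd ℂ) (u k₀) * (f k • E k)).re := by
    intro k hk
    have hk' : k ≤ n := Nat.lt_succ_iff.1 (Finset.mem_range.1 hk)
    have e : (μ k₀ : ℂ) * (starRingEnd ℂ) (u k₀) * (f k • E k) =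
        (f k * (μ k₀ * μ k) : ℝ) * ((starRingEnd ℂ) (u k₀) * u k) +
          (μ k₀ : ℂ) * (starRingEnd ℂ) (u k₀) * (f k * (E k - μ k * u k)) := by
      rw [Complex.real_smul]; push_cast; ring
    have e1 : ‖(μ k₀ : ℂ) * (starRingEnd ℂ) (u k₀) * (f k * (E k - μ k * u k))‖ ≤
        ε * (|μ k₀| * (f k₀ * |μ k₀|)) := by
      rw [norm_mul, norm_mul, norm_mul, Complex.norm_conj, hu, Complex.norm_real,
        Complex.norm_real, Real.norm_eq_abs, Real.norm_eq_abs, abs_of_nonneg (h0 k), mul_one]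
      have h1 := mul_le_mul_of_nonneg_left (hE k hk') (h0 k)
      have h2 := mul_le_mul_of_nonneg_left (hmax k hk') hε.le
      nlinarith
    have e2 := (abs_le.1 ((Complex.abs_re_le_norm _).trans e1)).1
    rw [e, Complex.add_re, Complex.re_ofReal_mul]
    have hpos : 0 < ε * (|μ k₀| * (f k₀ * |μ k₀|)) := by positivity
    split_ifs with h
    · subst h
      have h1 : ((starRingEnd ℂ) (u k) * u k).re = 1 := by
        rw [Complex.conj_mul', hu]; simp
      have h2 : |μ k| * (f k * |μ k|) = f k * (μ k * μ k) := by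
        rw [← abs_mul_abs_self (μ k)]; ring
      rw [h1]
      linarith
    · rcases hcase k hk' h with h1 | h1
      · nlinarith [mul_nonneg (h0 k) h1]
      · have h2 : |((starRingEnd ℂ) (u k₀) * u k).re| ≤ 1 := by
          refine (Complex.abs_re_le_norm _).trans ?_
          rw [norm_mul, Complex.norm_conj, hu, hu, mul_one]
        have h3 : |f k * (μ k₀ * μ k) * ((starRingEnd ℂ) (u k₀) * u k).re| ≤
            ε * (|μ k₀| * (f k₀ * |μ k₀|)) := by
          rw [abs_mul, abs_mul, abs_mul, abs_of_nonneg (h0 k)]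
          have h4 := mul_le_mul_of_nonneg_left h1 hμ.le
          have h5 := mul_le_mul_of_nonneg_left h2
            (mul_nonneg (h0 k) (mul_nonneg hμ.le (abs_nonneg (μ k))))
          nlinarith
        linarith [(abs_le.1 h3).1]
  intro h
  have h1 := Finset.sum_le_sum hterm
  rw [← Complex.re_sum, ← Finset.mul_sum, h, Finset.sum_sub_distrib, Finset.sum_ite_eq',
    if_pos (by simpa [Nat.lt_succ_iff] using hk₀), Finset.sum_const, Finset.card_range] at h1
  simp only [nsmul_eq_mul, mul_zero, Complex.zero_re] at h1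
  push_cast at h1
  nlinarith [mul_pos hμ hA]

theorem exists_point {T : ℝ[X] →ₗ[ℝ] ℝ[X]} {n : ℕ} (h1 : One T n) {τ : ℤ} {l : Filter ℝ}
    (hl : Scale τ l) {d : ℕ → ℕ}
    (hd : ∀ k m, (T (X ^ k)).coeff m ≠ 0 → τ * m ≤ τ * d k)
    (h0 : ∀ k, T (X ^ k) ≠ 0 → (T (X ^ k)).coeff (d k) ≠ 0)
    (hs : ∀ j b, 0 < b → j + b ≤ n → d j = d (j + b) →
      (T (X ^ j)).coeff (d j) * (T (X ^ (j + b))).coeff (d (j + b)) < 0 →
      ∃ i, 0 < i ∧ i < b ∧ T (X ^ (j + i)) ≠ 0 ∧ τ * d j < τ * d (j + i)) :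
    ∃ (N : ℕ) (R : ℝ), 0 < R ∧ ∀ g, D n g →
      aeval ((R : ℂ) * Complex.I) ((U 1 ^ N) (T g)) = 0 →
        ∀ k ≤ n, T (X ^ k) ≠ 0 → g.coeff k = 0 := by
  obtain ⟨ε, hε, hε'⟩ : ∃ ε : ℝ, 0 < ε ∧ (n + 1) * (2 * ε) < 1 :=
    ⟨1 / (4 * (n + 1)), by positivity, by field_simp; norm_num⟩
  let lam : ℕ → ℝ := fun k => (T (X ^ k)).coeff (d k)
  let w : ℕ → ℝ → ℕ → ℝ := fun N R k => (1 + d k) ^ N * R ^ d k
  let c : ℕ → ℕ → ℝ := fun j k => ((starRingEnd ℂ) (Complex.I ^ d j) * Complex.I ^ d k).re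
  have hc : ∀ a e : ℕ, (starRingEnd ℂ) (Complex.I ^ a) * Complex.I ^ (a + e) = Complex.I ^ e := by
    intro a e
    rw [pow_add, ← mul_assoc, Complex.conj_mul']
    simp
  have hc' : ∀ a e : ℕ, ((starRingEnd ℂ) (Complex.I ^ (a + e)) * Complex.I ^ a).re =
      (Complex.I ^ e).re := by
    intro a e
    rw [← hc a e]
    simp only [Complex.mul_re, Complex.conj_re, Complex.conj_im]; ring
  have key : ∀ j k, j < k → k ≤ n → ∀ᶠ N : ℕ in atTop, ∀ᶠ R in l, 0 ≤ lam j * lam k * c j k ∨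
      ∃ q p, 0 < q ∧ 0 < p ∧ k = j + q + p ∧ (|lam j| * w N R j) ^ p * (|lam k| * w N R k) ^ q ≤
        (ε * |lam (j + q)| * w N R (j + q)) ^ (p + q) := by
    intro j k hjk hk
    by_cases hgood : 0 ≤ lam j * lam k * c j k
    · exact Eventually.of_forall fun _ => Eventually.of_forall fun _ => Or.inl hgood
    obtain ⟨b, rfl⟩ : ∃ b, k = j + b := ⟨k - j, by omega⟩
    have hj0 : lam j ≠ 0 := fun h => hgood (by simp [h])
    have hk0 : lam (j + b) ≠ 0 := fun h => hgood (by simp [h])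
    have hex : ∃ i, 0 < i ∧ i < b ∧ T (X ^ (j + i)) ≠ 0 ∧
        τ * ((b - i) * d j + i * d (j + b)) ≤ τ * (b * d (j + i)) ∧ (d j ≠ d (j + b) ∨
          τ * ((b - i) * d j + i * d (j + b)) < τ * (b * d (j + i))) := by
      by_cases he : d j = d (j + b)
      · have h2 : c j (j + b) = 1 := by
          have := hc (d j) 0
          simp only [c, ← he]
          rw [add_zero] at this
          rw [this]; simp
        obtain ⟨i, i0, i1, i2, i3⟩ := hs j b (by omega) hk he (by simpa [h2] using hgood)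
        have hb' : (0 : ℤ) < b := by exact_mod_cast (by omega : 0 < b)
        have h3 : τ * ((b - i) * d j + i * d (j + b)) < τ * (b * d (j + i)) := by
          rw [← he]; nlinarith [mul_lt_mul_of_pos_left i3 hb']
        exact ⟨i, i0, i1, i2, h3.le, Or.inr h3⟩
      by_contra hno
      obtain ⟨g1, g2, g3⟩ := chord h1 hl hd (by omega) hk hj0 hk0 (fun i i0 i1 i2 => by
        by_contra h4
        exact hno ⟨i, i0, i1, i2, not_lt.1 h4, Or.inl he⟩) he
      have hcases : d (j + b) = d j + 1 ∨ d j = d (j + b) + 1 ∨ d (j + b) = d j + 2 ∨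
          d j = d (j + b) + 2 := by omega
      refine hgood ?_
      rcases hcases with h | h | h | h
      · simp only [c]; rw [h, hc]; simp
      · simp only [c]; rw [h, hc']; simp
      · have := g3 (Or.inl h.symm)
        simp only [c]; rw [h, hc]; simp; exact this.le
      · have := g3 (Or.inr h.symm)
        simp only [c]; rw [h, hc']; simp; exact this.le
    obtain ⟨q, q0, q1, q2, q3, q4⟩ := hex
    obtain ⟨p, rfl⟩ : ∃ p, b = q + p := ⟨b - q, by omega⟩
    have := triple hl |lam j| |lam (j + (q + p))| (mul_pos hε (abs_pos.2 (h0 _ q2)))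
      (d₁ := d j) (d₂ := d (j + q)) (d₃ := d (j + (q + p))) (p := p) (by omega) q0
      (by push_cast at q3; linarith) (q4.imp id (fun h => by push_cast at h; linarith))
    filter_upwards [this] with N hN
    filter_upwards [hN] with R hR
    exact Or.inr ⟨q, p, q0, by omega, by omega, hR⟩
  have all1 : ∀ᶠ N : ℕ in atTop, ∀ k ∈ Finset.range (n + 1), ∀ j ∈ Finset.range k, _ :=
    (eventually_all_finset _).2 fun k hk => (eventually_all_finset _).2 fun j hj =>
      key j k (Finset.mem_range.1 hj) (Nat.lt_succ_iff.1 (Finset.mem_range.1 hk))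
  obtain ⟨N, hN⟩ := all1.exists
  have all2 : ∀ᶠ R in l, ∀ k ∈ Finset.range (n + 1), ∀ j ∈ Finset.range k, _ :=
    (eventually_all_finset _).2 fun k hk => (eventually_all_finset _).2 fun j hj => hN k hk j hj
  have all3 : ∀ᶠ R : ℝ in l, ∀ k ∈ Finset.range (n + 1), _ :=
    (eventually_all_finset _).2 fun k _ => tail hl (B := (U 1 ^ N) (T (X ^ k))) (d := d k)
      (fun m hm => hd k m (by rw [coeff_U_pow] at hm; exact right_ne_zero_of_mul hm))
      (fun h => by
        rw [coeff_U_pow]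
        exact mul_ne_zero (by positivity) (h0 k (fun h2 => h (by rw [h2, map_zero])))) hε
  have := hl.2.1
  obtain ⟨R, ⟨hR2, hR3⟩, hR⟩ := ((all2.and all3).and hl.2.2.1).exists
  refine ⟨N, R, hR, ?_⟩
  rintro g ⟨S, hcard, hS, rfl⟩ g2 k₁ hk₁ g0
  by_contra g1
  have hdeg : (P S).natDegree ≤ n := hcard ▸ natDegree_P_le S
  have hw : ∀ k, 0 < w N R k := fun k => by simp only [w]; positivity
  have hμ : ∀ k, ((U 1 ^ N) (T (X ^ k))).coeff (d k) * R ^ d k = lam k * w N R k := fun k => by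
    rw [coeff_U_pow]; simp only [lam, w]; ring
  refine final n (f := fun k => (P S).coeff k) (μ := fun k => lam k * w N R k)
    (E := fun k => aeval ((R : ℂ) * Complex.I) ((U 1 ^ N) (T (X ^ k))))
    (u := fun k => Complex.I ^ d k) (fun k => by simp) (ratio_P S hS).1 (ratio_P S hS).2 hε hε'
    (fun k hk => ?_) (fun j k hjk hk => ?_) ?_ ?_
  · have := hR3 k (Finset.mem_range.2 (Nat.lt_succ_of_le hk))
    rwa [hμ] at this
  · rcases hR2 k (Finset.mem_range.2 (Nat.lt_succ_of_le hk)) j (Finset.mem_range.2 hjk) with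
      h | ⟨q, p, hq, hp, e, h⟩
    · left
      have := mul_nonneg h (mul_pos (hw j) (hw k)).le
      simp only [c] at this
      linarith
    · refine Or.inr ⟨q, p, hq, hp, e, ?_⟩
      simp only [abs_mul, abs_of_pos (hw _)]
      rwa [← mul_assoc ε]
  · exact ⟨k₁, hk₁, mul_ne_zero g1 (mul_ne_zero (h0 k₁ g0) (hw k₁).ne')⟩
  · rw [lin_eq_sum T hdeg, map_sum, map_sum] at g2
    simpa only [map_smul] using g2

/-- If the order of the one-parameter symbols does not move, ties have equal signs. -/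
theorem sign_of_order {T : ℝ[X] →ₗ[ℝ] ℝ[X]} {τ : ℤ} {d : ℕ → ℕ}
    (hd : ∀ k m, (T (X ^ k)).coeff m ≠ 0 → τ * m ≤ τ * d k) {j b : ℕ}
    (H : ∀ (u v : ℝ) (m : ℕ), 0 < u → 0 < v →
      (∀ (y : ℝ) (m' : ℕ), τ * m < τ * m' → (T (X ^ j * (X + C y) ^ b)).coeff m' = 0) →
      (T (X ^ j * (X + C u) ^ b)).coeff m = 0 → (T (X ^ j * (X + C v) ^ b)).coeff m = 0)
    (he : d j = d (j + b))
    (hneg : (T (X ^ j)).coeff (d j) * (T (X ^ (j + b))).coeff (d (j + b)) < 0) :
    ∃ i, 0 < i ∧ i < b ∧ T (X ^ (j + i)) ≠ 0 ∧ τ * d j < τ * d (j + i) := by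
  by_contra hno
  have hvan : ∀ (y : ℝ) (m' : ℕ), τ * d j < τ * m' →
      (T (X ^ j * (X + C y) ^ b)).coeff m' = 0 := by
    intro y m' hm
    rw [test_expand]
    refine Finset.sum_eq_zero (fun i hi => ?_)
    have hi' : i ≤ b := Nat.lt_succ_iff.1 (Finset.mem_range.1 hi)
    by_cases h2 : (T (X ^ (j + i))).coeff m' = 0
    · simp [h2]
    have h3 := hm.trans_le (hd _ _ h2)
    rcases Nat.eq_zero_or_pos i with rfl | i0
    · exact absurd h3 (lt_irrefl _)
    rcases hi'.eq_or_lt with rfl | i1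
    · rw [he] at h3; exact absurd h3 (lt_irrefl _)
    exact absurd ⟨i, i0, i1, fun h => h2 (by simp [h]), h3⟩ hno
  let Q : ℝ → ℝ := fun s => (T (X ^ j)).coeff (d j) * ∑ i ∈ Finset.range (b + 1),
    (b.choose i : ℝ) * (T (X ^ (j + i))).coeff (d j) * (s ^ i * (1 - s) ^ (b - i))
  have hQ : ∀ s : ℝ, 0 < s → Q s = (T (X ^ j)).coeff (d j) *
      (s ^ b * (T (X ^ j * (X + C ((1 - s) / s)) ^ b)).coeff (d j)) := by
    intro s hs
    simp only [Q]
    rw [test_expand, Finset.mul_sum _ _ (s ^ b)]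
    congr 1
    refine Finset.sum_congr rfl (fun i hi => ?_)
    obtain ⟨e, rfl⟩ := Nat.exists_eq_add_of_le (Nat.lt_succ_iff.1 (Finset.mem_range.1 hi))
    rw [Nat.add_sub_cancel_left, div_pow]
    field_simp
    ring
  have hj0 : (T (X ^ j)).coeff (d j) ≠ 0 := left_ne_zero_of_mul hneg.ne
  have Q0 : Q 0 = (T (X ^ j)).coeff (d j) ^ 2 := by
    simp only [Q]
    rw [Finset.sum_range_succ']
    simp [sq]
  have Q1 : Q 1 = (T (X ^ j)).coeff (d j) * (T (X ^ (j + b))).coeff (d (j + b)) := by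
    simp only [Q]
    rw [Finset.sum_range_succ, Finset.sum_eq_zero (fun i hi => by
      simp [Nat.sub_ne_zero_of_lt (Finset.mem_range.1 hi)])]
    simp [he]
  have hsq : 0 < (T (X ^ j)).coeff (d j) ^ 2 := by positivity
  have hiv := intermediate_value_Ioo' (f := Q) zero_le_one (by simp only [Q]; fun_prop)
  rw [Q0, Q1] at hiv
  obtain ⟨s, hs, e⟩ := hiv ⟨hneg, hsq⟩
  obtain ⟨t, ht, e'⟩ := hiv (⟨by linarith, by linarith⟩ :
    (T (X ^ j)).coeff (d j) ^ 2 / 2 ∈ Set.Ioo _ _)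
  rw [hQ s hs.1, mul_eq_zero, mul_eq_zero] at e
  have h2 := H _ ((1 - t) / t) (d j) (div_pos (by linarith [hs.2]) hs.1)
    (div_pos (by linarith [ht.2]) ht.1) hvan
    ((e.resolve_left hj0).resolve_left (pow_pos hs.1 b).ne')
  rw [hQ t ht.1, h2] at e'
  linarith

theorem no_zero {T M : ℝ[X] →ₗ[ℝ] ℝ[X]} {n d : ℕ} (h1 : One T n)
    (hd : ∀ k ≤ n, (T (X ^ k)).natDegree ≤ d)
    (hM : ∀ g : ℝ[X], g.natDegree ≤ d → g ≠ 0 → g.Splits → M g ≠ 0 ∧ (M g).Splits)
    (H : ∀ (a b : ℕ) (u v : ℝ), a + b ≤ n → 0 < u → 0 < v →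
      (M (T (X ^ a * (X + C u) ^ b))).degree = (M (T (X ^ a * (X + C v) ^ b))).degree)
    {z : ℂ} (hz : z.im ≠ 0) {g : ℝ[X]} (hg : D n g) (h0 : aeval z (T g) = 0) : T g = 0 := by
  have hd' : ∀ g : ℝ[X], g.natDegree ≤ n → (T g).natDegree ≤ d := by
    intro g hg
    rw [lin_eq_sum T hg]
    exact natDegree_sum_le_of_forall_le _ _ (fun k hk => (natDegree_smul_le _ _).trans
      (hd k (Nat.lt_succ_iff.1 (Finset.mem_range.1 hk))))
  have h2 : One (M ∘ₗ T) n := fun a b v hab hv => by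
    rw [LinearMap.comp_apply]
    by_cases h : T (X ^ a * (X + C v) ^ b) = 0
    · rw [h, map_zero]; exact Splits.zero
    exact (hM _ (hd' _ (natDegree_mul_le.trans (by
      rw [natDegree_X_pow, natDegree_pow, natDegree_X_add_C]; omega))) h (h1 a b v hab hv)).2
  have h3 : ∀ k m : ℕ, ((M ∘ₗ T) (X ^ k)).coeff m ≠ 0 →
      (1 : ℤ) * m ≤ 1 * ((M ∘ₗ T) (X ^ k)).natDegree := fun k m h => by
    simpa using le_natDegree_of_ne_zero h
  obtain ⟨N, R, hR, h4⟩ := exists_point h2 scale_atTop h3 (fun k h => leadingCoeff_ne_zero.2 h)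
    (fun j b _ hn he hneg => sign_of_order h3 (fun u v m hu hv h2 h3 => by
      refine coeff_eq_zero_of_degree_lt ?_
      rw [LinearMap.comp_apply, ← H j b u v hn hu hv, degree_lt_iff_coeff_zero]
      intro m' hm
      rcases hm.eq_or_lt with rfl | h
      · exact h3
      · exact h2 u m' (by simpa using h)) he hneg)
  refine transfer ((aeval ((R : ℂ) * Complex.I) : ℝ[X] →ₐ[ℝ] ℂ).toLinearMap ∘ₗ ((U 1 ^ N) ∘ₗ M)) d
    (fun f f1 f2 f3 f4 => ?_) h1 hd' (fun f hf h5 => ?_) hz hg h0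
  · obtain ⟨h5, h6⟩ := U_pow_spec N (hM f f1 f3 f2).2 (hM f f1 f3 f2).1
    have h7 := (splits_iff_im.1 h5).resolve_left h6 _ f4
    simp [hR.ne'] at h7
  · obtain ⟨S, hS, -, e⟩ := id hf
    rw [lin_eq_sum T (show f.natDegree ≤ n by rw [e, ← hS]; exact natDegree_P_le S)]
    refine Finset.sum_eq_zero (fun k hk => ?_)
    have hk' : k ≤ n := Nat.lt_succ_iff.1 (Finset.mem_range.1 hk)
    by_cases h6 : T (X ^ k) = 0
    · rw [h6, smul_zero]
    rw [h4 f hf h5 k hk' (hM _ (hd k hk') h6 (by simpa using h1 k 0 1 hk' one_pos)).1, zero_smul]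

end Pool.Agent.Lib.MP_7a4764_an.H81
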