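import Mathlib
import Pool.Agent.Lib.MP_7a4764_an.H81Main
import Pool.Agent.Lib.MP_7a4764_an.H60Limit
import Pool.Agent.Lib.MP_7a4764_an.Sharp

set_option autoImplicit false

/-!
Pointwise limits of real-rooted polynomials, maps with a nonnegative matrix, and maps whose range
consists of real-rooted polynomials.
-/

namespace Pool.Agent.Lib.MP_7a4764_an.H81

open Polynomial Filter Topology Pool.Agent.Lib.MP_7a4764_an.H57

/-- The class of the problem. -/
def InClass (T : ℝ[X] →ₗ[ℝ] ℝ[X]) : Prop :=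
  ∀ f : ℝ[X], f.Splits → (∀ k, 0 ≤ f.coeff k) → (T f).Splits

theorem norm_aeval_mono {f : ℝ[X]} (hf : f.Splits) {z w : ℂ} (hre : w.re = z.re)
    (him : w.im ^ 2 ≤ z.im ^ 2) : ‖aeval w f‖ ≤ ‖aeval z f‖ := by
  have h2 := H60.norm_prod_le z w (κ := 1) zero_le_one (fun r => by
    rw [one_mul, ← sq_le_sq₀ (norm_nonneg _) (norm_nonneg _), Complex.sq_norm, Complex.sq_norm,
      Complex.normSq_apply, Complex.normSq_apply]
    simp only [Complex.sub_re, Complex.sub_im, Complex.ofReal_re, Complex.ofReal_im, hre]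
    nlinarith) f.roots
  have e : ∀ x : ℂ, ‖aeval x f‖ =
      |f.leadingCoeff| * ‖aeval x (f.roots.map (fun r => (X - C r : ℝ[X]))).prod‖ := by
    intro x
    conv_lhs => rw [hf.eq_prod_roots]
    rw [map_mul, norm_mul, aeval_C]
    simp
  rw [e, e]
  exact mul_le_mul_of_nonneg_left (by simpa using h2) (abs_nonneg _)

/-- A pointwise limit of translates of real-rooted polynomials of any degrees is real-rooted. -/
theorem splits_of_tendsto {ι : Type} {l : Filter ι} [l.NeBot] {F : ι → ℝ[X]} {M : ι → ℝ}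
    {p : ℝ[X]} (hF : ∀ᶠ i in l, (F i).Splits)
    (h : ∀ z : ℂ, Tendsto (fun i => aeval (z - M i) (F i)) l (𝓝 (aeval z p))) : p.Splits := by
  refine splits_iff_im.2 (or_iff_not_imp_right.2 fun hcon => ?_)
  push Not at hcon
  obtain ⟨z, hz, him⟩ := hcon
  have key : ∀ t ∈ Set.Icc (0 : ℝ) 1, aeval ((z.re : ℂ) + (t * z.im : ℝ) * Complex.I) p = 0 := by
    intro t ht
    rw [← norm_le_zero_iff, ← norm_zero (E := ℂ), ← hz]
    refine le_of_tendsto_of_tendsto (h _).norm (h z).norm ?_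
    filter_upwards [hF] with i hi
    refine norm_aeval_mono hi (by simp) ?_
    have : t ^ 2 ≤ 1 := by nlinarith [ht.1, ht.2]
    simp only [Complex.sub_im, Complex.add_im, Complex.ofReal_im, Complex.mul_im, Complex.I_im,
      Complex.I_re, Complex.ofReal_re]
    nlinarith [sq_nonneg z.im]
  refine (Polynomial.map_eq_zero_iff (algebraMap ℝ ℂ).injective).1
    (eq_zero_of_infinite_isRoot _ (Set.Infinite.mono ?_
      ((Set.Icc_infinite (zero_lt_one' ℝ)).image
        (f := fun t : ℝ => (z.re : ℂ) + (t * z.im : ℝ) * Complex.I) ?_)))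
  · rintro _ ⟨t, ht, rfl⟩
    rw [Set.mem_ofPred_eq, IsRoot, eval_map_algebraMap]
    exact key t ht
  · intro s _ t _ hst
    have := congrArg Complex.im hst
    simpa [him] using this

theorem inClass_of_D {T : ℝ[X] →ₗ[ℝ] ℝ[X]} (h : ∀ n g, D n g → (T g).Splits) : InClass T := by
  intro f hf hc
  by_cases h0 : f = 0
  · rw [h0, map_zero]; exact Splits.zero
  obtain ⟨g, hg, hfg⟩ := exists_D hf hc h0 le_rfl
  rw [hfg, C_mul', map_smul, smul_eq_C_mul]
  exact (Splits.C _).mul (h _ g hg)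

theorem InClass.of_D {T : ℝ[X] →ₗ[ℝ] ℝ[X]} (h : InClass T) {n : ℕ} {g : ℝ[X]} (hg : D n g) :
    (T g).Splits := by
  obtain ⟨S, -, hS, rfl⟩ := hg
  exact h _ (splits_P S) (ratio_P S hS).1

theorem InClass.one {T : ℝ[X] →ₗ[ℝ] ℝ[X]} (h : InClass T) (a b : ℕ) {v : ℝ} (hv : 0 < v) :
    (T (X ^ a * (X + C v) ^ b)).Splits := by
  refine h _ ((Splits.X_pow a).mul ((Splits.X_add_C v).pow b)) ?_
  refine coeff_mul_nonneg (coeff_pow_nonneg (fun k => ?_) a)
    (coeff_pow_nonneg (coeff_X_add_C_nonneg hv.le) b)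
  simpa using coeff_X_add_C_nonneg le_rfl k

/-- For a nonnegative matrix the one-parameter symbols decide. -/
theorem inClass_of_nonneg {S : ℝ[X] →ₗ[ℝ] ℝ[X]} (hS : ∀ k j, 0 ≤ (S (X ^ k)).coeff j)
    (h1 : ∀ (a b : ℕ) (v : ℝ), 0 < v → (S (X ^ a * (X + C v) ^ b)).Splits) : InClass S := by
  refine inClass_of_D fun n g hg => splits_iff_im.2 (or_iff_not_imp_left.2 fun h0 z hz => ?_)
  by_contra him
  have hsup : ∀ (a b m : ℕ) (u v : ℝ), 0 < u → 0 < v →
      (S (X ^ a * (X + C u) ^ b)).coeff m = 0 → (S (X ^ a * (X + C v) ^ b)).coeff m = 0 := by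
    intro a b m u v hu _ h
    rw [test_expand, Finset.sum_eq_zero_iff_of_nonneg (fun i _ =>
      mul_nonneg (mul_nonneg (by positivity) (hS _ _)) (by positivity))] at h
    rw [test_expand]
    refine Finset.sum_eq_zero (fun i hi => ?_)
    rw [(mul_eq_zero.1 (h i hi)).resolve_right (by positivity), zero_mul]
  refine h0 (no_zero (M := LinearMap.id) (n := n)
    (d := ∑ k ∈ Finset.range (n + 1), (S (X ^ k)).natDegree) (fun a b v _ hv => h1 a b v hv)
    (fun k hk => Finset.single_le_sum (f := fun k => (S (X ^ k)).natDegree)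
      (fun _ _ => Nat.zero_le _) (Finset.mem_range.2 (Nat.lt_succ_of_le hk)))
    (fun g _ g0 g1 => ⟨g0, g1⟩) (fun a b u v _ hu hv => ?_) him hg hz)
  have : (S (X ^ a * (X + C u) ^ b)).support = (S (X ^ a * (X + C v) ^ b)).support := by
    ext m
    simp only [mem_support_iff]
    exact ⟨fun h h' => h (hsup a b m v u hv hu h'), fun h h' => h (hsup a b m u v hu hv h')⟩
  simp only [LinearMap.id_apply, degree, this]

theorem of_limit {T : ℝ[X] →ₗ[ℝ] ℝ[X]} {S : ℕ → ℝ[X] →ₗ[ℝ] ℝ[X]} {M : ℕ → ℝ}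
    (hS : ∀ m k j, 0 ≤ (S m (X ^ k)).coeff j)
    (h1 : ∀ (m a b : ℕ) (v : ℝ), 0 < v → (S m (X ^ a * (X + C v) ^ b)).Splits)
    (h : ∀ (f : ℝ[X]) (z : ℂ),
      Tendsto (fun m => aeval (z - M m) (S m f)) atTop (𝓝 (aeval z (T f)))) : InClass T :=
  fun f hf hc => splits_of_tendsto
    (Eventually.of_forall fun m => inClass_of_nonneg (hS m) (h1 m) f hf hc) (h f)

/-- The range consists of real-rooted polynomials exactly in the case of rank at most two. -/
theorem rank_two {T : ℝ[X] →ₗ[ℝ] ℝ[X]} : (∀ f, (T f).Splits) ↔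
    ∃ (α β : ℝ[X] →ₗ[ℝ] ℝ) (P Q : ℝ[X]), (∀ c d : ℝ, (c • P + d • Q).Splits) ∧
      ∀ f, T f = α f • P + β f • Q := by
  refine ⟨fun h => ?_, fun ⟨α, β, P, Q, h1, h2⟩ f => h2 f ▸ h1 _ _⟩
  let ev : ℝ[X] →ₗ[ℝ] ℂ := (aeval Complex.I : ℝ[X] →ₐ[ℝ] ℂ).toLinearMap
  obtain ⟨r, hr⟩ := (ev ∘ₗ (LinearMap.range T).subtype).exists_leftInverse_of_injective (by
    rw [LinearMap.ker_eq_bot']
    rintro ⟨_, f, rfl⟩ hf
    refine Subtype.ext ((splits_iff_im.1 (h f)).resolve_right (fun h1 => ?_))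
    simpa using h1 _ hf)
  refine ⟨Complex.reLm ∘ₗ ev ∘ₗ T, Complex.imLm ∘ₗ ev ∘ₗ T, r 1, r Complex.I, fun c d => ?_,
    fun f => ?_⟩
  · obtain ⟨f, hf⟩ := (c • r 1 + d • r Complex.I).2
    exact (show T f = c • (r 1 : ℝ[X]) + d • (r Complex.I : ℝ[X]) from hf) ▸ h f
  · have h1 := congrArg Subtype.val (LinearMap.congr_fun hr ⟨T f, f, rfl⟩)
    have h2 : ev (T f) = (ev (T f)).re • (1 : ℂ) + (ev (T f)).im • Complex.I := by
      simp [Complex.re_add_im]
    change (r (ev (T f)) : ℝ[X]) = T f at h1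
    rw [h2, map_add, map_smul, map_smul] at h1
    exact h1.symm

end Pool.Agent.Lib.MP_7a4764_an.H81
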