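import Mathlib
import Pool.Agent.Lib.MP_7a4764_an.H81Lim
import Pool.Agent.Lib.MP_7a4764_an.H44Flow

set_option autoImplicit false

/-!
Approximation of a member of the class by nondegenerate members, and the Jensen multiplier.
-/

namespace Pool.Agent.Lib.MP_7a4764_an.H81

open Polynomial Filter Topology Pool.Agent.Lib.MP_7a4764_an.H57

theorem im_log_deriv_eq {g : ℝ[X]} (hg : g.Splits) {z : ℂ} (hz : z.im ≠ 0) : aeval z g ≠ 0 →
    ((starRingEnd ℂ) (aeval z g) * aeval z (derivative g)).im = 0 →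
      aeval z (derivative g) = 0 := by
  induction hg using Submonoid.closure_induction with
  | mem x hx =>
    rcases hx with ⟨a, rfl⟩ | ⟨a, rfl⟩
    · simp
    · simp [hz]
  | one => simp
  | mul f g f1 g1 hf hg =>
    have i1 := im_log_deriv f1 z
    have i2 := im_log_deriv g1 z
    rw [derivative_mul, map_add, map_mul (aeval z), map_mul (aeval z), map_mul (aeval z)]
    generalize aeval z f = a at *
    generalize aeval z g = b at *
    generalize aeval z (derivative f) = c at *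
    generalize aeval z (derivative g) = d at *
    intro h0 h1
    have ha := Complex.normSq_pos.2 (left_ne_zero_of_mul h0)
    have hb := Complex.normSq_pos.2 (right_ne_zero_of_mul h0)
    have e : ((starRingEnd ℂ) (a * b) * (c * b + a * d)).im =
        Complex.normSq b * ((starRingEnd ℂ) a * c).im +
          Complex.normSq a * ((starRingEnd ℂ) b * d).im := by
      simp only [map_mul, Complex.mul_im, Complex.mul_re, Complex.add_im, Complex.add_re,
        Complex.conj_re, Complex.conj_im, Complex.normSq_apply]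
      ring
    rw [e] at h1
    have h2 := congrArg (fun t => z.im * t) h1
    have h3 := mul_nonneg hb.le (neg_nonneg.2 i1)
    have h4 := mul_nonneg ha.le (neg_nonneg.2 i2)
    have h5 : Complex.normSq b * (z.im * ((starRingEnd ℂ) a * c).im) = 0 := by nlinarith
    have h6 : Complex.normSq a * (z.im * ((starRingEnd ℂ) b * d).im) = 0 := by nlinarith
    rw [hf (left_ne_zero_of_mul h0) (by simpa [hb.ne', hz] using h5),
      hg (right_ne_zero_of_mul h0) (by simpa [ha.ne', hz] using h6)]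
    simp

theorem splits_add_deriv {p : ℝ[X]} (hp : p.Splits) (x c : ℝ) :
    (x • p + c • derivative p).Splits := by
  by_cases hx : x = 0
  · rw [hx, zero_smul, zero_add, smul_eq_C_mul]
    exact (Splits.C _).mul (splits_derivative hp)
  by_cases h0 : p = 0
  · simp [h0]
  refine splits_iff_im.2 (Or.inr fun z hz => ?_)
  by_contra him
  have h1 : aeval z p ≠ 0 := fun h => him ((splits_iff_im.1 hp).resolve_left h0 z h)
  rw [map_add, map_smul, map_smul] at hz
  have h2 : c * ((starRingEnd ℂ) (aeval z p) * aeval z (derivative p)).im = 0 := by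
    have := congrArg (fun w => ((starRingEnd ℂ) (aeval z p) * w).im) hz
    simp only [Complex.real_smul, Complex.mul_im, Complex.mul_re, Complex.add_im, Complex.add_re,
      Complex.conj_re, Complex.conj_im, Complex.ofReal_re, Complex.ofReal_im, Complex.zero_re,
      Complex.zero_im] at this ⊢
    linarith
  rcases mul_eq_zero.1 h2 with h | h
  · simp [h, hx, h1] at hz
  · simp [im_log_deriv_eq hp him h1 h, hx, h1] at hz

theorem laguerre {p : ℝ[X]} (hp : p.Splits) (x : ℝ) :
    p.eval x * (derivative (derivative p)).eval x ≤ (derivative p).eval x ^ 2 ∧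
      (p.eval x ≠ 0 → p.eval x * (derivative (derivative p)).eval x = (derivative p).eval x ^ 2 →
        (derivative p).eval x = 0) := by
  induction hp using Submonoid.closure_induction with
  | mem y hy =>
    rcases hy with ⟨a, rfl⟩ | ⟨a, rfl⟩ <;> simp
  | one => simp
  | mul f g _ _ hf hg =>
    simp only [derivative_mul, derivative_add, eval_add, eval_mul]
    generalize f.eval x = a at *
    generalize g.eval x = b at *
    generalize (derivative f).eval x = c at *
    generalize (derivative g).eval x = d at *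
    generalize (derivative (derivative f)).eval x = c' at *
    generalize (derivative (derivative g)).eval x = d' at *
    have h1 := mul_nonneg (sq_nonneg b) (sub_nonneg.2 hf.1)
    have h2 := mul_nonneg (sq_nonneg a) (sub_nonneg.2 hg.1)
    refine ⟨by nlinarith, fun h0 h3 => ?_⟩
    have ha := left_ne_zero_of_mul h0
    have hb := right_ne_zero_of_mul h0
    have h5 : b ^ 2 * (c ^ 2 - a * c') = 0 := by nlinarith
    have h6 : a ^ 2 * (d ^ 2 - b * d') = 0 := by nlinarith
    rw [hf.2 ha (by linarith [(mul_eq_zero.1 h5).resolve_left (pow_ne_zero 2 hb)]),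
      hg.2 hb (by linarith [(mul_eq_zero.1 h6).resolve_left (pow_ne_zero 2 ha)])]
    simp

/-- The map `p ↦ p + ε p'`. -/
noncomputable def Sh (ε : ℝ) : ℝ[X] →ₗ[ℝ] ℝ[X] := LinearMap.id + ε • derivative

theorem Sh_apply (ε : ℝ) (p : ℝ[X]) : Sh ε p = p + ε • derivative p := rfl

theorem coeff_Sh (ε : ℝ) (p : ℝ[X]) (j : ℕ) :
    (Sh ε p).coeff j = p.coeff j + ε * (p.coeff (j + 1) * (j + 1)) := by
  rw [Sh_apply, coeff_add, coeff_smul, coeff_derivative, smul_eq_mul]

theorem dvd_of_dvd_Sh {p : ℝ[X]} (hp : p.Splits) {ε : ℝ} (hε : ε ≠ 0) {ρ : ℝ} {k : ℕ}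
    (h : (X - C ρ) ^ (k + 2) ∣ Sh ε p) : (X - C ρ) ^ (k + 3) ∣ p := by
  by_cases h0 : p = 0
  · simp [h0]
  obtain ⟨m, G, hG, hG'⟩ := exists_factor h0 ρ
  rcases m with _ | m
  · exfalso
    rw [pow_zero, one_mul] at hG
    subst hG
    obtain ⟨W, hW⟩ := h
    have e1 := congrArg (eval ρ) hW
    have e2 := congrArg (fun q => eval ρ (derivative q)) hW
    simp [Sh_apply, derivative_pow] at e1 e2
    have h3 := (laguerre hp ρ).2 hG' (by
      refine mul_left_cancel₀ hε ?_
      linear_combination p.eval ρ * e2 - (derivative p).eval ρ * e1)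
    rw [h3] at e1
    exact hG' (by simpa using e1)
  · have e : Sh ε p = (X - C ρ) ^ m * ((X - C ρ) * (G + C ε * derivative G) +
        C ε * C ((m + 1 : ℕ) : ℝ) * G) := by
      rw [Sh_apply, hG, derivative_mul, derivative_pow, smul_eq_C_mul]
      simp only [derivative_sub, derivative_X, derivative_C, Nat.add_sub_cancel]
      ring
    have e0 : ((X - C ρ) * (G + C ε * derivative G) + C ε * C ((m + 1 : ℕ) : ℝ) * G).eval ρ ≠ 0 := by
      have : ((m + 1 : ℕ) : ℝ) ≠ 0 := by positivity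
      simpa [hε, hG'] using this
    have h1 : k + 2 ≤ m := by
      rw [← rootMultiplicity_pow_mul e0 m, ← e, le_rootMultiplicity_iff]
      · exact h
      · rw [e]
        exact mul_ne_zero (pow_ne_zero _ (X_sub_C_ne_zero ρ)) (fun h2 => e0 (by rw [h2, eval_zero]))
    rw [hG]
    exact (pow_dvd_pow _ (by omega)).mul_right _

theorem Sh_pow_spec {p : ℝ[X]} (hp : p.Splits) (hc : ∀ j, 0 ≤ p.coeff j) {n : ℕ}
    (hn : p.natDegree ≤ n) (h0 : 0 < p.coeff n) {ε : ℝ} (hε : 0 < ε) (N : ℕ) :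
    ((Sh ε ^ N) p).Splits ∧ (∀ j, 0 ≤ ((Sh ε ^ N) p).coeff j) ∧ ((Sh ε ^ N) p).natDegree ≤ n ∧
      (∀ j ≤ n, n ≤ j + N → 0 < ((Sh ε ^ N) p).coeff j) ∧
      ∀ (ρ : ℝ) (k : ℕ), (X - C ρ) ^ (k + 2) ∣ (Sh ε ^ N) p → (X - C ρ) ^ (k + 2 + N) ∣ p := by
  induction N with
  | zero => exact ⟨hp, hc, hn, fun j h1 h2 => by rwa [show j = n by omega], fun _ _ h => h⟩
  | succ N ih =>
    obtain ⟨i1, i2, i3, i4, i5⟩ := ih
    rw [pow_succ', Module.End.mul_apply]
    refine ⟨by simpa [Sh_apply] using splits_add_deriv i1 1 ε, fun j => ?_, ?_, fun j h1 h2 => ?_,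
      fun ρ k h => ?_⟩
    · rw [coeff_Sh]
      exact add_nonneg (i2 _) (mul_nonneg hε.le (mul_nonneg (i2 _) (by positivity)))
    · exact (natDegree_add_le _ _).trans (max_le i3 ((natDegree_smul_le _ _).trans
        ((natDegree_derivative_le _).trans (by omega))))
    · rw [coeff_Sh]
      by_cases h3 : n ≤ j + N
      · exact add_pos_of_pos_of_nonneg (i4 j h1 h3)
          (mul_nonneg hε.le (mul_nonneg (i2 _) (by positivity)))
      · exact add_pos_of_nonneg_of_pos (i2 _)
          (mul_pos hε (mul_pos (i4 _ (by omega) (by omega)) (by positivity)))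
    · have := i5 ρ (k + 1) (dvd_of_dvd_Sh i1 hε.ne' h)
      rwa [show k + 1 + 2 + N = k + 2 + (N + 1) by omega] at this

/-- A member of the class that kills a polynomial with `n` simple negative roots sends all
polynomials of degree at most `n` to real-rooted polynomials. -/
theorem splits_of_interior {T : ℝ[X] →ₗ[ℝ] ℝ[X]} (hT : InClass T) {g : ℝ[X]} (hg : g.Splits)
    (h0 : g ≠ 0) (hneg : ∀ r, g.eval r = 0 → r < 0) (hs : ∀ r : ℝ, ¬ (X - C r) ^ 2 ∣ g)
    (hk : T g = 0) {h : ℝ[X]} (hh : h.natDegree ≤ g.natDegree) : (T h).Splits := by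
  classical
  obtain ⟨R, hR, hR'⟩ : ∃ R : ℝ, 0 < R ∧ ∀ r, g.eval r = 0 → -R < r := by
    obtain ⟨B, hB⟩ := g.roots.toFinset.bddBelow
    refine ⟨|B| + 1, by positivity, fun r hr => ?_⟩
    have := hB (Finset.mem_coe.2 (Multiset.mem_toFinset.2 ((mem_roots h0).2 hr)))
    linarith [neg_abs_le B]
  have hd : ∀ c : ℝ, c ≠ 0 → (C c * X : ℝ[X]).natDegree = 1 := fun c hc => by compute_degree!
  have hback : ∀ q : ℝ[X], (q.comp (C R * X)).comp (C R⁻¹ * X) = q := fun q => by
    rw [comp_assoc, mul_comp, C_comp, X_comp, ← mul_assoc, ← C_mul, mul_inv_cancel₀ hR.ne', C_1,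
      one_mul, comp_X]
  have hE0 : g.comp (C R * X) ≠ 0 := fun h => h0 (by rw [← hback g, h, zero_comp])
  have hp := perturb (H := h.comp (C R * X)) hE0 (hg.comp_of_natDegree_le_one (hd R hR.ne').le)
    (by rw [natDegree_comp, natDegree_comp, hd R hR.ne', mul_one, mul_one]; exact hh)
    (fun ρ hρ => by
      obtain ⟨G, hG⟩ := dvd_iff_isRoot.2 hρ
      have h1 : g.eval (R * ρ) = 0 := by simpa [eval_comp] using hρ
      have h2 : -1 < ρ := by nlinarith [hR' _ h1]
      have h3 : ρ < 0 := by nlinarith [hneg _ h1]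
      refine ⟨G, fun h4 => hs (R * ρ) ?_, Or.inl ⟨by rwa [pow_one], h2.le, h3.le,
        fun h => absurd h h3.ne, fun h => absurd h h2.ne'⟩⟩
      obtain ⟨G', hG'⟩ := dvd_iff_isRoot.2 h4
      refine ⟨C R⁻¹ ^ 2 * G'.comp (C R⁻¹ * X), ?_⟩
      have e : (C R⁻¹ * X - C ρ : ℝ[X]) = C R⁻¹ * (X - C (R * ρ)) := by
        rw [mul_sub, ← C_mul, inv_mul_cancel_left₀ hR.ne']
      rw [← hback g, hG, hG', mul_comp, mul_comp, sub_comp, X_comp, C_comp, e]
      ring)
  obtain ⟨ε, ⟨h1, -⟩, hε⟩ := (hp.and self_mem_nhdsWithin).exists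
  have e : g.comp (C R * X) + C ε * h.comp (C R * X) = (g + C ε * h).comp (C R * X) := by
    rw [add_comp, mul_comp, C_comp]
  rw [e] at h1
  have h2 : (g + C ε * h).Splits :=
    hback (g + C ε * h) ▸ h1.splits.comp_of_natDegree_le_one (hd _ (inv_ne_zero hR.ne')).le
  obtain ⟨q, hq, hq'⟩ := exists_D_of_splits h2 (fun r hr => by
    have h3 := (h1.root (ρ := r / R) (by
      rw [eval_comp, eval_mul, eval_C, eval_X, mul_div_cancel₀ _ hR.ne']
      exact (mem_roots'.1 hr).2)).2.1
    exact ((div_neg_iff.1 h3).resolve_left (fun h => hR.not_gt h.2)).1.le) le_rfl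
  have h4 := congrArg T hq'
  rw [map_add, hk, zero_add, C_mul', C_mul', map_smul, map_smul] at h4
  have h5 : T h = (ε⁻¹ * eval 1 (g + ε • h)) • T q := by
    rw [mul_smul, ← h4, smul_smul, inv_mul_cancel₀ (ne_of_gt hε), one_smul]
  rw [h5, smul_eq_C_mul]
  exact (Splits.C _).mul (hT.of_D hq)

/-- Reversal as a linear map. -/
noncomputable def Rf (n : ℕ) : ℝ[X] →ₗ[ℝ] ℝ[X] where
  toFun g := reflect n g
  map_add' a b := reflect_add a b n
  map_smul' c a := by rw [smul_eq_C_mul, reflect_C_mul, ← smul_eq_C_mul]; rfl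

theorem coeff_Rf (n : ℕ) (g : ℝ[X]) (j : ℕ) : (Rf n g).coeff j = g.coeff (revAt n j) :=
  coeff_reflect n g j

theorem natDegree_Rf {n : ℕ} {g : ℝ[X]} (hg : g.natDegree ≤ n) : (Rf n g).natDegree ≤ n :=
  natDegree_reflect_le.trans (max_le le_rfl hg)

theorem splits_Rf {n : ℕ} {g : ℝ[X]} (hg : g.Splits) (hn : g.natDegree ≤ n) : (Rf n g).Splits := by
  by_cases h0 : g = 0
  · simp [h0]
  refine splits_iff_im.2 (Or.inr fun z hz => ?_)
  by_contra him
  have hz0 : z⁻¹ ≠ 0 := inv_ne_zero (fun h => him (by simp [h]))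
  let _ := invertibleOfNonzero hz0
  have h1 := (eval₂_reflect_eq_zero_iff (algebraMap ℝ ℂ) z⁻¹ n g hn).1 (by
    rw [invOf_eq_inv, inv_inv]; exact hz)
  have h2 := (splits_iff_im.1 hg).resolve_left h0 z⁻¹ h1
  rw [Complex.inv_im, div_eq_zero_iff, neg_eq_zero, Complex.normSq_eq_zero] at h2
  exact h2.elim him (fun h => him (by simp [h]))

/-- The smoothing map of level `n`. -/
noncomputable def V (n : ℕ) (ε : ℝ) : ℝ[X] →ₗ[ℝ] ℝ[X] :=
  (Sh ε ^ n) ∘ₗ Rf n ∘ₗ taylor ε ∘ₗ Rf n

theorem V_zero (n : ℕ) (g : ℝ[X]) : V n 0 g = g := by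
  have : Sh 0 = 1 := by ext1; simp [Sh]; rfl
  simp only [V, this, one_pow, LinearMap.comp_apply, taylor_zero,
    Module.End.one_apply]
  exact reflect_reflect

theorem natDegree_V {n : ℕ} (ε : ℝ) {g : ℝ[X]} (hg : g.natDegree ≤ n) :
    (V n ε g).natDegree ≤ n := by
  have h : ∀ N : ℕ, ∀ p : ℝ[X], p.natDegree ≤ n → ((Sh ε ^ N) p).natDegree ≤ n := by
    intro N p hp
    induction N with
    | zero => exact hp
    | succ N ih =>
      rw [pow_succ', Module.End.mul_apply]
      exact (natDegree_add_le _ _).trans (max_le ih ((natDegree_smul_le _ _).trans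
        ((natDegree_derivative_le _).trans (by omega))))
  exact h _ _ (natDegree_Rf ((natDegree_taylor _ _).le.trans (natDegree_Rf hg)))

theorem continuous_V {M : Type} [NormedAddCommGroup M] [NormedSpace ℝ M] (φ : ℝ[X] →ₗ[ℝ] M)
    {n : ℕ} {g : ℝ[X]} (hg : g.natDegree ≤ n) : Continuous fun ε => φ (V n ε g) := by
  have h : ∀ (N : ℕ) (p : ℝ[X]), Continuous fun ε => φ ((Sh ε ^ N) p) := by
    intro N
    induction N with
    | zero => exact fun p => by simpa using continuous_const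
    | succ N ih =>
      intro p
      simp only [pow_succ, Module.End.mul_apply, Sh_apply, map_add, map_smul]
      exact (ih _).add (continuous_id.smul (ih _))
  have e : ∀ ε, φ (V n ε g) = ∑ k ∈ Finset.range (n + 1),
      (Rf n (taylor ε (Rf n g))).coeff k • φ ((Sh ε ^ n) (X ^ k)) := fun ε =>
    lin_eq_sum (φ ∘ₗ (Sh ε ^ n))
      (natDegree_Rf ((natDegree_taylor _ _).le.trans (natDegree_Rf hg)))
  simp only [e]
  exact continuous_finsetSum _ (fun k _ =>
    (H44.continuous_taylor (lcoeff ℝ k ∘ₗ Rf n) (Rf n g)).smul (h _ _))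

/-- Steps 1 and 2: the smoothed map is nondegenerate on level `n`. -/
theorem nondeg {T : ℝ[X] →ₗ[ℝ] ℝ[X]} (hT : InClass T) {f₀ : ℝ[X]} (h₀ : ¬ (T f₀).Splits) {n : ℕ}
    (hn : f₀.natDegree ≤ n) {ε : ℝ} (hε : 0 < ε) {g : ℝ[X]} (hg : g.Splits)
    (hc : ∀ k, 0 ≤ g.coeff k) (h0 : g ≠ 0) (hd : g.natDegree ≤ n) :
    (T (V n ε g)).Splits ∧ T (V n ε g) ≠ 0 := by
  have r0 : Rf n g ≠ 0 := fun h => h0 (reflect_eq_zero_iff.1 h)
  have r1 : ∀ k, 0 ≤ (Rf n g).coeff k := fun k => by rw [coeff_Rf]; exact hc _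
  have r2 : (taylor ε (Rf n g)).natDegree ≤ n := (natDegree_taylor _ _).le.trans (natDegree_Rf hd)
  have r3 : 0 < (Rf n (taylor ε (Rf n g))).coeff n := by
    rw [coeff_Rf, revAt_le le_rfl, Nat.sub_self]
    exact H44.taylor_coeff_pos r1 r0 (Nat.zero_le _) hε
  obtain ⟨i1, i2, i3, i4, i5⟩ := Sh_pow_spec (splits_Rf ((splits_Rf hg hd).taylor ε) r2)
    (fun j => by
      rw [coeff_Rf]
      rcases le_or_gt (revAt n j) (Rf n g).natDegree with h | h
      · exact (H44.taylor_coeff_pos r1 r0 h hε).le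
      · rw [coeff_eq_zero_of_natDegree_lt (by rwa [natDegree_taylor])])
    (natDegree_Rf r2) r3 hε n
  change (V n ε g).Splits at i1
  change ∀ j, 0 ≤ (V n ε g).coeff j at i2
  change ∀ j ≤ n, n ≤ j + n → 0 < (V n ε g).coeff j at i4
  have v0 : V n ε g ≠ 0 := fun h => by simpa [h] using i4 n le_rfl (by omega)
  refine ⟨hT _ i1 i2, fun hk => h₀ (splits_of_interior hT i1 v0 (fun r hr => ?_) (fun r h => ?_) hk
    (hn.trans (le_natDegree_of_ne_zero (i4 n le_rfl (by omega)).ne')))⟩
  · rcases lt_trichotomy r 0 with h | rfl | h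
    · exact h
    · exact absurd ((coeff_zero_eq_eval_zero _).trans hr) (i4 0 (Nat.zero_le _) (by omega)).ne'
    · exact absurd hr (eval_pos_of_coeff_nonneg i2 v0 h).ne'
  · have h1 := natDegree_le_of_dvd (i5 r 0 h) (fun h2 => by simp [h2] at r3)
    have h2 := natDegree_Rf r2
    rw [natDegree_pow, natDegree_X_sub_C] at h1
    omega

/-- The Jensen multiplier of level `n`. -/
noncomputable def J (n : ℕ) : ℝ[X] →ₗ[ℝ] ℝ[X] :=
  Rf n ∘ₗ LinearMap.applyₗ (X ^ n : ℝ[X]) ∘ₗ
    (aeval ((n : ℝ)⁻¹ • (derivative : ℝ[X] →ₗ[ℝ] ℝ[X])) :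
      ℝ[X] →ₐ[ℝ] Module.End ℝ ℝ[X]).toLinearMap

theorem J_apply (n : ℕ) (f : ℝ[X]) : J n f =
    Rf n (aeval ((n : ℝ)⁻¹ • (derivative : ℝ[X] →ₗ[ℝ] ℝ[X]) : Module.End ℝ ℝ[X]) f (X ^ n)) := rfl

theorem J_X_pow (n k : ℕ) : J n (X ^ k) = ((n.descFactorial k : ℝ) / n ^ k) • X ^ k := by
  rw [J_apply, map_pow (aeval _), aeval_X, _root_.smul_pow, LinearMap.smul_apply, Module.End.pow_apply,
    iterate_derivative_X_pow_eq_smul, smul_smul, map_smul, inv_pow, inv_mul_eq_div]
  rcases le_or_gt k n with h | h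
  · congr 1
    change reflect n (X ^ (n - k)) = _
    rw [reflect_monomial, revAt_le (by omega), Nat.sub_sub_self h]
  · simp [Nat.descFactorial_of_lt h]

theorem J_spec (n : ℕ) {f : ℝ[X]} (hf : f.Splits) : (J n f).Splits ∧ (J n f).natDegree ≤ n := by
  have h : ∀ p : ℝ[X], p.Splits → p.natDegree ≤ n →
      (aeval ((n : ℝ)⁻¹ • (derivative : ℝ[X] →ₗ[ℝ] ℝ[X]) : Module.End ℝ ℝ[X]) f p).Splits ∧
      (aeval ((n : ℝ)⁻¹ • (derivative : ℝ[X] →ₗ[ℝ] ℝ[X]) : Module.End ℝ ℝ[X]) f p).natDegree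
        ≤ n := by
    induction hf using Submonoid.closure_induction with
    | mem y hy =>
      intro p hp hn
      rcases hy with ⟨a, rfl⟩ | ⟨a, rfl⟩
      · rw [aeval_C, Module.algebraMap_end_apply]
        exact ⟨by rw [smul_eq_C_mul]; exact (Splits.C _).mul hp, (natDegree_smul_le _ _).trans hn⟩
      · rw [map_add, aeval_X, aeval_C, LinearMap.add_apply, Module.algebraMap_end_apply,
          LinearMap.smul_apply, add_comm]
        exact ⟨splits_add_deriv hp _ _, (natDegree_add_le _ _).trans (max_le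
          ((natDegree_smul_le _ _).trans hn) ((natDegree_smul_le _ _).trans
            ((natDegree_derivative_le _).trans (by omega))))⟩
    | one => intro p hp hn; simpa using ⟨hp, hn⟩
    | mul f g _ _ hf hg =>
      intro p hp hn
      rw [map_mul, Module.End.mul_apply]
      exact hf _ (hg p hp hn).1 (hg p hp hn).2
  obtain ⟨h1, h2⟩ := h (X ^ n) (Splits.X_pow n) (natDegree_X_pow n).le
  exact ⟨splits_Rf h1 h2, natDegree_Rf h2⟩

theorem coeff_J (n : ℕ) (f : ℝ[X]) (j : ℕ) :
    (J n f).coeff j = (n.descFactorial j : ℝ) / n ^ j * f.coeff j := by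
  rw [lin_eq_sum (J n) (g := f) (n := max j f.natDegree) (le_max_right _ _), finsetSum_coeff,
    Finset.sum_eq_single j]
  · simp [J_X_pow, mul_comm]
  · intro k _ hk
    simp [J_X_pow, coeff_X_pow, hk.symm]
  · intro h
    exact absurd (Finset.mem_range.2 (Nat.lt_succ_of_le (le_max_left _ _))) h

theorem tendsto_J (k : ℕ) :
    Tendsto (fun n : ℕ => (n.descFactorial k : ℝ) / n ^ k) atTop (𝓝 1) := by
  induction k with
  | zero => simp
  | succ k ih =>
    have h := ih.mul ((tendsto_const_div_atTop_nhds_zero_nat (k : ℝ)).const_sub 1)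
    rw [sub_zero, mul_one] at h
    refine h.congr' ?_
    filter_upwards [eventually_gt_atTop k] with n hn
    have : (n : ℝ) ≠ 0 := by exact_mod_cast (by omega : n ≠ 0)
    rw [Nat.descFactorial_succ, Nat.cast_mul, Nat.cast_sub hn.le]
    field_simp
    ring

end Pool.Agent.Lib.MP_7a4764_an.H81
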